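import Pool.Agent.Lib_helper27.ABO.Fm
import Pool.Agent.Lib_helper74.IS.All

set_option autoImplicit false

namespace Pool.Agent.ABO

open Pool.Agent.CK
open Pool.Agent.TD (Str su sj st Act se sm sM sn sD ZSet Z Q unitv Lam KK dd)
open Pool.Agent.TD.IS (PosI Stg uq patchI simI evM icode idec strip ISet posK zs updI PLW PTW
  invTreeW thrX invTab excI LocalWith PolyLocal Cls EL)

/-- the part of an address between the third bit and the entry -/
def hd_pat (b e A : ℕ) : List Bool := ones b ++ false :: (ones e ++ false :: (ones A ++ [false]))

theorem hd_pat_len (b e A : ℕ) : (hd_pat b e A).length = b + e + A + 3 := by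
  simp only [hd_pat, ones, List.length_append, List.length_cons, List.length_replicate,
    List.length_nil]
  omega

theorem hd_addr (e : ℕ) (z : Str) (b : ℕ) (c : Bool) :
    true :: taddr e z b c = [true, true, c] ++ (hd_pat b e (alen e z) ++ z) := by
  simp [taddr, hd_pat]

theorem hd_range (w : Str) (s m : ℕ) (h : s + m ≤ w.length) :
    (List.range' s m).map (fun i => w.getD i false) = (w.drop s).take m := by
  apply List.ext_getElem
  · simp only [List.length_map, List.length_range', List.length_take, List.length_drop]
    omega
  · intro i h1 h2
    simp only [List.length_map, List.length_range'] at h1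
    rw [List.getElem_map, List.getElem_range', List.getElem_take, List.getElem_drop,
      List.getD_eq_getElem _ _ (by omega)]
    simp

/-- HD: the string is the address of an entry with index `e` and length `h` -/
theorem exists_hdr (e h L : ℕ) : ∃ φ : Fml, φ.size ≤ 6 * L + 10 ∧ φ.Below L ∧
    ∀ w : Str, w.length = L → (φ.eval w = true ↔
      ∃ (z : Str) (b : ℕ) (c : Bool), z.length = h ∧ w = true :: taddr e z b c) := by
  set A := (h + 2) ^ (e ^ 2) with hA
  have hlen : ∀ (z : Str) (b : ℕ) (c : Bool), z.length = h →
      (true :: taddr e z b c).length = b + e + A + h + 6 := by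
    intro z b c hz
    rw [hd_addr, List.length_append, List.length_append, hd_pat_len]
    have : alen e z = A := by rw [alen, hz]
    rw [this, hz]
    simp only [List.length_cons, List.length_nil]
    omega
  by_cases hL : e + A + h + 6 ≤ L
  · obtain ⟨b, hb⟩ := Nat.exists_eq_add_of_le hL
    set m := b + e + A + 3 with hm
    have hLm : L = 3 + m + h := by omega
    refine ⟨Fml.eqC (0 :: 1 :: List.range' 3 m) (true :: true :: hd_pat b e A), ?_, ?_, ?_⟩
    · refine (Fml.size_eqC _ _).trans ?_
      simp only [List.length_cons, List.length_range']
      omega
    · apply Fml.below_eqC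
      intro i hi
      simp only [List.mem_cons, List.mem_range'_1] at hi
      omega
    · intro w hw
      rw [Fml.eval_eqC _ _ _ (by simp [hd_pat_len, hm])]
      rw [List.map_cons, List.map_cons, hd_range w 3 m (by omega)]
      constructor
      · intro heq
        simp only [List.cons.injEq] at heq
        obtain ⟨h0, h1, h2⟩ := heq
        refine ⟨w.drop (3 + m), b, w.getD 2 false, by rw [List.length_drop]; omega, ?_⟩
        rw [hd_addr]
        have hal : alen e (w.drop (3 + m)) = A := by
          rw [alen, List.length_drop]
          have : w.length - (3 + m) = h := by omega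
          rw [this]
        rw [hal, ← h2]
        have e1 : (w.drop 3).take m ++ w.drop (3 + m) = w.drop 3 := by
          rw [← List.drop_drop, List.take_append_drop]
        rw [e1]
        match w, hw with
        | a0 :: a1 :: a2 :: u, _ =>
          simp only [List.getD_cons_zero, List.getD_cons_succ] at h0 h1
          simp [h0, h1]
        | [], hw => simp at hw; omega
        | [_], hw => simp at hw; omega
        | [_, _], hw => simp at hw; omega
      · rintro ⟨z, b', c, hz, rfl⟩
        have h3 := hlen z b' c hz
        have hbb : b' = b := by omega
        subst hbb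
        have hal : alen e z = A := by rw [alen, hz]
        rw [hd_addr, hal]
        simp only [List.cons_append, List.nil_append, List.getD_cons_zero, List.getD_cons_succ,
          List.drop_succ_cons, List.drop_zero, List.cons.injEq, true_and]
        rw [List.take_append_of_le_length (by rw [hd_pat_len]), List.take_of_length_le
          (by rw [hd_pat_len])]
  · refine ⟨Fml.con false, (Fml.size_con false).trans (by omega), Fml.below_con _ _, ?_⟩
    intro w hw
    rw [Fml.eval_con]
    constructor
    · intro h1; exact absurd h1 (by decide)
    · rintro ⟨z, b, c, hz, rfl⟩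
      rw [hlen z b c hz] at hw
      omega

/-- HD: the parts of an address -/
theorem taddr_parts (e : ℕ) (z : Str) (b : ℕ) (c : Bool) :
    (true :: taddr e z b c).length = b + e + (z.length + 2) ^ (e ^ 2) + z.length + 6 ∧
    (true :: taddr e z b c).getD 2 false = c ∧
    ∀ i < z.length, (true :: taddr e z b c).getD
      (b + e + (z.length + 2) ^ (e ^ 2) + 6 + i) false = z.getD i false := by
  refine ⟨?_, ?_, ?_⟩
  · rw [hd_addr, List.length_append, List.length_append, hd_pat_len]
    simp only [List.length_cons, List.length_nil, alen]
    omega
  · rw [hd_addr]
    rfl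
  · intro i _
    have e1 : [true, true, c] ++ (hd_pat b e (alen e z) ++ z) =
        ([true, true, c] ++ hd_pat b e (alen e z)) ++ z := by rw [List.append_assoc]
    have e2 : ([true, true, c] ++ hd_pat b e (alen e z)).length =
        b + e + (z.length + 2) ^ (e ^ 2) + 6 := by
      rw [List.length_append, hd_pat_len]
      simp only [List.length_cons, List.length_nil, alen]
      omega
    rw [hd_addr, e1, ← e2, List.getD_append_right _ _ _ _ (by omega)]
    congr 1
    omega


end Pool.Agent.ABO
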