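import Pool.Agent.Lib_helper27.ABO.Fm
import Pool.Agent.Lib_helper74.IS.All

/-!
# Collapse above every oracle (MP_675993_lc), block CB: the number of circuits
-/

set_option autoImplicit false

namespace Pool.Agent.ABO

open Pool.Agent.CK
open Pool.Agent.TD (Str su sj st Act se sm sM sn sD ZSet Z Q unitv Lam KK dd)
open Pool.Agent.TD.IS (PosI Stg uq patchI simI evM icode idec strip ISet posK zs updI PLW PTW
  invTreeW thrX invTab excI LocalWith PolyLocal Cls EL)

/-- a formula as a word -/
def cb_fml : Fml → List ℕ
  | .tru => [0]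
  | .var i => [i + 6]
  | .nand a b => 1 :: (cb_fml a ++ cb_fml b)

/-- a list of numbers as a word -/
def cb_num (l : List ℕ) : List ℕ := l.map (· + 6)

/-- a gate as a word -/
def cb_gate : Gate → List ℕ
  | .fml φ => 2 :: cb_fml φ
  | .ask l => 3 :: cb_num l
  | .chal l => 4 :: cb_num l

/-- gates as a word, with a continuation -/
def cb_gates : List Gate → List ℕ → List ℕ
  | [], r => 5 :: r
  | g :: gs, r => cb_gate g ++ cb_gates gs r

/-- a circuit as a word -/
def cb_enc (C : Circuit) : List ℕ := cb_gates C.gates (cb_num C.out)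

theorem cb_fml_inj : ∀ (φ ψ : Fml) (r r' : List ℕ), cb_fml φ ++ r = cb_fml ψ ++ r' →
    φ = ψ ∧ r = r'
  | .tru, .tru, r, r', h => by simpa [cb_fml] using h
  | .tru, .var i, r, r', h => by
    simp only [cb_fml, List.cons_append, List.nil_append, List.cons.injEq] at h
    omega
  | .tru, .nand a b, r, r', h => by
    simp only [cb_fml, List.cons_append, List.nil_append, List.cons.injEq] at h
    omega
  | .var i, .tru, r, r', h => by
    simp only [cb_fml, List.cons_append, List.nil_append, List.cons.injEq] at h
    omega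
  | .var i, .var j, r, r', h => by
    simp only [cb_fml, List.cons_append, List.nil_append, List.cons.injEq] at h
    exact ⟨by rw [show i = j by omega], h.2⟩
  | .var i, .nand a b, r, r', h => by
    simp only [cb_fml, List.cons_append, List.nil_append, List.cons.injEq] at h
    omega
  | .nand a b, .tru, r, r', h => by
    simp only [cb_fml, List.cons_append, List.nil_append, List.cons.injEq] at h
    omega
  | .nand a b, .var i, r, r', h => by
    simp only [cb_fml, List.cons_append, List.nil_append, List.cons.injEq] at h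
    omega
  | .nand a b, .nand a' b', r, r', h => by
    simp only [cb_fml, List.cons_append, List.append_assoc, List.cons.injEq, true_and] at h
    obtain ⟨h1, h2⟩ := cb_fml_inj a a' _ _ h
    obtain ⟨h3, h4⟩ := cb_fml_inj b b' _ _ h2
    exact ⟨by rw [h1, h3], h4⟩

theorem cb_num_inj : ∀ (l l' r r' : List ℕ), (∀ x ∈ r.head?, x < 6) → (∀ x ∈ r'.head?, x < 6) →
    cb_num l ++ r = cb_num l' ++ r' → l = l' ∧ r = r'
  | [], [], r, r', _, _, h => ⟨rfl, by simpa [cb_num] using h⟩
  | [], y :: l', r, r', h1, _, h => by
    have h3 : r = (y + 6) :: (cb_num l' ++ r') := by simpa [cb_num] using h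
    have := h1 (y + 6) (by rw [h3]; rfl)
    omega
  | x :: l, [], r, r', _, h2, h => by
    have h3 : r' = (x + 6) :: (cb_num l ++ r) := by simpa [cb_num] using h.symm
    have := h2 (x + 6) (by rw [h3]; rfl)
    omega
  | x :: l, y :: l', r, r', h1, h2, h => by
    simp only [cb_num, List.map_cons, List.cons_append, List.cons.injEq] at h
    obtain ⟨h3, h4⟩ := cb_num_inj l l' r r' h1 h2 h.2
    exact ⟨by rw [h3, show x = y by omega], h4⟩

theorem cb_gates_head (gs : List Gate) (r : List ℕ) : ∀ x ∈ (cb_gates gs r).head?, x < 6 := by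
  intro x hx
  cases gs with
  | nil =>
    simp only [cb_gates, List.head?_cons, Option.mem_def, Option.some.injEq] at hx
    omega
  | cons g gs =>
    cases g <;>
    · simp only [cb_gates, cb_gate, List.cons_append, List.head?_cons, Option.mem_def,
        Option.some.injEq] at hx
      omega

theorem cb_gates_inj : ∀ (gs gs' : List Gate) (r r' : List ℕ),
    cb_gates gs r = cb_gates gs' r' → gs = gs' ∧ r = r'
  | [], [], r, r', h => by simpa [cb_gates] using h
  | [], g :: gs, r, r', h => by
    cases g <;>
    · simp only [cb_gates, cb_gate, List.cons_append, List.cons.injEq] at h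
      omega
  | g :: gs, [], r, r', h => by
    cases g <;>
    · simp only [cb_gates, cb_gate, List.cons_append, List.cons.injEq] at h
      omega
  | g :: gs, g' :: gs', r, r', h => by
    have key : g = g' ∧ cb_gates gs r = cb_gates gs' r' := by
      simp only [cb_gates] at h
      cases g <;> cases g' <;>
        simp only [cb_gate, List.cons_append, List.cons.injEq, true_and] at h <;>
        try omega
      · obtain ⟨h1, h2⟩ := cb_fml_inj _ _ _ _ h
        exact ⟨by rw [h1], h2⟩
      · obtain ⟨h1, h2⟩ := cb_num_inj _ _ _ _ (cb_gates_head _ _) (cb_gates_head _ _) h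
        exact ⟨by rw [h1], h2⟩
      · obtain ⟨h1, h2⟩ := cb_num_inj _ _ _ _ (cb_gates_head _ _) (cb_gates_head _ _) h
        exact ⟨by rw [h1], h2⟩
    obtain ⟨h1, h2⟩ := cb_gates_inj gs gs' r r' key.2
    exact ⟨by rw [key.1, h1], h2⟩

theorem cb_num_self_inj {l l' : List ℕ} (h : cb_num l = cb_num l') : l = l' :=
  (cb_num_inj l l' [] [] (by simp) (by simp) (by simpa using h)).1

theorem cb_enc_inj : Function.Injective cb_enc := by
  rintro ⟨gs, o⟩ ⟨gs', o'⟩ h
  obtain ⟨h1, h2⟩ := cb_gates_inj _ _ _ _ h
  have h3 : o = o' := cb_num_self_inj h2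
  have h1' : gs = gs' := h1
  rw [h1', h3]

theorem cb_fml_length (φ : Fml) : (cb_fml φ).length = φ.size := by
  induction φ with
  | tru => rfl
  | var i => rfl
  | nand a b iha ihb =>
    simp only [cb_fml, Fml.size, List.length_cons, List.length_append, iha, ihb]

theorem cb_gate_length (g : Gate) : (cb_gate g).length = g.size := by
  cases g with
  | fml φ => simp only [cb_gate, Gate.size, List.length_cons, cb_fml_length]
  | ask l => simp [cb_gate, Gate.size, cb_num]
  | chal l => simp [cb_gate, Gate.size, cb_num]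

theorem cb_gates_length (gs : List Gate) (r : List ℕ) :
    (cb_gates gs r).length = (gs.map Gate.size).sum + r.length + 1 := by
  induction gs with
  | nil => simp [cb_gates]
  | cons g gs ih =>
    simp only [cb_gates, List.length_append, ih, cb_gate_length, List.map_cons, List.sum_cons]
    omega

theorem cb_fml_bd {s : ℕ} : ∀ {φ : Fml}, φ.Below s → ∀ x ∈ cb_fml φ, x < s + 6
  | .tru, _, x, hx => by
    simp only [cb_fml, List.mem_singleton] at hx
    omega
  | .var i, h, x, hx => by
    simp only [cb_fml, List.mem_singleton] at hx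
    have h2 : i < s := h
    omega
  | .nand a b, h, x, hx => by
    simp only [cb_fml, List.mem_cons, List.mem_append] at hx
    rcases hx with hx | hx | hx
    · omega
    · exact cb_fml_bd h.1 x hx
    · exact cb_fml_bd h.2 x hx

theorem cb_num_bd {s : ℕ} {l : List ℕ} (h : ∀ i ∈ l, i < s) : ∀ x ∈ cb_num l, x < s + 6 := by
  intro x hx
  obtain ⟨i, hi, rfl⟩ := List.mem_map.mp hx
  have := h i hi
  omega

theorem cb_gate_bd {s : ℕ} {g : Gate} (h : g.Below s) : ∀ x ∈ cb_gate g, x < s + 6 := by
  intro x hx
  cases g with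
  | fml φ =>
    simp only [cb_gate, List.mem_cons] at hx
    rcases hx with hx | hx
    · omega
    · exact cb_fml_bd (φ := φ) h x hx
  | ask l =>
    simp only [cb_gate, List.mem_cons] at hx
    rcases hx with hx | hx
    · omega
    · exact cb_num_bd (l := l) h x hx
  | chal l =>
    simp only [cb_gate, List.mem_cons] at hx
    rcases hx with hx | hx
    · omega
    · exact cb_num_bd (l := l) h x hx

theorem cb_gates_bd {s : ℕ} {r : List ℕ} (hr : ∀ x ∈ r, x < s + 6) :
    ∀ {gs : List Gate}, (∀ g ∈ gs, g.Below s) → ∀ x ∈ cb_gates gs r, x < s + 6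
  | [], _, x, hx => by
    simp only [cb_gates, List.mem_cons] at hx
    rcases hx with hx | hx
    · omega
    · exact hr x hx
  | g :: gs, h, x, hx => by
    simp only [cb_gates, List.mem_append] at hx
    rcases hx with hx | hx
    · exact cb_gate_bd (h g (by simp)) x hx
    · exact cb_gates_bd hr (fun g' hg' => h g' (by simp [hg'])) x hx

/-- CB: circuits as words -/
theorem card_circ (G : Game) (u d : ℕ) (hu : 1 ≤ u) :
    CardBd (CircF G (2 ^ u) d) ((u + 4) * (2 ^ u + 4)) := by
  have hne : Nonempty Circuit := ⟨⟨[], []⟩⟩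
  have hM : NeZero (2 ^ (u + 3)) := ⟨by positivity⟩
  have h2u : 2 ≤ 2 ^ u := by
    calc 2 = 2 ^ 1 := rfl
      _ ≤ 2 ^ u := Nat.pow_le_pow_right (by norm_num) hu
  have h8 : 2 ^ (u + 3) = 8 * 2 ^ u := by ring
  refine card_mono (card_image (fun l : List (Fin (2 ^ (u + 3))) =>
    fun ω : X G.s => cTree G (Function.invFun cb_enc (l.map Fin.val)) ω.1)
    (card_lists (n := u + 3) (by rw [Fintype.card_fin]) (2 ^ u + 1))) ?_ ?_
  · rintro A ⟨C, hC, rfl⟩
    refine ⟨(cb_enc C).map (Fin.ofNat (2 ^ (u + 3))), ?_, ?_⟩
    · show ((cb_enc C).map (Fin.ofNat (2 ^ (u + 3)))).length ≤ 2 ^ u + 1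
      rw [List.length_map, cb_enc, cb_gates_length]
      have h1 := hC.size
      unfold Circuit.size at h1
      have h2 : (cb_num C.out).length = C.out.length := by simp [cb_num]
      omega
    · have h1 : ((cb_enc C).map (Fin.ofNat (2 ^ (u + 3)))).map Fin.val = cb_enc C := by
        rw [List.map_map]
        conv_rhs => rw [← List.map_id (cb_enc C)]
        apply List.map_congr_left
        intro x hx
        have h3 : x < 2 ^ u + 6 := cb_gates_bd (cb_num_bd hC.outb) hC.below x hx
        show x % 2 ^ (u + 3) = x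
        exact Nat.mod_eq_of_lt (by omega)
      show (fun ω : X G.s => cTree G (Function.invFun cb_enc
        (((cb_enc C).map (Fin.ofNat (2 ^ (u + 3)))).map Fin.val)) ω.1) = _
      rw [h1, Function.leftInverse_invFun cb_enc_inj C]
  · exact Nat.mul_le_mul_left _ (by omega)

end Pool.Agent.ABO
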