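import Pool.Agent.Lib_helper27.ABO.Fm
import Pool.Agent.Lib_helper74.IS.All
import Pool.Agent.Lib_helper64.TDF.NU2
import Pool.Agent.Lib_helper64.TDF.NU3

set_option autoImplicit false

namespace Pool.Agent.ABO

open Pool.Agent.CK
open Pool.Agent.TD (Str su sj st Act se sm sM sn sD ZSet Z Q unitv Lam KK dd)
open Pool.Agent.TD.IS (PosI Stg uq patchI simI evM icode idec strip ISet posK zs updI PLW PTW
  invTreeW thrX invTab excI LocalWith PolyLocal Cls EL)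

theorem lv1_ne (T : ℕ) : {n | 16 ≤ n ∧ T ≤ dd n}.Nonempty := by
  refine ⟨2 ^ (4 * (T + 18)), ?_, ?_⟩
  · calc 16 = 2 ^ 4 := by norm_num
      _ ≤ 2 ^ (4 * (T + 18)) := Nat.pow_le_pow_right (by norm_num) (by omega)
  · have h1 := Pool.Agent.TD.nu3_Lam_large (T + 18) (by omega)
    have h2 : T ≤ 2 ^ (3 * (T + 18)) :=
      (Nat.lt_two_pow_self (n := T)).le.trans (Nat.pow_le_pow_right (by norm_num) (by omega))
    show T ≤ 2 ^ Lam (2 ^ (4 * (T + 18)))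
    exact (h2.trans h1).trans (Nat.lt_two_pow_self).le

/-- LV1 -/
theorem nn_spec (T : ℕ) : 16 ≤ nn T ∧ T ≤ dd (nn T) := Nat.sInf_mem (lv1_ne T)

/-- LV1 -/
theorem nn_min {T n : ℕ} (h16 : 16 ≤ n) (h : T ≤ dd n) : nn T ≤ n := Nat.sInf_le ⟨h16, h⟩

/-- LV1 -/
theorem lev_card {P : Par} (hP : P.OK) {M : ℕ} (h16 : 16 ≤ M) :
    CardBd {i | lev P i ≤ M} (dd M + M + 1) := by
  have hsub : {i | lev P i ≤ M} ⊆ Sum.inl '' {n : ℕ | n ≤ M} ∪ Sum.inr '' {j | P.t j ≤ dd M} := by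
    rintro (n | j) hi
    · exact Or.inl ⟨n, hi, rfl⟩
    · right
      refine ⟨j, ?_, rfl⟩
      have h1 : nn (P.t j) ≤ M := hi
      obtain ⟨h2, h3⟩ := nn_spec (P.t j)
      refine h3.trans ?_
      exact Nat.pow_le_pow_right (by norm_num) (Pool.Agent.TD.Lam_mono h2 h1)
  have hf1 : {n : ℕ | n ≤ M}.Finite := Set.finite_Iic M
  have hf2 := hP.fin (dd M)
  have hfin : (Sum.inl '' {n : ℕ | n ≤ M} ∪ Sum.inr '' {j | P.t j ≤ dd M} : Set Lvl).Finite :=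
    (hf1.image _).union (hf2.image _)
  refine ⟨hfin.subset hsub, ?_⟩
  have h1 : ({n : ℕ | n ≤ M}).ncard = M + 1 := by
    have h : {n : ℕ | n ≤ M} = ((Finset.range (M + 1) : Finset ℕ) : Set ℕ) := by
      ext x
      simp [Nat.lt_succ_iff]
    rw [h, Set.ncard_coe_finset, Finset.card_range]
  have h2 := hP.cnt (dd M)
  calc {i | lev P i ≤ M}.ncard ≤
      (Sum.inl '' {n : ℕ | n ≤ M} ∪ Sum.inr '' {j | P.t j ≤ dd M} : Set Lvl).ncard :=
        Set.ncard_le_ncard hsub hfin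
    _ ≤ (Sum.inl '' {n : ℕ | n ≤ M} : Set Lvl).ncard + (Sum.inr '' {j | P.t j ≤ dd M} : Set Lvl).ncard :=
        Set.ncard_union_le _ _
    _ ≤ (M + 1) + 2 ^ dd M := by
        refine Nat.add_le_add ((Set.ncard_image_le hf1).trans h1.le) ?_
        exact (Set.ncard_image_le hf2).trans h2
    _ ≤ 2 ^ (dd M + M + 1) := by
        have h3 : M + 1 + 1 ≤ 2 ^ (M + 1) := Nat.lt_two_pow_self
        have h4 : 1 ≤ 2 ^ dd M := Nat.one_le_two_pow
        have h5 : 2 ^ (dd M + M + 1) = 2 ^ dd M * 2 ^ (M + 1) := by rw [← pow_add]; congr 1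
        rw [h5]
        nlinarith


end Pool.Agent.ABO
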