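import Pool.Agent.Lib_helper27.ABO.Fm
import Pool.Agent.Lib_helper74.IS.All
import Pool.Agent.Lib_helper27.ABO.B.LV1

/-!
# Block LV2 (MP_675993_lc, ABO): sum over the levels
-/

set_option autoImplicit false

namespace Pool.Agent.ABO

open Pool.Agent.CK
open Pool.Agent.TD (Str su sj st Act se sm sM sn sD ZSet Z Q unitv Lam KK dd)
open Pool.Agent.TD.IS (PosI Stg uq patchI simI evM icode idec strip ISet posK zs updI PLW PTW
  invTreeW thrX invTab excI LocalWith PolyLocal Cls EL)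

theorem lv2_card {P : Par} (hP : P.OK) (I : Finset Lvl) (n : ℕ) [DecidableEq Lvl]
    [DecidablePred fun i => lev P i = n] :
    (I.filter fun i => lev P i = n).card ≤ 1 + 2 ^ dd n := by
  have hsub : (I.filter fun i => lev P i = n) ⊆
      {Sum.inl n} ∪ ((hP.fin (dd n)).toFinset.image Sum.inr) := by
    intro i hi
    have h1 := (Finset.mem_filter.1 hi).2
    rcases i with m | j
    · have h2 : m = n := h1
      rw [h2]
      simp
    · refine Finset.mem_union_right _ (Finset.mem_image.2 ⟨j, ?_, rfl⟩)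
      rw [Set.Finite.mem_toFinset]
      show P.t j ≤ dd n
      have h2 : nn (P.t j) = n := h1
      rw [← h2]
      exact (nn_spec (P.t j)).2
  refine (Finset.card_le_card hsub).trans ((Finset.card_union_le _ _).trans ?_)
  rw [Finset.card_singleton]
  refine Nat.add_le_add_left (Finset.card_image_le.trans ?_) 1
  rw [← Set.ncard_eq_toFinset_card _ (hP.fin (dd n))]
  exact hP.cnt (dd n)

/-- LV2 -/
theorem lev_sum {P : Par} (hP : P.OK) (I : Finset Lvl) :
    ∑ i ∈ I, (1 / 2 : ℝ) ^ (dd (lev P i) + lev P i + 4) < 1 / 2 := by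
  classical
  have h1 : ∑ i ∈ I, (1 / 2 : ℝ) ^ (dd (lev P i) + lev P i + 4) =
      ∑ n ∈ I.image (lev P), ∑ i ∈ I.filter (fun i => lev P i = n),
        (1 / 2 : ℝ) ^ (dd (lev P i) + lev P i + 4) :=
    (Finset.sum_fiberwise_of_maps_to (fun i hi => Finset.mem_image_of_mem _ hi) _).symm
  have h2 : ∀ n ∈ I.image (lev P), ∑ i ∈ I.filter (fun i => lev P i = n),
      (1 / 2 : ℝ) ^ (dd (lev P i) + lev P i + 4) ≤ (1 / 2 : ℝ) ^ (n + 3) := by
    intro n _
    have h3 : ∑ i ∈ I.filter (fun i => lev P i = n), (1 / 2 : ℝ) ^ (dd (lev P i) + lev P i + 4) =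
        ((I.filter fun i => lev P i = n).card : ℝ) * (1 / 2 : ℝ) ^ (dd n + n + 4) := by
      rw [Finset.sum_congr rfl (g := fun _ => (1 / 2 : ℝ) ^ (dd n + n + 4)) fun i hi => by
        rw [(Finset.mem_filter.1 hi).2], Finset.sum_const, nsmul_eq_mul]
    rw [h3]
    have h4 : ((I.filter fun i => lev P i = n).card : ℝ) ≤ 1 + 2 ^ dd n := by
      exact_mod_cast lv2_card hP I n
    have h5 : (1 : ℝ) ≤ 2 ^ dd n := one_le_pow₀ (by norm_num)
    calc ((I.filter fun i => lev P i = n).card : ℝ) * (1 / 2 : ℝ) ^ (dd n + n + 4)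
        ≤ (2 * 2 ^ dd n) * (1 / 2 : ℝ) ^ (dd n + n + 4) :=
          mul_le_mul_of_nonneg_right (by linarith) (by positivity)
      _ = ((2 : ℝ) * (1 / 2)) ^ dd n * (1 / 2 : ℝ) ^ (n + 3) := by
          rw [mul_pow, show dd n + n + 4 = dd n + (n + 3) + 1 by ring, pow_succ, pow_add]
          ring
      _ = (1 / 2 : ℝ) ^ (n + 3) := by norm_num
  have h6 : ∀ J : Finset ℕ, ∑ n ∈ J, (1 / 2 : ℝ) ^ (n + 3) ≤ 1 / 4 := by
    intro J
    have h7 : Summable fun n : ℕ => (1 / 2 : ℝ) ^ (n + 3) := by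
      have := summable_geometric_two.mul_right ((1 / 2 : ℝ) ^ 3)
      refine this.congr fun n => ?_
      rw [pow_add]
    refine (h7.sum_le_tsum J fun n _ => by positivity).trans ?_
    have h8 : ∑' n : ℕ, (1 / 2 : ℝ) ^ (n + 3) = 2 * (1 / 2 : ℝ) ^ 3 := by
      have h9 : ∑' n : ℕ, (1 / 2 : ℝ) ^ (n + 3) =
          (∑' n : ℕ, (1 / 2 : ℝ) ^ n) * (1 / 2 : ℝ) ^ 3 := by
        rw [← tsum_mul_right]
        exact tsum_congr fun n => pow_add _ _ _
      rw [h9, tsum_geometric_two]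
    rw [h8]
    norm_num
  rw [h1]
  refine ((Finset.sum_le_sum h2).trans (h6 _)).trans_lt ?_
  norm_num


end Pool.Agent.ABO
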