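import Pool.Agent.Lib_helper27.ABO.Fm
import Pool.Agent.Lib_helper74.IS.All

set_option autoImplicit false

namespace Pool.Agent.ABO

open Pool.Agent.CK
open Pool.Agent.TD (Str su sj st Act se sm sM sn sD ZSet Z Q unitv Lam KK dd)
open Pool.Agent.TD.IS (PosI Stg uq patchI simI evM icode idec strip ISet posK zs updI PLW PTW
  invTreeW thrX invTab excI LocalWith PolyLocal Cls EL)

theorem gTree_eval (ch : List Str → Str → Bool) (O : Lang) (gs : List Gate)
    (s : List Bool × List Str) : (gTree ch gs s).eval O = gs.foldl (gstep O ch) s := by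
  induction gs generalizing s with
  | nil => rfl
  | cons g gs ih =>
    cases g with
    | fml φ => exact ih _
    | ask l =>
      show (DT.node (sel s.1 l) (gTree ch gs (s.1 ++ [false], s.2))
        (gTree ch gs (s.1 ++ [true], s.2))).eval O = gs.foldl (gstep O ch) (gstep O ch s (.ask l))
      rw [DT.eval_node, ih, ih]
      show _ = gs.foldl (gstep O ch) (s.1 ++ [O (sel s.1 l)], s.2)
      cases h : O (sel s.1 l) <;> simp
    | chal l => exact ih _

theorem ca1_asks_cons (g : Gate) (gs : List Gate) :
    asks (g :: gs) = asks gs + if g.isAsk = true then 1 else 0 := by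
  unfold asks
  rw [List.countP_cons]

theorem gTree_depth (ch : List Str → Str → Bool) (gs : List Gate) (s : List Bool × List Str) :
    (gTree ch gs s).depth ≤ asks gs := by
  induction gs generalizing s with
  | nil => exact Nat.zero_le _
  | cons g gs ih =>
    rw [ca1_asks_cons]
    cases g with
    | fml φ =>
      exact (ih (s.1 ++ [φ.eval s.1], s.2)).trans (Nat.le_add_right _ _)
    | ask l =>
      show (DT.node (sel s.1 l) (gTree ch gs (s.1 ++ [false], s.2))
        (gTree ch gs (s.1 ++ [true], s.2))).depth ≤ asks gs + 1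
      rw [DT.depth_node]
      exact Nat.add_le_add_right (max_le (ih _) (ih _)) 1
    | chal l =>
      exact (ih (s.1 ++ [ch s.2 (sel s.1 l)], s.2 ++ [sel s.1 l])).trans (Nat.le_add_right _ _)

theorem gTree_allQ (ch : List Str → Str → Bool) (d : ℕ) (gs : List Gate) (h : Lens d gs)
    (s : List Bool × List Str) : (gTree ch gs s).AllQ fun w => w.length ≤ d := by
  induction gs generalizing s with
  | nil => exact trivial
  | cons g gs ih =>
    have h' : Lens d gs := fun l hl => h l (List.mem_cons_of_mem _ hl)
    cases g with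
    | fml φ => exact ih h' _
    | ask l =>
      refine ⟨?_, ih h' _, ih h' _⟩
      show (sel s.1 l).length ≤ d
      unfold sel
      rw [List.length_map]
      exact h l List.mem_cons_self
    | chal l => exact ih h' _

theorem cTree_eval (G : Game) (C : Circuit) (ω : Str) (O : Lang) :
    (cTree G C ω).eval O = [G.wins O C ω] := by
  unfold cTree
  rw [DT.eval_map, gTree_eval]
  rfl

theorem count_eq (G : Game) (C : Circuit) (O : Lang) :
    G.count O C = hits (fun _ : X G.s => [true]) (fun ω => cTree G C ω.1) O := by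
  unfold Game.count hits
  rw [← Fintype.card_coe, ← Nat.card_eq_fintype_card]
  refine Nat.card_congr ⟨fun ω => ⟨⟨ω.1, ω.2.1⟩, ?_⟩, fun ω => ⟨ω.1.1, ω.1.2, ?_⟩, ?_, ?_⟩
  · rw [Finset.mem_filter]
    refine ⟨Finset.mem_univ _, ?_⟩
    show (cTree G C ω.1).eval O = [true]
    rw [cTree_eval, ω.2.2]
  · have h := (Finset.mem_filter.mp ω.2).2
    rw [cTree_eval] at h
    simpa using h
  · intro ω
    rfl
  · intro ω
    rfl

theorem circF_bounds {G : Game} {s d : ℕ} {A : X G.s → DT Str} (hA : A ∈ CircF G s d)
    (ω : X G.s) : (A ω).depth ≤ d ∧ (A ω).AllQ fun w => w.length ≤ d := by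
  obtain ⟨C, hC, rfl⟩ := hA
  constructor
  · show (cTree G C ω.1).depth ≤ d
    unfold cTree
    rw [DT.depth_map]
    exact (gTree_depth _ _ _).trans hC.asks
  · show (cTree G C ω.1).AllQ fun w => w.length ≤ d
    unfold cTree
    exact mach_allQ_map _ _ _ (gTree_allQ _ d _ hC.lens _)

theorem ca1_fml_mono {t t' : ℕ} (h : t ≤ t') : ∀ φ : Fml, φ.Below t → φ.Below t'
  | .tru, _ => trivial
  | .var _, hi => lt_of_lt_of_le hi h
  | .nand a b, hi => ⟨ca1_fml_mono h a hi.1, ca1_fml_mono h b hi.2⟩

theorem ca1_gate_mono {t t' : ℕ} (h : t ≤ t') : ∀ g : Gate, g.Below t → g.Below t'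
  | .fml φ, hi => ca1_fml_mono h φ hi
  | .ask _, hi => fun i hl => (hi i hl).trans_le h
  | .chal _, hi => fun i hl => (hi i hl).trans_le h

theorem within_mono {C : Circuit} {s s' d d' : ℕ} (h : C.Within s d) (hs : s ≤ s')
    (hd : d ≤ d') : C.Within s' d' where
  size := h.size.trans hs
  asks := h.asks.trans hd
  lens := fun l hl => (h.lens l hl).trans hd
  below := fun g hg => ca1_gate_mono hs g (h.below g hg)
  outb := fun i hi => (h.outb i hi).trans_le hs


end Pool.Agent.ABO
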