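import Pool.Agent.Lib_helper27.ABO.Fm
import Pool.Agent.Lib_helper74.IS.All

/-!
# Block NA2 of the project ABO: inequalities between the numerical parameters
-/

set_option autoImplicit false

namespace Pool.Agent.ABO

open Pool.Agent.CK
open Pool.Agent.TD (Str su sj st Act se sm sM sn sD ZSet Z Q unitv Lam KK dd)
open Pool.Agent.TD.IS (PosI Stg uq patchI simI evM icode idec strip ISet posK zs updI PLW PTW
  invTreeW thrX invTab excI LocalWith PolyLocal Cls EL)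

theorem na2_pw {a b : ℕ} (h : a ≤ b) : 2 ^ a ≤ 2 ^ b := Nat.pow_le_pow_right (by norm_num) h

theorem na2_two (a : ℕ) : 2 ^ a + 2 ^ a = 2 ^ (a + 1) := by ring

theorem na2_add {x y a b c : ℕ} (hx : x ≤ 2 ^ a) (hy : y ≤ 2 ^ b) (ha : a + 1 ≤ c)
    (hb : b + 1 ≤ c) : x + y ≤ 2 ^ c := by
  obtain ⟨d, rfl⟩ : ∃ d, c = d + 1 := ⟨c - 1, by omega⟩
  rw [← na2_two d]
  exact add_le_add (hx.trans (na2_pw (by omega))) (hy.trans (na2_pw (by omega)))

theorem na2_mul {x y a b c : ℕ} (hx : x ≤ 2 ^ a) (hy : y ≤ 2 ^ b) (h : a + b ≤ c) :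
    x * y ≤ 2 ^ c := by
  calc x * y ≤ 2 ^ a * 2 ^ b := Nat.mul_le_mul hx hy
    _ = 2 ^ (a + b) := (pow_add 2 a b).symm
    _ ≤ 2 ^ c := na2_pw h

/-- NA2: as `TDF/NU2` -/
theorem aa_mono {n m : ℕ} (k : ℕ) (h : 16 ≤ n) (hnm : n ≤ m) : aa k n ≤ aa 0 m := by
  unfold aa
  have h1 : n / 3 ≤ m / 3 := Nat.div_le_div_right hnm
  have h2 : KK n - k ≤ KK m - 0 := by
    have := TD.KK_mono h hnm
    omega
  have h3 : 8 * Lam n + 2 * KK n + 40 ≤ 8 * Lam m + 2 * KK m + 40 := by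
    have := TD.KK_mono h hnm
    have := TD.Lam_mono h hnm
    omega
  exact Nat.add_le_add (Nat.add_le_add_right h1 2) (Nat.mul_le_mul h2 h3)

/-- NA2 -/
theorem aa_step {k n : ℕ} (h : k < KK n) :
    aa k n = aa (k + 1) n + (8 * Lam n + 2 * KK n + 40) := by
  unfold aa
  obtain ⟨r, hr⟩ : ∃ r, KK n - k = r + 1 := ⟨KK n - k - 1, by omega⟩
  have hr' : KK n - (k + 1) = r := by omega
  rw [hr, hr']
  ring

/-- NA2 -/
theorem aa_anti (k n : ℕ) : aa (k + 1) n ≤ aa k n := by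
  unfold aa
  exact Nat.add_le_add_left (Nat.mul_le_mul_right _ (by omega)) _

/-- NA2 -/
theorem aa_irrel {k n : ℕ} (h : KK n ≤ k) : aa (k + 1) n = aa k n := by
  unfold aa
  have h1 : KK n - k = 0 := by omega
  have h2 : KK n - (k + 1) = 0 := by omega
  rw [h1, h2]

/-- lower bound for the class size exponent -/
theorem na2_low (k n : ℕ) : n / 3 + 2 ≤ aa k n := by
  unfold aa
  exact Nat.le_add_right _ _

theorem na2_low4 {n : ℕ} (h : NumN n) (k : ℕ) : 4 * Lam n + 2 ≤ aa k n := by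
  have h1 := na2_low k n
  have h2 := h.hL
  omega

/-- NA2: number of circuits -/
theorem num_circ {n : ℕ} (h : NumN n) (k : ℕ) :
    1 ≤ uu k n ∧ (uu k n + 4) * (2 ^ uu k n + 4) ≤ 2 ^ aa k n := by
  have h1 := na2_low4 h k
  have h2 := h.hL1
  have h3 := aa_mono k h.h16 (le_refl n)
  have h4 := h.ha0
  have h5 := h.hn
  have h6 : uu k n = aa k n - Lam n := rfl
  refine ⟨by omega, ?_⟩
  have h7 : aa k n = uu k n + Lam n := by omega
  have h8 : 2 ^ uu k n + 4 ≤ 2 * 2 ^ uu k n := by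
    have : 2 ^ 2 ≤ 2 ^ uu k n := na2_pw (by omega)
    omega
  calc (uu k n + 4) * (2 ^ uu k n + 4) ≤ (n + 8) * (2 * 2 ^ uu k n) :=
        Nat.mul_le_mul (by omega) h8
    _ = 2 ^ uu k n * (2 * (n + 8)) := by ring
    _ ≤ 2 ^ uu k n * 2 ^ Lam n := Nat.mul_le_mul_left _ h5
    _ = 2 ^ aa k n := by rw [h7, pow_add]

theorem na2_dd1 {n : ℕ} (h : NumN n) : dd n + 3 ≤ 2 ^ (Lam n + 1) := by
  unfold dd
  have h2 := h.hL1
  have : 2 ^ 8 ≤ 2 ^ Lam n := na2_pw h2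
  rw [pow_succ]
  omega

/-- the size of the circuits of the simulation -/
theorem na2_cst {n m B s e p : ℕ} (h : NumN n) (hm : m + 1 ≤ 2 ^ p) (hB : B + 1 ≤ 2 ^ (Lam n + 1))
    (hs : s ≤ 2 ^ e) (he : Lam n + 2 ≤ e) :
    (dd n + 1) * cst (dd n) m B s ≤ 2 ^ (p + 2 * Lam n + e + 12) := by
  have hd := na2_dd1 h
  unfold cst
  have h1 : s + dd n + 1 ≤ 2 ^ (e + 1) := by
    have h2 : dd n + 1 ≤ 2 ^ (Lam n + 1) := by omega
    have h3 := na2_add (c := e + 1) hs h2 le_rfl (by omega)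
    omega
  have h4 : 512 * (m + 1) ≤ 2 ^ (9 + p) := na2_mul (a := 9) (by norm_num) hm le_rfl
  have h5 : 512 * (m + 1) * (B + 1) ≤ 2 ^ (9 + p + (Lam n + 1)) := na2_mul h4 hB le_rfl
  have h6 := na2_mul h5 h1 le_rfl
  have h7 : dd n + 1 ≤ 2 ^ (Lam n + 1) := by omega
  exact na2_mul h7 h6 (by omega)

/-- NA2: size of the simulation of a stage -/
theorem num_sim {k n : ℕ} (h : NumN n) (hk : k < KK n) {s : ℕ} (hs : s ≤ ss k n)
    (hM : sM k ≤ dd n) :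
    2 ^ uu (k + 1) n + (dd n + 1) * cst (dd n) (256 * (dd n + sM k + 1) ^ 3) (sM k) s ≤
      2 ^ uu k n := by
  have h1 := na2_low4 h (k + 1)
  have h2 := aa_step hk
  have h3 : uu k n = aa k n - Lam n := rfl
  have h4 : uu (k + 1) n = aa (k + 1) n - Lam n := rfl
  have hd := na2_dd1 h
  have h5 : dd n + sM k + 1 ≤ 2 ^ (Lam n + 2) := by
    rw [pow_succ]
    omega
  have h6 : (dd n + sM k + 1) ^ 3 ≤ 2 ^ (3 * Lam n + 6) := by
    calc (dd n + sM k + 1) ^ 3 ≤ (2 ^ (Lam n + 2)) ^ 3 := Nat.pow_le_pow_left h5 3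
      _ = 2 ^ (3 * Lam n + 6) := by rw [← pow_mul]; congr 1; ring
  have h7 : 256 * (dd n + sM k + 1) ^ 3 ≤ 2 ^ (3 * Lam n + 14) :=
    na2_mul (a := 8) (by norm_num) h6 (by omega)
  have h8 : 256 * (dd n + sM k + 1) ^ 3 + 1 ≤ 2 ^ (3 * Lam n + 15) :=
    na2_add h7 (b := 0) (by norm_num) (by omega) (by omega)
  have h9 := na2_cst h h8 (B := sM k) (by omega) hs (by omega)
  refine na2_add (na2_pw (le_refl (uu (k + 1) n))) h9 (by omega) (by omega)

/-- NA2: number of entries that are revealed -/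
theorem num_R {k n : ℕ} (h : NumN n) (hk : k < KK n) :
    3 * Del (k + 1) n * (2 ^ aa (k + 1) n + (dd n + n + 4) + 1) * dd n ≤ ss k n := by
  have h1 := na2_low4 h (k + 1)
  have hd := na2_dd1 h
  have h5 := h.hn
  have h6 : 3 * Del (k + 1) n ≤ 2 ^ (2 + (Lam n + 2 * (KK n - (k + 1)))) :=
    na2_mul (a := 2) (by norm_num) (le_refl _) le_rfl
  have h7 : 2 ^ aa (k + 1) n + (dd n + n + 4) + 1 ≤ 2 ^ (aa (k + 1) n + 1) := by
    have h8 : dd n + n + 4 + 1 ≤ 2 ^ (Lam n + 2) := by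
      rw [pow_succ 2 (Lam n + 1), pow_succ 2 (Lam n)]
      rw [pow_succ] at hd
      omega
    have h9 := na2_add (c := aa (k + 1) n + 1) (na2_pw (le_refl (aa (k + 1) n))) h8 le_rfl
      (by omega)
    omega
  have h10 := na2_mul h6 h7 le_rfl
  exact na2_mul h10 (le_refl (2 ^ Lam n)) (by omega)

/-- NA2: the circuits of the theorem are in the final family -/
theorem num_fin {n : ℕ} (h : NumN n) (k : ℕ) : dd n + 1 ≤ 2 ^ uu k n := by
  have h1 := na2_low4 h k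
  have hd := na2_dd1 h
  have h2 := h.hL1
  have h3 : uu k n = aa k n - Lam n := rfl
  have h4 : 2 ^ (Lam n + 1) ≤ 2 ^ uu k n := na2_pw (by omega)
  omega

/-- NA2: all of the table fits into the known entries -/
theorem num_small {k n : ℕ} (hn : 3 * sM k ≤ n) : 2 ^ sM k ≤ ss k n := by
  have h1 := na2_low (k + 1) n
  unfold ss
  exact na2_pw (by omega)

theorem na2_S {n : ℕ} (h : NumN n) :
    2 ^ aa 0 n + (dd n + n + 4) + 1 ≤ 2 ^ (aa 0 n + 1) := by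
  have h1 := na2_low4 h 0
  have hd := na2_dd1 h
  have h5 := h.hn
  have h8 : dd n + n + 4 + 1 ≤ 2 ^ (Lam n + 2) := by
    rw [pow_succ 2 (Lam n + 1), pow_succ 2 (Lam n)]
    rw [pow_succ] at hd
    omega
  have h9 := na2_add (c := aa 0 n + 1) (na2_pw (le_refl (aa 0 n))) h8 le_rfl (by omega)
  omega

/-- NA2: base, secrets -/
theorem num_baseV {n : ℕ} (h : NumN n) :
    (2 ^ aa 0 n + (dd n + n + 4) + 1) * (dd n + 1) + dd n + 3 < 2 ^ (n - (Lam n + 2 * KK n + 1)) ∧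
      Lam n + 2 * KK n + 1 ≤ n := by
  have h1 := h.ha0
  have hd := na2_dd1 h
  refine ⟨?_, by omega⟩
  have h2 := na2_mul (na2_S h) (show dd n + 1 ≤ 2 ^ (Lam n + 1) by omega) le_rfl
  have h3 := na2_add (c := aa 0 n + 1 + (Lam n + 1) + 1) h2 hd le_rfl (by omega)
  refine lt_of_le_of_lt (by omega) (lt_of_le_of_lt h3 ?_)
  exact Nat.pow_lt_pow_right (by norm_num) (by omega)

/-- NA2: base, games -/
theorem num_baseG {n s : ℕ} (h : NumN n)
    (hs : s ≤ 3 * Del 0 n * (2 ^ aa 0 n + (dd n + n + 4) + 1) * dd n) :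
    2 ^ uu 0 n + (dd n + 1) * cst (dd n) (256 * (dd n + 1) ^ 3) (dd n + 1) s +
      16 * (dd n + 1) ≤ 2 ^ (n - 2) := by
  have h1 := h.ha0
  have h2 := na2_low4 h 0
  have hd := na2_dd1 h
  have h3 : uu 0 n = aa 0 n - Lam n := rfl
  have h6 : 3 * Del 0 n ≤ 2 ^ (2 + (Lam n + 2 * (KK n - 0))) :=
    na2_mul (a := 2) (by norm_num) (le_refl _) le_rfl
  have h7 := na2_mul (na2_mul h6 (na2_S h) le_rfl) (le_refl (2 ^ Lam n)) le_rfl
  have h8 : (dd n + 1) ^ 3 ≤ 2 ^ (3 * Lam n + 3) := by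
    calc (dd n + 1) ^ 3 ≤ (2 ^ (Lam n + 1)) ^ 3 := Nat.pow_le_pow_left (by omega) 3
      _ = 2 ^ (3 * Lam n + 3) := by rw [← pow_mul]; congr 1; ring
  have h9 : 256 * (dd n + 1) ^ 3 ≤ 2 ^ (3 * Lam n + 11) :=
    na2_mul (a := 8) (by norm_num) h8 (by omega)
  have h10 : 256 * (dd n + 1) ^ 3 + 1 ≤ 2 ^ (3 * Lam n + 12) :=
    na2_add h9 (b := 0) (by norm_num) (by omega) (by omega)
  have h11 := na2_cst h h10 (B := dd n + 1) (by omega) (hs.trans h7) (by omega)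
  have h12 : 16 * (dd n + 1) ≤ 2 ^ (4 + (Lam n + 1)) :=
    na2_mul (a := 4) (by norm_num) (show dd n + 1 ≤ 2 ^ (Lam n + 1) by omega) le_rfl
  have h13 := na2_add (c := n - 3) (na2_pw (le_refl (uu 0 n))) h11 (by omega) (by omega)
  exact na2_add h13 h12 (by omega) (by omega)


end Pool.Agent.ABO
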