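import Pool.Agent.Lib_helper27.ABO.Fm
import Pool.Agent.Lib_helper74.IS.All

/-!
# ABO, block AD: gates for a direct question
-/

set_option autoImplicit false
set_option linter.unusedSectionVars false

namespace Pool.Agent.ABO

open Pool.Agent.CK
open Pool.Agent.TD (Str su sj st Act se sm sM sn sD ZSet Z Q unitv Lam KK dd)
open Pool.Agent.TD.IS (PosI Stg uq patchI simI evM icode idec strip ISet posK zs updI PLW PTW
  invTreeW thrX invTab excI LocalWith PolyLocal Cls EL)

section AD

/-! ### the question -/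

/-- the bits of the question -/
def ad_v (l : List ℕ) (i : ℕ) : Fml := Fml.var (l.getD i 0)

theorem ad_v_eval (W : List Bool) (l : List ℕ) (i : ℕ) (h : i < l.length) :
    (ad_v l i).eval W = (sel W l).getD i false := by
  simp only [ad_v, Fml.eval, sel]
  rw [List.getD_eq_getElem l _ h, List.getD_eq_getElem (l.map _) _ (by simpa using h),
    List.getElem_map]

theorem ad_sub_eval (W : List Bool) (l : List ℕ) {φ : Fml} (h : φ.Below l.length) :
    (Fml.subst (ad_v l) φ).eval W = φ.eval (sel W l) :=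
  Fml.eval_subst (fun i hi => ad_v_eval W l i hi) h

theorem ad_sub_size (l : List ℕ) {φ : Fml} (h : φ.Below l.length) :
    (Fml.subst (ad_v l) φ).size ≤ φ.size := by
  have := Fml.size_subst (f := ad_v l) (m := 1) (le_refl 1)
    (fun i _ => by simp [ad_v, Fml.size]) h
  simpa using this

theorem ad_sub_below (l : List ℕ) {N : ℕ} (hl : ∀ i ∈ l, i < N) {φ : Fml}
    (h : φ.Below l.length) : (Fml.subst (ad_v l) φ).Below N := by
  refine Fml.below_subst (fun i hi => ?_) h
  show l.getD i 0 < N
  rw [List.getD_eq_getElem _ _ hi]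
  exact hl _ (List.getElem_mem hi)

/-! ### running a list of formulas -/

/-- the bits from the number `N` on are the values of the formulas -/
def ad_Run (V : List Bool) (N : ℕ) (fs : List Fml) : Prop :=
  ∀ (t : ℕ) (φ : Fml), fs[t]? = some φ → V.getD (N + t) false = φ.eval V

/-- the formula number `t` uses only the bits below `N + t` -/
def ad_Bel (N : ℕ) (fs : List Fml) : Prop :=
  ∀ (t : ℕ) (φ : Fml), fs[t]? = some φ → φ.Below (N + t)

theorem ad_Run_append {V : List Bool} {N : ℕ} {fs gs : List Fml} (h : ad_Run V N (fs ++ gs)) :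
    ad_Run V N fs ∧ ad_Run V (N + fs.length) gs := by
  constructor
  · intro t φ ht
    refine h t φ ?_
    rw [List.getElem?_append_left (List.getElem?_eq_some_iff.1 ht).1, ht]
  · intro t φ ht
    have := h (fs.length + t) φ (by
      rw [List.getElem?_append_right (by omega), Nat.add_sub_cancel_left, ht])
    rwa [← Nat.add_assoc] at this

theorem ad_Bel_append {N : ℕ} {fs gs : List Fml} (h1 : ad_Bel N fs)
    (h2 : ad_Bel (N + fs.length) gs) : ad_Bel N (fs ++ gs) := by
  intro t φ ht
  by_cases hlt : t < fs.length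
  · rw [List.getElem?_append_left hlt] at ht
    exact h1 t φ ht
  · rw [List.getElem?_append_right (by omega)] at ht
    have := h2 _ φ ht
    have e : N + fs.length + (t - fs.length) = N + t := by omega
    rwa [e] at this

theorem ad_Bel_of {N : ℕ} {fs : List Fml} (h : ∀ φ ∈ fs, φ.Below N) : ad_Bel N fs := by
  intro t φ ht
  exact Fml.Below.mono (Nat.le_add_right _ _) (h φ (List.mem_of_getElem? ht))

theorem ad_run (O : Lang) (ch : List Str → Str → Bool) (qs : List Str) :
    ∀ (fs : List Fml) (W : List Bool), ad_Bel W.length fs →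
      ∃ U : List Bool, U.length = fs.length ∧
        (fs.map Gate.fml).foldl (gstep O ch) (W, qs) = (W ++ U, qs) ∧
        ad_Run (W ++ U) W.length fs
  | [], W, _ => ⟨[], rfl, by simp, fun t φ h => by simp at h⟩
  | φ :: fs, W, h => by
    have h0 : φ.Below W.length := h 0 φ rfl
    obtain ⟨U, h1, h2, h3⟩ := ad_run O ch qs fs (W ++ [φ.eval W]) (fun t ψ ht => by
      have := h (t + 1) ψ (by simpa using ht)
      have e : (W ++ [φ.eval W]).length + t = W.length + (t + 1) := by
        simp only [List.length_append, List.length_singleton]; omega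
      rwa [e])
    refine ⟨φ.eval W :: U, by simp [h1], ?_, ?_⟩
    · simp only [List.map_cons, List.foldl_cons, gstep]
      rw [h2]
      simp
    · have e : W ++ (φ.eval W :: U) = (W ++ [φ.eval W]) ++ U := by simp
      intro t ψ ht
      cases t with
      | zero =>
        have : ψ = φ := by simpa using ht.symm
        subst this
        rw [Fml.eval_append h0]
        simp [List.getD_eq_getElem?_getD]
      | succ t =>
        have := h3 t ψ (by simpa using ht)
        have e2 : (W ++ [φ.eval W]).length + t = W.length + (t + 1) := by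
          simp only [List.length_append, List.length_singleton]; omega
        rw [e2] at this
        rw [e, this]

/-! ### the formulas -/

/-- numbers of the bits of the code of the question -/
def ad_cb (N B : ℕ) : List ℕ := (List.range B).map fun i => N + 1 + i

/-- numbers of the bits of the code in the slot `u` -/
def ad_sb (b B u : ℕ) : List ℕ := (List.range B).map fun i => b + u * (B + 1) + 1 + i

/-- the entry is in the slot `u` -/
def ad_hit (N b B u : ℕ) : Fml :=
  Fml.and (Fml.var (b + u * (B + 1))) (Fml.eqV (ad_sb b B u) (ad_cb N B))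

/-- the entry is in the list -/
def ad_known (N B : ℕ) (cs : List (List Bool)) : Fml :=
  Fml.any (cs.map fun c => Fml.eqC (ad_cb N B) c)

/-- the entry is new -/
def ad_new (N N1 d : ℕ) : Fml :=
  Fml.and (Fml.var N) (Fml.and (Fml.neg (Fml.var (N1 + d)))
    (Fml.neg (Fml.any ((List.range d).map fun u => Fml.var (N1 + u)))))

/-- the entry is written into the slot `u` -/
def ad_fill (b B N2 u : ℕ) : Fml :=
  Fml.and (Fml.var N2) (Fml.and (if u = 0 then Fml.tru else Fml.var (b + (u - 1) * (B + 1)))
    (Fml.neg (Fml.var (b + u * (B + 1)))))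

/-- the new bit `j` of the slot `u` -/
def ad_slot (N b B N2 u j : ℕ) : Fml :=
  if j = 0 then Fml.or (Fml.var (b + u * (B + 1))) (ad_fill b B N2 u)
  else Fml.ite (ad_fill b B N2 u) (Fml.var (N + j)) (Fml.var (b + u * (B + 1) + j))

theorem ad_cb_map (V : List Bool) (N B : ℕ) (c : List Bool) (hc : c.length = B) :
    (ad_cb N B).map (fun i => V.getD i false) = c ↔
      ∀ i < B, V.getD (N + 1 + i) false = c.getD i false := by
  unfold ad_cb
  rw [List.map_map]
  constructor
  · intro h i hi
    rw [← h]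
    simp only [List.getD_eq_getElem?_getD, List.getElem?_map, List.getElem?_range hi,
      Option.map_some, Option.getD_some, Function.comp]
  · intro h
    apply List.ext_getElem
    · simp [hc]
    · intro i h1 h2
      have hi : i < B := by simpa using h1
      have := h i hi
      rw [List.getD_eq_getElem c _ h2] at this
      rw [List.getElem_map, List.getElem_range]
      exact this

theorem ad_sb_map (V : List Bool) (b B u : ℕ) (c : List Bool) (hc : c.length = B) :
    (ad_sb b B u).map (fun i => V.getD i false) = c ↔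
      ∀ i < B, V.getD (b + u * (B + 1) + 1 + i) false = c.getD i false := by
  have := ad_cb_map V (b + u * (B + 1)) B c hc
  exact this

theorem ad_hit_eval (V : List Bool) (N b B u : ℕ) : (ad_hit N b B u).eval V = true ↔
    V.getD (b + u * (B + 1)) false = true ∧
      (ad_sb b B u).map (fun i => V.getD i false) = (ad_cb N B).map (fun i => V.getD i false) := by
  unfold ad_hit
  rw [Fml.eval_and, Bool.and_eq_true, Fml.eval_eqV V _ _ (by simp [ad_sb, ad_cb])]
  rfl

theorem ad_known_eval (V : List Bool) (N B : ℕ) (cs : List (List Bool))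
    (hcs : ∀ c ∈ cs, c.length = B) : (ad_known N B cs).eval V = true ↔
      ∃ c ∈ cs, (ad_cb N B).map (fun i => V.getD i false) = c := by
  unfold ad_known
  rw [Fml.eval_any, List.any_eq_true]
  constructor
  · rintro ⟨φ, hφ, h⟩
    obtain ⟨c, hc, rfl⟩ := List.mem_map.1 hφ
    exact ⟨c, hc, (Fml.eval_eqC V _ _ (by rw [hcs c hc]; simp [ad_cb])).1 h⟩
  · rintro ⟨c, hc, h⟩
    exact ⟨_, List.mem_map.2 ⟨c, hc, rfl⟩,
      (Fml.eval_eqC V _ _ (by rw [hcs c hc]; simp [ad_cb])).2 h⟩

theorem ad_new_eval (V : List Bool) (N N1 d : ℕ) : (ad_new N N1 d).eval V = true ↔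
    V.getD N false = true ∧ V.getD (N1 + d) false = false ∧
      ∀ u < d, V.getD (N1 + u) false = false := by
  unfold ad_new
  simp only [Fml.eval_and, Fml.eval_neg, Fml.eval_any, Bool.and_eq_true, Bool.not_eq_true',
    List.any_eq_false, List.mem_map, List.mem_range]
  constructor
  · rintro ⟨h1, h2, h3⟩
    refine ⟨h1, h2, fun u hu => ?_⟩
    have := h3 _ ⟨u, hu, rfl⟩
    simpa [Fml.eval] using this
  · rintro ⟨h1, h2, h3⟩
    refine ⟨h1, h2, ?_⟩
    rintro φ ⟨u, hu, rfl⟩
    have := h3 u hu
    show ¬ V.getD (N1 + u) false = true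
    rw [this]
    exact Bool.false_ne_true

theorem ad_fill_eval (V : List Bool) (b B N2 d k : ℕ)
    (hv : ∀ u < d, V.getD (b + u * (B + 1)) false = decide (u < k)) (u : ℕ) (hu : u < d) :
    (ad_fill b B N2 u).eval V = (V.getD N2 false && decide (u = k)) := by
  unfold ad_fill
  simp only [Fml.eval_and, Fml.eval_neg]
  have h1 : (Fml.var (b + u * (B + 1))).eval V = decide (u < k) := hv u hu
  rw [h1]
  have h2 : (if u = 0 then Fml.tru else Fml.var (b + (u - 1) * (B + 1))).eval V =
      decide (u = 0 ∨ u - 1 < k) := by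
    split_ifs with h
    · simp [Fml.eval, h]
    · have h3 : (Fml.var (b + (u - 1) * (B + 1))).eval V = decide (u - 1 < k) :=
        hv (u - 1) (by omega)
      rw [h3]
      simp [h]
  rw [h2]
  show (V.getD N2 false && (decide (u = 0 ∨ u - 1 < k) && !decide (u < k))) = _
  congr 1
  by_cases h : u = k
  · subst h
    have h5 : u = 0 ∨ u - 1 < u := by omega
    rw [decide_eq_true h5, decide_eq_false (lt_irrefl u), decide_eq_true rfl]
    rfl
  · by_cases h4 : u < k
    · simp [h, h4]
    · have : ¬ (u = 0 ∨ u - 1 < k) := by omega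
      simp [h, this]

variable {Zt Qt ι : Type} [DecidableEq Zt]

/-! ### slots -/

theorem ad_slots_congr {G : Stg Zt Qt ι} {d m B : ℕ} (D : Desc G d m B) {b N : ℕ}
    {W V : List Bool} {zl : List Zt} (hb : b + d * (B + 1) ≤ N)
    (h : ∀ i < N, V.getD i false = W.getD i false) (hS : Slots D b W zl) : Slots D b V zl := by
  intro u hu
  obtain ⟨h1, h2⟩ := hS u hu
  have hle : u * (B + 1) + (B + 1) ≤ d * (B + 1) := by
    rw [← Nat.succ_mul]
    exact Nat.mul_le_mul_right _ hu
  refine ⟨by rw [h _ (by omega), h1], fun z hz i hi => ?_⟩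
  rw [h _ (by omega), h2 z hz i hi]

/-- the new slots, if nothing is written -/
theorem ad_slots_old {G : Stg Zt Qt ι} {d m B : ℕ} (D : Desc G d m B) {N b b' N2 : ℕ}
    {V : List Bool} {zl : List Zt} (hS : Slots D b V zl)
    (h3 : ∀ u < d, ∀ j ≤ B, V.getD (b' + u * (B + 1) + j) false =
      (ad_slot N b B N2 u j).eval V) (hn : V.getD N2 false = false) : Slots D b' V zl := by
  have hv : ∀ u < d, V.getD (b + u * (B + 1)) false = decide (u < zl.length) :=
    fun u hu => (hS u hu).1
  intro u hu
  obtain ⟨h1, h2⟩ := hS u hu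
  have hf : (ad_fill b B N2 u).eval V = false := by
    rw [ad_fill_eval V b B N2 d _ hv u hu, hn, Bool.false_and]
  refine ⟨?_, fun z hz i hi => ?_⟩
  · have h4 := h3 u hu 0 (Nat.zero_le _)
    rw [Nat.add_zero] at h4
    rw [h4]
    simp only [ad_slot, if_true, Fml.eval_or, hf, Bool.or_false]
    exact h1
  · have h4 := h3 u hu (1 + i) (by omega)
    have e : b' + u * (B + 1) + (1 + i) = b' + u * (B + 1) + 1 + i := by omega
    rw [e] at h4
    rw [h4]
    simp only [ad_slot, if_neg (show ¬ (1 + i = 0) by omega), Fml.eval_ite, hf, Bool.false_eq_true,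
      if_false]
    have h5 := h2 z hz i hi
    have e2 : b + u * (B + 1) + (1 + i) = b + u * (B + 1) + 1 + i := by omega
    show V.getD (b + u * (B + 1) + (1 + i)) false = _
    rw [e2, h5]

/-- the new slots, if the entry is written -/
theorem ad_slots_new {G : Stg Zt Qt ι} {d m B : ℕ} (D : Desc G d m B) {N b b' N2 : ℕ}
    {V : List Bool} {zl : List Zt} (hS : Slots D b V zl)
    (h3 : ∀ u < d, ∀ j ≤ B, V.getD (b' + u * (B + 1) + j) false =
      (ad_slot N b B N2 u j).eval V) (hn : V.getD N2 false = true) (z₀ : Zt)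
    (hc : ∀ i < B, V.getD (N + 1 + i) false = (D.code z₀).getD i false) :
    Slots D b' V (zl ++ [z₀]) := by
  have hv : ∀ u < d, V.getD (b + u * (B + 1)) false = decide (u < zl.length) :=
    fun u hu => (hS u hu).1
  intro u hu
  obtain ⟨h1, h2⟩ := hS u hu
  have hf : (ad_fill b B N2 u).eval V = decide (u = zl.length) := by
    rw [ad_fill_eval V b B N2 d _ hv u hu, hn, Bool.true_and]
  refine ⟨?_, fun z hz i hi => ?_⟩
  · have h4 := h3 u hu 0 (Nat.zero_le _)
    rw [Nat.add_zero] at h4
    rw [h4]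
    simp only [ad_slot, if_true, Fml.eval_or, hf, List.length_append, List.length_singleton]
    show (V.getD (b + u * (B + 1)) false || decide (u = zl.length)) = _
    rw [h1, ← Bool.decide_or]
    congr 1
    simp only [eq_iff_iff]
    omega
  · have h4 := h3 u hu (1 + i) (by omega)
    have e : b' + u * (B + 1) + (1 + i) = b' + u * (B + 1) + 1 + i := by omega
    rw [e] at h4
    rw [h4]
    simp only [ad_slot, if_neg (show ¬ (1 + i = 0) by omega), Fml.eval_ite, hf]
    by_cases h5 : u = zl.length
    · have hz' : z₀ = z := by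
        rw [h5] at hz
        simpa using hz
      simp only [h5, decide_true, if_true]
      have h6 := hc i hi
      have e2 : N + (1 + i) = N + 1 + i := by omega
      show V.getD (N + (1 + i)) false = _
      rw [e2, h6, hz']
    · simp only [h5, decide_false, Bool.false_eq_true, if_false]
      have hlt : u < zl.length := by
        have h7 := (List.getElem?_eq_some_iff.1 hz).1
        rw [List.length_append, List.length_singleton] at h7
        omega
      rw [List.getElem?_append_left hlt] at hz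
      have h8 := h2 z hz i hi
      have e2 : b + u * (B + 1) + (1 + i) = b + u * (B + 1) + 1 + i := by omega
      show V.getD (b + u * (B + 1) + (1 + i)) false = _
      rw [e2, h8]

/-! ### memory -/

theorem ad_lookup {L : List (Zt × Qt)} (h : (L.map Prod.fst).Nodup) (z : Zt) (q : Qt) :
    L.lookup z = some q ↔ (z, q) ∈ L := by
  induction L with
  | nil => simp
  | cons p L ih =>
    obtain ⟨z', q'⟩ := p
    rw [List.map_cons, List.nodup_cons] at h
    rw [List.lookup_cons]
    by_cases hz : z = z'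
    · subst hz
      simp only [beq_self_eq_true, List.mem_cons, Prod.mk.injEq, true_and, Option.some.injEq]
      constructor
      · intro h1
        exact Or.inl h1.symm
      · rintro (h1 | h1)
        · exact h1.symm
        · exact absurd (List.mem_map.2 ⟨_, h1, rfl⟩) h.1
    · have : (z == z') = false := by simp [hz]
      rw [this]
      simp only [List.mem_cons, Prod.mk.injEq, hz, false_and, false_or]
      exact ih h.2

theorem ad_lookup_none {L : List (Zt × Qt)} (z : Zt) (h : z ∉ L.map Prod.fst) :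
    L.lookup z = none := by
  induction L with
  | nil => simp
  | cons p L ih =>
    obtain ⟨z', q'⟩ := p
    rw [List.map_cons, List.mem_cons, not_or] at h
    rw [List.lookup_cons]
    have : (z == z') = false := by
      simp only [beq_eq_false_iff_ne]
      exact h.1
    rw [this]
    exact ih h.2

theorem ad_zip_append : ∀ (zl : List Zt) (r : List Qt) (z : Zt) (h : zl.length < r.length),
    (zl ++ [z]).zip r = zl.zip r ++ [(z, r[zl.length])]
  | [], [], _, h => absurd h (lt_irrefl _)
  | [], q :: r, z, _ => by simp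
  | a :: zl, [], _, h => absurd h (Nat.not_lt_zero _)
  | a :: zl, q :: r, z, h => by
    have ih := ad_zip_append zl r z (Nat.lt_of_succ_lt_succ h)
    simp only [List.cons_append, List.zip_cons_cons, ih, List.length_cons, List.getElem_cons_succ]

theorem ad_mem_keys {zl : List Zt} {r : List Qt} {ρ : List (Zt × Qt)} (h : zl.length ≤ r.length) :
    (((zl.zip r).reverse ++ ρ).map Prod.fst) = zl.reverse ++ ρ.map Prod.fst := by
  rw [List.map_append, List.map_reverse, List.map_fst_zip h]

theorem ad_mem_nodup {zl : List Zt} {r : List Qt} {ρ : List (Zt × Qt)} (h : zl.length ≤ r.length)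
    (hn : (zl ++ ρ.map Prod.fst).Nodup) :
    (((zl.zip r).reverse ++ ρ).map Prod.fst).Nodup := by
  rw [ad_mem_keys h]
  rw [List.nodup_append] at hn ⊢
  refine ⟨List.nodup_reverse.2 hn.1, hn.2.1, fun a ha b hb => ?_⟩
  exact hn.2.2 a (List.mem_reverse.1 ha) b hb

/-! ### the answer -/

/-- the answer -/
def ad_ans {G : Stg Zt Qt ι} {d m B : ℕ} (D : Desc G d m B) (l : List ℕ) (N b N1 N2 : ℕ)
    (ρ : List (Zt × Qt)) (r : List Qt) : Fml :=
  Fml.or (Fml.any (ρ.map fun p => Fml.and (Fml.eqC (ad_cb N B) (D.code p.1))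
      (Fml.subst (ad_v l) (D.rdF l.length p.2))))
    (Fml.or (Fml.any (r.zipIdx.map fun p => Fml.and (Fml.var (N1 + p.2))
      (Fml.subst (ad_v l) (D.rdF l.length p.1))))
      (Fml.any (r.zipIdx.map fun p => Fml.and (ad_fill b B N2 p.2)
        (Fml.subst (ad_v l) (D.rdF l.length p.1)))))

theorem ad_ans_eval {G : Stg Zt Qt ι} {d m B : ℕ} (D : Desc G d m B) (l : List ℕ)
    (N b N1 N2 : ℕ) (ρ : List (Zt × Qt)) (r : List Qt) (V : List Bool) (hl : l.length ≤ d)
    (z : Zt) (i : ι) (hw : G.ps (sel V l) = some (PosI.dir z i)) :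
    (ad_ans D l N b N1 N2 ρ r).eval V = true ↔
      (∃ p ∈ ρ, (ad_cb N B).map (fun i => V.getD i false) = D.code p.1 ∧ G.rd p.2 i = true) ∨
      (∃ q u, r[u]? = some q ∧ V.getD (N1 + u) false = true ∧ G.rd q i = true) ∨
      (∃ q u, r[u]? = some q ∧ (ad_fill b B N2 u).eval V = true ∧ G.rd q i = true) := by
  have hlen : (sel V l).length = l.length := by simp [sel]
  have hrd : ∀ q, (Fml.subst (ad_v l) (D.rdF l.length q)).eval V = G.rd q i := by
    intro q
    rw [ad_sub_eval V l (D.rdF_size l.length hl q).2]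
    have := D.rdF_eval (sel V l) (by rw [hlen]; exact hl) z i hw q
    rwa [hlen] at this
  have hcode : ∀ z' : Zt, (Fml.eqC (ad_cb N B) (D.code z')).eval V = true ↔
      (ad_cb N B).map (fun i => V.getD i false) = D.code z' := by
    intro z'
    exact Fml.eval_eqC V _ _ (by rw [D.code_len]; simp [ad_cb])
  have A1 : (Fml.any (ρ.map fun p => Fml.and (Fml.eqC (ad_cb N B) (D.code p.1))
      (Fml.subst (ad_v l) (D.rdF l.length p.2)))).eval V = true ↔
      ∃ p ∈ ρ, (ad_cb N B).map (fun i => V.getD i false) = D.code p.1 ∧ G.rd p.2 i = true := by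
    rw [Fml.eval_any, List.any_eq_true]
    constructor
    · rintro ⟨φ, hφ, h⟩
      obtain ⟨p, hp, rfl⟩ := List.mem_map.1 hφ
      rw [Fml.eval_and, Bool.and_eq_true, hcode, hrd] at h
      exact ⟨p, hp, h⟩
    · rintro ⟨p, hp, h⟩
      refine ⟨_, List.mem_map.2 ⟨p, hp, rfl⟩, ?_⟩
      rw [Fml.eval_and, Bool.and_eq_true, hcode, hrd]
      exact h
  have A2 : (Fml.any (r.zipIdx.map fun p => Fml.and (Fml.var (N1 + p.2))
      (Fml.subst (ad_v l) (D.rdF l.length p.1)))).eval V = true ↔
      ∃ q u, r[u]? = some q ∧ V.getD (N1 + u) false = true ∧ G.rd q i = true := by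
    rw [Fml.eval_any, List.any_eq_true]
    constructor
    · rintro ⟨φ, hφ, h⟩
      obtain ⟨p, hp, rfl⟩ := List.mem_map.1 hφ
      rw [Fml.eval_and, Bool.and_eq_true, hrd] at h
      exact ⟨p.1, p.2, List.mem_zipIdx_iff_getElem?.1 hp, h⟩
    · rintro ⟨q, u, hq, h⟩
      refine ⟨_, List.mem_map.2 ⟨(q, u), List.mem_zipIdx_iff_getElem?.2 hq, rfl⟩, ?_⟩
      rw [Fml.eval_and, Bool.and_eq_true, hrd]
      exact h
  have A3 : (Fml.any (r.zipIdx.map fun p => Fml.and (ad_fill b B N2 p.2)
      (Fml.subst (ad_v l) (D.rdF l.length p.1)))).eval V = true ↔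
      ∃ q u, r[u]? = some q ∧ (ad_fill b B N2 u).eval V = true ∧ G.rd q i = true := by
    rw [Fml.eval_any, List.any_eq_true]
    constructor
    · rintro ⟨φ, hφ, h⟩
      obtain ⟨p, hp, rfl⟩ := List.mem_map.1 hφ
      rw [Fml.eval_and, Bool.and_eq_true, hrd] at h
      exact ⟨p.1, p.2, List.mem_zipIdx_iff_getElem?.1 hp, h⟩
    · rintro ⟨q, u, hq, h⟩
      refine ⟨_, List.mem_map.2 ⟨(q, u), List.mem_zipIdx_iff_getElem?.2 hq, rfl⟩, ?_⟩
      rw [Fml.eval_and, Bool.and_eq_true, hrd]
      exact h
  unfold ad_ans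
  rw [Fml.eval_or, Fml.eval_or, Bool.or_eq_true, Bool.or_eq_true, A1, A2, A3]

/-! ### bounds -/

theorem ad_slotle {u d B : ℕ} (hu : u < d) : u * (B + 1) + (B + 1) ≤ d * (B + 1) := by
  rw [← Nat.succ_mul]
  exact Nat.mul_le_mul_right _ hu

theorem ad_cb_lt {N B : ℕ} : ∀ i ∈ ad_cb N B, i < N + 1 + B := by
  intro i hi
  simp only [ad_cb, List.mem_map, List.mem_range] at hi
  obtain ⟨j, hj, rfl⟩ := hi
  omega

theorem ad_sb_lt {N b B d u : ℕ} (hb : b + d * (B + 1) ≤ N) (hu : u < d) :
    ∀ i ∈ ad_sb b B u, i < N := by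
  intro i hi
  simp only [ad_sb, List.mem_map, List.mem_range] at hi
  obtain ⟨j, hj, rfl⟩ := hi
  have := ad_slotle (B := B) hu
  omega

theorem ad_hit_below {N b B d u : ℕ} (hb : b + d * (B + 1) ≤ N) (hu : u < d) :
    (ad_hit N b B u).Below (N + 1 + B) := by
  have h1 := ad_slotle (B := B) hu
  refine Fml.below_and ?_ (Fml.below_eqV _ _ (fun i hi => ?_) ad_cb_lt)
  · show b + u * (B + 1) < N + 1 + B
    omega
  · have := ad_sb_lt hb hu i hi
    omega

theorem ad_hit_size {N b B u : ℕ} : (ad_hit N b B u).size ≤ 22 * B + 5 := by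
  have h := Fml.size_eqV (ad_sb b B u) (ad_cb N B)
  have h1 : (ad_sb b B u).length = B := by simp [ad_sb]
  rw [h1] at h
  simp only [ad_hit, Fml.size_and, Fml.size]
  omega

theorem ad_known_below {N B : ℕ} (cs : List (List Bool)) :
    (ad_known N B cs).Below (N + 1 + B) := by
  refine Fml.below_any fun φ hφ => ?_
  obtain ⟨c, _, rfl⟩ := List.mem_map.1 hφ
  exact Fml.below_eqC _ _ ad_cb_lt

theorem ad_known_size {N B : ℕ} (cs : List (List Bool)) :
    (ad_known N B cs).size ≤ cs.length * (6 * B + 1 + 5) + 3 := by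
  have h := Fml.size_any (cs.map fun c => Fml.eqC (ad_cb N B) c) (6 * B + 1) (fun φ hφ => by
    obtain ⟨c, _, rfl⟩ := List.mem_map.1 hφ
    have := Fml.size_eqC (ad_cb N B) c
    have h1 : (ad_cb N B).length = B := by simp [ad_cb]
    rwa [h1] at this)
  rwa [List.length_map] at h

theorem ad_new_below {N N1 d : ℕ} (h : N < N1) : (ad_new N N1 d).Below (N1 + d + 1) := by
  refine Fml.below_and (show N < N1 + d + 1 by omega) (Fml.below_and (Fml.below_neg
    (show N1 + d < N1 + d + 1 by omega)) (Fml.below_neg (Fml.below_any fun φ hφ => ?_)))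
  obtain ⟨u, hu, rfl⟩ := List.mem_map.1 hφ
  have := List.mem_range.1 hu
  show N1 + u < N1 + d + 1
  omega

theorem ad_new_size {N N1 d : ℕ} : (ad_new N N1 d).size ≤ 6 * d + 15 := by
  have h := Fml.size_any ((List.range d).map fun u => Fml.var (N1 + u)) 1 (fun φ hφ => by
    obtain ⟨c, _, rfl⟩ := List.mem_map.1 hφ
    simp [Fml.size])
  rw [List.length_map, List.length_range] at h
  simp only [ad_new, Fml.size_and, Fml.size_neg, Fml.size]
  omega

theorem ad_fill_below {b B N2 u t : ℕ} (h2 : N2 < t) (h : b + u * (B + 1) < t) :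
    (ad_fill b B N2 u).Below t := by
  refine Fml.below_and h2 (Fml.below_and ?_ (Fml.below_neg h))
  split_ifs with hu
  · trivial
  · show b + (u - 1) * (B + 1) < t
    have : (u - 1) * (B + 1) ≤ u * (B + 1) := Nat.mul_le_mul_right _ (Nat.sub_le _ _)
    omega

theorem ad_fill_size {b B N2 u : ℕ} : (ad_fill b B N2 u).size ≤ 11 := by
  simp only [ad_fill, Fml.size_and, Fml.size_neg, Fml.size]
  split_ifs <;> simp [Fml.size]

theorem ad_slot_below {N b B N2 d u j : ℕ} (hb : b + d * (B + 1) ≤ N) (hN : N + 1 + B ≤ N2)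
    (hu : u < d) (hj : j ≤ B) : (ad_slot N b B N2 u j).Below (N2 + 1) := by
  have h1 := ad_slotle (B := B) hu
  have hf : (ad_fill b B N2 u).Below (N2 + 1) := ad_fill_below (by omega) (by omega)
  unfold ad_slot
  split_ifs with h
  · exact Fml.below_or (show b + u * (B + 1) < N2 + 1 by omega) hf
  · exact Fml.below_ite hf (show N + j < N2 + 1 by omega)
      (show b + u * (B + 1) + j < N2 + 1 by omega)

theorem ad_slot_size {N b B N2 u j : ℕ} : (ad_slot N b B N2 u j).size ≤ 37 := by
  have h := ad_fill_size (b := b) (B := B) (N2 := N2) (u := u)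
  unfold ad_slot
  split_ifs
  · simp only [Fml.size_or, Fml.size]
    omega
  · simp only [Fml.size_ite, Fml.size]
    omega

theorem ad_zipIdx_lt {r : List Qt} {p : Qt × ℕ} (h : p ∈ r.zipIdx) : p.2 < r.length := by
  rw [List.mem_zipIdx_iff_getElem?] at h
  exact (List.getElem?_eq_some_iff.1 h).1

theorem ad_ans_below {G : Stg Zt Qt ι} {d m B : ℕ} (D : Desc G d m B) (l : List ℕ)
    {N b N1 N2 t : ℕ} (ρ : List (Zt × Qt)) (r : List Qt) (hr : r.length = d)
    (hb : b + d * (B + 1) ≤ N) (hl : l.length ≤ d) (hlN : ∀ i ∈ l, i < N) (hN1 : N + 1 + B ≤ N1)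
    (hN2 : N1 + d ≤ N2) (ht : N2 < t) : (ad_ans D l N b N1 N2 ρ r).Below t := by
  have hrd : ∀ q, (Fml.subst (ad_v l) (D.rdF l.length q)).Below t := fun q =>
    Fml.Below.mono (t := N) (by omega) (ad_sub_below l hlN (D.rdF_size l.length hl q).2)
  refine Fml.below_or (Fml.below_any fun φ hφ => ?_) (Fml.below_or
    (Fml.below_any fun φ hφ => ?_) (Fml.below_any fun φ hφ => ?_))
  · obtain ⟨p, _, rfl⟩ := List.mem_map.1 hφ
    refine Fml.below_and (Fml.below_eqC _ _ fun i hi => ?_) (hrd _)
    have := ad_cb_lt i hi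
    omega
  · obtain ⟨p, hp, rfl⟩ := List.mem_map.1 hφ
    have := ad_zipIdx_lt hp
    exact Fml.below_and (show N1 + p.2 < t by omega) (hrd _)
  · obtain ⟨p, hp, rfl⟩ := List.mem_map.1 hφ
    have h1 := ad_zipIdx_lt hp
    rw [hr] at h1
    have h2 := ad_slotle (B := B) h1
    exact Fml.below_and (ad_fill_below ht (by omega)) (hrd _)

theorem ad_ans_size {G : Stg Zt Qt ι} {d m B : ℕ} (D : Desc G d m B) (l : List ℕ)
    {N b N1 N2 : ℕ} (ρ : List (Zt × Qt)) (r : List Qt) (hr : r.length = d)
    (hl : l.length ≤ d) : (ad_ans D l N b N1 N2 ρ r).size ≤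
      ρ.length * (6 * B + m + 9) + d * (m + 9) + d * (m + 19) + 19 := by
  have hrd : ∀ q, (Fml.subst (ad_v l) (D.rdF l.length q)).size ≤ m := fun q =>
    (ad_sub_size l (D.rdF_size l.length hl q).2).trans (D.rdF_size l.length hl q).1
  have h1 := Fml.size_any (ρ.map fun p => Fml.and (Fml.eqC (ad_cb N B) (D.code p.1))
      (Fml.subst (ad_v l) (D.rdF l.length p.2))) (6 * B + 1 + m + 3) (fun φ hφ => by
    obtain ⟨p, _, rfl⟩ := List.mem_map.1 hφ
    have h2 := Fml.size_eqC (ad_cb N B) (D.code p.1)
    have h3 : (ad_cb N B).length = B := by simp [ad_cb]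
    rw [h3] at h2
    have h4 := hrd p.2
    simp only [Fml.size_and]
    omega)
  have h2 := Fml.size_any (r.zipIdx.map fun p => Fml.and (Fml.var (N1 + p.2))
      (Fml.subst (ad_v l) (D.rdF l.length p.1))) (1 + m + 3) (fun φ hφ => by
    obtain ⟨p, _, rfl⟩ := List.mem_map.1 hφ
    have h4 := hrd p.1
    simp only [Fml.size_and, Fml.size]
    omega)
  have h3 := Fml.size_any (r.zipIdx.map fun p => Fml.and (ad_fill b B N2 p.2)
      (Fml.subst (ad_v l) (D.rdF l.length p.1))) (11 + m + 3) (fun φ hφ => by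
    obtain ⟨p, _, rfl⟩ := List.mem_map.1 hφ
    have h4 := hrd p.1
    have h5 := ad_fill_size (b := b) (B := B) (N2 := N2) (u := p.2)
    simp only [Fml.size_and]
    omega)
  rw [List.length_map] at h1
  rw [List.length_map, List.length_zipIdx, hr] at h2 h3
  unfold ad_ans
  simp only [Fml.size_or]
  have e1 : ρ.length * (6 * B + 1 + m + 3 + 5) = ρ.length * (6 * B + m + 9) := by ring
  have e2 : d * (1 + m + 3 + 5) = d * (m + 9) := by ring
  have e3 : d * (11 + m + 3 + 5) = d * (m + 19) := by ring
  rw [e1] at h1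
  rw [e2] at h2
  rw [e3] at h3
  omega

/-! ### the simulation of a direct question -/

theorem ad_mans_some (G : Stg Zt Qt ι) (O : Lang) {w : Str} {ρ : List (Zt × Qt)} {r : List Qt}
    {z : Zt} {i : ι} {q : Qt} (h : G.ps w = some (PosI.dir z i)) (hq : ρ.lookup z = some q) :
    mans G O w ρ r = (G.rd q i, (ρ, r)) := by
  unfold mans
  rw [h]
  simp only [hq]

theorem ad_mans_new (G : Stg Zt Qt ι) (O : Lang) {w : Str} {ρ : List (Zt × Qt)} {r : List Qt}
    {z : Zt} {i : ι} {q : Qt} (h : G.ps w = some (PosI.dir z i)) (hq : ρ.lookup z = none) :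
    mans G O w ρ (q :: r) = (G.rd q i, ((z, q) :: ρ, r)) := by
  unfold mans
  rw [h]
  simp only [hq]

/-- the meaning of the bits -/
theorem ad_sem (G : Stg Zt Qt ι) {d m B : ℕ} (D : Desc G d m B) (ρ : List (Zt × Qt))
    (hρ : (ρ.map Prod.fst).Nodup) (r : List Qt) (hr : r.length = d) (N b b' N1 N2 N4 : ℕ)
    (l : List ℕ) (hl : l.length ≤ d) (O : Lang) (V : List Bool)
    (zl : List Zt) (hS : Slots D b V zl) (hzd : zl.length < d)
    (hnd : (zl ++ ρ.map Prod.fst).Nodup)
    (E0 : V.getD N false = (D.dirF l.length).eval (sel V l))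
    (Ec : (D.rep l.length).map (fun φ => φ.eval (sel V l)) =
      (ad_cb N B).map fun i => V.getD i false)
    (E1 : ∀ u < d, V.getD (N1 + u) false = (ad_hit N b B u).eval V)
    (E1' : V.getD (N1 + d) false = (ad_known N B (ρ.map fun p => D.code p.1)).eval V)
    (E2 : V.getD N2 false = (ad_new N N1 d).eval V)
    (E3 : ∀ u < d, ∀ j ≤ B, V.getD (b' + u * (B + 1) + j) false = (ad_slot N b B N2 u j).eval V)
    (E4 : V.getD N4 false = (ad_ans D l N b N1 N2 ρ r).eval V) :
    ∃ zs' : List Zt, Slots D b' V zs' ∧ zs'.length ≤ zl.length + 1 ∧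
      (zs' ++ ρ.map Prod.fst).Nodup ∧
      ((∀ z i, G.ps (sel V l) ≠ some (PosI.dir z i)) → zs' = zl) ∧
      ∀ z i, G.ps (sel V l) = some (PosI.dir z i) →
        mans G O (sel V l) ((zl.zip r).reverse ++ ρ) (r.drop zl.length) =
          (V.getD N4 false, ((zs'.zip r).reverse ++ ρ, r.drop zs'.length)) := by
  have hlen : (sel V l).length = l.length := by simp [sel]
  have hlen' : (sel V l).length ≤ d := by rw [hlen]; exact hl
  have hv : ∀ u < d, V.getD (b + u * (B + 1)) false = decide (u < zl.length) :=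
    fun u hu => (hS u hu).1
  have hfill : ∀ u < d, (ad_fill b B N2 u).eval V = (V.getD N2 false && decide (u = zl.length)) :=
    fun u hu => ad_fill_eval V b B N2 d _ hv u hu
  by_cases hdir : ∃ z i, G.ps (sel V l) = some (PosI.dir z i)
  swap
  · -- not a direct question
    have h0 : V.getD N false = false := by
      rw [E0, Bool.eq_false_iff]
      intro h
      have := (D.dirF_eval (sel V l) hlen').1 (by rw [hlen]; exact h)
      exact hdir this
    have h2 : V.getD N2 false = false := by
      rw [E2, Bool.eq_false_iff]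
      intro h
      have := ((ad_new_eval V N N1 d).1 h).1
      rw [h0] at this
      exact Bool.false_ne_true this
    exact ⟨zl, ad_slots_old D hS E3 h2, Nat.le_succ _, hnd, fun _ => rfl,
      fun z i h => absurd ⟨z, i, h⟩ hdir⟩
  obtain ⟨z, i, hps⟩ := hdir
  -- the code
  have hcb : (ad_cb N B).map (fun i => V.getD i false) = D.code z := by
    rw [← Ec]
    have := D.rep_eval (sel V l) hlen' z i hps
    rwa [hlen] at this
  have hcode : ∀ i < B, V.getD (N + 1 + i) false = (D.code z).getD i false :=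
    (ad_cb_map V N B _ (D.code_len z)).1 hcb
  have hinj : ∀ z', D.code z' = D.code z → z' = z := D.inj (sel V l) hlen' z i hps
  have h0 : V.getD N false = true := by
    rw [E0]
    have := (D.dirF_eval (sel V l) hlen').2 ⟨z, i, hps⟩
    rwa [hlen] at this
  have hhit : ∀ u < d, V.getD (N1 + u) false = true ↔ zl[u]? = some z := by
    intro u hu
    rw [E1 u hu, ad_hit_eval, hcb, hv u hu, decide_eq_true_iff]
    constructor
    · rintro ⟨h1, h2⟩
      have h3 : zl[u]? = some zl[u] := List.getElem?_eq_getElem h1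
      have h4 := (hS u hu).2 _ h3
      have h5 := (ad_sb_map V b B u _ (D.code_len zl[u])).2 h4
      rw [h5] at h2
      rw [h3, hinj _ h2]
    · intro h1
      refine ⟨(List.getElem?_eq_some_iff.1 h1).1, ?_⟩
      exact (ad_sb_map V b B u _ (D.code_len z)).2 ((hS u hu).2 _ h1)
  have hknown : V.getD (N1 + d) false = true ↔ z ∈ ρ.map Prod.fst := by
    rw [E1', ad_known_eval V N B _ (fun c hc => by
      obtain ⟨p, _, rfl⟩ := List.mem_map.1 hc
      exact D.code_len _), hcb]
    constructor
    · rintro ⟨c, hc, h1⟩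
      obtain ⟨p, hp, rfl⟩ := List.mem_map.1 hc
      rw [List.mem_map]
      exact ⟨p, hp, hinj _ h1.symm⟩
    · intro h1
      obtain ⟨p, hp, h2⟩ := List.mem_map.1 h1
      exact ⟨_, List.mem_map.2 ⟨p, hp, rfl⟩, by rw [h2]⟩
  have hnew : V.getD N2 false = true ↔ z ∉ ρ.map Prod.fst ∧ z ∉ zl := by
    rw [E2, ad_new_eval]
    constructor
    · rintro ⟨-, h1, h2⟩
      refine ⟨fun h3 => ?_, fun h3 => ?_⟩
      · rw [hknown.2 h3] at h1
        exact Bool.false_ne_true h1.symm
      · obtain ⟨u, hu⟩ := List.mem_iff_getElem?.1 h3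
        have hud : u < d := lt_trans (List.getElem?_eq_some_iff.1 hu).1 hzd
        have := h2 u hud
        rw [(hhit u hud).2 hu] at this
        exact Bool.false_ne_true this.symm
    · rintro ⟨h1, h2⟩
      refine ⟨h0, ?_, fun u hu => ?_⟩
      · rw [Bool.eq_false_iff]
        exact fun h => h1 (hknown.1 h)
      · rw [Bool.eq_false_iff]
        exact fun h => h2 (List.mem_iff_getElem?.2 ⟨u, (hhit u hu).1 h⟩)
  have hans := ad_ans_eval D l N b N1 N2 ρ r V hl z i hps
  rw [hcb, ← E4] at hans
  have hzr : zl.length ≤ r.length := by omega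
  have hmem := ad_mem_nodup (r := r) hzr hnd
  have hdisj : ∀ z', z' ∈ zl → z' ∉ ρ.map Prod.fst := fun z' h1 h2 =>
    (List.nodup_append.1 hnd).2.2 z' h1 z' h2 rfl
  -- bits of the answer
  have key : ∀ q : Qt, (V.getD N4 false = true ↔ G.rd q i = true) →
      V.getD N4 false = G.rd q i := fun q h => Bool.eq_iff_iff.2 h
  have hpi : ∀ z' i', G.ps (sel V l) = some (PosI.dir z' i') → z' = z ∧ i' = i := by
    intro z' i' h
    rw [hps] at h
    injection h with h
    injection h with h1 h2
    exact ⟨h1.symm, h2.symm⟩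
  by_cases hk : z ∈ ρ.map Prod.fst
  · -- known
    have h2 : V.getD N2 false = false := by
      rw [Bool.eq_false_iff]
      exact fun h => (hnew.1 h).1 hk
    refine ⟨zl, ad_slots_old D hS E3 h2, Nat.le_succ _, hnd, fun _ => rfl, ?_⟩
    intro z' i' h
    obtain ⟨rfl, rfl⟩ := hpi z' i' h
    obtain ⟨⟨z0, q⟩, hp, h3⟩ := List.mem_map.1 hk
    obtain rfl : z0 = z' := h3
    have hlk := (ad_lookup hmem z0 q).2 (List.mem_append_right _ hp)
    rw [ad_mans_some G O hps hlk, key q ?_]
    rw [hans]
    constructor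
    · rintro (⟨p, hp', h4, h5⟩ | ⟨q', u, h4, h5, h6⟩ | ⟨q', u, h4, h5, h6⟩)
      · have h6 : p.1 = z0 := hinj _ h4.symm
        have h7 : (z0, p.2) ∈ ρ := by rw [← h6]; exact hp'
        have h8 := (ad_lookup hρ z0 p.2).2 h7
        rw [(ad_lookup hρ z0 q).2 hp] at h8
        injection h8 with h8
        rwa [h8]
      · have hu : u < d := by
          rw [← hr]
          exact (List.getElem?_eq_some_iff.1 h4).1
        exact absurd hk (hdisj _ (List.mem_iff_getElem?.2 ⟨u, (hhit u hu).1 h5⟩))
      · have hu : u < d := by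
          rw [← hr]
          exact (List.getElem?_eq_some_iff.1 h4).1
        rw [hfill u hu, h2, Bool.false_and] at h5
        exact absurd h5 Bool.false_ne_true
    · intro h4
      exact Or.inl ⟨(z0, q), hp, rfl, h4⟩
  by_cases ho : z ∈ zl
  · -- in a slot
    have h2 : V.getD N2 false = false := by
      rw [Bool.eq_false_iff]
      exact fun h => (hnew.1 h).2 ho
    refine ⟨zl, ad_slots_old D hS E3 h2, Nat.le_succ _, hnd, fun _ => rfl, ?_⟩
    intro z' i' h
    obtain ⟨rfl, rfl⟩ := hpi z' i' h
    obtain ⟨u0, hu0⟩ := List.mem_iff_getElem?.1 ho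
    have hu0l : u0 < zl.length := (List.getElem?_eq_some_iff.1 hu0).1
    have hu0r : u0 < r.length := by omega
    have hr0 : r[u0]? = some r[u0] := List.getElem?_eq_getElem hu0r
    have hzip : (z', r[u0]) ∈ zl.zip r := by
      rw [List.mem_iff_getElem?]
      exact ⟨u0, List.getElem?_zip_eq_some.2 ⟨hu0, hr0⟩⟩
    have hlk := (ad_lookup hmem z' r[u0]).2
      (List.mem_append_left _ (List.mem_reverse.2 hzip))
    rw [ad_mans_some G O hps hlk, key r[u0] ?_]
    rw [hans]
    constructor
    · rintro (⟨p, hp', h4, h5⟩ | ⟨q', u, h4, h5, h6⟩ | ⟨q', u, h4, h5, h6⟩)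
      · have h6 : p.1 = z' := hinj _ h4.symm
        exact absurd (List.mem_map.2 ⟨p, hp', h6⟩) hk
      · have hu : u < d := by
          rw [← hr]
          exact (List.getElem?_eq_some_iff.1 h4).1
        have h7 := (hhit u hu).1 h5
        have h8 : u = u0 := by
          have h9 := (List.nodup_append.1 hnd).1
          by_contra hne
          rcases Nat.lt_or_gt_of_ne hne with h10 | h10
          · exact List.nodup_iff_getElem?_ne_getElem?.1 h9 u u0 h10 hu0l (by rw [h7, hu0])
          · exact List.nodup_iff_getElem?_ne_getElem?.1 h9 u0 u h10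
              (List.getElem?_eq_some_iff.1 h7).1 (by rw [h7, hu0])
        rw [h8, hr0] at h4
        injection h4 with h4
        rwa [h4]
      · have hu : u < d := by
          rw [← hr]
          exact (List.getElem?_eq_some_iff.1 h4).1
        rw [hfill u hu, h2, Bool.false_and] at h5
        exact absurd h5 Bool.false_ne_true
    · intro h4
      exact Or.inr (Or.inl ⟨r[u0], u0, hr0, (hhit u0 (by omega)).2 hu0, h4⟩)
  · -- new
    have h2 : V.getD N2 false = true := hnew.2 ⟨hk, ho⟩
    refine ⟨zl ++ [z], ad_slots_new D hS E3 h2 z hcode, by simp, ?_, ?_, ?_⟩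
    · rw [List.nodup_append] at hnd ⊢
      refine ⟨?_, hnd.2.1, ?_⟩
      · rw [List.nodup_append]
        refine ⟨hnd.1, List.nodup_singleton _, fun a ha b hb' hab => ?_⟩
        rw [List.mem_singleton] at hb'
        rw [hab, hb'] at ha
        exact ho ha
      · intro a ha c hc hac
        rw [List.mem_append, List.mem_singleton] at ha
        rcases ha with ha | ha
        · exact hnd.2.2 a ha c hc hac
        · rw [← hac, ha] at hc
          exact hk hc
    · intro h
      exact absurd hps (h z i)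
    intro z' i' h
    obtain ⟨rfl, rfl⟩ := hpi z' i' h
    have hlr : zl.length < r.length := by omega
    have hr0 : r[zl.length]? = some r[zl.length] := List.getElem?_eq_getElem hlr
    have hlk : ((zl.zip r).reverse ++ ρ).lookup z' = none := by
      apply ad_lookup_none
      rw [ad_mem_keys hzr, List.mem_append, List.mem_reverse]
      rintro (h3 | h3)
      · exact ho h3
      · exact hk h3
    have hdrop : r.drop zl.length = r[zl.length] :: r.drop (zl.length + 1) :=
      List.drop_eq_getElem_cons hlr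
    rw [hdrop, ad_mans_new G O hps hlk, key r[zl.length] ?_]
    · have hz2 := ad_zip_append zl r z' hlr
      rw [hz2, List.reverse_append, List.length_append, List.length_singleton]
      rfl
    rw [hans]
    constructor
    · rintro (⟨p, hp', h4, h5⟩ | ⟨q', u, h4, h5, h6⟩ | ⟨q', u, h4, h5, h6⟩)
      · have h6 : p.1 = z' := hinj _ h4.symm
        exact absurd (List.mem_map.2 ⟨p, hp', h6⟩) hk
      · have hu : u < d := by
          rw [← hr]
          exact (List.getElem?_eq_some_iff.1 h4).1
        exact absurd (List.mem_iff_getElem?.2 ⟨u, (hhit u hu).1 h5⟩) ho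
      · have hu : u < d := by
          rw [← hr]
          exact (List.getElem?_eq_some_iff.1 h4).1
        rw [hfill u hu, h2, Bool.true_and, decide_eq_true_iff] at h5
        rw [h5, hr0] at h4
        injection h4 with h4
        rwa [h4]
    · intro h4
      refine Or.inr (Or.inr ⟨r[zl.length], zl.length, hr0, ?_, h4⟩)
      rw [hfill _ hzd, h2]
      simp

theorem dir_gates (G : Stg Zt Qt ι) {d m B : ℕ} (D : Desc G d m B) (ρ : List (Zt × Qt))
    (hρ : (ρ.map Prod.fst).Nodup) (r : List Qt) (hr : r.length = d) (N b : ℕ)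
    (hb : b + d * (B + 1) ≤ N) (l : List ℕ) (hl : l.length ≤ d) (hlN : ∀ i ∈ l, i < N) :
    ∃ (gs : List Gate) (b' : ℕ), gs ≠ [] ∧
      gsz gs ≤ 256 * (m + 1) * (B + 1) * (ρ.length + d + 1) ∧ (∀ g ∈ gs, ∃ φ, g = Gate.fml φ) ∧
      (∀ g ∈ gs, g.Below (N + gs.length)) ∧ b' + d * (B + 1) ≤ N + gs.length ∧
      ∀ (O : Lang) (ch : List Str → Str → Bool) (W : List Bool) (qs : List Str) (zs : List Zt),
        W.length = N → Slots D b W zs → zs.length < d → (zs ++ ρ.map Prod.fst).Nodup →
        ∃ (U : List Bool) (zs' : List Zt), U.length = gs.length ∧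
          gs.foldl (gstep O ch) (W, qs) = (W ++ U, qs) ∧ Slots D b' (W ++ U) zs' ∧
          zs'.length ≤ zs.length + 1 ∧ (zs' ++ ρ.map Prod.fst).Nodup ∧
          ((∀ z i, G.ps (sel W l) ≠ some (PosI.dir z i)) → zs' = zs) ∧
          ∀ z i, G.ps (sel W l) = some (PosI.dir z i) →
            mans G O (sel W l) ((zs.zip r).reverse ++ ρ) (r.drop zs.length) =
              ((W ++ U).getD (N + gs.length - 1) false,
                ((zs'.zip r).reverse ++ ρ, r.drop zs'.length)) := by
  classical
  obtain ⟨N1, hN1⟩ : ∃ N1, N1 = N + 1 + B := ⟨_, rfl⟩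
  obtain ⟨N2, hN2⟩ : ∃ N2, N2 = N1 + d + 1 := ⟨_, rfl⟩
  obtain ⟨fs0, hfs0⟩ : ∃ fs, fs = Fml.subst (ad_v l) (D.dirF l.length) ::
    (D.rep l.length).map (Fml.subst (ad_v l)) := ⟨_, rfl⟩
  obtain ⟨fs1, hfs1⟩ : ∃ fs, fs = (List.range d).map (ad_hit N b B) := ⟨_, rfl⟩
  obtain ⟨fs2, hfs2⟩ : ∃ fs, fs = [ad_known N B (ρ.map fun p => D.code p.1)] := ⟨_, rfl⟩
  obtain ⟨fs3, hfs3⟩ : ∃ fs, fs = [ad_new N N1 d] := ⟨_, rfl⟩
  obtain ⟨fs4, hfs4⟩ : ∃ fs, fs = (List.range (d * (B + 1))).map fun t =>
    ad_slot N b B N2 (t / (B + 1)) (t % (B + 1)) := ⟨_, rfl⟩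
  obtain ⟨fs5, hfs5⟩ : ∃ fs, fs = [ad_ans D l N b N1 N2 ρ r] := ⟨_, rfl⟩
  have l0 : fs0.length = 1 + B := by
    rw [hfs0, List.length_cons, List.length_map, D.rep_len]; omega
  have l1 : fs1.length = d := by rw [hfs1]; simp
  have l2 : fs2.length = 1 := by rw [hfs2]; simp
  have l3 : fs3.length = 1 := by rw [hfs3]; simp
  have l4 : fs4.length = d * (B + 1) := by rw [hfs4]; simp
  have l5 : fs5.length = 1 := by rw [hfs5]; simp
  obtain ⟨fs, hfs⟩ : ∃ fs, fs = fs0 ++ (fs1 ++ (fs2 ++ (fs3 ++ (fs4 ++ fs5)))) := ⟨_, rfl⟩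
  have lf : fs.length = 1 + B + (d + (1 + (1 + (d * (B + 1) + 1)))) := by
    rw [hfs]
    simp only [List.length_append, l0, l1, l2, l3, l4, l5]
  have hq : ∀ t, t < d * (B + 1) → t / (B + 1) < d := fun t ht =>
    (Nat.div_lt_iff_lt_mul (Nat.succ_pos B)).2 ht
  have hm1 : ∀ t, t % (B + 1) ≤ B := fun t => Nat.le_of_lt_succ (Nat.mod_lt _ (Nat.succ_pos B))
  -- bounds for the numbers of the bits
  have hBel : ad_Bel N fs := by
    rw [hfs]
    refine ad_Bel_append (ad_Bel_of ?_) (ad_Bel_append (ad_Bel_of ?_) (ad_Bel_append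
      (ad_Bel_of ?_) (ad_Bel_append (ad_Bel_of ?_) (ad_Bel_append (ad_Bel_of ?_)
      (ad_Bel_of ?_)))))
    · intro φ hφ
      rw [hfs0, List.mem_cons, List.mem_map] at hφ
      rcases hφ with rfl | ⟨ψ, hψ, rfl⟩
      · exact ad_sub_below l hlN (D.dirF_size _ hl).2
      · exact ad_sub_below l hlN (D.rep_size _ hl ψ hψ).2
    · intro φ hφ
      rw [hfs1, List.mem_map] at hφ
      obtain ⟨u, hu, rfl⟩ := hφ
      rw [l0]
      exact Fml.Below.mono (by omega) (ad_hit_below hb (List.mem_range.1 hu))
    · intro φ hφ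
      rw [hfs2, List.mem_singleton] at hφ
      rw [hφ, l0, l1]
      exact Fml.Below.mono (by omega) (ad_known_below _)
    · intro φ hφ
      rw [hfs3, List.mem_singleton] at hφ
      rw [hφ, l0, l1, l2]
      exact Fml.Below.mono (by omega) (ad_new_below (show N < N1 by omega))
    · intro φ hφ
      rw [hfs4, List.mem_map] at hφ
      obtain ⟨t, ht, rfl⟩ := hφ
      rw [l0, l1, l2, l3]
      exact Fml.Below.mono (t := N2 + 1) (by omega) (ad_slot_below hb (by omega)
        (hq t (List.mem_range.1 ht)) (hm1 t))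
    · intro φ hφ
      rw [hfs5, List.mem_singleton] at hφ
      rw [hφ, l0, l1, l2, l3, l4]
      exact ad_ans_below D l ρ r hr hb hl hlN (by omega) (by omega)
        (show N2 < _ by omega)
  refine ⟨fs.map Gate.fml, N2 + 1, ?_, ?_, ?_, ?_, ?_, ?_⟩
  · intro h
    have := congrArg List.length h
    rw [List.length_map, lf] at this
    simp at this
  · -- size
    rw [hfs]
    simp only [List.map_append, gsz_append]
    have s0 := gsz_fml fs0 m (fun φ hφ => by
      rw [hfs0, List.mem_cons, List.mem_map] at hφ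
      rcases hφ with rfl | ⟨ψ, hψ, rfl⟩
      · exact (ad_sub_size l (D.dirF_size _ hl).2).trans (D.dirF_size _ hl).1
      · exact (ad_sub_size l (D.rep_size _ hl ψ hψ).2).trans (D.rep_size _ hl ψ hψ).1)
    have s1 := gsz_fml fs1 (22 * B + 5) (fun φ hφ => by
      rw [hfs1, List.mem_map] at hφ
      obtain ⟨u, hu, rfl⟩ := hφ
      exact ad_hit_size)
    have s2 := gsz_fml fs2 (ρ.length * (6 * B + 1 + 5) + 3) (fun φ hφ => by
      rw [hfs2, List.mem_singleton] at hφ
      rw [hφ]
      have := ad_known_size (N := N) (B := B) (ρ.map fun p => D.code p.1)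
      rwa [List.length_map] at this)
    have s3 := gsz_fml fs3 (6 * d + 15) (fun φ hφ => by
      rw [hfs3, List.mem_singleton] at hφ
      rw [hφ]
      exact ad_new_size)
    have s4 := gsz_fml fs4 37 (fun φ hφ => by
      rw [hfs4, List.mem_map] at hφ
      obtain ⟨t, ht, rfl⟩ := hφ
      exact ad_slot_size)
    have s5 := gsz_fml fs5 (ρ.length * (6 * B + m + 9) + d * (m + 9) + d * (m + 19) + 19)
      (fun φ hφ => by
        rw [hfs5, List.mem_singleton] at hφ
        rw [hφ]
        exact ad_ans_size D l ρ r hr hl)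
    rw [l0] at s0
    rw [l1] at s1
    rw [l2] at s2
    rw [l3] at s3
    rw [l4] at s4
    rw [l5] at s5
    have hsum : (1 + B) * (m + 1) + d * (22 * B + 5 + 1) + 1 * (ρ.length * (6 * B + 1 + 5) + 3 + 1) +
        1 * (6 * d + 15 + 1) + d * (B + 1) * (37 + 1) +
        1 * (ρ.length * (6 * B + m + 9) + d * (m + 9) + d * (m + 19) + 19 + 1) ≤
        256 * (m + 1) * (B + 1) * (ρ.length + d + 1) := by
      generalize ρ.length = k
      have e1 : 256 * (m + 1) * (B + 1) * (k + d + 1) =
          256 * (m * B * k + m * B * d + m * B + m * k + m * d + m + B * k + B * d + B + k + d +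
            1) := by ring
      have e2 : (1 + B) * (m + 1) + d * (22 * B + 5 + 1) + 1 * (k * (6 * B + 1 + 5) + 3 + 1) +
        1 * (6 * d + 15 + 1) + d * (B + 1) * (37 + 1) +
        1 * (k * (6 * B + m + 9) + d * (m + 9) + d * (m + 19) + 19 + 1) =
          m * B + m + B + 1 + 22 * (B * d) + 6 * d + 6 * (B * k) + 6 * k + 4 + 6 * d + 16 +
            38 * (B * d) + 38 * d + 6 * (B * k) + m * k + 9 * k + m * d + 9 * d + m * d + 19 * d +
            20 := by ring
      rw [e1, e2]
      generalize m * B * k = x1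
      generalize m * B * d = x2
      generalize m * B = x3
      generalize m * k = x4
      generalize m * d = x5
      generalize B * k = x6
      generalize B * d = x7
      omega
    omega
  · intro g hg
    obtain ⟨φ, _, rfl⟩ := List.mem_map.1 hg
    exact ⟨φ, rfl⟩
  · intro g hg
    obtain ⟨φ, hφ, rfl⟩ := List.mem_map.1 hg
    obtain ⟨t, ht⟩ := List.mem_iff_getElem?.1 hφ
    have h1 := hBel t φ ht
    have h2 := (List.getElem?_eq_some_iff.1 ht).1
    rw [List.length_map]
    exact Fml.Below.mono (by omega) h1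
  · rw [List.length_map, lf]
    omega
  · intro O ch W qs zl hW hS hzd hnd
    obtain ⟨U, hU1, hU2, hU3⟩ := ad_run O ch qs fs W (by rw [hW]; exact hBel)
    rw [hW] at hU3
    obtain ⟨V, hV⟩ : ∃ V, V = W ++ U := ⟨_, rfl⟩
    rw [← hV] at hU3
    have hVW : ∀ i < N, V.getD i false = W.getD i false := by
      intro i hi
      rw [hV]
      exact Fml.getD_append_lt (by rw [hW]; exact hi)
    have hsel : sel W l = sel V l := by
      unfold sel
      exact List.map_congr_left fun i hi => (hVW i (hlN i hi)).symm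
    rw [hfs] at hU3
    obtain ⟨r0, hU4⟩ := ad_Run_append hU3
    obtain ⟨r1, hU5⟩ := ad_Run_append hU4
    obtain ⟨r2, hU6⟩ := ad_Run_append hU5
    obtain ⟨r3, hU7⟩ := ad_Run_append hU6
    obtain ⟨r4, r5⟩ := ad_Run_append hU7
    rw [l0] at r1 r2 r3 r4 r5
    rw [l1] at r2 r3 r4 r5
    rw [l2] at r3 r4 r5
    rw [l3] at r4 r5
    rw [l4] at r5
    have E0 : V.getD N false = (D.dirF l.length).eval (sel V l) := by
      have := r0 0 _ (by rw [hfs0]; rfl)
      rw [Nat.add_zero] at this
      rw [this, ad_sub_eval V l (D.dirF_size _ hl).2]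
    have Ec : (D.rep l.length).map (fun φ => φ.eval (sel V l)) =
        (ad_cb N B).map fun i => V.getD i false := by
      have hrl := D.rep_len l.length
      symm
      rw [ad_cb_map V N B _ (by rw [List.length_map, hrl])]
      intro i hi
      have hi' : i < (D.rep l.length).length := by rw [hrl]; exact hi
      have := r0 (1 + i) (Fml.subst (ad_v l) (D.rep l.length)[i]) (by
        rw [hfs0, Nat.add_comm 1 i, List.getElem?_cons_succ, List.getElem?_map,
          List.getElem?_eq_getElem hi']
        rfl)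
      have e : N + (1 + i) = N + 1 + i := by omega
      rw [e] at this
      rw [this, ad_sub_eval V l (D.rep_size _ hl _ (List.getElem_mem hi')).2,
        List.getD_eq_getElem _ _ (by rw [List.length_map]; exact hi'), List.getElem_map]
    have E1 : ∀ u < d, V.getD (N1 + u) false = (ad_hit N b B u).eval V := by
      intro u hu
      have := r1 u _ (by
        rw [hfs1, List.getElem?_map, List.getElem?_range hu]
        rfl)
      have e : N + (1 + B) + u = N1 + u := by omega
      rw [e] at this
      exact this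
    have E1' : V.getD (N1 + d) false = (ad_known N B (ρ.map fun p => D.code p.1)).eval V := by
      have := r2 0 _ (by rw [hfs2]; rfl)
      have e : N + (1 + B) + d + 0 = N1 + d := by omega
      rw [e] at this
      exact this
    have E2 : V.getD N2 false = (ad_new N N1 d).eval V := by
      have := r3 0 _ (by rw [hfs3]; rfl)
      have e : N + (1 + B) + d + 1 + 0 = N2 := by omega
      rw [e] at this
      exact this
    have E3 : ∀ u < d, ∀ j ≤ B, V.getD (N2 + 1 + u * (B + 1) + j) false =
        (ad_slot N b B N2 u j).eval V := by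
      intro u hu j hj
      have h1 := ad_slotle (B := B) hu
      have := r4 (u * (B + 1) + j) _ (by
        rw [hfs4, List.getElem?_map, List.getElem?_range (by omega)]
        rfl)
      have e : N + (1 + B) + d + 1 + 1 + (u * (B + 1) + j) = N2 + 1 + u * (B + 1) + j := by omega
      have e1 : (u * (B + 1) + j) / (B + 1) = u := by
        rw [Nat.add_comm, Nat.add_mul_div_right _ _ (Nat.succ_pos B),
          Nat.div_eq_of_lt (Nat.lt_succ_of_le hj), Nat.zero_add]
      have e2 : (u * (B + 1) + j) % (B + 1) = j := by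
        rw [Nat.add_comm, Nat.add_mul_mod_self_right, Nat.mod_eq_of_lt (Nat.lt_succ_of_le hj)]
      rw [e] at this
      beta_reduce at this
      rw [e1, e2] at this
      exact this
    have hN4 : N + (fs.map Gate.fml).length - 1 = N2 + 1 + d * (B + 1) := by
      rw [List.length_map, lf]
      omega
    have E4 : V.getD (N2 + 1 + d * (B + 1)) false = (ad_ans D l N b N1 N2 ρ r).eval V := by
      have := r5 0 _ (by rw [hfs5]; rfl)
      have e : N + (1 + B) + d + 1 + 1 + d * (B + 1) + 0 = N2 + 1 + d * (B + 1) := by omega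
      rw [e] at this
      exact this
    obtain ⟨zs', h1, h2, h3, h4, h5⟩ := ad_sem G D ρ hρ r hr N b (N2 + 1) N1 N2
      (N2 + 1 + d * (B + 1)) l hl O V zl (ad_slots_congr D hb hVW hS) hzd hnd E0 Ec E1 E1' E2 E3 E4
    refine ⟨U, zs', by rw [List.length_map]; exact hU1, hU2, ?_, h2, h3, ?_, ?_⟩
    · rw [← hV]
      exact h1
    · rw [hsel]
      exact h4
    · rw [hsel, ← hV, hN4]
      exact h5

end AD


end Pool.Agent.ABO
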