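import Pool.Agent.Lib_helper27.ABO.Fm
import Pool.Agent.Lib_helper74.IS.All

/-!
# ABO, block AI: gates for an inverse question
-/

set_option autoImplicit false

namespace Pool.Agent.ABO

open Pool.Agent.CK
open Pool.Agent.TD (Str su sj st Act se sm sM sn sD ZSet Z Q unitv Lam KK dd)
open Pool.Agent.TD.IS (PosI Stg uq patchI simI evM icode idec strip ISet posK zs updI PLW PTW
  invTreeW thrX invTab excI LocalWith PolyLocal Cls EL)

/-! ### the state machine -/

/-- one entry -/
def ai_st (s : Bool × Bool × Bool) (x : Bool × Bool) : Bool × Bool × Bool :=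
  (s.1 || x.1, s.2.1 || (s.1 && x.1), s.2.2 || (x.1 && x.2))

theorem ai_st_false (s : Bool × Bool × Bool) (x : Bool × Bool) (h : x.1 = false) :
    ai_st s x = s := by
  obtain ⟨a, b, c⟩ := s
  simp [ai_st, h]

theorem ai_fold_filter (L : List (Bool × Bool)) : ∀ s : Bool × Bool × Bool,
    L.foldl ai_st s = (L.filter fun x => x.1).foldl ai_st s := by
  induction L with
  | nil => intro s; rfl
  | cons x L ih =>
    intro s
    by_cases hx : x.1 = true
    · rw [List.filter_cons_of_pos hx, List.foldl_cons, List.foldl_cons, ih]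
    · have hx' : x.1 = false := by simpa using hx
      rw [List.filter_cons_of_neg hx, List.foldl_cons, ai_st_false s x hx', ih]

theorem ai_fold_true (L : List (Bool × Bool)) : ∀ s : Bool × Bool × Bool, s.1 = true →
    s.2.1 = true → (L.foldl ai_st s).1 = true ∧ (L.foldl ai_st s).2.1 = true := by
  induction L with
  | nil => intro s h1 h2; exact ⟨h1, h2⟩
  | cons x L ih =>
    intro s h1 h2
    rw [List.foldl_cons]
    exact ih _ (by simp [ai_st, h1]) (by simp [ai_st, h2])

/-- the answer at the end -/
def ai_res (a0 : Bool) (s : Bool × Bool × Bool) : Bool :=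
  if (s.1 && !s.2.1) = true then s.2.2 else a0

theorem ai_res_fold (a0 : Bool) (L : List (Bool × Bool)) :
    ai_res a0 (L.foldl ai_st (false, false, false)) =
      match L.filter (fun x => x.1) with
      | [x] => x.2
      | _ => a0 := by
  rw [ai_fold_filter]
  have hall : ∀ x ∈ L.filter (fun x => x.1), x.1 = true := fun x hx => by
    simpa using (List.mem_filter.mp hx).2
  generalize L.filter (fun x => x.1) = L' at hall
  rcases L' with _ | ⟨x, _ | ⟨y, t⟩⟩
  · simp [ai_res]
  · have := hall x (by simp)
    simp [ai_res, ai_st, this]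
  · have h1 := hall x (by simp)
    have h2 := hall y (by simp)
    obtain ⟨h3, h4⟩ := ai_fold_true t (ai_st (ai_st (false, false, false) x) y)
      (by simp [ai_st, h1]) (by simp [ai_st, h1, h2])
    show ai_res a0 (t.foldl ai_st (ai_st (ai_st (false, false, false) x) y)) = a0
    simp [ai_res, h3, h4]

/-! ### uniqueness -/

theorem ai_uq {Zt Qt : Type} {P : Zt → Prop} (F : List (Zt × Qt)) (q : Qt)
    (hF : ∀ z, P z ↔ (z, q) ∈ F) (hq : ∀ e ∈ F, e.2 = q) (hnd : F.Nodup) :
    uq P = match F with
      | [e] => some e.1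
      | _ => none := by
  rcases F with _ | ⟨e, _ | ⟨e', t⟩⟩
  · have : ¬ ∃! z, P z := by
      rintro ⟨z, hz, -⟩
      simpa using (hF z).mp hz
    simp [uq, this]
  · have he : e.2 = q := hq e (by simp)
    have hP : ∀ z, P z ↔ z = e.1 := by
      intro z
      rw [hF z, List.mem_singleton, ← he]
      constructor
      · intro h
        exact congrArg Prod.fst h
      · intro h
        rw [h]
    have hex : ∃! z, P z := ⟨e.1, (hP _).mpr rfl, fun y hy => (hP y).mp hy⟩
    have : hex.choose = e.1 := (hP _).mp hex.choose_spec.1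
    simp [uq, hex, this]
  · have he : e.2 = q := hq e (by simp)
    have he' : e'.2 = q := hq e' (by simp)
    have hne : e ≠ e' := by
      intro h
      rw [h] at hnd
      simp at hnd
    have : ¬ ∃! z, P z := by
      rintro ⟨z, -, hz⟩
      have h1 := hz e.1 ((hF e.1).mpr (by rw [← he]; simp))
      have h2 := hz e'.1 ((hF e'.1).mpr (by rw [← he']; simp))
      exact hne (Prod.ext (h1.trans h2.symm) (he.trans he'.symm))
    simp [uq, this]

theorem ai_lookup {Zt Qt : Type} [DecidableEq Zt] (M : List (Zt × Qt))
    (h : (M.map Prod.fst).Nodup) (z : Zt) (q : Qt) : M.lookup z = some q ↔ (z, q) ∈ M := by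
  induction M with
  | nil => simp
  | cons e M ih =>
    obtain ⟨z', q'⟩ := e
    have h' : (M.map Prod.fst).Nodup := by
      simp only [List.map_cons, List.nodup_cons] at h
      exact h.2
    have hnot : z' ∉ M.map Prod.fst := by
      simp only [List.map_cons, List.nodup_cons] at h
      exact h.1
    by_cases hz : z = z'
    · subst hz
      rw [List.lookup_cons]
      simp only [beq_self_eq_true, Option.some.injEq, List.mem_cons, Prod.mk.injEq, true_and]
      constructor
      · intro h1
        exact Or.inl h1.symm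
      · rintro (h1 | h1)
        · exact h1.symm
        · exact absurd (List.mem_map.mpr ⟨_, h1, rfl⟩) hnot
    · have hb : (z == z') = false := by simpa using hz
      rw [List.lookup_cons, hb]
      simp only [List.mem_cons, Prod.mk.injEq, hz, false_and, false_or]
      exact ih h'

/-! ### the loop -/

/-- formulas for one entry -/
def ai_step (p : ℕ) (e : Fml × Fml) : List Fml :=
  [Fml.or (.var p) e.1, Fml.or (.var (p + 1)) (Fml.and (.var p) e.1),
    Fml.or (.var (p + 2)) (Fml.and e.1 e.2)]

/-- the gates -/
def ai_loop : ℕ → List (Fml × Fml) → List Gate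
  | _, [] => []
  | p, e :: es => (ai_step p e).map Gate.fml ++ ai_loop (p + 3) es

theorem ai_loop_length : ∀ (es : List (Fml × Fml)) (p : ℕ),
    (ai_loop p es).length = 3 * es.length
  | [], _ => rfl
  | e :: es, p => by
    rw [ai_loop, List.length_append, ai_loop_length es (p + 3)]
    simp [ai_step]
    omega

theorem ai_loop_fml : ∀ (es : List (Fml × Fml)) (p : ℕ), ∀ g ∈ ai_loop p es,
    ∃ φ, g = Gate.fml φ
  | [], _, g, hg => by simp [ai_loop] at hg
  | e :: es, p, g, hg => by
    rw [ai_loop, List.mem_append] at hg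
    rcases hg with hg | hg
    · obtain ⟨φ, -, rfl⟩ := List.mem_map.mp hg
      exact ⟨φ, rfl⟩
    · exact ai_loop_fml es (p + 3) g hg

theorem ai_step_below {p t N : ℕ} {e : Fml × Fml} (h1 : e.1.Below N) (h2 : e.2.Below N)
    (hN : N ≤ t) (hp : p + 3 ≤ t) : ∀ φ ∈ ai_step p e, φ.Below t := by
  have h1' := Fml.Below.mono hN h1
  have h2' := Fml.Below.mono hN h2
  have v : ∀ j, j < 3 → (Fml.var (p + j)).Below t := fun j hj => show p + j < t by omega
  intro φ hφ
  simp only [ai_step, List.mem_cons, List.not_mem_nil, or_false] at hφ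
  rcases hφ with rfl | rfl | rfl
  · exact Fml.below_or (v 0 (by omega)) h1'
  · exact Fml.below_or (v 1 (by omega)) (Fml.below_and (v 0 (by omega)) h1')
  · exact Fml.below_or (v 2 (by omega)) (Fml.below_and h1' h2')

theorem ai_loop_below (N : ℕ) : ∀ (es : List (Fml × Fml)) (p t : ℕ),
    (∀ e ∈ es, e.1.Below N ∧ e.2.Below N) → N ≤ t → p + 3 * es.length ≤ t →
    ∀ g ∈ ai_loop p es, g.Below t
  | [], _, _, _, _, _, g, hg => by simp [ai_loop] at hg
  | e :: es, p, t, he, hN, hp, g, hg => by
    rw [List.length_cons] at hp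
    rw [ai_loop, List.mem_append] at hg
    rcases hg with hg | hg
    · obtain ⟨φ, hφ, rfl⟩ := List.mem_map.mp hg
      exact ai_step_below (he e (by simp)).1 (he e (by simp)).2 hN (by omega) φ hφ
    · exact ai_loop_below N es (p + 3) t (fun e' he' => he e' (by simp [he'])) hN (by omega) g hg

theorem ai_loop_gsz (m : ℕ) : ∀ (es : List (Fml × Fml)) (p : ℕ),
    (∀ e ∈ es, e.1.size ≤ 3 * m + 4 ∧ e.2.size ≤ 3 * m) →
    gsz (ai_loop p es) ≤ es.length * (12 * m + 40)
  | [], _, _ => by simp [ai_loop]
  | e :: es, p, he => by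
    have h1 := ai_loop_gsz m es (p + 3) fun e' he' => he e' (by simp [he'])
    obtain ⟨h2, h3⟩ := he e (by simp)
    rw [ai_loop, gsz_append, List.length_cons, Nat.add_mul, one_mul]
    have h4 : gsz ((ai_step p e).map Gate.fml) ≤ 12 * m + 40 := by
      simp only [ai_step, List.map_cons, List.map_nil, gsz_cons, gsz_nil, Gate.size, Fml.size_or,
        Fml.size_and, Fml.size]
      omega
    omega

theorem ai_loop_eval (O : Lang) (ch : List Str → Str → Bool) (W : List Bool) (qs : List Str) :
    ∀ (es : List (Fml × Fml)) (U : List Bool) (s : Bool × Bool × Bool),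
      (∀ e ∈ es, e.1.Below W.length ∧ e.2.Below W.length) →
      ∃ (U' : List Bool) (s' : Bool × Bool × Bool), U'.length = U.length + 3 * es.length ∧
        (ai_loop (W ++ U).length es).foldl (gstep O ch)
          (W ++ U ++ [s.1, s.2.1, s.2.2], qs) = (W ++ U' ++ [s'.1, s'.2.1, s'.2.2], qs) ∧
        s' = (es.map fun e => (e.1.eval W, e.2.eval W)).foldl ai_st s
  | [], U, s, _ => ⟨U, s, by simp, by simp [ai_loop], rfl⟩
  | e :: es, U, s, he => by
    obtain ⟨h1, h2⟩ := he e (by simp)
    set V : List Bool := W ++ U ++ [s.1, s.2.1, s.2.2] with hV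
    set p : ℕ := (W ++ U).length with hp
    have hVl : V.length = p + 3 := by simp [hV, hp]; omega
    have hW : W.length ≤ p := by simp [hp]
    have g0 : V.getD p false = s.1 := by
      rw [hV, hp, List.getD_eq_getElem?_getD, List.getElem?_append_right (by omega)]
      simp
    have g1 : V.getD (p + 1) false = s.2.1 := by
      rw [hV, hp, List.getD_eq_getElem?_getD, List.getElem?_append_right (by omega)]
      simp
    have g2 : V.getD (p + 2) false = s.2.2 := by
      rw [hV, hp, List.getD_eq_getElem?_getD, List.getElem?_append_right (by omega)]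
      simp
    have hVW : V = W ++ (U ++ [s.1, s.2.1, s.2.2]) := by rw [hV, List.append_assoc]
    have e1 : e.1.eval V = e.1.eval W := by rw [hVW]; exact Fml.eval_append h1
    have e2 : e.2.eval V = e.2.eval W := by rw [hVW]; exact Fml.eval_append h2
    have hst : (ai_step p e).map (fun φ => φ.eval V) =
        [(ai_st s (e.1.eval W, e.2.eval W)).1, (ai_st s (e.1.eval W, e.2.eval W)).2.1,
          (ai_st s (e.1.eval W, e.2.eval W)).2.2] := by
      simp only [ai_step, List.map_cons, List.map_nil, Fml.eval_or, Fml.eval_and, Fml.eval, g0,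
        g1, g2, e1, e2, ai_st]
    have hb : ∀ φ ∈ ai_step p e, φ.Below V.length :=
      ai_step_below h1 h2 (by omega) (by omega)
    obtain ⟨U', s', hU', hf, hs'⟩ := ai_loop_eval O ch W qs es (U ++ [s.1, s.2.1, s.2.2])
      (ai_st s (e.1.eval W, e.2.eval W)) fun e' he' => he e' (by simp [he'])
    refine ⟨U', s', ?_, ?_, ?_⟩
    · rw [hU']; simp; omega
    · rw [ai_loop, List.foldl_append, foldl_fml O ch _ V qs hb, hst]
      have hp3 : p + 3 = (W ++ (U ++ [s.1, s.2.1, s.2.2])).length := by
        rw [← hVW, hVl]
      rw [hp3, hVW]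
      exact hf
    · rw [hs', List.map_cons, List.foldl_cons]

/-! ### substitution -/

/-- the bits of the question and the bits of the code -/
def ai_f (l : List ℕ) (g : ℕ → Fml) (i : ℕ) : Fml :=
  if i < l.length then .var (l.getD i 0) else g (i - l.length)

theorem ai_getD (W : List Bool) (l : List ℕ) (i : ℕ) (h : i < l.length) :
    (sel W l).getD i false = W.getD (l.getD i 0) false := by
  simp [sel, List.getD_eq_getElem?_getD, h]

theorem ai_sel_length (W : List Bool) (l : List ℕ) : (sel W l).length = l.length := by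
  simp [sel]

theorem ai_sub_eval (W : List Bool) (l : List ℕ) (g : ℕ → Fml) (c : List Bool) (B : ℕ)
    (hc : ∀ j < B, (g j).eval W = c.getD j false) (φ : Fml) (hφ : φ.Below (l.length + B)) :
    (Fml.subst (ai_f l g) φ).eval W = φ.eval (sel W l ++ c) := by
  refine Fml.eval_subst (t := l.length + B) ?_ hφ
  intro i hi
  by_cases h : i < l.length
  · have h' : i < (sel W l).length := by rw [ai_sel_length]; exact h
    rw [Fml.getD_append_lt h', ai_getD W l i h, ai_f, if_pos h]
    rfl
  · rw [ai_f, if_neg h, hc (i - l.length) (by omega), List.getD_eq_getElem?_getD,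
      List.getD_eq_getElem?_getD, List.getElem?_append_right (by rw [ai_sel_length]; omega),
      ai_sel_length]

theorem ai_sub_size (l : List ℕ) (g : ℕ → Fml) (hg : ∀ j, (g j).size ≤ 3) (φ : Fml) (t : ℕ)
    (hφ : φ.Below t) : (Fml.subst (ai_f l g) φ).size ≤ 3 * φ.size := by
  refine Fml.size_subst (t := t) (by omega) (fun i _ => ?_) hφ
  rw [ai_f]
  split
  · simp [Fml.size]
  · exact hg _

theorem ai_sub_below (l : List ℕ) (g : ℕ → Fml) (N B : ℕ) (hl : ∀ i ∈ l, i < N)
    (hg : ∀ j < B, (g j).Below N) (φ : Fml) (hφ : φ.Below (l.length + B)) :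
    (Fml.subst (ai_f l g) φ).Below N := by
  refine Fml.below_subst (t := l.length + B) (fun i hi => ?_) hφ
  rw [ai_f]
  split
  · rename_i h
    show l.getD i 0 < N
    rw [List.getD_eq_getElem?_getD, List.getElem?_eq_getElem h]
    exact hl _ (List.getElem_mem h)
  · exact hg _ (by omega)

/-! ### entries -/

theorem ai_slots {α : Type} (f : α → Bool × Bool) (g : ℕ → Bool × Bool) (es : List α) (d : ℕ)
    (hd : es.length ≤ d) (h1 : ∀ u (hu : u < es.length), g u = f es[u])
    (h2 : ∀ u, es.length ≤ u → u < d → (g u).1 = false) :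
    ((List.range d).map g).filter (fun x => x.1) = (es.map f).filter (fun x => x.1) := by
  obtain ⟨c, rfl⟩ := Nat.exists_eq_add_of_le hd
  rw [List.range_add, List.map_append, List.filter_append]
  have e1 : (List.range es.length).map g = es.map f := by
    apply List.ext_getElem (by simp)
    intro u hu1 hu2
    simp only [List.getElem_map, List.getElem_range]
    exact h1 u (by simpa using hu2)
  have e2 : (((List.range c).map (fun x => es.length + x)).map g).filter (fun x => x.1) = [] := by
    rw [List.filter_eq_nil_iff]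
    intro x hx
    simp only [List.mem_map, List.mem_range] at hx
    obtain ⟨_, ⟨u, hu, rfl⟩, rfl⟩ := hx
    simp [h2 (es.length + u) (by omega) (by omega)]
  rw [e1, e2, List.append_nil]

section mem

variable {Zt Qt ι : Type} [DecidableEq Zt]

/-- formulas for a known entry -/
noncomputable def ai_kn {G : Stg Zt Qt ι} {d m B : ℕ} (D : Desc G d m B) (l : List ℕ)
    (e : Zt × Qt) : Fml × Fml :=
  (Fml.subst (ai_f l fun j => Fml.con ((D.code e.1).getD j false)) (D.matF l.length e.2),
    Fml.subst (ai_f l fun j => Fml.con ((D.code e.1).getD j false)) (D.rzF l.length))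

/-- formulas for a slot -/
def ai_sl {G : Stg Zt Qt ι} {d m B : ℕ} (D : Desc G d m B) (l : List ℕ) (b u : ℕ) (q : Qt) :
    Fml × Fml :=
  (Fml.and (.var (b + u * (B + 1)))
    (Fml.subst (ai_f l fun j => .var (b + u * (B + 1) + 1 + j)) (D.matF l.length q)),
    Fml.subst (ai_f l fun j => .var (b + u * (B + 1) + 1 + j)) (D.rzF l.length))

omit [DecidableEq Zt] in
theorem ai_kn_spec {G : Stg Zt Qt ι} {d m B : ℕ} (D : Desc G d m B) (l : List ℕ)
    (hl : l.length ≤ d) (N : ℕ) (hlN : ∀ i ∈ l, i < N) (e : Zt × Qt) :
    (ai_kn D l e).1.size ≤ 3 * m + 4 ∧ (ai_kn D l e).2.size ≤ 3 * m ∧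
      (ai_kn D l e).1.Below N ∧ (ai_kn D l e).2.Below N := by
  obtain ⟨s1, b1⟩ := D.matF_size l.length hl e.2
  obtain ⟨s2, b2⟩ := D.rzF_size l.length hl
  have hs : ∀ j, (Fml.con ((D.code e.1).getD j false)).size ≤ 3 := fun j => Fml.size_con _
  refine ⟨?_, ?_, ?_, ?_⟩
  · have := ai_sub_size l _ hs (D.matF l.length e.2) _ b1
    show (Fml.subst _ _).size ≤ _
    omega
  · have := ai_sub_size l _ hs (D.rzF l.length) _ b2
    show (Fml.subst _ _).size ≤ _
    omega
  · exact ai_sub_below l _ N B hlN (fun j _ => Fml.below_con _ _) _ b1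
  · exact ai_sub_below l _ N B hlN (fun j _ => Fml.below_con _ _) _ b2

omit [DecidableEq Zt] in
theorem ai_sl_spec {G : Stg Zt Qt ι} {d m B : ℕ} (D : Desc G d m B) (l : List ℕ)
    (hl : l.length ≤ d) (N b : ℕ) (hb : b + d * (B + 1) ≤ N) (hlN : ∀ i ∈ l, i < N) (u : ℕ)
    (hu : u < d) (q : Qt) :
    (ai_sl D l b u q).1.size ≤ 3 * m + 4 ∧ (ai_sl D l b u q).2.size ≤ 3 * m ∧
      (ai_sl D l b u q).1.Below N ∧ (ai_sl D l b u q).2.Below N := by
  obtain ⟨s1, b1⟩ := D.matF_size l.length hl q
  obtain ⟨s2, b2⟩ := D.rzF_size l.length hl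
  have hs : ∀ j, (Fml.var (b + u * (B + 1) + 1 + j)).size ≤ 3 := fun j => by simp [Fml.size]
  have hu' : u * (B + 1) + (B + 1) ≤ d * (B + 1) := by
    rw [← Nat.succ_mul]
    exact Nat.mul_le_mul_right _ hu
  have hvb : ∀ j < B, (Fml.var (b + u * (B + 1) + 1 + j)).Below N := fun j hj =>
    show b + u * (B + 1) + 1 + j < N by omega
  refine ⟨?_, ?_, ?_, ?_⟩
  · have := ai_sub_size l _ hs (D.matF l.length q) _ b1
    show (Fml.and _ _).size ≤ _
    rw [Fml.size_and]
    simp only [Fml.size]
    omega
  · have := ai_sub_size l _ hs (D.rzF l.length) _ b2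
    show (Fml.subst _ _).size ≤ _
    omega
  · exact Fml.below_and (show b + u * (B + 1) < N by omega)
      (ai_sub_below l _ N B hlN hvb _ b1)
  · exact ai_sub_below l _ N B hlN hvb _ b2

/-- AI -/
theorem inv_gates (G : Stg Zt Qt ι) {d m B : ℕ} (D : Desc G d m B) (ρ : List (Zt × Qt))
    (hρ : (ρ.map Prod.fst).Nodup) (r : List Qt) (hr : r.length = d) (N b : ℕ)
    (hb : b + d * (B + 1) ≤ N) (l : List ℕ) (hl : l.length ≤ d) (hlN : ∀ i ∈ l, i < N) :
    ∃ gs : List Gate, gs ≠ [] ∧ gsz gs ≤ 128 * (m + 1) * (B + 1) * (ρ.length + d + 1) ∧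
      (∀ g ∈ gs, ∃ φ, g = Gate.fml φ) ∧ (∀ g ∈ gs, g.Below (N + gs.length)) ∧
      ∀ (O : Lang) (ch : List Str → Str → Bool) (W : List Bool) (qs : List Str) (zs : List Zt),
        W.length = N → Slots D b W zs → zs.length ≤ d → (zs ++ ρ.map Prod.fst).Nodup →
        ∃ U : List Bool, U.length = gs.length ∧ gs.foldl (gstep O ch) (W, qs) = (W ++ U, qs) ∧
          ∀ l0 q i, G.ps (sel W l) = some (PosI.inv l0 q i) →
            (W ++ U).getD (N + gs.length - 1) false =
              G.rz (uq fun z => G.ln z = l0 ∧ ((zs.zip r).reverse ++ ρ).lookup z = some q) i := by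
  classical
  have hrd : ∀ u : Fin d, u.1 < r.length := fun u => by rw [hr]; exact u.2
  -- the entries
  set sl : List (Fml × Fml) := (List.finRange d).map fun u =>
    ai_sl D l b u.1 (r[u.1]'(hrd u)) with hsl
  set es : List (Fml × Fml) := sl ++ ρ.map (ai_kn D l) with hes
  have hesl : es.length = ρ.length + d := by
    simp [hes, hsl]
    omega
  have hspec : ∀ e ∈ es, e.1.size ≤ 3 * m + 4 ∧ e.2.size ≤ 3 * m ∧ e.1.Below N ∧
      e.2.Below N := by
    intro e he
    rw [hes, List.mem_append] at he
    rcases he with he | he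
    · rw [hsl, List.mem_map] at he
      obtain ⟨u, -, rfl⟩ := he
      exact ai_sl_spec D l hl N b hb hlN u.1 u.2 _
    · obtain ⟨e', -, rfl⟩ := List.mem_map.mp he
      exact ai_kn_spec D l hl N hlN e'
  obtain ⟨s0, b0⟩ := D.rz0F_size l.length hl
  set rz0 : Fml := Fml.subst (ai_f l fun _ => Fml.tru) (D.rz0F l.length) with hrz0
  have hrz0s : rz0.size ≤ 3 * m := by
    have := ai_sub_size l (fun _ => Fml.tru) (fun _ => by simp [Fml.size]) (D.rz0F l.length) _ b0
    rw [hrz0]
    omega
  have hrz0b : rz0.Below N :=
    ai_sub_below l _ N 0 hlN (fun j hj => absurd hj (Nat.not_lt_zero _)) _ (by simpa using b0)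
  set K : ℕ := es.length with hK
  set fin : Fml := Fml.ite (Fml.and (.var (N + 3 * K)) (Fml.neg (.var (N + 3 * K + 1))))
    (.var (N + 3 * K + 2)) rz0 with hfin
  have hfinb : fin.Below (N + 3 * K + 3) := by
    have v : ∀ j, j < 3 → (Fml.var (N + 3 * K + j)).Below (N + 3 * K + 3) := fun j hj =>
      show N + 3 * K + j < N + 3 * K + 3 by omega
    exact Fml.below_ite (Fml.below_and (v 0 (by omega)) (Fml.below_neg (v 1 (by omega))))
      (v 2 (by omega)) (Fml.Below.mono (by omega) hrz0b)
  set gs : List Gate := [Fml.con false, Fml.con false, Fml.con false].map Gate.fml ++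
    ai_loop N es ++ [Gate.fml fin] with hgs
  have hgsl : gs.length = 3 * K + 4 := by
    simp only [hgs, List.length_append, List.length_map, List.length_cons, List.length_nil,
      ai_loop_length]
    omega
  refine ⟨gs, ?_, ?_, ?_, ?_, ?_⟩
  · intro h
    rw [h] at hgsl
    simp at hgsl
  · have h1 := ai_loop_gsz m es N fun e he => ⟨(hspec e he).1, (hspec e he).2.1⟩
    rw [← hK] at h1
    have h2 : gsz gs ≤ 12 + K * (12 * m + 40) + (3 * m + 29) := by
      rw [hgs, gsz_append, gsz_append]
      have h3 : gsz ([Fml.con false, Fml.con false, Fml.con false].map Gate.fml) ≤ 12 := by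
        simp [Gate.size, Fml.con, Fml.size]
      have h4 : gsz [Gate.fml fin] ≤ 3 * m + 29 := by
        simp only [gsz_cons, gsz_nil, Gate.size, hfin, Fml.size_ite, Fml.size_and, Fml.size_neg,
          Fml.size]
        omega
      omega
    have hKe : K = ρ.length + d := hesl
    rw [← hKe]
    have h5 : 12 + K * (12 * m + 40) + (3 * m + 29) ≤ 128 * (m + 1) * (K + 1) := by
      nlinarith [Nat.zero_le (K * m), Nat.zero_le K, Nat.zero_le m]
    have h6 : 128 * (m + 1) * (K + 1) ≤ 128 * (m + 1) * (B + 1) * (K + 1) := by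
      have : 128 * (m + 1) ≤ 128 * (m + 1) * (B + 1) := Nat.le_mul_of_pos_right _ (by omega)
      exact Nat.mul_le_mul_right _ this
    exact h2.trans (h5.trans h6)
  · intro g hg
    rw [hgs, List.mem_append, List.mem_append] at hg
    rcases hg with (hg | hg) | hg
    · obtain ⟨φ, -, rfl⟩ := List.mem_map.mp hg
      exact ⟨φ, rfl⟩
    · exact ai_loop_fml es N g hg
    · exact ⟨fin, by simpa using hg⟩
  · intro g hg
    rw [hgsl]
    rw [hgs, List.mem_append, List.mem_append] at hg
    rcases hg with (hg | hg) | hg
    · obtain ⟨φ, hφ, rfl⟩ := List.mem_map.mp hg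
      have : φ = Fml.con false := by simpa using hφ
      rw [this]
      exact Fml.below_con _ _
    · exact ai_loop_below N es N _ (fun e he => (hspec e he).2.2) (by omega) (by omega) g hg
    · rw [List.mem_singleton] at hg
      rw [hg]
      exact Fml.Below.mono (by omega) hfinb
  · intro O ch W qs zs hW hS hzs hnd
    obtain ⟨U', s', hU', hf, hs'⟩ := ai_loop_eval O ch W qs es [] (false, false, false)
      (fun e he => by rw [hW]; exact (hspec e he).2.2)
    rw [List.append_nil, hW] at hf
    set X : List Bool := W ++ U' ++ [s'.1, s'.2.1, s'.2.2] with hX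
    have hU'l : U'.length = 3 * K := by rw [hU']; simp [hK]
    have hXl : X.length = N + 3 * K + 3 := by
      simp [hX, hW, hU'l]
      omega
    have hfold : gs.foldl (gstep O ch) (W, qs) =
        (W ++ (U' ++ [s'.1, s'.2.1, s'.2.2] ++ [fin.eval X]), qs) := by
      rw [hgs, List.foldl_append, List.foldl_append,
        foldl_fml O ch _ W qs (by
          intro φ hφ
          have : φ = Fml.con false := by simpa using hφ
          rw [this]
          exact Fml.below_con _ _)]
      have e0 : ([Fml.con false, Fml.con false, Fml.con false].map fun φ => φ.eval W) =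
          [false, false, false] := by simp
      rw [e0, hf]
      simp [gstep, hX]
    refine ⟨U' ++ [s'.1, s'.2.1, s'.2.2] ++ [fin.eval X], ?_, hfold, ?_⟩
    · simp [hU'l, hgsl]
    · intro l0 q i hps
      have hidx : (W ++ (U' ++ [s'.1, s'.2.1, s'.2.2] ++ [fin.eval X])).getD
          (N + gs.length - 1) false = fin.eval X := by
        have : W ++ (U' ++ [s'.1, s'.2.1, s'.2.2] ++ [fin.eval X]) = X ++ [fin.eval X] := by
          simp [hX]
        rw [this, List.getD_eq_getElem?_getD,
          List.getElem?_append_right (by rw [hXl, hgsl]; omega), hXl, hgsl]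
        have : N + (3 * K + 4) - 1 - (N + 3 * K + 3) = 0 := by omega
        rw [this]
        rfl
      rw [hidx]
      have hXW : X = W ++ (U' ++ [s'.1, s'.2.1, s'.2.2]) := by rw [hX, List.append_assoc]
      have g0 : X.getD (N + 3 * K) false = s'.1 := by
        rw [hX, List.getD_eq_getElem?_getD,
          List.getElem?_append_right (by simp [hW, hU'l])]
        simp [hW, hU'l]
      have g1 : X.getD (N + 3 * K + 1) false = s'.2.1 := by
        rw [hX, List.getD_eq_getElem?_getD,
          List.getElem?_append_right (by simp [hW, hU'l])]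
        have : N + 3 * K + 1 - (W ++ U').length = 1 := by simp [hW, hU'l]
        rw [this]
        rfl
      have g2 : X.getD (N + 3 * K + 2) false = s'.2.2 := by
        rw [hX, List.getD_eq_getElem?_getD,
          List.getElem?_append_right (by simp [hW, hU'l])]
        have : N + 3 * K + 2 - (W ++ U').length = 2 := by simp [hW, hU'l]
        rw [this]
        rfl
      have hwl : (sel W l).length = l.length := ai_sel_length W l
      have hwd : (sel W l).length ≤ d := by rw [hwl]; exact hl
      have erz0 : rz0.eval X = G.rz none i := by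
        rw [hXW, Fml.eval_append (by rw [hW]; exact hrz0b), hrz0,
          ai_sub_eval W l _ [] 0 (fun j hj => absurd hj (Nat.not_lt_zero _)) _
            (by simpa using b0), List.append_nil]
        have := D.rz0F_eval (sel W l) hwd l0 q i hps
        rw [hwl] at this
        exact this
      have efin : fin.eval X = ai_res (G.rz none i) s' := by
        rw [hfin, Fml.eval_ite, Fml.eval_and, Fml.eval_neg, erz0]
        simp only [Fml.eval, g0, g1, g2]
        rfl
      rw [efin, hs', ai_res_fold]
      -- the evaluated entries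
      set f : Zt × Qt → Bool × Bool := fun e =>
        (decide (G.ln e.1 = l0 ∧ e.2 = q), G.rz (some e.1) i) with hf0
      have hmat : ∀ (g : ℕ → Fml) (z : Zt) (q' : Qt),
          (∀ j < B, (g j).eval W = (D.code z).getD j false) →
          (Fml.subst (ai_f l g) (D.matF l.length q')).eval W =
            decide (G.ln z = l0 ∧ q' = q) ∧
          (Fml.subst (ai_f l g) (D.rzF l.length)).eval W = G.rz (some z) i := by
        intro g z q' hg
        obtain ⟨-, b1⟩ := D.matF_size l.length hl q'
        obtain ⟨-, b2⟩ := D.rzF_size l.length hl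
        constructor
        · rw [ai_sub_eval W l g (D.code z) B hg _ b1]
          have := D.matF_eval (sel W l) hwd l0 q i hps z q'
          rw [hwl] at this
          rw [Bool.eq_iff_iff, this]
          simp
        · rw [ai_sub_eval W l g (D.code z) B hg _ b2]
          have := D.rzF_eval (sel W l) hwd l0 q i hps z
          rw [hwl] at this
          exact this
      have hkn : ∀ e : Zt × Qt, ((ai_kn D l e).1.eval W, (ai_kn D l e).2.eval W) = f e := by
        intro e
        obtain ⟨h1, h2⟩ := hmat (fun j => Fml.con ((D.code e.1).getD j false)) e.1 e.2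
          (fun j _ => Fml.eval_con _ _)
        exact Prod.ext h1 h2
      have hzl : (zs.zip r).length = zs.length := by
        rw [List.length_zip, hr]
        omega
      set gsl : ℕ → Bool × Bool := fun u => if hu : u < d then
        ((ai_sl D l b u (r[u]'(hrd ⟨u, hu⟩))).1.eval W,
          (ai_sl D l b u (r[u]'(hrd ⟨u, hu⟩))).2.eval W) else (false, false) with hgsl'
      have hslmap : sl.map (fun e => (e.1.eval W, e.2.eval W)) = (List.range d).map gsl := by
        apply List.ext_getElem (by simp [hsl])
        intro u hu1 hu2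
        have hu : u < d := by simpa using hu2
        simp [hsl, hgsl', hu]
      have hfilt1 : ((List.range d).map gsl).filter (fun x => x.1) =
          ((zs.zip r).map f).filter (fun x => x.1) := by
        apply ai_slots f gsl (zs.zip r) d (by rw [hzl]; exact hzs)
        · intro u hu
          rw [hzl] at hu
          have hud : u < d := by omega
          obtain ⟨hv, hc⟩ := hS u hud
          have hz : zs[u]? = some zs[u] := List.getElem?_eq_getElem hu
          obtain ⟨h1, h2⟩ := hmat (fun j => Fml.var (b + u * (B + 1) + 1 + j)) zs[u]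
            (r[u]'(hrd ⟨u, hud⟩)) (fun j hj => hc zs[u] hz j hj)
          have hv' : (Fml.var (b + u * (B + 1))).eval W = true := by
            show W.getD (b + u * (B + 1)) false = true
            rw [hv]
            simpa using hu
          simp only [hgsl', hud, dif_pos]
          rw [List.getElem_zip]
          refine Prod.ext ?_ ?_
          · show (Fml.and _ _).eval W = _
            rw [Fml.eval_and, hv', Bool.true_and]
            exact h1
          · exact h2
        · intro u hu1 hu2
          rw [hzl] at hu1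
          obtain ⟨hv, -⟩ := hS u hu2
          have hv' : (Fml.var (b + u * (B + 1))).eval W = false := by
            show W.getD (b + u * (B + 1)) false = false
            rw [hv]
            simpa using hu1
          simp only [hgsl', hu2, dif_pos]
          show (Fml.and _ _).eval W = false
          rw [Fml.eval_and, hv', Bool.false_and]
      have hL : (es.map fun e => (e.1.eval W, e.2.eval W)).filter (fun x => x.1) =
          ((zs.zip r ++ ρ).map f).filter (fun x => x.1) := by
        rw [hes, List.map_append, List.filter_append, hslmap, hfilt1, List.map_append,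
          List.filter_append, List.map_map]
        congr 2
        apply List.map_congr_left
        intro e _
        exact hkn e
      rw [hL, List.filter_map]
      set F : List (Zt × Qt) := (zs.zip r ++ ρ).filter ((fun x : Bool × Bool => x.1) ∘ f) with hF
      -- the memory
      have hkeys : ((zs.zip r ++ ρ).map Prod.fst).Nodup := by
        rw [List.map_append, List.map_fst_zip (by rw [hr]; exact hzs)]
        exact hnd
      have hkeys' : (((zs.zip r).reverse ++ ρ).map Prod.fst).Nodup := by
        refine (List.Perm.nodup_iff ?_).mp hkeys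
        exact ((List.reverse_perm (zs.zip r)).symm.append_right ρ).map Prod.fst
      have hP : ∀ z, (G.ln z = l0 ∧ ((zs.zip r).reverse ++ ρ).lookup z = some q) ↔
          (z, q) ∈ F := by
        intro z
        rw [ai_lookup _ hkeys', hF, List.mem_filter]
        simp only [List.mem_append, List.mem_reverse, Function.comp_apply, hf0,
          decide_eq_true_eq, and_true]
        exact ⟨fun h => ⟨h.2, h.1⟩, fun h => ⟨h.2, h.1⟩⟩
      have hq : ∀ e ∈ F, e.2 = q := by
        intro e he
        rw [hF, List.mem_filter] at he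
        simp only [Function.comp_apply, hf0, decide_eq_true_eq] at he
        exact he.2.2
      have hFnd : F.Nodup := (List.Nodup.of_map _ hkeys).filter _
      rw [ai_uq F q hP hq hFnd]
      rcases F with _ | ⟨e, _ | ⟨e', t⟩⟩
      · rfl
      · rfl
      · rfl

end mem


end Pool.Agent.ABO
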