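import Pool.Agent.Lib_helper27.ABO.Fm
import Pool.Agent.Lib_helper74.IS.All
import Pool.Agent.Lib_helper27.ABO.B.AD
import Pool.Agent.Lib_helper27.ABO.B.AI

/-!
# ABO: block AK (helper1): gates for one question
-/

set_option autoImplicit false
set_option linter.unusedSectionVars false

namespace Pool.Agent.ABO

open Pool.Agent.CK
open Pool.Agent.TD (Str su sj st Act se sm sM sn sD ZSet Z Q unitv Lam KK dd)
open Pool.Agent.TD.IS (PosI Stg uq patchI simI evM icode idec strip ISet posK zs updI PLW PTW
  invTreeW thrX invTab excI LocalWith PolyLocal Cls EL)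

theorem ak_gate_mono {t t' : ℕ} (h : t ≤ t') {g : Gate} (hg : g.Below t) : g.Below t' := by
  cases g with
  | fml φ => exact Fml.Below.mono h hg
  | ask l => exact fun i hi => lt_of_lt_of_le (hg i hi) h
  | chal l => exact fun i hi => lt_of_lt_of_le (hg i hi) h

theorem ak_sel {W U : List Bool} {l : List ℕ} (h : ∀ i ∈ l, i < W.length) :
    sel (W ++ U) l = sel W l := by
  unfold sel
  exact List.map_congr_left fun i hi => Fml.getD_append_lt (h i hi)

theorem ak_sel_getD {W : List Bool} {l : List ℕ} {j : ℕ} (hj : j < l.length) :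
    (sel W l).getD j false = W.getD (l.getD j 0) false := by
  unfold sel
  rw [List.getD_eq_getElem?_getD, List.getElem?_map, List.getElem?_eq_getElem hj]
  have h : l.getD j 0 = l[j] := List.getD_eq_getElem _ _ hj
  rw [h]
  rfl

theorem ak_asks {gs : List Gate} (h : ∀ g ∈ gs, ∃ φ, g = Gate.fml φ) : asks gs = 0 := by
  unfold asks
  rw [List.countP_eq_zero]
  intro g hg
  obtain ⟨φ, rfl⟩ := h g hg
  simp [Gate.isAsk]

section mem

variable {Zt Qt ι : Type} [DecidableEq Zt]

theorem ak_slots {G : Stg Zt Qt ι} {d m B : ℕ} {D : Desc G d m B} {b : ℕ} {W U : List Bool}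
    {zs : List Zt} (hb : b + d * (B + 1) ≤ W.length) (h : Slots D b W zs) :
    Slots D b (W ++ U) zs := by
  intro u hu
  have h1 : (u + 1) * (B + 1) ≤ d * (B + 1) := Nat.mul_le_mul_right _ hu
  have h2 : (u + 1) * (B + 1) = u * (B + 1) + (B + 1) := by ring
  refine ⟨?_, fun z hz i hi => ?_⟩
  · rw [Fml.getD_append_lt (by omega)]
    exact (h u hu).1
  · rw [Fml.getD_append_lt (by omega)]
    exact (h u hu).2 z hz i hi

/-- AK: Gates for one question `l`, if the `N` bits computed so far contain the memory: the
question, `dir_gates`, `inv_gates`, and a choice between the three answers. -/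
theorem one_ask (G : Stg Zt Qt ι) {d m B : ℕ} (D : Desc G d m B) (ρ : List (Zt × Qt))
    (hρ : (ρ.map Prod.fst).Nodup) (r : List Qt) (hr : r.length = d) (N b : ℕ)
    (hb : b + d * (B + 1) ≤ N) (l : List ℕ) (hl : l.length ≤ d) (hlN : ∀ i ∈ l, i < N) :
    ∃ (gs : List Gate) (b' : ℕ), gs ≠ [] ∧ gsz gs ≤ cst d m B ρ.length ∧ asks gs = 1 ∧
      Lens d gs ∧ (∀ g ∈ gs, g.Below (N + gs.length)) ∧ b' + d * (B + 1) ≤ N + gs.length ∧
      ∀ (O : Lang) (ch : List Str → Str → Bool) (W : List Bool) (qs : List Str) (zs : List Zt),
        W.length = N → Slots D b W zs → zs.length < d → (zs ++ ρ.map Prod.fst).Nodup →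
        ∃ (U : List Bool) (zs' : List Zt), U.length = gs.length ∧
          gs.foldl (gstep O ch) (W, qs) = (W ++ U, qs) ∧
          mans G O (sel W l) ((zs.zip r).reverse ++ ρ) (r.drop zs.length) =
            ((W ++ U).getD (N + gs.length - 1) false,
              ((zs'.zip r).reverse ++ ρ, r.drop zs'.length)) ∧
          Slots D b' (W ++ U) zs' ∧ zs'.length ≤ zs.length + 1 ∧
          (zs' ++ ρ.map Prod.fst).Nodup := by
  obtain ⟨g1, b', hne1, hsz1, hf1, hB1, hb', H1⟩ := dir_gates G D ρ hρ r hr N b hb l hl hlN
  have hlN1 : ∀ i ∈ l, i < N + g1.length := fun i hi => lt_of_lt_of_le (hlN i hi) (Nat.le_add_right _ _)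
  obtain ⟨g2, hne2, hsz2, hf2, hB2, H2⟩ := inv_gates G D ρ hρ r hr (N + g1.length) b
    (hb.trans (Nat.le_add_right _ _)) l hl hlN1
  have hp1 : 0 < g1.length := List.length_pos_iff.mpr hne1
  have hp2 : 0 < g2.length := List.length_pos_iff.mpr hne2
  -- the last formula
  set f : ℕ → Fml := fun j => Fml.var (l.getD j 0) with hf
  set dF : Fml := Fml.subst f (D.dirF l.length) with hdF
  set iF : Fml := Fml.subst f (D.invF l.length) with hiF
  set φ : Fml := Fml.ite dF (Fml.var (N + g1.length - 1))
    (Fml.ite iF (Fml.var (N + g1.length + g2.length - 1)) (Fml.var (N + g1.length + g2.length))) with hφ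
  have hgetl : ∀ j < l.length, l.getD j 0 < N := by
    intro j hj
    refine hlN _ ?_
    rw [List.getD_eq_getElem?_getD, List.getElem?_eq_getElem hj]
    exact List.getElem_mem hj
  have hdsz : dF.size ≤ m := by
    have h := Fml.size_subst (f := f) (m := 1) (t := l.length) le_rfl (fun i _ => le_of_eq rfl)
      (D.dirF_size _ hl).2
    rw [one_mul] at h
    exact h.trans (D.dirF_size _ hl).1
  have hisz : iF.size ≤ m := by
    have h := Fml.size_subst (f := f) (m := 1) (t := l.length) le_rfl (fun i _ => le_of_eq rfl)
      (D.invF_size _ hl).2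
    rw [one_mul] at h
    exact h.trans (D.invF_size _ hl).1
  have hdB : dF.Below N := Fml.below_subst (f := f) (t := l.length) (fun j hj => show (Fml.var _).Below N from hgetl j hj) (D.dirF_size _ hl).2
  have hiB : iF.Below N := Fml.below_subst (f := f) (t := l.length) (fun j hj => show (Fml.var _).Below N from hgetl j hj) (D.invF_size _ hl).2
  have hφB : φ.Below (N + g1.length + g2.length + 1) := by
    refine Fml.below_ite (Fml.Below.mono (by omega) hdB) ?_
      (Fml.below_ite (Fml.Below.mono (by omega) hiB) ?_ ?_)
    · show N + g1.length - 1 < N + g1.length + g2.length + 1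
      omega
    · show N + g1.length + g2.length - 1 < N + g1.length + g2.length + 1
      omega
    · show N + g1.length + g2.length < N + g1.length + g2.length + 1
      omega
  have hφs : φ.size ≤ 4 * m + 29 := by
    rw [hφ, Fml.size_ite, Fml.size_ite]
    simp only [Fml.size]
    omega
  refine ⟨g1 ++ (g2 ++ [Gate.ask l, Gate.fml φ]), b', ?_, ?_, ?_, ?_, ?_, ?_, ?_⟩
  · simp
  · -- size
    rw [gsz_append, gsz_append]
    have h3 : gsz [Gate.ask l, Gate.fml φ] = (l.length + 1) + (φ.size + 1) := by
      simp [Gate.size]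
    rw [h3]
    unfold cst
    have h4 : (m + 1) * (d + 1) ≤ (m + 1) * (B + 1) * (ρ.length + d + 1) := by
      have h5 : (m + 1) * 1 ≤ (m + 1) * (B + 1) := Nat.mul_le_mul_left _ (by omega)
      have h6 : (m + 1) * 1 * (d + 1) ≤ (m + 1) * (B + 1) * (ρ.length + d + 1) :=
        Nat.mul_le_mul h5 (by omega)
      simpa using h6
    have h7 : (m + 1) * (d + 1) = m * d + m + d + 1 := by ring
    have h8 : 256 * (m + 1) * (B + 1) * (ρ.length + d + 1) =
        256 * ((m + 1) * (B + 1) * (ρ.length + d + 1)) := by ring
    have h9 : 128 * (m + 1) * (B + 1) * (ρ.length + d + 1) =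
        128 * ((m + 1) * (B + 1) * (ρ.length + d + 1)) := by ring
    have h10 : 512 * (m + 1) * (B + 1) * (ρ.length + d + 1) =
        512 * ((m + 1) * (B + 1) * (ρ.length + d + 1)) := by ring
    rw [h8] at hsz1
    rw [h9] at hsz2
    rw [h10]
    have h11 : 0 ≤ m * d := Nat.zero_le _
    omega
  · -- asks
    have h1 := ak_asks hf1
    have h2 := ak_asks hf2
    unfold asks at h1 h2 ⊢
    rw [List.countP_append, List.countP_append, h1, h2]
    rfl
  · -- lens
    intro l' hl'
    rw [List.mem_append, List.mem_append] at hl'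
    rcases hl' with h | h | h
    · obtain ⟨ψ, hψ⟩ := hf1 _ h
      exact absurd hψ (by simp)
    · obtain ⟨ψ, hψ⟩ := hf2 _ h
      exact absurd hψ (by simp)
    · simp only [List.mem_cons, Gate.ask.injEq, List.not_mem_nil, or_false, reduceCtorEq] at h
      rw [h]; exact hl
  · -- below
    have hlen : (g1 ++ (g2 ++ [Gate.ask l, Gate.fml φ])).length = g1.length + g2.length + 2 := by
      simp; omega
    intro g hg
    rw [hlen]
    rw [List.mem_append, List.mem_append] at hg
    rcases hg with h | h | h
    · exact ak_gate_mono (by omega) (hB1 g h)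
    · exact ak_gate_mono (by omega) (hB2 g h)
    · simp only [List.mem_cons, List.not_mem_nil, or_false] at h
      rcases h with rfl | rfl
      · exact fun i hi => lt_of_lt_of_le (hlN i hi) (by omega)
      · exact ak_gate_mono (g := Gate.fml φ) (by omega) hφB
  · have hlen : (g1 ++ (g2 ++ [Gate.ask l, Gate.fml φ])).length = g1.length + g2.length + 2 := by
      simp; omega
    rw [hlen]
    omega
  · intro O ch W qs zs hW hS hzs hnd
    have hlen : (g1 ++ (g2 ++ [Gate.ask l, Gate.fml φ])).length = g1.length + g2.length + 2 := by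
      simp; omega
    obtain ⟨U1, zs', hU1, hfold1, hS1, hzs', hnd', hno, hyes⟩ := H1 O ch W qs zs hW hS hzs hnd
    have hWU1 : (W ++ U1).length = N + g1.length := by rw [List.length_append, hW, hU1]
    have hSW : Slots D b (W ++ U1) zs := ak_slots (by rw [hW]; exact hb) hS
    have hsel1 : sel (W ++ U1) l = sel W l := ak_sel (by rw [hW]; exact hlN)
    obtain ⟨U2, hU2, hfold2, hinv⟩ := H2 O ch (W ++ U1) qs zs hWU1 hSW hzs.le hnd
    rw [hsel1] at hinv
    have hWU2 : (W ++ U1 ++ U2).length = N + g1.length + g2.length := by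
      rw [List.length_append, hWU1, hU2]
    have hsel2 : sel (W ++ U1 ++ U2) l = sel W l := by
      rw [List.append_assoc]; exact ak_sel (by rw [hW]; exact hlN)
    set W3 : List Bool := W ++ U1 ++ U2 ++ [O (sel W l)] with hW3
    have hW3l : W3.length = N + g1.length + g2.length + 1 := by
      rw [hW3, List.length_append, hWU2]; rfl
    set v : Bool := φ.eval W3 with hv
    -- values of the formulas
    have hsub : ∀ j < l.length, (f j).eval W3 = (sel W l).getD j false := by
      intro j hj
      rw [ak_sel_getD hj]
      show W3.getD (l.getD j 0) false = W.getD (l.getD j 0) false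
      rw [hW3, List.append_assoc, List.append_assoc]
      exact Fml.getD_append_lt (by rw [hW]; exact hgetl j hj)
    have hselw : (sel W l).length = l.length := by unfold sel; rw [List.length_map]
    have hde : dF.eval W3 = (D.dirF l.length).eval (sel W l) :=
      Fml.eval_subst hsub (D.dirF_size _ hl).2
    have hie : iF.eval W3 = (D.invF l.length).eval (sel W l) :=
      Fml.eval_subst hsub (D.invF_size _ hl).2
    have hdir := D.dirF_eval (sel W l) (by rw [hselw]; exact hl)
    have hinvF := D.invF_eval (sel W l) (by rw [hselw]; exact hl)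
    rw [hselw, ← hde] at hdir
    rw [hselw, ← hie] at hinvF
    -- the three bits
    have hb1 : W3.getD (N + g1.length - 1) false = (W ++ U1).getD (N + g1.length - 1) false := by
      rw [hW3, List.append_assoc]
      exact Fml.getD_append_lt (by rw [hWU1]; omega)
    have hb2 : W3.getD (N + g1.length + g2.length - 1) false =
        (W ++ U1 ++ U2).getD (N + g1.length + g2.length - 1) false := by
      rw [hW3]
      exact Fml.getD_append_lt (by rw [hWU2]; omega)
    have hb3 : W3.getD (N + g1.length + g2.length) false = O (sel W l) := by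
      rw [hW3, List.getD_eq_getElem?_getD, List.getElem?_append_right (by rw [hWU2]), hWU2]
      simp
    have hfin : (W3 ++ [v]).getD (N + g1.length + g2.length + 1) false = v := by
      rw [List.getD_eq_getElem?_getD, List.getElem?_append_right (by rw [hW3l]), hW3l]
      simp
    have hUeq : W ++ (U1 ++ U2 ++ [O (sel W l)] ++ [v]) = W3 ++ [v] := by
      rw [hW3]; simp only [List.append_assoc]
    have hbit : N + (g1 ++ (g2 ++ [Gate.ask l, Gate.fml φ])).length - 1 =
        N + g1.length + g2.length + 1 := by
      rw [hlen]; omega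
    refine ⟨U1 ++ U2 ++ [O (sel W l)] ++ [v], zs', ?_, ?_, ?_, ?_, hzs', hnd'⟩
    · rw [hlen, List.length_append, List.length_append, List.length_append, hU1, hU2]
      rfl
    · rw [List.foldl_append, List.foldl_append, hfold1, hfold2, hUeq]
      simp only [List.foldl_cons, List.foldl_nil, gstep, hsel2]
      rw [← hW3]
    · rw [hUeq, hbit, hfin]
      have hvv : v = if dF.eval W3 = true then W3.getD (N + g1.length - 1) false else
          (if iF.eval W3 = true then W3.getD (N + g1.length + g2.length - 1) false else
            W3.getD (N + g1.length + g2.length) false) := by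
        rw [hv, hφ, Fml.eval_ite, Fml.eval_ite]
        rfl
      rcases hps : G.ps (sel W l) with _ | ⟨z, i⟩ | ⟨l0, q, i⟩
      · -- no position
        have hd0 : ¬ dF.eval W3 = true := by
          rw [hdir]; rintro ⟨z, i, h⟩; rw [hps] at h; exact absurd h (by simp)
        have hi0 : ¬ iF.eval W3 = true := by
          rw [hinvF]; rintro ⟨l0, q, i, h⟩; rw [hps] at h; exact absurd h (by simp)
        have hz : zs' = zs := hno (fun z i => by rw [hps]; simp)
        rw [hvv, if_neg hd0, if_neg hi0, hb3, hz]
        unfold mans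
        rw [hps]
      · have hd1 : dF.eval W3 = true := by
          rw [hdir]; exact ⟨z, i, hps⟩
        rw [hvv, if_pos hd1, hb1]
        exact hyes z i hps
      · have hd0 : ¬ dF.eval W3 = true := by
          rw [hdir]; rintro ⟨z, i, h⟩; rw [hps] at h; exact absurd h (by simp)
        have hi1 : iF.eval W3 = true := by
          rw [hinvF]; exact ⟨l0, q, i, hps⟩
        have hz : zs' = zs := hno (fun z i => by rw [hps]; simp)
        rw [hvv, if_neg hd0, if_pos hi1, hb2, hinv l0 q i hps, hz]
        unfold mans
        rw [hps]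
    · rw [hUeq, hW3, List.append_assoc, List.append_assoc]
      exact ak_slots (by rw [hWU1]; exact hb') hS1

end mem

end Pool.Agent.ABO

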