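import Pool.Agent.Lib_helper27.ABO.Fm
import Pool.Agent.Lib_helper74.IS.All
import Pool.Agent.Lib_helper74.CKF.ADDR
import Pool.Agent.Lib_helper27.ABO.B.HD

/-!
# Block DZ (MP_675993_lc, ABO): formulas for the secrets
-/

set_option autoImplicit false

namespace Pool.Agent.ABO

open Pool.Agent.CK
open Pool.Agent.TD (Str su sj st Act se sm sM sn sD ZSet Z Q unitv Lam KK dd)
open Pool.Agent.TD.IS (PosI Stg uq patchI simI evM icode idec strip ISet posK zs updI PLW PTW
  invTreeW thrX invTab excI LocalWith PolyLocal Cls EL)

/-! ### positions -/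

theorem dz_ps_intro {L : ℕ} (x y : Str) (hx : x.length ≤ L) (hy : y.length = x.length) (b : ℕ)
    (c : Bool) :
    pz L (true :: taddr 1 (x ++ y) b c) = some (PosI.dir ⟨x, hx⟩ (y, (b, c))) := by
  have h2 : (x ++ y).length / 2 = x.length := by
    rw [List.length_append, hy]; omega
  have hc : (1 : ℕ) = 1 ∧ (x ++ y).length = 2 * ((x ++ y).length / 2) ∧
      (x ++ y).length / 2 ≤ L := by
    refine ⟨rfl, ?_, ?_⟩
    · rw [h2, List.length_append, hy]; omega
    · rw [h2]; exact hx
  have e : pz L (true :: taddr 1 (x ++ y) b c) = some (PosI.dir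
      ⟨(x ++ y).take ((x ++ y).length / 2), by
          rw [List.length_take]; exact (min_le_left _ _).trans hc.2.2⟩
          ((x ++ y).drop ((x ++ y).length / 2), (b, c))) := by
    simp only [pz, tdec_taddr]
    rw [dif_pos ⟨trivial, hc.2⟩]
  rw [e]
  congr 2
  · apply Subtype.ext
    show (x ++ y).take ((x ++ y).length / 2) = x
    rw [h2, List.take_left']
    rfl
  · rw [h2, List.drop_left']
    rfl

theorem dz_ps_elim {L : ℕ} {w : Str} {p : PosI (Zs L) (X L) (Str × (ℕ × Bool))}
    (h : pz L w = some p) :
    ∃ (x y : Str) (hx : x.length ≤ L) (b : ℕ) (c : Bool), y.length = x.length ∧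
      w = true :: taddr 1 (x ++ y) b c ∧ p = PosI.dir ⟨x, hx⟩ (y, (b, c)) := by
  rcases w with _ | ⟨a, w⟩
  · simp [pz] at h
  · cases a
    · simp [pz] at h
    · rcases ht : tdec w with _ | q
      · simp [pz, ht] at h
      · have hw := tdec_eq ht
        obtain ⟨⟨e, z⟩, ⟨b, c⟩⟩ := q
        by_cases hc : e = 1 ∧ z.length = 2 * (z.length / 2) ∧ z.length / 2 ≤ L
        · have e1 : pz L (true :: w) = some (PosI.dir
              ⟨z.take (z.length / 2), by
                rw [List.length_take]; exact (min_le_left _ _).trans hc.2.2⟩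
              (z.drop (z.length / 2), (b, c))) := by
            simp only [pz, ht]
            rw [dif_pos hc]
          rw [e1] at h
          refine ⟨z.take (z.length / 2), z.drop (z.length / 2), by
            rw [List.length_take]; exact (min_le_left _ _).trans hc.2.2, b, c, ?_, ?_, ?_⟩
          · rw [List.length_take, List.length_drop]; omega
          · rw [List.take_append_drop, hw, hc.1]
          · exact (Option.some.inj h).symm
        · have e1 : pz L (true :: w) = none := by
            simp only [pz, ht]
            rw [dif_neg hc]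
          rw [e1] at h
          exact absurd h (by simp)

/-! ### headers -/

/-- the formula for the header of an address with a secret of length `h` -/
noncomputable def dz_hdr (l h : ℕ) : Fml := (exists_hdr 1 (2 * h) l).choose

theorem dz_hdr_size (l h : ℕ) : (dz_hdr l h).size ≤ 6 * l + 10 :=
  (exists_hdr 1 (2 * h) l).choose_spec.1

theorem dz_hdr_below (l h : ℕ) : (dz_hdr l h).Below l :=
  (exists_hdr 1 (2 * h) l).choose_spec.2.1

theorem dz_hdr_eval (w : Str) (h : ℕ) : ((dz_hdr w.length h).eval w = true ↔
    ∃ (z : Str) (b : ℕ) (c : Bool), z.length = 2 * h ∧ w = true :: taddr 1 z b c) :=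
  (exists_hdr 1 (2 * h) w.length).choose_spec.2.2 w rfl

theorem dz_len (x y : Str) (hy : y.length = x.length) (b : ℕ) (c : Bool) :
    (true :: taddr 1 (x ++ y) b c).length = b + 4 * x.length + 9 := by
  rw [(taddr_parts 1 (x ++ y) b c).1, List.length_append, hy]
  norm_num
  omega

theorem dz_hdr_uniq {w x y : Str} {b : ℕ} {c : Bool} (hy : y.length = x.length)
    (hw : w = true :: taddr 1 (x ++ y) b c) (h : ℕ) :
    ((dz_hdr w.length h).eval w = true ↔ h = x.length) := by
  rw [dz_hdr_eval]
  constructor
  · rintro ⟨z, b', c', hz, hw'⟩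
    rw [hw, List.cons.injEq] at hw'
    obtain ⟨-, h1, -, -⟩ := addr_taddr_inj hw'.2
    rw [← h1, List.length_append, hy] at hz
    omega
  · rintro rfl
    exact ⟨x ++ y, b, c, by rw [List.length_append, hy]; omega, hw⟩

/-- the possible lengths -/
def dz_H (L d l : ℕ) : List ℕ := (List.range (d + 1)).filter fun h => h ≤ L ∧ 4 * h + 9 ≤ l

theorem dz_mem_H {L d l h : ℕ} : h ∈ dz_H L d l ↔ h < d + 1 ∧ (h ≤ L ∧ 4 * h + 9 ≤ l) := by
  simp [dz_H]

/-- the formula `ψ h`, where `h` is the length of the secret -/
noncomputable def dz_any (L d l : ℕ) (ψ : ℕ → Fml) : Fml :=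
  Fml.any ((dz_H L d l).map fun h => Fml.and (dz_hdr l h) (ψ h))

theorem dz_any_eval {L d : ℕ} {w x y : Str} {b : ℕ} {c : Bool} (hx : x.length ≤ L)
    (hy : y.length = x.length) (hw : w = true :: taddr 1 (x ++ y) b c) (hd : w.length ≤ d)
    (ψ : ℕ → Fml) : (dz_any L d w.length ψ).eval w = (ψ x.length).eval w := by
  have hl : w.length = b + 4 * x.length + 9 := by rw [hw, dz_len x y hy]
  rw [Bool.eq_iff_iff]
  simp only [dz_any, Fml.eval_any, List.any_map, List.any_eq_true, Function.comp_apply,
    Fml.eval_and, Bool.and_eq_true]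
  constructor
  · rintro ⟨h, _, h1, h2⟩
    rw [dz_hdr_uniq hy hw] at h1
    rw [← h1]
    exact h2
  · intro h
    refine ⟨x.length, ?_, (dz_hdr_uniq hy hw _).2 rfl, h⟩
    rw [dz_mem_H]
    omega

theorem dz_any_size {L d l m : ℕ} (ψ : ℕ → Fml) (hl : l ≤ d)
    (h : ∀ h ∈ dz_H L d l, (ψ h).size ≤ m) :
    (dz_any L d l ψ).size ≤ (d + 1) * (6 * d + 10 + m + 3 + 5) + 3 := by
  have h1 := Fml.size_any ((dz_H L d l).map fun h => Fml.and (dz_hdr l h) (ψ h))
    (6 * d + 10 + m + 3) (by
      intro φ hφ
      obtain ⟨h', hh, rfl⟩ := List.mem_map.1 hφ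
      have h2 := h h' hh
      have h3 := dz_hdr_size l h'
      rw [Fml.size_and]
      omega)
  refine h1.trans (Nat.add_le_add_right (Nat.mul_le_mul_right _ ?_) _)
  rw [List.length_map]
  refine (List.length_filter_le _ _).trans ?_
  rw [List.length_range]

theorem dz_any_below {L d l : ℕ} (ψ : ℕ → Fml) (h : ∀ h ∈ dz_H L d l, (ψ h).Below l) :
    (dz_any L d l ψ).Below l := by
  refine Fml.below_any fun φ hφ => ?_
  obtain ⟨h', hh, rfl⟩ := List.mem_map.1 hφ
  exact Fml.below_and (dz_hdr_below _ _) (h h' hh)

/-! ### the code -/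

/-- the code of a string -/
def dz_code (L d : ℕ) (z : Zs L) : List Bool :=
  if z.1.length ≤ d then z.1 ++ true :: List.replicate (d - z.1.length) false
  else List.replicate (d + 1) false

theorem dz_code_len (L d : ℕ) (z : Zs L) : (dz_code L d z).length = d + 1 := by
  unfold dz_code
  split_ifs with h
  · rw [List.length_append, List.length_cons, List.length_replicate]; omega
  · rw [List.length_replicate]

theorem dz_last (x y : List Bool) (a b : ℕ)
    (h : x ++ true :: List.replicate a false = y ++ true :: List.replicate b false) : x = y := by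
  have h1 := congrArg List.reverse h
  simp only [List.reverse_append, List.reverse_cons, List.reverse_replicate,
    List.append_assoc, List.singleton_append] at h1
  have key : ∀ (a b : ℕ) (u v : List Bool),
      List.replicate a false ++ true :: u = List.replicate b false ++ true :: v → u = v := by
    intro a
    induction a with
    | zero =>
      intro b u v h
      cases b with
      | zero => simpa using h
      | succ b => simp [List.replicate_succ] at h
    | succ a ih =>
      intro b u v h
      cases b with
      | zero => simp [List.replicate_succ] at h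
      | succ b =>
        refine ih b u v ?_
        simpa [List.replicate_succ] using h
  exact List.reverse_injective (key a b _ _ h1)

theorem dz_code_inj {L d : ℕ} {z z' : Zs L} (hz : z.1.length ≤ d)
    (h : dz_code L d z' = dz_code L d z) : z' = z := by
  unfold dz_code at h
  rw [if_pos hz] at h
  split_ifs at h with h1
  · exact Subtype.ext (dz_last _ _ _ _ h)
  · exfalso
    have h2 : true ∈ List.replicate (d + 1) false := by
      rw [h]
      simp
    exact absurd (List.eq_of_mem_replicate h2) (by simp)

/-- the formula for bit `i` of the code, if the length is `h` -/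
def dz_bit (l i h : ℕ) : Fml :=
  if i < h then Fml.var (l - 2 * h + i) else Fml.con (decide (i = h))

theorem dz_bit_eval {L d : ℕ} {w x y : Str} {b : ℕ} {c : Bool} (hx : x.length ≤ L)
    (hy : y.length = x.length) (hw : w = true :: taddr 1 (x ++ y) b c) (hd : w.length ≤ d)
    (i : ℕ) : (dz_bit w.length i x.length).eval w = (dz_code L d ⟨x, hx⟩).getD i false := by
  have hl : w.length = b + 4 * x.length + 9 := by rw [hw, dz_len x y hy]
  have hxd : x.length ≤ d := by omega
  unfold dz_bit dz_code
  rw [if_pos hxd]
  split_ifs with h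
  · have h3 := (taddr_parts 1 (x ++ y) b c).2.2 i (by rw [List.length_append]; omega)
    show w.getD (w.length - 2 * x.length + i) false = _
    have e : w.length - 2 * x.length + i =
        b + 1 + ((x ++ y).length + 2) ^ (1 ^ 2) + 6 + i := by
      rw [hl, List.length_append, hy]
      norm_num
      omega
    rw [e]
    nth_rewrite 1 [hw]
    rw [h3, List.getD_append _ _ _ _ h, List.getD_append _ _ _ _ h]
  · rw [Fml.eval_con, List.getD_append_right _ _ _ _ (not_lt.1 h)]
    rcases Nat.eq_or_lt_of_le (not_lt.1 h) with h1 | h1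
    · rw [← h1]
      simp
    · have e : i - x.length = (i - x.length - 1) + 1 := by omega
      rw [e, List.getD_cons_succ]
      have h4 : decide (i = x.length) = false := by
        rw [decide_eq_false_iff_not]; omega
      rw [h4]
      rcases lt_or_ge (i - x.length - 1) (d - x.length) with h5 | h5
      · rw [List.getD_replicate _ h5]
      · rw [List.getD_eq_default]
        rw [List.length_replicate]
        exact h5

/-! ### the value -/

/-- the formula for the answer, if the length is `h` -/
def dz_rd (l : ℕ) (q : Str) (h : ℕ) : Fml :=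
  Fml.ite (Fml.var 2)
    (if l - 4 * h - 9 = 0 then
      Fml.eqC ((List.range h).map fun j => l - h + j) (q.take h) else Fml.con false)
    (Fml.con (decide (l - 4 * h - 9 < 1)))

theorem dz_rd_eval {L : ℕ} {w x y : Str} {b : ℕ} {c : Bool} (hx : x.length ≤ L)
    (hy : y.length = x.length) (hw : w = true :: taddr 1 (x ++ y) b c) (q : X L) :
    (dz_rd w.length q.1 x.length).eval w =
      bit [decide (q.1.take y.length = y)] (b, c) := by
  have hl : w.length = b + 4 * x.length + 9 := by rw [hw, dz_len x y hy]
  have hb : w.length - 4 * x.length - 9 = b := by omega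
  have h2 : (Fml.var 2).eval w = c := by
    show w.getD 2 false = c
    rw [hw]
    exact (taddr_parts 1 (x ++ y) b c).2.1
  unfold dz_rd
  rw [Fml.eval_ite, h2, hb]
  cases c
  · simp [bit]
  · simp only [if_true, bit]
    by_cases hb0 : b = 0
    · rw [if_pos hb0, hb0]
      have h3 : ((List.range x.length).map fun j => w.length - x.length + j).map
          (fun i => w.getD i false) = y := by
        rw [List.map_map]
        refine List.ext_getElem (by simp [hy]) fun j h4 h5 => ?_
        have hj : j < x.length := by simpa using h4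
        rw [List.getElem_map, List.getElem_range, Function.comp_apply]
        have h6 := (taddr_parts 1 (x ++ y) b true).2.2 (x.length + j)
          (by rw [List.length_append, hy]; omega)
        have e : w.length - x.length + j =
            b + 1 + ((x ++ y).length + 2) ^ (1 ^ 2) + 6 + (x.length + j) := by
          rw [hl, List.length_append, hy]
          norm_num
          omega
        rw [e]
        nth_rewrite 1 [hw]
        rw [h6, List.getD_append_right _ _ _ _ (Nat.le_add_right _ _), Nat.add_sub_cancel_left,
          List.getD_eq_getElem _ _ h5]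
      have h4 := Fml.eval_eqC w ((List.range x.length).map fun j => w.length - x.length + j)
        (q.1.take x.length) (by simp [q.2, hx])
      rw [h3] at h4
      simp only [List.reverse_singleton, List.getD_cons_zero]
      rw [Bool.eq_iff_iff, h4, decide_eq_true_iff, hy]
      exact eq_comm
    · rw [if_neg hb0, Fml.eval_con]
      simp only [List.reverse_singleton]
      rw [List.getD_eq_default]
      simp only [List.length_singleton]
      omega

theorem dz_num (d m : ℕ) (hm : m ≤ 6 * d + 25) :
    (d + 1) * (6 * d + 10 + m + 3 + 5) + 3 ≤ 256 * (d + 1) ^ 3 := by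
  have h1 : 6 * d + 10 + m + 3 + 5 ≤ 43 * (d + 1) := by omega
  have h2 : (d + 1) * (6 * d + 10 + m + 3 + 5) ≤ (d + 1) * (43 * (d + 1)) :=
    Nat.mul_le_mul_left _ h1
  nlinarith [Nat.zero_le d, Nat.zero_le (d * d), Nat.zero_le (d * d * d)]

theorem dz_con (d : ℕ) (b : Bool) : (Fml.con b).size ≤ 256 * (d + 1) ^ 3 := by
  have h := Fml.size_con b
  have h1 : 1 ≤ (d + 1) ^ 3 := Nat.one_le_pow _ _ (Nat.succ_pos d)
  omega

/-- DZ: from `exists_hdr`; code of `x`: `x ++ [true]`, filled up with `false`; `false ... false` if
`x` is longer than `d` -/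
theorem exists_descS (L d : ℕ) : Nonempty (Desc (stgS L) d (256 * (d + 1) ^ 3) (d + 1)) := by
  have hinv : ∀ (w : Str) (l : ℕ) (q : X L) (i : Str × (ℕ × Bool)),
      (stgS L).ps w = some (PosI.inv l q i) → False := by
    intro w l q i h
    obtain ⟨x, y, hx, b, c, -, -, h1⟩ := dz_ps_elim (L := L) (w := w) h
    exact absurd h1 (by simp)
  refine ⟨{
    dirF := fun l => dz_any L d l fun _ => Fml.con true
    invF := fun _ => Fml.con false
    rep := fun l => (List.range (d + 1)).map fun i => dz_any L d l (dz_bit l i)
    rdF := fun l q => dz_any L d l (dz_rd l q.1)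
    matF := fun _ _ => Fml.con false
    rzF := fun _ => Fml.con false
    rz0F := fun _ => Fml.con false
    code := dz_code L d
    inj := ?_
    code_len := dz_code_len L d
    rep_len := fun l => by simp
    dirF_eval := ?_
    invF_eval := ?_
    rep_eval := ?_
    rdF_eval := ?_
    matF_eval := fun w _ l q i h => (hinv w l q i h).elim
    rzF_eval := fun w _ l q i h => (hinv w l q i h).elim
    rz0F_eval := fun w _ l q i h => (hinv w l q i h).elim
    dirF_size := ?_
    invF_size := fun l _ => ⟨dz_con _ _, Fml.below_con _ _⟩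
    rep_size := ?_
    rdF_size := ?_
    matF_size := fun l _ _ => ⟨dz_con _ _, Fml.below_con _ _⟩
    rzF_size := fun l _ => ⟨dz_con _ _, Fml.below_con _ _⟩
    rz0F_size := fun l _ => ⟨dz_con _ _, Fml.below_con _ _⟩ }⟩
  · intro w hw z i h z' hz'
    obtain ⟨x, y, hx, b, c, hy, hw', h1⟩ := dz_ps_elim (L := L) (w := w) h
    have h2 : z = ⟨x, hx⟩ := by
      have := PosI.dir.inj h1
      exact this.1
    have h3 : w.length = b + 4 * x.length + 9 := by rw [hw', dz_len x y hy]
    refine dz_code_inj ?_ hz'
    rw [h2]
    show x.length ≤ d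
    omega
  · intro w hw
    constructor
    · intro h
      simp only [dz_any, Fml.eval_any, List.any_map, List.any_eq_true, Function.comp_apply,
        Fml.eval_and, Bool.and_eq_true, Fml.eval_con, and_true] at h
      obtain ⟨h0, h1, h2⟩ := h
      obtain ⟨z, b, c, hz, hw'⟩ := (dz_hdr_eval w h0).1 h2
      rw [dz_mem_H] at h1
      have e1 : (z.take h0).length = h0 := by rw [List.length_take]; omega
      have e2 : (z.drop h0).length = h0 := by rw [List.length_drop]; omega
      refine ⟨⟨z.take h0, by rw [e1]; exact h1.2.1⟩, (z.drop h0, (b, c)), ?_⟩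
      show pz L w = _
      have e3 := dz_ps_intro (L := L) (z.take h0) (z.drop h0) (by rw [e1]; exact h1.2.1)
        (by rw [e1, e2]) b c
      rw [List.take_append_drop, ← hw'] at e3
      exact e3
    · rintro ⟨z, i, h⟩
      obtain ⟨x, y, hx, b, c, hy, hw', h1⟩ := dz_ps_elim (L := L) (w := w) h
      rw [dz_any_eval hx hy hw' hw, Fml.eval_con]
  · intro w hw
    rw [Fml.eval_con]
    constructor
    · intro h
      exact absurd h (by simp)
    · rintro ⟨l, q, i, h⟩
      exact (hinv w l q i h).elim
  · intro w hw z i h
    obtain ⟨x, y, hx, b, c, hy, hw', h1⟩ := dz_ps_elim (L := L) (w := w) h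
    have h2 : z = ⟨x, hx⟩ := (PosI.dir.inj h1).1
    rw [h2, List.map_map]
    refine List.ext_getElem (by rw [dz_code_len]; simp) fun j h3 h4 => ?_
    rw [List.getElem_map, List.getElem_range, Function.comp_apply,
      dz_any_eval hx hy hw' hw, dz_bit_eval hx hy hw' hw, List.getD_eq_getElem _ _ h4]
  · intro w hw z i h q
    obtain ⟨x, y, hx, b, c, hy, hw', h1⟩ := dz_ps_elim (L := L) (w := w) h
    have h2 : i = (y, (b, c)) := (PosI.dir.inj h1).2
    rw [h2, dz_any_eval hx hy hw' hw, dz_rd_eval hx hy hw']
    rfl
  · intro l hl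
    refine ⟨(dz_any_size (m := 3) _ hl fun _ _ => Fml.size_con _).trans (dz_num d 3 (by omega)),
      dz_any_below _ fun _ _ => Fml.below_con _ _⟩
  · intro l hl φ hφ
    obtain ⟨i, hi, rfl⟩ := List.mem_map.1 hφ
    refine ⟨(dz_any_size (m := 3) _ hl fun h hh => ?_).trans (dz_num d 3 (by omega)),
      dz_any_below _ fun h hh => ?_⟩
    · unfold dz_bit
      split_ifs
      · simp [Fml.size]
      · exact Fml.size_con _
    · unfold dz_bit
      rw [dz_mem_H] at hh
      split_ifs with h1
      · show l - 2 * h + i < l
        omega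
      · exact Fml.below_con _ _
  · intro l hl q
    refine ⟨(dz_any_size (m := 6 * d + 25) _ hl fun h hh => ?_).trans (dz_num d _ le_rfl),
      dz_any_below _ fun h hh => ?_⟩
    · rw [dz_mem_H] at hh
      unfold dz_rd
      rw [Fml.size_ite]
      have h1 := Fml.size_con (decide (l - 4 * h - 9 < 1))
      have h2 : (if l - 4 * h - 9 = 0 then
          Fml.eqC ((List.range h).map fun j => l - h + j) (q.1.take h)
          else Fml.con false).size ≤ 6 * h + 3 := by
        split_ifs
        · have := Fml.size_eqC ((List.range h).map fun j => l - h + j) (q.1.take h)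
          rw [List.length_map, List.length_range] at this
          omega
        · have := Fml.size_con false
          omega
      have h3 : (Fml.var 2).size = 1 := rfl
      rw [h3]
      omega
    · rw [dz_mem_H] at hh
      unfold dz_rd
      refine Fml.below_ite ?_ ?_ (Fml.below_con _ _)
      · show 2 < l
        omega
      · split_ifs
        · refine Fml.below_eqC _ _ fun i hi => ?_
          obtain ⟨j, hj, rfl⟩ := List.mem_map.1 hi
          rw [List.mem_range] at hj
          omega
        · exact Fml.below_con _ _

end Pool.Agent.ABO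

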