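import Pool.Agent.Lib_helper27.ABO.Fm
import Pool.Agent.Lib_helper74.IS.All

/-! Block SM of ABO: simulation as a run with memory. -/

set_option autoImplicit false

namespace Pool.Agent.ABO

open Pool.Agent.CK
open Pool.Agent.TD (Str su sj st Act se sm sM sn sD ZSet Z Q unitv Lam KK dd)
open Pool.Agent.TD.IS (PosI Stg uq patchI simI evM icode idec strip ISet posK zs updI PLW PTW
  invTreeW thrX invTab excI LocalWith PolyLocal Cls EL)

section SM

variable {β Zt Qt ι : Type} [DecidableEq Zt]

theorem simI_gTree (G : Stg Zt Qt ι) (O : Lang) (ch : List Str → Str → Bool) (d0 : β)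
    (f : List Bool × List Str → β) (gs : List Gate) (s : List Bool × List Str)
    (ρ : List (Zt × Qt)) (r : List Qt) (h : asks gs ≤ r.length) :
    (simI G d0 ((gTree ch gs s).map f) ρ r).eval O =
      f (gs.foldl (mstep G O ch) (s, (ρ, r))).1 := by
  induction gs generalizing s ρ r with
  | nil =>
    simp only [gTree, DT.map, simI, DT.eval_leaf, List.foldl_nil]
  | cons g gs ih =>
    rcases g with φ | l | l
    · have h' : asks gs ≤ r.length := by
        have e : asks (Gate.fml φ :: gs) = asks gs := by
          unfold asks
          rw [List.countP_cons_of_neg (by simp [Gate.isAsk])]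
        rwa [e] at h
      rw [List.foldl_cons]
      exact ih _ ρ r h'
    · have e : asks (Gate.ask l :: gs) = asks gs + 1 := by
        unfold asks
        rw [List.countP_cons_of_pos (by simp [Gate.isAsk])]
      rw [e] at h
      rw [List.foldl_cons]
      simp only [gTree, DT.map, simI, mstep, mans]
      rcases hps : G.ps (sel s.1 l) with _ | p
      · simp only [DT.eval_node]
        by_cases hO : O (sel s.1 l) = true
        · rw [if_pos hO, ih _ _ _ (by omega), hO]
        · rw [if_neg hO, ih _ _ _ (by omega), Bool.eq_false_iff.2 hO]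
      · rcases p with ⟨z, i⟩ | ⟨l', q, i⟩
        · simp only
          rcases hl : ρ.lookup z with _ | q
          · rcases r with _ | ⟨q, r⟩
            · simp at h
            · simp only [List.length_cons] at h
              simp only
              by_cases hq : G.rd q i = true
              · rw [if_pos hq, ih _ _ _ (by omega), hq]
              · rw [if_neg hq, ih _ _ _ (by omega), Bool.eq_false_iff.2 hq]
          · simp only
            by_cases hq : G.rd q i = true
            · rw [if_pos hq, ih _ _ _ (by omega), hq]
            · rw [if_neg hq, ih _ _ _ (by omega), Bool.eq_false_iff.2 hq]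
        · simp only
          by_cases hq : G.rz (uq fun z => G.ln z = l' ∧ ρ.lookup z = some q) i = true
          · rw [if_pos hq, ih _ _ _ (by omega), hq]
          · rw [if_neg hq, ih _ _ _ (by omega), Bool.eq_false_iff.2 hq]
    · have h' : asks gs ≤ r.length := by
        have e : asks (Gate.chal l :: gs) = asks gs := by
          unfold asks
          rw [List.countP_cons_of_neg (by simp [Gate.isAsk])]
        rwa [e] at h
      rw [List.foldl_cons]
      exact ih _ ρ r h'

theorem simI_lookup (G : Stg Zt Qt ι) (d0 : β) (t : DT β) (ρ ρ' : List (Zt × Qt))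
    (r : List Qt) (h : ∀ z, ρ.lookup z = ρ'.lookup z) : simI G d0 t ρ r = simI G d0 t ρ' r := by
  induction t generalizing ρ ρ' r with
  | leaf b => simp only [simI]
  | node w n0 n1 h0 h1 =>
    simp only [simI]
    rcases G.ps w with _ | p
    · simp only
      rw [h0 ρ ρ' r h, h1 ρ ρ' r h]
    · rcases p with ⟨z, i⟩ | ⟨l, q, i⟩
      · simp only
        rw [h z]
        rcases ρ'.lookup z with _ | q
        · rcases r with _ | ⟨q, r⟩
          · rfl
          · have hc : ∀ z', ((z, q) :: ρ).lookup z' = ((z, q) :: ρ').lookup z' := by
              intro z'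
              rw [List.lookup_cons, List.lookup_cons, h z']
            simp only
            rw [h0 _ _ r hc, h1 _ _ r hc]
        · simp only
          rw [h0 ρ ρ' r h, h1 ρ ρ' r h]
      · simp only [h]
        rw [h0 ρ ρ' r h, h1 ρ ρ' r h]

theorem sm_filter (ρ : List (Zt × Qt)) (z a : Zt) (h : a ≠ z) :
    (ρ.filter fun p => decide (p.1 ≠ z)).lookup a = ρ.lookup a := by
  induction ρ with
  | nil => rfl
  | cons p ρ ih =>
    rcases p with ⟨y, q⟩
    by_cases hy : y = z
    · rw [List.filter_cons_of_neg (by simp [hy]), ih, List.lookup_cons]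
      have : (a == y) = false := by
        rw [beq_eq_false_iff_ne, hy]
        exact h
      rw [this]
    · rw [List.filter_cons_of_pos (by simpa using hy), List.lookup_cons, List.lookup_cons, ih]

theorem exists_nodup (ρ : List (Zt × Qt)) : ∃ ρ' : List (Zt × Qt), (ρ'.map Prod.fst).Nodup ∧
    ρ'.length ≤ ρ.length ∧ ∀ z, ρ'.lookup z = ρ.lookup z := by
  induction ρ with
  | nil => exact ⟨[], List.nodup_nil, le_rfl, fun _ => rfl⟩
  | cons p ρ ih =>
    rcases p with ⟨z, q⟩
    obtain ⟨ρ', h1, h2, h3⟩ := ih
    refine ⟨(z, q) :: ρ'.filter fun p => decide (p.1 ≠ z), ?_, ?_, fun a => ?_⟩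
    · rw [List.map_cons, List.nodup_cons]
      constructor
      · rw [List.mem_map]
        rintro ⟨p, hp, hpz⟩
        have := (List.mem_filter.1 hp).2
        simp only [decide_eq_true_eq] at this
        exact this hpz
      · exact h1.sublist (List.Sublist.map _ List.filter_sublist)
    · rw [List.length_cons, List.length_cons]
      exact Nat.succ_le_succ ((List.length_filter_le _ _).trans h2)
    · rw [List.lookup_cons, List.lookup_cons]
      by_cases ha : a = z
      · have : (a == z) = true := by rw [beq_iff_eq]; exact ha
        rw [this]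
      · rw [sm_filter _ _ _ ha, h3]

theorem simI_congr (G : Stg Zt Qt ι) (d0 : β) (P : Str → Prop) (O O' : Lang) (t : DT β)
    (ρ : List (Zt × Qt)) (r : List Qt) (ht : t.AllQ P)
    (h : ∀ w, P w → G.ps w = none → O w = O' w) :
    (simI G d0 t ρ r).eval O = (simI G d0 t ρ r).eval O' := by
  induction t generalizing ρ r with
  | leaf b => simp only [simI, DT.eval_leaf]
  | node w n0 n1 h0 h1 =>
    obtain ⟨hw, ht0, ht1⟩ := ht
    simp only [simI]
    rcases hps : G.ps w with _ | p
    · simp only [DT.eval_node]
      rw [h0 ρ r ht0, h1 ρ r ht1, h w hw hps]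
    · rcases p with ⟨z, i⟩ | ⟨l, q, i⟩
      · simp only
        rcases ρ.lookup z with _ | q
        · rcases r with _ | ⟨q, r⟩
          · rfl
          · simp only
            split_ifs
            · exact h1 _ _ ht1
            · exact h0 _ _ ht0
        · simp only
          split_ifs
          · exact h1 _ _ ht1
          · exact h0 _ _ ht0
      · simp only
        split_ifs
        · exact h1 _ _ ht1
        · exact h0 _ _ ht0

end SM


end Pool.Agent.ABO
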