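import Pool.Agent.Lib_helper27.ABO.Fm
import Pool.Agent.Lib_helper74.IS.All
import Pool.Agent.Lib_helper27.ABO.B.AK
import Pool.Agent.Lib_helper27.ABO.B.CA1
import Pool.Agent.Lib_helper27.ABO.B.SM

/-!
# Block LC: simulation of circuits (Lemma C)
-/

set_option autoImplicit false
set_option linter.unusedSectionVars false
set_option linter.unusedVariables false

namespace Pool.Agent.ABO

open Pool.Agent.CK
open Pool.Agent.TD (Str su sj st Act se sm sM sn sD ZSet Z Q unitv Lam KK dd)
open Pool.Agent.TD.IS (PosI Stg uq patchI simI evM icode idec strip ISet posK zs updI PLW PTW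
  invTreeW thrX invTab excI LocalWith PolyLocal Cls EL)

theorem lc_below_mono {t t' : ℕ} (h : t ≤ t') {g : Gate} (hg : g.Below t) : g.Below t' := by
  cases g with
  | fml φ => exact Fml.Below.mono h hg
  | ask l => exact fun i hi => lt_of_lt_of_le (hg i hi) h
  | chal l => exact fun i hi => lt_of_lt_of_le (hg i hi) h

theorem lc_getD_ge {α : Type} {W : List α} {i : ℕ} {x : α} (h : W.length ≤ i) :
    W.getD i x = x := by
  rw [List.getD_eq_getElem?_getD, List.getElem?_eq_none h, Option.getD_none]

theorem lc_getD_append {α : Type} {W U : List α} {i : ℕ} {x : α} (h : i < W.length) :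
    (W ++ U).getD i x = W.getD i x := by
  rw [List.getD_eq_getElem?_getD, List.getD_eq_getElem?_getD, List.getElem?_append_left h]

theorem lc_getD_snoc {α : Type} {W : List α} {v x : α} : (W ++ [v]).getD W.length x = v := by
  rw [List.getD_eq_getElem?_getD, List.getElem?_append_right (le_refl _), Nat.sub_self]
  rfl

theorem lc_get_lt {pi : List ℕ} {N : ℕ} (hlt : ∀ j ∈ pi, j < N) (hpos : 0 < N) (i : ℕ) :
    pi.getD i 0 < N := by
  by_cases hi : i < pi.length
  · rw [List.getD_eq_getElem?_getD, List.getElem?_eq_getElem hi, Option.getD_some]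
    exact hlt _ (List.getElem_mem hi)
  · rw [lc_getD_ge (by omega)]
    exact hpos

theorem lc_sel {W W' : List Bool} {pi : List ℕ}
    (h : ∀ i, W.getD i false = W'.getD (pi.getD i 0) false) (l : List ℕ) :
    sel W' (l.map fun i => pi.getD i 0) = sel W l := by
  unfold sel
  rw [List.map_map]
  refine List.map_congr_left fun i _ => ?_
  exact (h i).symm

theorem lc_cor_snoc {W W' U : List Bool} {pi : List ℕ} {p : ℕ} {v : Bool}
    (hlen : pi.length = W.length) (hlt : ∀ j ∈ pi, j < W'.length) (hpos : 0 < W'.length)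
    (h0 : W'.getD 0 false = false) (h : ∀ i, W.getD i false = W'.getD (pi.getD i 0) false)
    (hp : (W' ++ U).getD p false = v) (i : ℕ) :
    (W ++ [v]).getD i false = (W' ++ U).getD ((pi ++ [p]).getD i 0) false := by
  rcases lt_trichotomy i W.length with hi | hi | hi
  · have e1 : (pi ++ [p]).getD i 0 = pi.getD i 0 := lc_getD_append (by omega)
    rw [e1, lc_getD_append hi, lc_getD_append (lc_get_lt hlt hpos i)]
    exact h i
  · subst hi
    rw [lc_getD_snoc]
    have e1 : (pi ++ [p]).getD W.length 0 = p := by rw [← hlen, lc_getD_snoc]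
    rw [e1, hp]
  · have e1 : (pi ++ [p]).getD i 0 = 0 := lc_getD_ge (by
      rw [List.length_append, List.length_singleton]
      omega)
    have e2 : (W ++ [v]).getD i false = false := lc_getD_ge (by
      rw [List.length_append, List.length_singleton]
      omega)
    rw [e1, e2, lc_getD_append hpos, h0]

section mem

variable {β Zt Qt ι : Type} [DecidableEq Zt]

theorem lc_slots_append {G : Stg Zt Qt ι} {d m B : ℕ} {D : Desc G d m B} {b : ℕ}
    {W U : List Bool} {zs : List Zt} (hb : b + d * (B + 1) ≤ W.length) (h : Slots D b W zs) :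
    Slots D b (W ++ U) zs := by
  intro u hu
  have h1 : (u + 1) * (B + 1) ≤ d * (B + 1) := Nat.mul_le_mul_right _ hu
  have h2 : (u + 1) * (B + 1) = u * (B + 1) + (B + 1) := by ring
  obtain ⟨ha, hc⟩ := h u hu
  refine ⟨?_, fun z hz i hi => ?_⟩
  · rw [lc_getD_append (by omega)]
    exact ha
  · rw [lc_getD_append (by omega)]
    exact hc z hz i hi

/-- the invariant of the construction -/
def lc_Inv {G : Stg Zt Qt ι} {d m B : ℕ} (D : Desc G d m B) (ρ : List (Zt × Qt)) (r : List Qt)
    (gs : List Gate) : Prop :=
  ∃ (gs' : List Gate) (pi : List ℕ) (b : ℕ),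
    gsz gs' ≤ gsz gs + 4 * (1 + d * (B + 1)) + asks gs * cst d m B ρ.length ∧
    asks gs' = asks gs ∧ Lens d gs' ∧ (∀ g ∈ gs', g.Below gs'.length) ∧ 0 < gs'.length ∧
    pi.length = gs.length ∧ (∀ j ∈ pi, j < gs'.length) ∧ b + d * (B + 1) ≤ gs'.length ∧
    ∀ (O : Lang) (ch : List Str → Str → Bool),
      ∃ (W W' : List Bool) (qs : List Str) (zs : List Zt),
        gs.foldl (mstep G O ch) (([], []), (ρ, r)) =
          ((W, qs), ((zs.zip r).reverse ++ ρ, r.drop zs.length)) ∧
        gs'.foldl (gstep O ch) ([], []) = (W', qs) ∧ W.length = gs.length ∧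
        W'.length = gs'.length ∧ W'.getD 0 false = false ∧
        (∀ i, W.getD i false = W'.getD (pi.getD i 0) false) ∧
        Slots D b W' zs ∧ zs.length ≤ asks gs ∧ (zs ++ ρ.map Prod.fst).Nodup

theorem lc_replicate_getD (n i : ℕ) : (List.replicate n false).getD i false = false := by
  by_cases hi : i < n
  · rw [List.getD_eq_getElem?_getD, List.getElem?_replicate, if_pos hi, Option.getD_some]
  · exact lc_getD_ge (by simpa using hi)

theorem lc_nil {G : Stg Zt Qt ι} {d m B : ℕ} (D : Desc G d m B) (ρ : List (Zt × Qt))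
    (hρ : (ρ.map Prod.fst).Nodup) (r : List Qt) : lc_Inv D ρ r [] := by
  set n := 1 + d * (B + 1) with hn
  set fs : List Fml := List.replicate n (Fml.con false) with hfs
  have hlen : (fs.map Gate.fml).length = n := by simp [hfs]
  refine ⟨fs.map Gate.fml, [], 1, ?_, ?_, ?_, ?_, ?_, rfl, ?_, ?_, ?_⟩
  · have h1 := gsz_fml fs 3 (fun φ hφ => by
      rw [hfs, List.mem_replicate] at hφ
      rw [hφ.2]
      exact Fml.size_con false)
    have h2 : fs.length = n := by simp [hfs]
    rw [h2] at h1
    have h3 : n * (3 + 1) = 4 * n := by ring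
    rw [h3] at h1
    have h4 : gsz ([] : List Gate) = 0 := rfl
    have h5 : asks ([] : List Gate) = 0 := rfl
    rw [h4, h5]
    omega
  · have : ∀ l : List Fml, asks (l.map Gate.fml) = 0 := by
      intro l
      induction l with
      | nil => rfl
      | cons a l ih =>
        unfold asks at ih ⊢
        rw [List.map_cons, List.countP_cons, ih]
        rfl
    rw [this]
    rfl
  · intro l hl
    simp at hl
  · intro g hg
    rw [List.mem_map] at hg
    obtain ⟨φ, hφ, rfl⟩ := hg
    rw [hfs, List.mem_replicate] at hφ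
    rw [hφ.2]
    exact Fml.below_con _ _
  · rw [hlen]; omega
  · intro j hj
    simp at hj
  · rw [hlen]
  · intro O ch
    have hf := foldl_fml O ch fs [] [] (fun φ hφ => by
      rw [hfs, List.mem_replicate] at hφ
      rw [hφ.2]
      exact Fml.below_con _ _)
    have he : [] ++ fs.map (fun φ => φ.eval []) = List.replicate n false := by
      rw [hfs]
      simp
    rw [he] at hf
    refine ⟨[], List.replicate n false, [], [], ?_, hf, rfl, ?_, lc_replicate_getD _ _, ?_, ?_,
      ?_, ?_⟩
    · simp
    · rw [hlen, List.length_replicate]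
    · intro i
      rw [lc_replicate_getD]
      rfl
    · intro u hu
      refine ⟨?_, fun z hz => ?_⟩
      · rw [lc_replicate_getD]
        simp
      · simp at hz
    · simp
    · simpa using hρ

theorem lc_asks_snoc (gs : List Gate) (g : Gate) :
    asks (gs ++ [g]) = asks gs + if g.isAsk = true then 1 else 0 := by
  unfold asks
  rw [List.countP_append]
  simp [List.countP_cons]

theorem lc_step {G : Stg Zt Qt ι} {d m B : ℕ} (D : Desc G d m B) (ρ : List (Zt × Qt))
    (hρ : (ρ.map Prod.fst).Nodup) (r : List Qt) (hr : r.length = d) (gs : List Gate) (g : Gate)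
    (s : ℕ) (hgs : asks (gs ++ [g]) ≤ d) (hl : Lens d (gs ++ [g])) (hs : g.Below s)
    (h : lc_Inv D ρ r gs) : lc_Inv D ρ r (gs ++ [g]) := by
  obtain ⟨gs', pi, b, hsz, hasks, hlens, hbel, hpos, hpi, hpil, hb, hsem⟩ := h
  cases g with
  | fml φ =>
    set f : ℕ → Fml := fun i => Fml.var (pi.getD i 0) with hf
    have hfb : ∀ i < s, (f i).Below gs'.length := fun i _ => lc_get_lt hpil hpos i
    refine ⟨gs' ++ [Gate.fml (Fml.subst f φ)], pi ++ [gs'.length], b, ?_, ?_, ?_, ?_, ?_, ?_, ?_,
      ?_, ?_⟩
    · have h1 := Fml.size_subst (f := f) (m := 1) (t := s) (le_refl _)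
        (fun i _ => by simp [hf, Fml.size]) hs
      have h2 : asks (gs ++ [Gate.fml φ]) = asks gs := by
        rw [lc_asks_snoc]
        simp [Gate.isAsk]
      rw [h2]
      simp only [gsz_append, gsz_cons, gsz_nil, Gate.size]
      omega
    · rw [lc_asks_snoc, lc_asks_snoc, hasks]
      rfl
    · intro l hl'
      rw [List.mem_append] at hl'
      rcases hl' with hl' | hl'
      · exact hlens l hl'
      · simp at hl'
    · intro g hg
      rw [List.length_append, List.length_singleton]
      rw [List.mem_append] at hg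
      rcases hg with hg | hg
      · exact lc_below_mono (Nat.le_succ _) (hbel g hg)
      · rw [List.mem_singleton] at hg
        subst hg
        exact Fml.Below.mono (Nat.le_succ _) (Fml.below_subst hfb hs)
    · simp
    · simp [hpi]
    · intro j hj
      rw [List.length_append, List.length_singleton]
      rw [List.mem_append] at hj
      rcases hj with hj | hj
      · exact (hpil j hj).trans (Nat.lt_succ_self _)
      · rw [List.mem_singleton] at hj
        omega
    · rw [List.length_append]; omega
    · intro O ch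
      obtain ⟨W, W', qs, zs, h1, h2, h3, h4, h5, h6, h7, h8, h9⟩ := hsem O ch
      have hev : (Fml.subst f φ).eval W' = φ.eval W := by
        refine Fml.eval_subst (t := s) (fun i _ => ?_) hs
        exact (h6 i).symm
      refine ⟨W ++ [φ.eval W], W' ++ [φ.eval W], qs, zs, ?_, ?_, ?_, ?_, ?_, ?_, ?_, ?_, h9⟩
      · rw [List.foldl_append, h1]
        rfl
      · rw [List.foldl_append, h2, ← hev]
        rfl
      · simp [h3]
      · simp [h4]
      · rw [lc_getD_append (by omega)]; exact h5
      · refine lc_cor_snoc (by rw [hpi, h3]) (fun j hj => by rw [h4]; exact hpil j hj)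
          (by omega) h5 h6 ?_
        rw [← h4, lc_getD_snoc]
      · exact lc_slots_append (by rw [h4]; exact hb) h7
      · rw [lc_asks_snoc]
        omega
  | chal l =>
    refine ⟨gs' ++ [Gate.chal (l.map fun i => pi.getD i 0)], pi ++ [gs'.length], b,
      ?_, ?_, ?_, ?_, ?_, ?_, ?_, ?_, ?_⟩
    · have h2 : asks (gs ++ [Gate.chal l]) = asks gs := by
        rw [lc_asks_snoc]
        simp [Gate.isAsk]
      rw [h2]
      simp only [gsz_append, gsz_cons, gsz_nil, Gate.size, List.length_map]
      omega
    · rw [lc_asks_snoc, lc_asks_snoc, hasks]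
      rfl
    · intro l hl'
      rw [List.mem_append] at hl'
      rcases hl' with hl' | hl'
      · exact hlens l hl'
      · simp at hl'
    · intro g hg
      rw [List.length_append, List.length_singleton]
      rw [List.mem_append] at hg
      rcases hg with hg | hg
      · exact lc_below_mono (Nat.le_succ _) (hbel g hg)
      · rw [List.mem_singleton] at hg
        subst hg
        intro i hi
        rw [List.mem_map] at hi
        obtain ⟨j, _, rfl⟩ := hi
        exact (lc_get_lt hpil hpos j).trans (Nat.lt_succ_self _)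
    · simp
    · simp [hpi]
    · intro j hj
      rw [List.length_append, List.length_singleton]
      rw [List.mem_append] at hj
      rcases hj with hj | hj
      · exact (hpil j hj).trans (Nat.lt_succ_self _)
      · rw [List.mem_singleton] at hj
        omega
    · rw [List.length_append]; omega
    · intro O ch
      obtain ⟨W, W', qs, zs, h1, h2, h3, h4, h5, h6, h7, h8, h9⟩ := hsem O ch
      have hsel := lc_sel h6 l
      refine ⟨W ++ [ch qs (sel W l)], W' ++ [ch qs (sel W l)], qs ++ [sel W l], zs,
        ?_, ?_, ?_, ?_, ?_, ?_, ?_, ?_, h9⟩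
      · rw [List.foldl_append, h1]
        rfl
      · rw [List.foldl_append, h2, ← hsel]
        rfl
      · simp [h3]
      · simp [h4]
      · rw [lc_getD_append (by omega)]; exact h5
      · refine lc_cor_snoc (by rw [hpi, h3]) (fun j hj => by rw [h4]; exact hpil j hj)
          (by omega) h5 h6 ?_
        rw [← h4, lc_getD_snoc]
      · exact lc_slots_append (by rw [h4]; exact hb) h7
      · rw [lc_asks_snoc]
        omega
  | ask l =>
    have hask : asks (gs ++ [Gate.ask l]) = asks gs + 1 := by
      rw [lc_asks_snoc]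
      simp [Gate.isAsk]
    rw [hask] at hgs
    obtain ⟨gs1, b', hne, hsz1, hasks1, hlens1, hbel1, hb1, hsem1⟩ :=
      one_ask G D ρ hρ r hr gs'.length b hb (l.map fun i => pi.getD i 0)
        (by rw [List.length_map]; exact hl l (by simp))
        (fun i hi => by
          rw [List.mem_map] at hi
          obtain ⟨j, _, rfl⟩ := hi
          exact lc_get_lt hpil hpos j)
    have hn1 : 0 < gs1.length := List.length_pos_of_ne_nil hne
    refine ⟨gs' ++ gs1, pi ++ [gs'.length + gs1.length - 1], b', ?_, ?_, ?_, ?_, ?_, ?_, ?_,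
      ?_, ?_⟩
    · rw [hask]
      simp only [gsz_append, gsz_cons, gsz_nil]
      have e : (asks gs + 1) * cst d m B ρ.length =
        asks gs * cst d m B ρ.length + cst d m B ρ.length := by ring
      rw [e]
      omega
    · rw [hask]
      unfold asks at hasks hasks1 ⊢
      rw [List.countP_append, hasks, hasks1]
    · intro l hl'
      rw [List.mem_append] at hl'
      rcases hl' with hl' | hl'
      · exact hlens l hl'
      · exact hlens1 l hl'
    · intro g hg
      rw [List.length_append]
      rw [List.mem_append] at hg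
      rcases hg with hg | hg
      · exact lc_below_mono (Nat.le_add_right _ _) (hbel g hg)
      · exact hbel1 g hg
    · rw [List.length_append]; omega
    · simp [hpi]
    · intro j hj
      rw [List.length_append]
      rw [List.mem_append] at hj
      rcases hj with hj | hj
      · exact lt_of_lt_of_le (hpil j hj) (Nat.le_add_right _ _)
      · rw [List.mem_singleton] at hj
        omega
    · rw [List.length_append]; exact hb1
    · intro O ch
      obtain ⟨W, W', qs, zs, h1, h2, h3, h4, h5, h6, h7, h8, h9⟩ := hsem O ch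
      have hsel := lc_sel h6 l
      obtain ⟨U, zs', hU, hfold, hmans, hslots, hzl, hnd⟩ :=
        hsem1 O ch W' qs zs h4 h7 (by omega) h9
      rw [hsel] at hmans
      refine ⟨W ++ [(W' ++ U).getD (gs'.length + gs1.length - 1) false], W' ++ U, qs, zs',
        ?_, ?_, ?_, ?_, ?_, ?_, hslots, ?_, hnd⟩
      · rw [List.foldl_append, h1]
        show mstep G O ch ((W, qs), ((zs.zip r).reverse ++ ρ, r.drop zs.length)) (Gate.ask l) = _
        unfold mstep
        simp only [hmans]
      · rw [List.foldl_append, h2]
        exact hfold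
      · simp [h3]
      · simp [h4, hU]
      · rw [lc_getD_append (by omega)]; exact h5
      · exact lc_cor_snoc (by rw [hpi, h3]) (fun j hj => by rw [h4]; exact hpil j hj)
          (by omega) h5 h6 rfl
      · rw [hask]
        omega

theorem lc_inv {G : Stg Zt Qt ι} {d m B : ℕ} (D : Desc G d m B) (ρ : List (Zt × Qt))
    (hρ : (ρ.map Prod.fst).Nodup) (r : List Qt) (hr : r.length = d) (s : ℕ) (gs : List Gate) :
    asks gs ≤ d → Lens d gs → (∀ g ∈ gs, g.Below s) → lc_Inv D ρ r gs := by
  induction gs using List.reverseRecOn with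
  | nil => exact fun _ _ _ => lc_nil D ρ hρ r
  | append_singleton gs g ih =>
    intro h1 h2 h3
    refine lc_step D ρ hρ r hr gs g s h1 h2 (h3 g (by simp)) (ih ?_ ?_ ?_)
    · rw [lc_asks_snoc] at h1
      omega
    · exact fun l hl => h2 l (by simp [hl])
    · exact fun g' hg' => h3 g' (by simp [hg'])

theorem lc_cst (d m B s : ℕ) : 4 * (1 + d * (B + 1)) ≤ cst d m B s := by
  unfold cst
  have h1 : 1 + d * (B + 1) ≤ (B + 1) * (s + d + 1) := by nlinarith [Nat.zero_le (B * s)]
  have h2 : (B + 1) * (s + d + 1) ≤ (m + 1) * ((B + 1) * (s + d + 1)) :=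
    Nat.le_mul_of_pos_left _ (Nat.succ_pos _)
  calc 4 * (1 + d * (B + 1)) ≤ 512 * ((m + 1) * ((B + 1) * (s + d + 1))) := by omega
    _ = 512 * (m + 1) * (B + 1) * (s + d + 1) := by ring

theorem lemC (G : Stg Zt Qt ι) {d m B : ℕ} (D : Desc G d m B) (Gm : Game) (C : Circuit) (s : ℕ)
    (hC : C.Within s d) (ρ : List (Zt × Qt)) (r : List Qt) (hr : r.length = d) :
    ∃ C' : Circuit, C'.Within (s + (d + 1) * cst d m B ρ.length) d ∧
      ∀ (ω : Str) (O : Lang),
        (cTree Gm C' ω).eval O = (simI G [] (cTree Gm C ω) ρ r).eval O := by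
  obtain ⟨ρ', hnd, hlen, hlk⟩ := exists_nodup ρ
  obtain ⟨gs', pi, b, hsz, hasks, hlens, hbel, hpos, hpi, hpil, hb, hsem⟩ :=
    lc_inv D ρ' hnd r hr s C.gates hC.asks hC.lens hC.below
  have hcst : cst d m B ρ'.length ≤ cst d m B ρ.length := by
    unfold cst
    exact Nat.mul_le_mul_left _ (by omega)
  have hsize : gsz gs' + C.out.length ≤ s + (d + 1) * cst d m B ρ.length := by
    have h1 : gsz C.gates + C.out.length ≤ s := hC.size
    have h2 := lc_cst d m B ρ'.length
    have h3 : asks C.gates * cst d m B ρ'.length ≤ d * cst d m B ρ'.length :=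
      Nat.mul_le_mul_right _ hC.asks
    have h4 : (d + 1) * cst d m B ρ'.length ≤ (d + 1) * cst d m B ρ.length :=
      Nat.mul_le_mul_left _ hcst
    have h5 : (d + 1) * cst d m B ρ'.length = d * cst d m B ρ'.length + cst d m B ρ'.length := by
      ring
    omega
  have hlg : gs'.length ≤ s + (d + 1) * cst d m B ρ.length :=
    (length_le_gsz gs').trans (by omega)
  refine ⟨⟨gs', C.out.map fun i => pi.getD i 0⟩, ⟨?_, ?_, hlens, ?_, ?_⟩, ?_⟩
  · show gsz gs' + (C.out.map fun i => pi.getD i 0).length ≤ _
    rw [List.length_map]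
    exact hsize
  · show asks gs' ≤ d
    rw [hasks]
    exact hC.asks
  · exact fun g hg => lc_below_mono hlg (hbel g hg)
  · intro i hi
    change i ∈ C.out.map fun i => pi.getD i 0 at hi
    rw [List.mem_map] at hi
    obtain ⟨j, _, rfl⟩ := hi
    exact lt_of_lt_of_le (lc_get_lt hpil hpos j) hlg
  · intro ω O
    rw [simI_lookup G [] _ ρ ρ' r (fun z => (hlk z).symm)]
    unfold cTree
    rw [DT.eval_map, gTree_eval, simI_gTree G O (Gm.ch ω) [] _ C.gates ([], []) ρ' r
      (by rw [hr]; exact hC.asks)]
    obtain ⟨W, W', qs, zs, h1, h2, h3, h4, h5, h6, h7, h8, h9⟩ := hsem O (Gm.ch ω)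
    rw [h1]
    change [Gm.win ω (gs'.foldl (gstep O (Gm.ch ω)) ([], [])).2
      (sel (gs'.foldl (gstep O (Gm.ch ω)) ([], [])).1 (C.out.map fun i => pi.getD i 0))] = _
    rw [h2]
    show [Gm.win ω qs (sel W' (C.out.map fun i => pi.getD i 0))] = [Gm.win ω qs (sel W C.out)]
    rw [lc_sel h6 C.out]

end mem


end Pool.Agent.ABO
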