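import Pool.Agent.Lib_helper27.ABO.Fm
import Pool.Agent.Lib_helper74.IS.All

set_option autoImplicit false

namespace Pool.Agent.ABO

open Pool.Agent.CK
open Pool.Agent.TD (Str su sj st Act se sm sM sn sD ZSet Z Q unitv Lam KK dd)
open Pool.Agent.TD.IS (PosI Stg uq patchI simI evM icode idec strip ISet posK zs updI PLW PTW
  invTreeW thrX invTab excI LocalWith PolyLocal Cls EL)

theorem pj2_bit_nil (i : ℕ × Bool) : bit [] i = false := by
  unfold bit
  split_ifs <;> simp

theorem pj2_bit_one (b : Bool) : bit [b] (0, true) = b := by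
  unfold bit
  simp

theorem pj2_sv0 (x : Str) : sv sec0 x = x := rfl

theorem pj2_svT_le (L : ℕ) (T : Zs L → X L) (x : Str) (h : x.length ≤ L) :
    sv (secT L T) x = (T ⟨x, h⟩).1.take x.length := by
  unfold sv secT
  rw [dif_pos h]

theorem pj2_svT_gt (L : ℕ) (T : Zs L → X L) (x : Str) (h : ¬ x.length ≤ L) :
    sv (secT L T) x = x := by
  unfold sv secT
  rw [dif_neg h]

theorem pj2_pz_none (L : ℕ) (w : Str) (h : tdec w = none) : pz L (true :: w) = none := by
  unfold pz
  simp only [h]

theorem pj2_pz_pos (L : ℕ) (w : Str) (p : (ℕ × List Bool) × (ℕ × Bool)) (hp : tdec w = some p)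
    (h : p.1.1 = 1 ∧ p.1.2.length = 2 * (p.1.2.length / 2) ∧ p.1.2.length / 2 ≤ L)
    (hl : (p.1.2.take (p.1.2.length / 2)).length ≤ L) :
    pz L (true :: w) = some (PosI.dir ⟨p.1.2.take (p.1.2.length / 2), hl⟩
          (p.1.2.drop (p.1.2.length / 2), p.2)) := by
  unfold pz
  simp only [hp]
  rw [dif_pos h]

theorem pj2_pz_neg (L : ℕ) (w : Str) (p : (ℕ × List Bool) × (ℕ × Bool)) (hp : tdec w = some p)
    (h : ¬ (p.1.1 = 1 ∧ p.1.2.length = 2 * (p.1.2.length / 2) ∧ p.1.2.length / 2 ≤ L)) :
    pz L (true :: w) = none := by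
  unfold pz
  simp only [hp]
  rw [dif_neg h]

theorem pj2_orc_none (S : Sec) (Tab : ℕ → Str → Str) (w : Str) (h : tdec w = none) :
    orc S Tab w = false := by
  unfold orc
  simp only [h]

theorem pj2_orc_some (S : Sec) (Tab : ℕ → Str → Str) (w : Str)
    (p : (ℕ × List Bool) × (ℕ × Bool)) (hp : tdec w = some p) :
    orc S Tab w = bit (val S Tab p.1.1 p.1.2) p.2 := by
  unfold orc
  simp only [hp]

theorem OJ_secT (R : Lang) (L : ℕ) (T : Zs L → X L) :
    patchI (stgS L) (OJ R sec0 fun _ _ => []) T = OJ R (secT L T) fun _ _ => [] := by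
  funext w
  have hps : (stgS L).ps = pz L := rfl
  match w with
  | [] => rfl
  | false :: w => rfl
  | true :: w =>
    show patchI (stgS L) (OJ R sec0 fun _ _ => []) T (true :: w) =
      orc (secT L T) (fun _ _ => []) w
    cases hp : tdec w with
    | none =>
      rw [pj2_orc_none _ _ w hp]
      unfold patchI
      rw [hps, pj2_pz_none L w hp]
      exact pj2_orc_none _ _ w hp
    | some p =>
      rw [pj2_orc_some _ _ w p hp]
      by_cases h : p.1.1 = 1 ∧ p.1.2.length = 2 * (p.1.2.length / 2) ∧ p.1.2.length / 2 ≤ L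
      · have hl1 : (p.1.2.take (p.1.2.length / 2)).length = p.1.2.length / 2 := by
          rw [List.length_take]; omega
        have hl2 : (p.1.2.drop (p.1.2.length / 2)).length = p.1.2.length / 2 := by
          rw [List.length_drop]; omega
        have hl : (p.1.2.take (p.1.2.length / 2)).length ≤ L := by rw [hl1]; exact h.2.2
        unfold patchI
        rw [hps, pj2_pz_pos L w p hp h hl]
        show bit [decide ((T _).1.take (p.1.2.drop (p.1.2.length / 2)).length =
          p.1.2.drop (p.1.2.length / 2))] p.2 = _
        unfold val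
        rw [if_pos h.1, if_pos h.2.1, pj2_svT_le L T _ hl, hl1, hl2]
      · unfold patchI
        rw [hps, pj2_pz_neg L w p hp h]
        show orc sec0 (fun _ _ => []) w = _
        rw [pj2_orc_some _ _ w p hp]
        congr 1
        unfold val
        by_cases h1 : p.1.1 = 1
        · by_cases h2 : p.1.2.length = 2 * (p.1.2.length / 2)
          · have h3 : ¬ p.1.2.length / 2 ≤ L := fun h3 => h ⟨h1, h2, h3⟩
            have hl1 : (p.1.2.take (p.1.2.length / 2)).length = p.1.2.length / 2 := by
              rw [List.length_take]; omega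
            rw [if_pos h1, if_pos h2, if_pos h1, if_pos h2, pj2_sv0,
              pj2_svT_gt L T _ (by rw [hl1]; exact h3)]
          · rw [if_pos h1, if_neg h2, if_pos h1, if_neg h2]
        · rw [if_neg h1, if_neg h1]

theorem OJ_none (R : Lang) (L : ℕ) (w : Str) (hw : w.length ≤ L) (h : pz L w = none) :
    OJ R sec0 (fun _ _ => []) w = join R (fun _ => false) w := by
  match w, hw, h with
  | [], _, _ => rfl
  | false :: w, _, _ => rfl
  | true :: w, hw, h =>
    show orc sec0 (fun _ _ => []) w = false
    cases hp : tdec w with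
    | none => exact pj2_orc_none _ _ w hp
    | some p =>
      rw [pj2_orc_some _ _ w p hp]
      have hw2 := tdec_eq hp
      have hlen : p.1.2.length ≤ w.length := by
        rw [hw2]
        unfold taddr
        simp only [List.length_cons, List.length_append]
        omega
      have hval : val sec0 (fun _ _ => []) p.1.1 p.1.2 = [] := by
        unfold val
        by_cases h1 : p.1.1 = 1
        · by_cases h2 : p.1.2.length = 2 * (p.1.2.length / 2)
          · exfalso
            have h3 : p.1.2.length / 2 ≤ L := by
              rw [List.length_cons] at hw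
              omega
            have hl : (p.1.2.take (p.1.2.length / 2)).length ≤ L := by
              rw [List.length_take]; omega
            rw [pj2_pz_pos L w p hp ⟨h1, h2, h3⟩ hl] at h
            exact absurd h (by simp)
          · rw [if_pos h1, if_neg h2]
        · rw [if_neg h1]
      rw [hval, pj2_bit_nil]

theorem pz_inv (L : ℕ) (w : Str) (l : ℕ) (q : X L) (i : Str × (ℕ × Bool)) :
    pz L w ≠ some (PosI.inv l q i) := by
  match w with
  | [] => intro h; exact absurd h (by simp [pz])
  | false :: w => intro h; exact absurd h (by simp [pz])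
  | true :: w =>
    cases hp : tdec w with
    | none => rw [pj2_pz_none L w hp]; simp
    | some p =>
      by_cases h : p.1.1 = 1 ∧ p.1.2.length = 2 * (p.1.2.length / 2) ∧ p.1.2.length / 2 ≤ L
      · have hl : (p.1.2.take (p.1.2.length / 2)).length ≤ L := by
          rw [List.length_take]; exact (min_le_left _ _).trans h.2.2
        rw [pj2_pz_pos L w p hp h hl]
        simp
      · rw [pj2_pz_neg L w p hp h]; simp

theorem OJ_secret (R : Lang) (S : Sec) (Tab : ℕ → Str → Str) (n : ℕ) (x : X n) (y : Str)
    (hy : y.length = n) : OJ R S Tab (true :: taddr 1 (x.1 ++ y) 0 true) =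
      decide ((S n x).1 = y) := by
  obtain ⟨x, rfl⟩ := x
  show orc S Tab (taddr 1 (x ++ y) 0 true) = _
  rw [pj2_orc_some _ _ _ _ (tdec_taddr 1 (x ++ y) 0 true)]
  have hlen : (x ++ y).length = 2 * x.length := by rw [List.length_append, hy]; ring
  have hhalf : (x ++ y).length / 2 = x.length := by rw [hlen]; omega
  have hval : val S Tab 1 (x ++ y) = [decide (sv S x = y)] := by
    unfold val
    rw [if_pos rfl, hhalf, if_pos hlen, List.take_left, List.drop_left]
  show bit (val S Tab 1 (x ++ y)) (0, true) = _
  rw [hval]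
  exact pj2_bit_one _


end Pool.Agent.ABO
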