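import Pool.Agent.Lib_helper27.ABO.Fm
import Pool.Agent.Lib_helper74.IS.All

/-!
# Block RM (MP_675993_lc, ABO): a circuit relative to `join R ∅` is a circuit relative to `R`
-/

set_option autoImplicit false

namespace Pool.Agent.ABO

open Pool.Agent.CK
open Pool.Agent.TD (Str su sj st Act se sm sM sn sD ZSet Z Q unitv Lam KK dd)
open Pool.Agent.TD.IS (PosI Stg uq patchI simI evM icode idec strip ISet posK zs updI PLW PTW
  invTreeW thrX invTab excI LocalWith PolyLocal Cls EL)

/-- the new number of the bit `i` -/
def rm_pos (π : List ℕ) (i : ℕ) : ℕ := π.getD i 0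

/-- renumbering of a formula -/
def rm_fml (π : List ℕ) (φ : Fml) : Fml := φ.subst fun i => Fml.var (rm_pos π i)

/-- the gates that replace a gate if `N` bits have been computed, and the number of the new bit -/
def rm_gate (π : List ℕ) (N : ℕ) : Gate → List Gate × ℕ
  | .fml φ => ([.fml (rm_fml π φ)], N)
  | .ask [] => ([.fml (Fml.con false)], N)
  | .ask (i :: l) => ([.ask (l.map (rm_pos π)),
      .fml (Fml.and (Fml.lit (rm_pos π i) false) (Fml.var N))], N + 1)
  | .chal l => ([.chal (l.map (rm_pos π))], N)

/-- the gates that replace a list of gates, and the new numbers -/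
def rm_tr : List Gate → List ℕ → ℕ → List Gate × List ℕ
  | [], π, _ => ([], π)
  | g :: gs, π, N => ((rm_gate π N g).1 ++
      (rm_tr gs (π ++ [(rm_gate π N g).2]) (N + (rm_gate π N g).1.length)).1,
      (rm_tr gs (π ++ [(rm_gate π N g).2]) (N + (rm_gate π N g).1.length)).2)

/-- the bits `W` are the bits `W'` with the numbers `π` -/
structure RmInv (π : List ℕ) (W W' : List Bool) : Prop where
  len : π.length = W.length
  lt : ∀ i, rm_pos π i < W'.length
  val : ∀ i, W.getD i false = W'.getD (rm_pos π i) false

theorem rm_pos_lt {π : List ℕ} {p i : ℕ} (h : i < π.length) :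
    rm_pos (π ++ [p]) i = rm_pos π i := by
  unfold rm_pos
  rw [List.getD_append _ _ _ _ h]

theorem rm_pos_eq {π : List ℕ} {p : ℕ} : rm_pos (π ++ [p]) π.length = p := by
  unfold rm_pos
  rw [List.getD_append_right _ _ _ _ le_rfl, Nat.sub_self, List.getD_cons_zero]

theorem rm_pos_gt {π : List ℕ} {i : ℕ} (h : π.length ≤ i) : rm_pos π i = 0 := by
  unfold rm_pos
  rw [List.getD_eq_default _ _ h]

theorem RmInv.step {π : List ℕ} {W W' : List Bool} (h : RmInv π W W') {U : List Bool} {p : ℕ}
    {b : Bool} (hp : p < (W' ++ U).length) (hb : (W' ++ U).getD p false = b) :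
    RmInv (π ++ [p]) (W ++ [b]) (W' ++ U) := by
  have hle : W'.length ≤ (W' ++ U).length := by rw [List.length_append]; omega
  refine ⟨by simp [h.len], fun i => ?_, fun i => ?_⟩
  · rcases lt_trichotomy i π.length with h1 | h1 | h1
    · rw [rm_pos_lt h1]
      exact (h.lt i).trans_le hle
    · rw [h1, rm_pos_eq]
      exact hp
    · rw [rm_pos_gt (by rw [List.length_append, List.length_singleton]; omega)]
      exact (Nat.zero_le _).trans_lt hp
  · rcases lt_trichotomy i π.length with h1 | h1 | h1
    · rw [rm_pos_lt h1, List.getD_append _ _ _ _ (by rw [← h.len]; exact h1),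
        List.getD_append _ _ _ _ (h.lt i)]
      exact h.val i
    · rw [h1, rm_pos_eq, hb, h.len, List.getD_append_right _ _ _ _ le_rfl, Nat.sub_self,
        List.getD_cons_zero]
    · rw [rm_pos_gt (by rw [List.length_append, List.length_singleton]; omega),
        List.getD_eq_default _ _ (by
          rw [List.length_append, List.length_singleton, ← h.len]; omega)]
      have h2 := h.val i
      have h3 := h.lt i
      rw [rm_pos_gt (π := π) (by omega)] at h2 h3
      rw [List.getD_append _ _ _ _ h3, ← h2,
        List.getD_eq_default _ _ (by rw [← h.len]; omega)]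

theorem rm_sel {π : List ℕ} {W W' : List Bool} (h : RmInv π W W') (l : List ℕ) :
    sel W' (l.map (rm_pos π)) = sel W l := by
  unfold sel
  rw [List.map_map]
  exact List.map_congr_left fun i _ => (h.val i).symm

theorem rm_fml_eval {π : List ℕ} {W W' : List Bool} (h : RmInv π W W') :
    ∀ φ : Fml, (rm_fml π φ).eval W' = φ.eval W
  | .tru => rfl
  | .var i => (h.val i).symm
  | .nand a b => by
    show (!((rm_fml π a).eval W' && (rm_fml π b).eval W')) = !(a.eval W && b.eval W)
    rw [rm_fml_eval h a, rm_fml_eval h b]

theorem rm_fml_size (π : List ℕ) : ∀ φ : Fml, (rm_fml π φ).size = φ.size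
  | .tru => rfl
  | .var _ => rfl
  | .nand a b => by
    show (rm_fml π a).size + (rm_fml π b).size + 1 = a.size + b.size + 1
    rw [rm_fml_size π a, rm_fml_size π b]

theorem rm_last (W : List Bool) (b : Bool) : (W ++ [b]).getD W.length false = b := by
  rw [List.getD_append_right _ _ _ _ le_rfl, Nat.sub_self, List.getD_cons_zero]

/-- one gate -/
theorem rm_one (R : Lang) (ch : List Str → Str → Bool) {π : List ℕ} {W W' : List Bool}
    (h : RmInv π W W') (qs : List Str) (g : Gate) :
    ∃ (U : List Bool) (b : Bool) (qs' : List Str), U.length = (rm_gate π W'.length g).1.length ∧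
      gstep (join R fun _ => false) ch (W, qs) g = (W ++ [b], qs') ∧
      (rm_gate π W'.length g).1.foldl (gstep R ch) (W', qs) = (W' ++ U, qs') ∧
      RmInv (π ++ [(rm_gate π W'.length g).2]) (W ++ [b]) (W' ++ U) := by
  match g with
  | .fml φ =>
    refine ⟨[φ.eval W], φ.eval W, qs, rfl, rfl, ?_, h.step (by simp [rm_gate]) (rm_last _ _)⟩
    simp only [rm_gate, List.foldl_cons, List.foldl_nil, gstep]
    rw [rm_fml_eval h]
  | .ask [] =>
    refine ⟨[false], false, qs, rfl, ?_, ?_, h.step (by simp [rm_gate]) (rm_last _ _)⟩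
    · simp [gstep, sel, join]
    · simp [rm_gate, gstep]
  | .chal l =>
    refine ⟨[ch qs (sel W l)], ch qs (sel W l), qs ++ [sel W l], rfl, rfl, ?_,
      h.step (by simp [rm_gate]) (rm_last _ _)⟩
    simp only [rm_gate, List.foldl_cons, List.foldl_nil, gstep]
    rw [rm_sel h]
  | .ask (i :: l) =>
    have h1 : (W' ++ [R (sel W l)]).getD (rm_pos π i) false = W.getD i false := by
      rw [List.getD_append _ _ _ _ (h.lt i)]
      exact (h.val i).symm
    have h2 : (Fml.and (Fml.lit (rm_pos π i) false) (Fml.var W'.length)).eval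
        (W' ++ [R (sel W l)]) = join R (fun _ => false) (sel W (i :: l)) := by
      rw [Fml.eval_and, Fml.eval_lit, h1]
      show (_ && (W' ++ [R (sel W l)]).getD W'.length false) = _
      rw [rm_last]
      show (_ && _) = join R (fun _ => false) (W.getD i false :: sel W l)
      cases W.getD i false <;> simp [join]
    refine ⟨[R (sel W l), join R (fun _ => false) (sel W (i :: l))],
      join R (fun _ => false) (sel W (i :: l)), qs, rfl, rfl, ?_,
      h.step (by simp [rm_gate]) ?_⟩
    · simp only [rm_gate, List.foldl_cons, List.foldl_nil, gstep]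
      rw [rm_sel h, h2, List.append_assoc]
      rfl
    · show (W' ++ [R (sel W l), join R (fun _ => false) (sel W (i :: l))]).getD
        (W'.length + 1) false = _
      rw [List.getD_append_right _ _ _ _ (Nat.le_succ _)]
      have e : W'.length.succ - W'.length = 1 := by omega
      rw [e]
      rfl

theorem rm_foldl (R : Lang) (ch : List Str → Str → Bool) : ∀ (gs : List Gate) (π : List ℕ)
    (W W' : List Bool) (qs : List Str), RmInv π W W' →
    ((rm_tr gs π W'.length).1.foldl (gstep R ch) (W', qs)).2 =
        (gs.foldl (gstep (join R fun _ => false) ch) (W, qs)).2 ∧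
      RmInv (rm_tr gs π W'.length).2 (gs.foldl (gstep (join R fun _ => false) ch) (W, qs)).1
        ((rm_tr gs π W'.length).1.foldl (gstep R ch) (W', qs)).1
  | [], _, _, _, _, h => ⟨rfl, h⟩
  | g :: gs, π, W, W', qs, h => by
    obtain ⟨U, b, qs', hU, h1, h2, h3⟩ := rm_one R ch h qs g
    have h4 := rm_foldl R ch gs _ _ _ qs' h3
    rw [List.length_append, hU] at h4
    simp only [rm_tr, List.foldl_append, List.foldl_cons]
    rw [h1, h2]
    exact h4

theorem rm_gate_size (π : List ℕ) (N : ℕ) (g : Gate) :
    gsz (rm_gate π N g).1 ≤ g.size + 7 * (if g.isAsk = true then 1 else 0) := by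
  match g with
  | .fml φ =>
    simp only [rm_gate, gsz_cons, gsz_nil, Gate.size, rm_fml_size]
    omega
  | .ask [] =>
    have := Fml.size_con false
    simp only [rm_gate, gsz_cons, gsz_nil, Gate.size, Gate.isAsk, if_true, List.length_nil]
    omega
  | .chal l =>
    simp only [rm_gate, gsz_cons, gsz_nil, Gate.size, List.length_map]
    omega
  | .ask (i :: l) =>
    have := Fml.size_lit (rm_pos π i) false
    simp only [rm_gate, gsz_cons, gsz_nil, Gate.size, Gate.isAsk, if_true, List.length_cons,
      List.length_map, Fml.size_and, Fml.size]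
    omega

theorem rm_tr_size : ∀ (gs : List Gate) (π : List ℕ) (N : ℕ),
    gsz (rm_tr gs π N).1 ≤ gsz gs + 7 * asks gs
  | [], _, _ => by simp [rm_tr]
  | g :: gs, π, N => by
    have h1 := rm_gate_size π N g
    have h2 := rm_tr_size gs (π ++ [(rm_gate π N g).2]) (N + (rm_gate π N g).1.length)
    have h3 : asks (g :: gs) = asks gs + (if g.isAsk = true then 1 else 0) := by
      unfold asks
      rw [List.countP_cons]
    simp only [rm_tr, gsz_append, gsz_cons]
    rw [h3]
    omega

/-- RM -/
theorem rm_join (R : Lang) (C : Circuit) (s d : ℕ) (hC : C.Within s d) :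
    ∃ C' : Circuit, C'.size ≤ s + 16 * (d + 1) ∧
      ∀ (G : Game) (ω : Str), G.wins R C' ω = G.wins (join R fun _ => false) C ω := by
  have h0 : RmInv [] [] [false] := by
    refine ⟨rfl, fun i => ?_, fun i => ?_⟩
    · simp [rm_pos]
    · simp [rm_pos]
  refine ⟨⟨Gate.fml (Fml.con false) :: (rm_tr C.gates [] 1).1,
    C.out.map (rm_pos (rm_tr C.gates [] 1).2)⟩, ?_, ?_⟩
  · have h1 := rm_tr_size C.gates [] 1
    have h2 := hC.size
    have h3 := hC.asks
    have h4 := Fml.size_con false
    show (((Gate.fml (Fml.con false) :: (rm_tr C.gates [] 1).1).map Gate.size).sum +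
      (C.out.map (rm_pos (rm_tr C.gates [] 1).2)).length) ≤ _
    rw [List.map_cons, List.sum_cons, List.length_map]
    have h5 : (C.gates.map Gate.size).sum + C.out.length ≤ s := h2
    have h6 : ((rm_tr C.gates [] 1).1.map Gate.size).sum ≤
      (C.gates.map Gate.size).sum + 7 * asks C.gates := h1
    have h7 : (Gate.fml (Fml.con false)).size = (Fml.con false).size + 1 := rfl
    rw [h7]
    omega
  · intro G ω
    have key := rm_foldl R (G.ch ω) C.gates [] [] [false] [] h0
    unfold Game.wins Circuit.play
    simp only [List.foldl_cons]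
    have e : gstep R (G.ch ω) ([], []) (Gate.fml (Fml.con false)) = ([false], []) := by
      simp [gstep]
    rw [e]
    have h1 := key.1
    have h2 := rm_sel key.2 C.out
    simp only [List.length_singleton] at h1 h2
    rw [h1, h2]

end Pool.Agent.ABO

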