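import Pool.Agent.Lib_helper27.ABO.Fm
import Pool.Agent.Lib_helper74.IS.All
import Pool.Agent.Lib_helper27.ABO.B.CA1
import Pool.Agent.Lib_helper27.ABO.B.DZ
import Pool.Agent.Lib_helper27.ABO.B.LC
import Pool.Agent.Lib_helper27.ABO.B.NA2
import Pool.Agent.Lib_helper27.ABO.B.PJ2
import Pool.Agent.Lib_helper27.ABO.B.RM
import Pool.Agent.Lib_helper27.ABO.B.SM

/-!
# Block BG: base, games
-/

set_option autoImplicit false
set_option linter.unusedSectionVars false
set_option linter.unusedVariables false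

namespace Pool.Agent.ABO

open Pool.Agent.CK
open Pool.Agent.TD (Str su sj st Act se sm sM sn sD ZSet Z Q unitv Lam KK dd)
open Pool.Agent.TD.IS (PosI Stg uq patchI simI evM icode idec strip ISet posK zs updI PLW PTW
  invTreeW thrX invTab excI LocalWith PolyLocal Cls EL)

theorem bg_card_X (n : ℕ) : (Fintype.card (X n) : ℝ) = 2 ^ n := by
  have h : Fintype.card (X n) = 2 ^ n := by
    have : Fintype.card (List.Vector Bool n) = 2 ^ n := by simp
    exact (Fintype.card_congr (Equiv.refl _)).trans this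
  rw [h]
  push_cast
  rfl

/-- `(1 + 1/(3D)) ^ (3 D (c+1)) ≥ 2 ^ (c+1)` -/
theorem bg_pow (D c : ℕ) (hD : 1 ≤ D) :
    (1 : ℝ) < (1 + 1 / (3 * (D : ℝ))) ^ (3 * D * (c + 1)) * (1 / 2 : ℝ) ^ c := by
  have hD' : (0 : ℝ) < D := by exact_mod_cast hD
  have h1 : (2 : ℝ) ≤ (1 + 1 / (3 * (D : ℝ))) ^ (3 * D) := by
    have hb := one_add_mul_le_pow (a := 1 / (3 * (D : ℝ)))
      (by have : (0 : ℝ) ≤ 1 / (3 * (D : ℝ)) := by positivity
          linarith) (3 * D)
    have he : 1 + ((3 * D : ℕ) : ℝ) * (1 / (3 * (D : ℝ))) = 2 := by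
      push_cast
      field_simp
      norm_num
    rw [he] at hb
    exact hb
  rw [pow_mul]
  have h2 : (2 : ℝ) ^ (c + 1) ≤ ((1 + 1 / (3 * (D : ℝ))) ^ (3 * D)) ^ (c + 1) :=
    pow_le_pow_left₀ (by norm_num) h1 _
  have h3 : (0 : ℝ) < (1 / 2 : ℝ) ^ c := by positivity
  have h4 : (2 : ℝ) ^ (c + 1) * (1 / 2 : ℝ) ^ c = 2 := by
    rw [pow_succ, mul_assoc, mul_comm (2 : ℝ) ((1 / 2 : ℝ) ^ c), ← mul_assoc, ← mul_pow]
    norm_num
  calc (1 : ℝ) < 2 := by norm_num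
    _ = (2 : ℝ) ^ (c + 1) * (1 / 2 : ℝ) ^ c := h4.symm
    _ ≤ _ := mul_le_mul_of_nonneg_right h2 h3.le

/-- `v < (v + 1/D) / (1 + 1/(3D)) - d / 2^L` -/
theorem bg_num (v : ℝ) (hv0 : 0 ≤ v) (hv1 : v ≤ 1) (D d L : ℕ) (hD : 1 ≤ D)
    (hL : 2 * d * D < 2 ^ L) :
    v + d * (1 / 2 ^ L) < (v + 1 / (D : ℝ)) / (1 + 1 / (3 * (D : ℝ))) := by
  have hD' : (0 : ℝ) < D := by exact_mod_cast hD
  have hD1 : (1 : ℝ) ≤ D := by exact_mod_cast hD
  set η : ℝ := 1 / (D : ℝ) with hη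
  have hη0 : 0 < η := by positivity
  have hη1 : η ≤ 1 := by
    rw [hη, div_le_one hD']
    exact hD1
  have e1 : 1 / (3 * (D : ℝ)) = η / 3 := by
    rw [hη]
    field_simp
  have h1 : (d : ℝ) * (1 / 2 ^ L) < η / 2 := by
    have hp : (0 : ℝ) < 2 ^ L := by positivity
    have h2 : (2 : ℝ) * d * D < 2 ^ L := by exact_mod_cast hL
    rw [hη, mul_one_div, div_div, div_lt_div_iff₀ hp (by positivity)]
    linarith
  rw [e1, lt_div_iff₀ (by positivity)]
  have h3 : (v + η / 2) * (1 + η / 3) ≤ v + η := by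
    nlinarith [mul_nonneg hη0.le (sub_nonneg.2 hv1), mul_nonneg hη0.le (sub_nonneg.2 hη1)]
  have h4 : (v + d * (1 / 2 ^ L)) * (1 + η / 3) < (v + η / 2) * (1 + η / 3) :=
    mul_lt_mul_of_pos_right (by linarith) (by positivity)
  linarith

theorem bg_eps (L : ℕ) (l : ℕ) (q : X L) :
    ∑ z with (stgS L).ln z = l, (1 : ℝ) / 2 ^ L ≤ 1 / 2 ^ L := by
  rw [Finset.sum_const, nsmul_eq_mul]
  have h : (Finset.univ.filter fun z : Zs L => (stgS L).ln z = l).card ≤ 1 := by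
    rw [Finset.card_le_one]
    intro a ha b hb
    rw [Finset.mem_filter] at ha hb
    have h1 : Encodable.encode a.1 = Encodable.encode b.1 := by
      have ha' : (stgS L).ln a = l := ha.2
      have hb' : (stgS L).ln b = l := hb.2
      exact ha'.trans hb'.symm
    exact Subtype.ext (Encodable.encode_injective h1)
  have hp : (0 : ℝ) ≤ 1 / 2 ^ L := by positivity
  have h' : ((Finset.univ.filter fun z : Zs L => (stgS L).ln z = l).card : ℝ) ≤ 1 := by
    exact_mod_cast h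
  calc _ ≤ 1 * ((1 : ℝ) / 2 ^ L) := mul_le_mul_of_nonneg_right h' hp
    _ = _ := one_mul _

theorem bg_sum (L : ℕ) : ∑ _q : X L, (1 : ℝ) / 2 ^ L = 1 := by
  rw [Finset.sum_const, nsmul_eq_mul, Finset.card_univ, bg_card_X]
  field_simp

/-- the simulation relative to `OJ` is a circuit relative to `R` -/
theorem bg_sim (P : Par) (j n L : ℕ) (hN : NumN n) (hL2 : dd n ≤ L) (A : X (P.G j).s → DT Str)
    (hA : A ∈ CircF (P.G j) (2 ^ uu 0 n) (dd n)) (ρ : List (Zs L × X L)) (r : List (X L))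
    (hρ : ρ.length ≤ 3 * Del 0 n * (2 ^ aa 0 n + (dd n + n + 4) + 1) * dd n)
    (hr : r.length = dd n) : ∃ C : Circuit, C.size ≤ 2 ^ (n - 2) ∧ ∀ ω : X (P.G j).s,
      (simI (stgS L) [] (A ω) ρ r).eval (OJ P.R sec0 fun _ _ => []) =
        (cTree (P.G j) C ω.1).eval P.R := by
  obtain ⟨C, hC, rfl⟩ := hA
  obtain ⟨D⟩ := exists_descS L (dd n)
  obtain ⟨C1, hC1, h1⟩ := lemC (stgS L) D (P.G j) C _ hC ρ r hr
  obtain ⟨C2, hC2, h2⟩ := rm_join P.R C1 _ _ hC1
  refine ⟨C2, hC2.trans (num_baseG hN hρ), fun ω => ?_⟩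
  have h3 : (simI (stgS L) [] (cTree (P.G j) C ω.1) ρ r).eval (OJ P.R sec0 fun _ _ => []) =
      (simI (stgS L) [] (cTree (P.G j) C ω.1) ρ r).eval (join P.R fun _ => false) := by
    refine simI_congr (stgS L) [] (fun w => w.length ≤ dd n) _ _ _ ρ r ?_ ?_
    · exact (circF_bounds (G := P.G j) (s := 2 ^ uu 0 n) (d := dd n) ⟨C, hC, rfl⟩ ω).2
    · intro w hw hps
      exact OJ_none P.R L w (hw.trans hL2) hps
  show (simI (stgS L) [] (cTree (P.G j) C ω.1) ρ r).eval (OJ P.R sec0 fun _ _ => []) = _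
  rw [h3, ← h1 ω.1, cTree_eval, cTree_eval, h2]

theorem base_G (P : Par) (hP : P.OK) (j n L : ℕ) (hn : lev P (.inr j) = n) (hN : NumN n)
    (hL : 2 * dd n * Del 0 n < 2 ^ L) (hL2 : dd n ≤ L) (A : X (P.G j).s → DT Str)
    (hA : A ∈ CircF (P.G j) (2 ^ uu 0 n) (dd n)) :
    Pr (fun _ _ => (1 : ℝ) / 2 ^ L) [] (fun T => ind (decide
      (thr P 0 (.inr j) ≤ ∑ x, ind (((A x).map fun y => y == [true]).eval
        (patchI (stgS L) (OJ P.R sec0 fun _ _ => []) T))))) ≤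
        (1 / 2 : ℝ) ^ (2 ^ aa 0 n + (dd n + n + 4)) := by
  classical
  set c := 2 ^ aa 0 n + (dd n + n + 4) with hc
  have hD1 : 1 ≤ Del 0 n := Nat.one_le_two_pow
  have hD' : (0 : ℝ) < Del 0 n := by exact_mod_cast hD1
  have hthr : thr P 0 (.inr j) = (P.v j + 1 / (Del 0 n : ℝ)) * 2 ^ (P.G j).s := by
    unfold thr
    rw [hn]
    rfl
  have hmain := TD.IS.failprobG (fun (_ : Bool) (_ : X L) => (1 : ℝ) / 2 ^ L)
    (fun _ => ⟨fun _ => by positivity, bg_sum L⟩) (fun _ => true) (stgS L)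
    (OJ P.R sec0 fun _ _ => []) (fun x => (A x).map fun y => y == [true]) (dd n)
    (fun x => by rw [DT.depth_map]; exact (circF_bounds hA x).1) (1 / 2 ^ L) 0 (by positivity)
    (le_refl _) (fun l q => bg_eps L l q) (thr P 0 (.inr j)) (1 / (3 * (Del 0 n : ℝ)))
    (by positivity) (3 * Del 0 n * (c + 1)) ((1 / 2 : ℝ) ^ c) (by positivity)
    (bg_pow _ _ hD1) (fun x ρ pre post _ _ _ => by simp) ?_
  · exact hmain
  · intro ρ r hρ hr
    obtain ⟨C, hC, hsim⟩ := bg_sim P j n L hN hL2 A hA ρ r hρ hr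
    have hcount : ∑ x, ind ((simI (stgS L) false ((A x).map fun y => y == [true]) ρ r).eval
        (OJ P.R sec0 fun _ _ => [])) = ((P.G j).count P.R C : ℝ) := by
      rw [count_eq]
      unfold hits
      rw [Finset.card_filter]
      push_cast
      refine Finset.sum_congr rfl fun x _ => ?_
      have h1 := TD.IS.simI_map (stgS L) ([] : Str) (fun y => y == [true]) (A x) ρ r
      have h2 : (([] : Str) == [true]) = false := rfl
      rw [h2] at h1
      rw [← h1, DT.eval_map, hsim x]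
      unfold ind
      by_cases h : (cTree (P.G j) C x.1).eval P.R = [true]
      · rw [if_pos h, h]
        rfl
      · rw [if_neg h, if_neg]
        simpa using h
    rw [hcount]
    have hhard := hP.hard j C (by
      have : nn (P.t j) = n := hn
      rw [this]
      exact hC)
    refine lt_of_le_of_lt hhard ?_
    rw [bg_card_X, hthr, add_zero]
    have hnum := bg_num (P.v j) (hP.v_nonneg j) (hP.v_le j) (Del 0 n) (dd n) L hD1 hL
    have hp : (0 : ℝ) < 2 ^ (P.G j).s := by positivity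
    have h5 := mul_lt_mul_of_pos_right hnum hp
    have e1 : (P.v j + 1 / (Del 0 n : ℝ)) / (1 + 1 / (3 * (Del 0 n : ℝ))) * 2 ^ (P.G j).s =
      (P.v j + 1 / (Del 0 n : ℝ)) * 2 ^ (P.G j).s / (1 + 1 / (3 * (Del 0 n : ℝ))) := by ring
    rw [e1] at h5
    nlinarith [h5]


end Pool.Agent.ABO
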