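import Pool.Agent.Lib_helper27.ABO.Fm
import Pool.Agent.Lib_helper74.IS.All
import Pool.Agent.Lib_helper74.CKF.PM
import Pool.Agent.Lib_helper27.ABO.B.PJ2

/-!
# Block BV1 (ABO): guessing a secret
-/

set_option autoImplicit false

namespace Pool.Agent.ABO

open Pool.Agent.CK
open Pool.Agent.TD (Str su sj st Act se sm sM sn sD ZSet Z Q unitv Lam KK dd)
open Pool.Agent.TD.IS (PosI Stg uq patchI simI evM icode idec strip ISet posK zs updI PLW PTW
  invTreeW thrX invTab excI LocalWith PolyLocal Cls EL)

/-- BV1 -/
theorem gsT_eval (R : Lang) (S : Sec) (Tab : ℕ → Str → Str) {n : ℕ} (x : X n) (t : DT Str) :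
    (gsT x t).eval (OJ R S Tab) = decide (t.eval (OJ R S Tab) = (S n x).1) := by
  unfold gsT
  rw [DT.eval_bind]
  generalize t.eval (OJ R S Tab) = y
  by_cases hy : y.length = n
  · rw [if_pos hy, DT.eval_node, OJ_secret R S Tab n x y hy]
    by_cases h : (S n x).1 = y
    · simp [h]
    · simp [h, Ne.symm h]
  · rw [if_neg hy, DT.eval_leaf]
    have h : ¬ y = (S n x).1 := by
      intro h
      apply hy
      rw [h]
      exact (S n x).2
    simp [h]

/-- BV1 -/
theorem gsT_depth {n : ℕ} (x : X n) (t : DT Str) : (gsT x t).depth ≤ t.depth + 1 := by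
  refine DT.depth_bind t _ 1 fun y => ?_
  split_ifs
  · simp [DT.depth_node]
  · simp

theorem bv1_card (n : ℕ) : Fintype.card (X n) = 2 ^ n := by
  have h : Fintype.card (List.Vector Bool n) = Fintype.card Bool ^ n := card_vector n
  rw [Fintype.card_bool] at h
  exact h

theorem bv1_lookup {L : ℕ} (ρ : List (Zs L × X L)) (z : Zs L)
    (h : @List.lookup (Zs L) (X L) Subtype.instBEq z ρ = none) :
    @List.lookup (Zs L) (X L) instBEqOfDecidableEq z ρ = none := by
  have e : (Subtype.instBEq : BEq (Zs L)) = instBEqOfDecidableEq := lawful_beq_subsingleton _ _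
  rw [← e]
  exact h

theorem bv1_pd (L : ℕ) : IsPD (fun (_ : Zs L) (_ : X L) => (1 : ℝ) / 2 ^ L) := by
  intro z
  refine ⟨fun _ => by positivity, ?_⟩
  rw [Finset.sum_const, Finset.card_univ, bv1_card, nsmul_eq_mul]
  push_cast
  field_simp

theorem bv1_pz {L : ℕ} {w : Str} {z : Zs L} {i : Str × (ℕ × Bool)}
    (h : pz L w = some (PosI.dir z i)) : i.1.length = z.1.length := by
  unfold pz at h
  split at h
  · rename_i w'
    split at h
    · exact absurd h (by simp)
    · rename_i p hp
      split at h
      · rename_i hc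
        simp only [Option.some.injEq, PosI.dir.injEq] at h
        obtain ⟨h1, h2⟩ := h
        rw [← h1, ← h2]
        simp only [List.length_drop, List.length_take]
        omega
      · exact absurd h (by simp)
  · exact absurd h (by simp)

/-- the answer of the oracle depends only on one value of the secret -/
theorem bv1_ans (O : Lang) (L n : ℕ) (x : X n) (z0 : Zs L) (hz0 : z0.1 = x.1) (T : Zs L → X L)
    (w : Str) : ∃ (y : Str) (a : Bool), ∀ q : X L, q.1.take n ≠ y →
      patchI (stgS L) O (Function.update T z0 q) w = a := by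
  cases h : pz L w with
  | none =>
    refine ⟨[], O w, fun q _ => ?_⟩
    simp [patchI, stgS, h]
  | some p =>
    cases p with
    | inv l q i => exact absurd h (pz_inv L w l q i)
    | dir z i =>
      by_cases hz : z = z0
      · have hlen : i.1.length = n := by
          rw [bv1_pz h, hz, hz0, x.2]
        refine ⟨i.1, bit [false] i.2, fun q hq => ?_⟩
        have h1 : patchI (stgS L) O (Function.update T z0 q) w =
            bit [decide ((Function.update T z0 q z).1.take i.1.length = i.1)] i.2 := by
          simp only [patchI, stgS, h]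
        rw [h1, hz, Function.update_self, hlen, decide_eq_false hq]
      · refine ⟨[], bit [decide ((T z).1.take i.1.length = i.1)] i.2, fun q _ => ?_⟩
        have h1 : patchI (stgS L) O (Function.update T z0 q) w =
            bit [decide ((Function.update T z0 q z).1.take i.1.length = i.1)] i.2 := by
          simp only [patchI, stgS, h]
        rw [h1, Function.update_of_ne hz]

/-- the tree fails outside a small set of secrets -/
theorem bv1_tree (O : Lang) (L n : ℕ) (x : X n) (z0 : Zs L) (hz0 : z0.1 = x.1) (T : Zs L → X L)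
    (t : DT Str) : ∃ Y : Finset Str, Y.card ≤ t.depth + 1 ∧ ∀ q : X L, q.1.take n ∉ Y →
      t.eval (patchI (stgS L) O (Function.update T z0 q)) ≠ q.1.take n := by
  induction t with
  | leaf b =>
    refine ⟨{b}, by simp, fun q hq h => hq ?_⟩
    rw [Finset.mem_singleton, ← h]
    rfl
  | node w n0 n1 h0 h1 =>
    obtain ⟨Y0, hc0, hY0⟩ := h0
    obtain ⟨Y1, hc1, hY1⟩ := h1
    obtain ⟨y, a, hya⟩ := bv1_ans O L n x z0 hz0 T w
    cases a with
    | false =>
      refine ⟨insert y Y0, ?_, fun q hq => ?_⟩
      · rw [DT.depth_node]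
        have := Finset.card_insert_le y Y0
        omega
      · rw [Finset.mem_insert, not_or] at hq
        rw [DT.eval_node, hya q hq.1, if_neg (by simp)]
        exact hY0 q hq.2
    | true =>
      refine ⟨insert y Y1, ?_, fun q hq => ?_⟩
      · rw [DT.depth_node]
        have := Finset.card_insert_le y Y1
        omega
      · rw [Finset.mem_insert, not_or] at hq
        rw [DT.eval_node, hya q hq.1, if_pos rfl]
        exact hY1 q hq.2

/-- number of the secrets with given first bits -/
theorem bv1_count (L n : ℕ) (y : Str) :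
    (Finset.univ.filter fun q : X L => q.1.take n = y).card ≤ 2 ^ (L - n) := by
  rw [← bv1_card (L - n), ← Finset.card_univ]
  refine Finset.card_le_card_of_injOn (fun q : X L => (⟨q.1.drop n, by
    rw [List.length_drop, q.2]⟩ : X (L - n))) (fun _ _ => Finset.mem_coe.2 (Finset.mem_univ _)) ?_
  intro q hq q' hq' h
  have h1 : q.1.take n = y := by
    have := Finset.mem_coe.1 hq
    exact (Finset.mem_filter.1 this).2
  have h2 : q'.1.take n = y := by
    have := Finset.mem_coe.1 hq'
    exact (Finset.mem_filter.1 this).2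
  have h3 : q.1.drop n = q'.1.drop n := congrArg Subtype.val h
  apply Subtype.ext
  rw [← List.take_append_drop n q.1, ← List.take_append_drop n q'.1, h1, h2, h3]

/-- BV1: guessing the secret of `x` (`x` is not known): every question about `x` that gets the answer
`no` excludes only one value -/
theorem guess_bound (R : Lang) (L n : ℕ) (hn : n ≤ L) (x : X n) (t : DT Str) (d : ℕ)
    (hd : t.depth ≤ d) (ρ : List (Zs L × X L))
    (hρ : ρ.lookup ⟨x.1, by rw [x.2]; exact hn⟩ = none) :
    Pr (fun _ _ => (1 : ℝ) / 2 ^ L) ρ (fun T =>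
      ind ((gsT x t).eval (patchI (stgS L) (OJ R sec0 fun _ _ => []) T))) ≤
        (d + 1) / 2 ^ n := by
  set z0 : Zs L := ⟨x.1, by rw [x.2]; exact hn⟩ with hz0
  rw [Pr_resample (bv1_pd L) ρ z0 (bv1_lookup ρ z0 hρ)]
  have key : ∀ T : Zs L → X L, ∑ q : X L, (1 : ℝ) / 2 ^ L * ind ((gsT x t).eval
      (patchI (stgS L) (OJ R sec0 fun _ _ => []) (Function.update T z0 q))) ≤
        (d + 1) / 2 ^ n := by
    intro T
    obtain ⟨Y, hYc, hY⟩ := bv1_tree (OJ R sec0 fun _ _ => []) L n x z0 rfl T t
    have h1 : ∀ q : X L, ind ((gsT x t).eval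
        (patchI (stgS L) (OJ R sec0 fun _ _ => []) (Function.update T z0 q))) ≤
          ∑ y ∈ Y, (if q.1.take n = y then (1 : ℝ) else 0) := by
      intro q
      have h2 : (secT L (Function.update T z0 q) n x).1 = q.1.take n := by
        unfold secT
        rw [dif_pos hn]
        have h3 : Function.update T z0 q ⟨x.1, by rw [x.2]; exact hn⟩ = q := by
          rw [← hz0, Function.update_self]
        simp only [h3]
      by_cases hq : q.1.take n ∈ Y
      · have h3 : ∑ y ∈ Y, (if q.1.take n = y then (1 : ℝ) else 0) = 1 := by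
          rw [Finset.sum_ite_eq, if_pos hq]
        rw [h3]
        unfold ind
        split_ifs
        · exact le_rfl
        · exact zero_le_one
      · have h3 := hY q hq
        rw [OJ_secT] at h3
        rw [OJ_secT, gsT_eval, h2, decide_eq_false h3]
        unfold ind
        rw [if_neg (by simp)]
        exact Finset.sum_nonneg fun y _ => by split_ifs <;> norm_num
    calc ∑ q : X L, (1 : ℝ) / 2 ^ L * ind ((gsT x t).eval
          (patchI (stgS L) (OJ R sec0 fun _ _ => []) (Function.update T z0 q)))
        ≤ ∑ q : X L, (1 : ℝ) / 2 ^ L * ∑ y ∈ Y, (if q.1.take n = y then (1 : ℝ) else 0) :=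
          Finset.sum_le_sum fun q _ => mul_le_mul_of_nonneg_left (h1 q) (by positivity)
      _ = (1 : ℝ) / 2 ^ L * ∑ y ∈ Y, ∑ q : X L, (if q.1.take n = y then (1 : ℝ) else 0) := by
          rw [← Finset.mul_sum, Finset.sum_comm]
      _ ≤ (1 : ℝ) / 2 ^ L * ∑ y ∈ Y, (2 : ℝ) ^ (L - n) := by
          refine mul_le_mul_of_nonneg_left (Finset.sum_le_sum fun y _ => ?_) (by positivity)
          rw [Finset.sum_boole]
          exact_mod_cast bv1_count L n y
      _ = (1 : ℝ) / 2 ^ L * (Y.card * (2 : ℝ) ^ (L - n)) := by
          rw [Finset.sum_const, nsmul_eq_mul]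
      _ = Y.card / 2 ^ n := by
          have h3 : (2 : ℝ) ^ L = 2 ^ (L - n) * 2 ^ n := by
            rw [← pow_add, Nat.sub_add_cancel hn]
          rw [h3]
          field_simp
      _ ≤ (d + 1) / 2 ^ n := by
          refine div_le_div_of_nonneg_right ?_ (by positivity)
          exact_mod_cast hYc.trans (Nat.add_le_add_right hd 1)
  refine (Pr_mono (bv1_pd L) ρ (G := fun _ => ((d : ℝ) + 1) / 2 ^ n * 1) fun T => ?_).trans ?_
  · rw [mul_one]
    exact key T
  · rw [Pr_mul, Pr_one (bv1_pd L), mul_one]


end Pool.Agent.ABO
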