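import Pool.Agent.Lib_helper27.ABO.Fm
import Pool.Agent.Lib_helper74.IS.All

/-!
# ABO, block UW2
-/

set_option autoImplicit false

namespace Pool.Agent.ABO

open Pool.Agent.CK
open Pool.Agent.TD (Str su sj st Act se sm sM sn sD ZSet Z Q unitv Lam KK dd)
open Pool.Agent.TD.IS (PosI Stg uq patchI simI evM icode idec strip ISet posK zs updI PLW PTW
  invTreeW thrX invTab excI LocalWith PolyLocal Cls EL)

/-- a run with a memory that agrees with the table is a run with the table -/
theorem uw2_evM {β Zt Qt ι : Type} [DecidableEq Zt] (G : Stg Zt Qt ι)
    (hinv : ∀ w l q i, G.ps w ≠ some (PosI.inv l q i)) (O : Lang) (T : Zt → Qt) (t : DT β) :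
    ∀ ρ : List (Zt × Qt), (∀ z q, ρ.lookup z = some q → T z = q) →
      (evM G T t ρ).eval O = t.eval (patchI G O T) := by
  induction t with
  | leaf b => intro ρ _; simp [evM]
  | node w n0 n1 h0 h1 =>
    intro ρ hρ
    rw [DT.eval_node]
    cases hw : G.ps w with
    | none =>
      have hp : patchI G O T w = O w := by simp [patchI, hw]
      simp only [evM, hw, hp, DT.eval_node, h0 ρ hρ, h1 ρ hρ]
    | some p =>
      cases p with
      | inv l q i => exact absurd hw (hinv w l q i)
      | dir z i =>
        have hp : patchI G O T w = G.rd (T z) i := by simp [patchI, hw]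
        rw [hp]
        cases hl : ρ.lookup z with
        | some q =>
          simp only [evM, hw, hl, hρ z q hl]
          split_ifs
          · exact h1 ρ hρ
          · exact h0 ρ hρ
        | none =>
          have hρ' : ∀ z' q', ((z, T z) :: ρ).lookup z' = some q' → T z' = q' := by
            intro z' q' h
            rw [List.lookup_cons] at h
            by_cases hz : z' = z
            · subst hz
              simpa using h
            · have hb : (z' == z) = false := by simpa using hz
              rw [hb] at h
              exact hρ z' q' h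
          simp only [evM, hw, hl]
          split_ifs
          · exact h1 _ hρ'
          · exact h0 _ hρ'

section prob

variable {Zt Qt ι : Type} [Fintype Zt] [DecidableEq Zt] [Fintype Qt] [DecidableEq Qt]

/-- UW2: runs with memory and runs with the table, if there are no inverse questions -/
theorem Pr_evM {μ : Zt → Qt → ℝ} (G : Stg Zt Qt ι)
    (hinv : ∀ w l q i, G.ps w ≠ some (PosI.inv l q i)) (O : Lang) {Xf : Type} [Fintype Xf]
    (B : Xf → DT Bool) (ρ : List (Zt × Qt)) :
    Pr μ ρ (fun T => ∑ x, ind ((evM G T (B x) ρ).eval O)) =
      Pr μ ρ (fun T => ∑ x, ind ((B x).eval (patchI G O T))) := by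
  refine Pr_congr μ ρ fun T hT => ?_
  refine Finset.sum_congr rfl fun x _ => ?_
  rw [uw2_evM G hinv O T (B x) ρ hT]

end prob


end Pool.Agent.ABO
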