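import Pool.Agent.Lib_helper27.ABO.Fm
import Pool.Agent.Lib_helper74.IS.All
import Pool.Agent.Lib_helper27.ABO.Fm
import Pool.Agent.Lib_helper74.IS.All
import Pool.Agent.Lib_helper27.ABO.B.BV1
import Pool.Agent.Lib_helper27.ABO.B.PJ2
import Pool.Agent.Lib_helper27.ABO.B.UW2




/-!
# ABO, block BV2: base, secrets
-/

set_option autoImplicit false

namespace Pool.Agent.ABO

open Pool.Agent.CK
open Pool.Agent.TD (Str su sj st Act se sm sM sn sD ZSet Z Q unitv Lam KK dd)
open Pool.Agent.TD.IS (PosI Stg uq patchI simI evM icode idec strip ISet posK zs updI PLW PTW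
  invTreeW thrX invTab excI LocalWith PolyLocal Cls EL)

theorem bv2_lookup {L : ℕ} (ρ : List (Zs L × X L)) (z : Zs L) (h : z ∉ ρ.map Prod.fst) :
    ρ.lookup z = none := by
  rw [List.lookup_eq_none_iff]
  intro p hp
  rw [bne_iff_ne]
  rintro rfl
  exact h (List.mem_map_of_mem (f := Prod.fst) hp)

theorem bv2_sum {L : ℕ} {J : Type} (s : Finset J) (μ : Zs L → X L → ℝ) (ρ : List (Zs L × X L))
    (F : J → (Zs L → X L) → ℝ) :
    Pr μ ρ (fun T => ∑ j ∈ s, F j T) = ∑ j ∈ s, Pr μ ρ (F j) := pm_sum s μ ρ F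

/-- BV2: from `TD.IS.doublingI` with `α = 1`, `ε = 1 / 2 ^ L`, from `Pr_evM` and `guess_bound` -/
theorem base_V (R : Lang) (L n d : ℕ) (hL : 2 ^ n * (d + 1) ≤ 2 ^ L) (A : X n → DT Str)
    (hA : ∀ x, (A x).depth ≤ d) (W : ℝ) (c : ℕ)
    (hW : ((c + 1) * (d + 1) + d + 3 : ℝ) < W / 2) :
    Pr (fun _ _ => (1 : ℝ) / 2 ^ L) [] (fun T => ind (decide
      (W ≤ ∑ x, ind ((gsT x (A x)).eval (patchI (stgS L) (OJ R sec0 fun _ _ => []) T))))) ≤
        (1 / 2 : ℝ) ^ c := by
  classical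
  by_contra hcon
  push Not at hcon
  have hnL : n ≤ L := by
    have h1 : 2 ^ n ≤ 2 ^ L := le_trans (Nat.le_mul_of_pos_right _ (Nat.succ_pos d)) hL
    exact (Nat.pow_le_pow_iff_right (by norm_num)).1 h1
  have hdep : ∀ x, (gsT x (A x)).depth ≤ d + 1 := fun x =>
    (gsT_depth x (A x)).trans (Nat.add_le_add_right (hA x) 1)
  have hp : (0 : ℝ) < (1 / 2 : ℝ) ^ c := by positivity
  obtain ⟨ρ, hρ1, hρ2⟩ := TD.IS.doublingI (bv1_pd L) (stgS L) (OJ R sec0 fun _ _ => [])
    (fun x => gsT x (A x)) (d + 1) hdep ((1 : ℝ) / 2 ^ L) (by positivity) (by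
      intro l q
      rw [Finset.sum_const, nsmul_eq_mul]
      have h1 : (Finset.univ.filter fun z : Zs L => (stgS L).ln z = l).card ≤ 1 := by
        rw [Finset.card_le_one]
        intro a ha b hb
        have ha' := (Finset.mem_filter.1 ha).2
        have hb' := (Finset.mem_filter.1 hb).2
        apply Subtype.ext
        exact Encodable.encode_injective (ha'.trans hb'.symm)
      have h2 : ((Finset.univ.filter fun z : Zs L => (stgS L).ln z = l).card : ℝ) ≤ 1 := by
        exact_mod_cast h1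
      calc _ ≤ 1 * ((1 : ℝ) / 2 ^ L) := mul_le_mul_of_nonneg_right h2 (by positivity)
        _ = _ := one_mul _)
    W (fun T => decide (W ≤ ∑ x, ind ((gsT x (A x)).eval
      (patchI (stgS L) (OJ R sec0 fun _ _ => []) T)))) (fun T hT => of_decide_eq_true hT)
    1 one_pos c _ (lt_trans hp hcon) (by
      have h1 : (1 : ℝ) = (1 + 1) ^ c * (1 / 2 : ℝ) ^ c := by
        rw [← mul_pow]; norm_num
      calc (1 : ℝ) = (1 + 1) ^ c * (1 / 2 : ℝ) ^ c := h1
        _ < _ := mul_lt_mul_of_pos_left hcon (by positivity)) le_rfl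
  rw [Pr_evM (stgS L) (fun w l q i => pz_inv L w l q i)] at hρ2
  rw [bv2_sum] at hρ2
  have hcardX : Fintype.card (X n) = 2 ^ n := bv1_card n
  -- the known entries
  set z0 : X n → Zs L := fun x => ⟨x.1, by rw [x.2]; exact hnL⟩ with hz0
  have hz0inj : Function.Injective z0 := by
    intro x y h
    apply Subtype.ext
    have h' : (z0 x).1 = (z0 y).1 := congrArg Subtype.val h
    exact h'
  set KN : Finset (X n) := Finset.univ.filter fun x => z0 x ∈ ρ.map Prod.fst with hKN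
  have hKNc : KN.card ≤ c * (d + 1) := by
    have h1 : KN.card ≤ (ρ.map Prod.fst).toFinset.card := by
      refine Finset.card_le_card_of_injOn z0 ?_ hz0inj.injOn
      intro x hx
      have hx' := (Finset.mem_filter.1 (Finset.mem_coe.1 hx)).2
      exact Finset.mem_coe.2 (List.mem_toFinset.2 hx')
    have h2 : (ρ.map Prod.fst).toFinset.card ≤ (ρ.map Prod.fst).length :=
      List.toFinset_card_le _
    rw [List.length_map] at h2
    omega
  have hb : ∀ x : X n, Pr (fun _ _ => (1 : ℝ) / 2 ^ L) ρ (fun T =>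
      ind ((gsT x (A x)).eval (patchI (stgS L) (OJ R sec0 fun _ _ => []) T))) ≤
      (if x ∈ KN then 1 else 0) + ((d : ℝ) + 1) / 2 ^ n := by
    intro x
    by_cases hx : x ∈ KN
    · rw [if_pos hx]
      have h1 : Pr (fun _ _ => (1 : ℝ) / 2 ^ L) ρ (fun T =>
          ind ((gsT x (A x)).eval (patchI (stgS L) (OJ R sec0 fun _ _ => []) T))) ≤ 1 := by
        refine (Pr_mono (bv1_pd L) ρ (G := fun _ => 1) fun T => ?_).trans_eq
          (Pr_one (bv1_pd L) ρ)
        unfold ind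
        split_ifs <;> norm_num
      have h2 : (0 : ℝ) ≤ ((d : ℝ) + 1) / 2 ^ n := by positivity
      linarith
    · rw [if_neg hx, zero_add]
      have hx' : z0 x ∉ ρ.map Prod.fst := fun h => hx (Finset.mem_filter.2 ⟨Finset.mem_univ x, h⟩)
      exact guess_bound R L n hnL x (A x) d (hA x) ρ (bv2_lookup ρ _ hx')
  have hsum : ∑ x : X n, Pr (fun _ _ => (1 : ℝ) / 2 ^ L) ρ (fun T =>
      ind ((gsT x (A x)).eval (patchI (stgS L) (OJ R sec0 fun _ _ => []) T))) ≤
      (c : ℝ) * (d + 1) + (d + 1) := by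
    refine (Finset.sum_le_sum fun x _ => hb x).trans ?_
    rw [Finset.sum_add_distrib, Finset.sum_boole, Finset.sum_const, Finset.card_univ, hcardX,
      nsmul_eq_mul]
    have h1 : ((Finset.univ.filter fun x => x ∈ KN).card : ℝ) ≤ (c : ℝ) * (d + 1) := by
      have h2 : (Finset.univ.filter fun x => x ∈ KN) = KN := by
        ext x; simp
      rw [h2]
      exact_mod_cast hKNc
    have h3 : ((2 ^ n : ℕ) : ℝ) * (((d : ℝ) + 1) / 2 ^ n) = d + 1 := by
      push_cast
      field_simp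
    rw [h3]
    linarith
  have hc : ((Fintype.card (X n) : ℕ) : ℝ) * (((d + 1 : ℕ) : ℝ) * ((1 : ℝ) / 2 ^ L)) ≤ 1 := by
    rw [hcardX]
    have h1 : ((2 : ℝ) ^ n * ((d : ℝ) + 1)) ≤ 2 ^ L := by exact_mod_cast hL
    have h2 : ((2 ^ n : ℕ) : ℝ) * (((d + 1 : ℕ) : ℝ) * ((1 : ℝ) / 2 ^ L)) =
        ((2 : ℝ) ^ n * ((d : ℝ) + 1)) / 2 ^ L := by
      push_cast
      ring
    rw [h2, div_le_one (by positivity)]
    exact h1
  have h12 : (1 : ℝ) + 1 = 2 := by norm_num
  rw [h12] at hρ2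
  nlinarith [hρ2, hsum, hc, hW]

end Pool.Agent.ABO
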