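import Pool.Agent.Lib_helper27.ABO.Fm
import Pool.Agent.Lib_helper74.IS.All

set_option autoImplicit false

namespace Pool.Agent.ABO

open Pool.Agent.CK
open Pool.Agent.TD (Str su sj st Act se sm sM sn sD ZSet Z Q unitv Lam KK dd)
open Pool.Agent.TD.IS (PosI Stg uq patchI simI evM icode idec strip ISet posK zs updI PLW PTW
  invTreeW thrX invTab excI LocalWith PolyLocal Cls EL)

/-! ## Block CA2: renumbering -/

/-- renumbering of a formula -/
def ca2_fml (t : ℕ) : Fml → Fml
  | .tru => .tru
  | .var i => .var (min i t)
  | .nand a b => .nand (ca2_fml t a) (ca2_fml t b)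

/-- renumbering of a gate -/
def ca2_gate (t : ℕ) : Gate → Gate
  | .fml φ => .fml (ca2_fml t φ)
  | .ask l => .ask (l.map fun i => min i t)
  | .chal l => .chal (l.map fun i => min i t)

theorem ca2_getD (t i : ℕ) (W : List Bool) (h : W.length ≤ t) :
    W.getD (min i t) false = W.getD i false := by
  rcases Nat.lt_or_ge t i with h1 | h1
  · rw [min_eq_right h1.le, List.getD_eq_default _ _ h, List.getD_eq_default _ _ (h.trans h1.le)]
  · rw [min_eq_left h1]

theorem ca2_sel (t : ℕ) (W : List Bool) (l : List ℕ) (h : W.length ≤ t) :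
    sel W (l.map fun i => min i t) = sel W l := by
  unfold sel
  rw [List.map_map]
  refine List.map_congr_left fun i _ => ?_
  exact ca2_getD t i W h

theorem ca2_fml_eval (t : ℕ) (W : List Bool) (h : W.length ≤ t) (φ : Fml) :
    (ca2_fml t φ).eval W = φ.eval W := by
  induction φ with
  | tru => rfl
  | var i => exact ca2_getD t i W h
  | nand a b ha hb => simp only [ca2_fml, Fml.eval, ha, hb]

theorem ca2_fml_size (t : ℕ) (φ : Fml) : (ca2_fml t φ).size = φ.size := by
  induction φ with
  | tru => rfl
  | var i => rfl
  | nand a b ha hb => simp only [ca2_fml, Fml.size, ha, hb]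

theorem ca2_fml_below (t : ℕ) (φ : Fml) : (ca2_fml t φ).Below (t + 1) := by
  induction φ with
  | tru => trivial
  | var i => exact Nat.lt_succ_of_le (min_le_right _ _)
  | nand a b ha hb => exact ⟨ha, hb⟩

theorem ca2_gate_size (t : ℕ) (g : Gate) : (ca2_gate t g).size = g.size := by
  cases g with
  | fml φ => simp only [ca2_gate, Gate.size, ca2_fml_size]
  | ask l => simp only [ca2_gate, Gate.size, List.length_map]
  | chal l => simp only [ca2_gate, Gate.size, List.length_map]

theorem ca2_gate_below (t : ℕ) (g : Gate) : (ca2_gate t g).Below (t + 1) := by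
  cases g with
  | fml φ => exact ca2_fml_below t φ
  | ask l =>
    intro i hi
    obtain ⟨j, _, rfl⟩ := List.mem_map.1 hi
    exact Nat.lt_succ_of_le (min_le_right _ _)
  | chal l =>
    intro i hi
    obtain ⟨j, _, rfl⟩ := List.mem_map.1 hi
    exact Nat.lt_succ_of_le (min_le_right _ _)

theorem ca2_gstep (O : Lang) (ch : List (List Bool) → List Bool → Bool) (t : ℕ)
    (s : List Bool × List (List Bool)) (g : Gate) (h : s.1.length ≤ t) :
    gstep O ch s (ca2_gate t g) = gstep O ch s g := by
  cases g with
  | fml φ => simp only [ca2_gate, gstep, ca2_fml_eval t s.1 h]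
  | ask l => simp only [ca2_gate, gstep, ca2_sel t s.1 l h]
  | chal l => simp only [ca2_gate, gstep, ca2_sel t s.1 l h]

theorem ca2_gstep_len (O : Lang) (ch : List (List Bool) → List Bool → Bool)
    (s : List Bool × List (List Bool)) (g : Gate) :
    (gstep O ch s g).1.length = s.1.length + 1 := by
  cases g <;> simp [gstep]

theorem ca2_fold (O : Lang) (ch : List (List Bool) → List Bool → Bool) (t : ℕ) (gs : List Gate) :
    ∀ s : List Bool × List (List Bool), s.1.length + gs.length ≤ t →
      (gs.map (ca2_gate t)).foldl (gstep O ch) s = gs.foldl (gstep O ch) s ∧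
        (gs.foldl (gstep O ch) s).1.length = s.1.length + gs.length := by
  induction gs with
  | nil => intro s _; exact ⟨rfl, rfl⟩
  | cons g gs ih =>
    intro s hs
    rw [List.length_cons] at hs
    have h1 := ih (gstep O ch s g) (by rw [ca2_gstep_len]; omega)
    rw [List.map_cons, List.foldl_cons, List.foldl_cons, ca2_gstep O ch t s g (by omega)]
    refine ⟨h1.1, ?_⟩
    rw [h1.2, ca2_gstep_len, List.length_cons]
    omega

theorem ca2_gate_pos (g : Gate) : 1 ≤ g.size := by
  cases g <;> simp [Gate.size]

theorem ca2_len_le (gs : List Gate) : gs.length ≤ (gs.map Gate.size).sum := by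
  induction gs with
  | nil => simp
  | cons g gs ih =>
    rw [List.map_cons, List.sum_cons, List.length_cons]
    have := ca2_gate_pos g
    omega

theorem ca2_mem_le (gs : List Gate) (g : Gate) (h : g ∈ gs) : g.size ≤ (gs.map Gate.size).sum :=
  List.single_le_sum (fun x _ => Nat.zero_le x) _ (List.mem_map_of_mem h)

/-- CA2: bits with numbers `≥ t` are missing in a circuit of size `≤ t`; replace such numbers by
`t` -/
theorem exists_within (C : Circuit) (t : ℕ) (h : C.size ≤ t) :
    ∃ C' : Circuit, C'.Within (t + 1) t ∧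
      ∀ (G : Game) (O : Lang) (ω : Str), G.wins O C' ω = G.wins O C ω := by
  have hsum : (C.gates.map Gate.size).sum ≤ t := by
    unfold Circuit.size at h
    omega
  have hlen : C.gates.length ≤ t := (ca2_len_le C.gates).trans hsum
  have hmap : (C.gates.map (ca2_gate t)).map Gate.size = C.gates.map Gate.size := by
    rw [List.map_map]
    exact List.map_congr_left fun g _ => ca2_gate_size t g
  refine ⟨⟨C.gates.map (ca2_gate t), C.out.map fun i => min i t⟩, ⟨?_, ?_, ?_, ?_, ?_⟩, ?_⟩
  · unfold Circuit.size at h ⊢
    simp only [hmap, List.length_map]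
    omega
  · refine (List.countP_le_length).trans ?_
    rw [List.length_map]
    exact hlen
  · intro l hl
    obtain ⟨g, hg, hgl⟩ := List.mem_map.1 hl
    have h1 : (Gate.ask l).size = g.size := by
      rw [← hgl, ca2_gate_size]
    have h2 := ca2_mem_le C.gates g hg
    simp only [Gate.size] at h1
    have h3 : l.length + 1 = g.size := h1
    omega
  · intro g hg
    obtain ⟨g', _, rfl⟩ := List.mem_map.1 hg
    exact ca2_gate_below t g'
  · intro i hi
    obtain ⟨j, _, rfl⟩ := List.mem_map.1 hi
    exact Nat.lt_succ_of_le (min_le_right _ _)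
  · intro G O ω
    obtain ⟨h1, h2⟩ := ca2_fold O (G.ch ω) t C.gates ([], []) (by simpa using hlen)
    have h3 : (C.gates.foldl (gstep O (G.ch ω)) ([], [])).1.length ≤ t := by
      rw [h2]
      simpa using hlen
    unfold Game.wins Circuit.play
    simp only [h1]
    rw [ca2_sel t _ C.out h3]


end Pool.Agent.ABO
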