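import Pool.Agent.Lib_helper27.ABO.Fm
import Pool.Agent.Lib_helper74.IS.All

/-!
# ABO, block CC1
-/

set_option autoImplicit false

namespace Pool.Agent.ABO

open Pool.Agent.CK
open Pool.Agent.TD (Str su sj st Act se sm sM sn sD ZSet Z Q unitv Lam KK dd)
open Pool.Agent.TD.IS (PosI Stg uq patchI simI evM icode idec strip ISet posK zs updI PLW PTW
  invTreeW thrX invTab excI LocalWith PolyLocal Cls EL)

theorem cc1_num (n j e : ℕ) (he : e ≤ j) : ∃ a : ℕ, 3 * n ≤ a ∧ (3 * n + 2) ^ j ≤ a ∧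
    a + (3 * n + 2) ^ e ≤ (3 * n + 2) ^ (j + 1) := by
  have h1 : (3 * n + 2) ^ e ≤ (3 * n + 2) ^ j := Nat.pow_le_pow_right (by omega) he
  have h2 : 1 ≤ (3 * n + 2) ^ j := Nat.one_le_pow _ _ (by omega)
  rw [pow_succ]
  generalize (3 * n + 2) ^ j = u at *
  generalize (3 * n + 2) ^ e = t at *
  refine ⟨max (3 * n) u, le_max_left _ _, le_max_right _ _, ?_⟩
  rcases le_total (3 * n) u with h | h
  · rw [max_eq_right h]
    nlinarith
  · rw [max_eq_left h]
    nlinarith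

theorem cc1_qb (k : ℕ) : TD.qb k = (3 * sn k + 2) ^ (sj k + 1) := rfl

theorem cc1_allQ0 (s j : ℕ) (i : ℕ) (hex : ex i ≤ j) (w : Str) (hw : w.length ≤ (3 * s + 2) ^ j)
    (x : Str) (hx : x.length = 2 * s) :
    (PTW i w x).AllQ fun u => u.length < (3 * s + 2) ^ (j + 1) := by
  obtain ⟨a, h1, h2, h3⟩ := cc1_num s j (ex i) hex
  rw [PTW]
  apply mach_allQ_map
  refine mach_allQ_runTree _ _ a _ (mach_init_len x w a (by omega) (hw.trans h2)) ?_
  have h4 : (x.length + 2) ^ ex i ≤ (3 * s + 2) ^ ex i :=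
    Nat.pow_le_pow_left (by omega) _
  omega

attribute [local irreducible] sn TD.qb sD sj su in
theorem cc1_allQ (k : ℕ) (w : Str) (hw : w.length ≤ (3 * sn k + 2) ^ sj k) (x : Str)
    (hx : x.length = 2 * sn k) : (PTW (iM (sj k)) w x).AllQ fun u => u.length < TD.qb k := by
  have hex : ex (iM (sj k)) ≤ sj k := (Nat.unpair_right_le _).trans (TD.gcg_unpair (sj k)).2.1
  rw [cc1_qb k]
  exact cc1_allQ0 (sn k) (sj k) _ hex w hw x hx

attribute [local irreducible] sn TD.qb sD sj su in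
theorem cc1_corr {F : ℕ → Lang → Lang} {S : Sec} {k : ℕ} {O O' : Lang} (h5 : 5 ≤ sj k)
    (h2 : 2 * sj k ≤ su k) (h : ∀ w : Str, w.length < sD k → O w = O' w)
    (hC : CorrW F S k O) : CorrW F S k O' := by
  obtain ⟨w, hw, hC⟩ := hC
  refine ⟨w, hw, fun x i hi => ?_⟩
  rw [← hC x i hi]
  rw [← TD.IS.eval_PTW, ← TD.IS.eval_PTW]
  have hlen : (x.1 ++ unitv (sn k) i).length = 2 * sn k := by
    rw [List.length_append, TD.unitv_length, x.2]; ring
  have hq := cc1_allQ k w hw (x.1 ++ unitv (sn k) i) hlen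
  have hqb : TD.qb k < sD k := by have := TD.fits k h5 h2; omega
  symm
  apply DT.eval_join_congr _ _ hq
  · intro u hu
    simp only [List.length_cons] at hu
    exact h u (by omega)
  · intro u hu
    simp only [List.length_cons] at hu
    exact TD.IS.elC_congr F h5 h2 h u (by omega)

/-- CC1: as `TD.IS.corrW_congr` -/
theorem corrW_congr {F : ℕ → Lang → Lang} {S : Sec} {k : ℕ} {O O' : Lang} (h5 : 5 ≤ sj k)
    (h2 : 2 * sj k ≤ su k) (h : ∀ w : Str, w.length < sD k → O w = O' w) :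
    CorrW F S k O ↔ CorrW F S k O' :=
  ⟨cc1_corr h5 h2 h, cc1_corr h5 h2 fun w hw => (h w hw).symm⟩

theorem cc1_inv {k : ℕ} {Tab Tab' : ℕ → Str → Str}
    (hT : ∀ z : Str, z.length + 2 < sM k → Tab (se k) z = Tab' (se k) z) (w : Str) :
    invTab Tab k w = invTab Tab' k w := by
  unfold invTab
  have h1 : (fun y : Z k => ∃ l q, idec w = some (l, q) ∧ y.1.length = l ∧
      Tab (se k) y.1 = q) = fun y : Z k => ∃ l q, idec w = some (l, q) ∧ y.1.length = l ∧
      Tab' (se k) y.1 = q := by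
    funext y
    rw [hT y.1 y.2.2]
  rw [h1]

attribute [local irreducible] sn TD.qb sD sj su sM sm in
/-- CC1: as `TD.IS.goalI_congr` -/
theorem goal_congr {F : ℕ → Lang → Lang} {S : Sec} {k : ℕ} {O O' : Lang}
    {Tab Tab' : ℕ → Str → Str} (h5 : 5 ≤ sj k) (h2 : 2 * sj k ≤ su k)
    (h : ∀ w : Str, w.length < sD k → O w = O' w)
    (hT : ∀ z : Str, z.length + 2 < sM k → Tab (se k) z = Tab' (se k) z)
    (hI : ∀ w ∈ ISet k, Tab (se k + 1) w = Tab' (se k + 1) w) (hG : Goal F S k O Tab) :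
    Goal F S k O' Tab' := by
  obtain ⟨h1, h3, h4⟩ := hG
  refine ⟨fun z hz => ?_, fun w hw => ?_, fun hC z hz => ?_⟩
  · rw [← hT z hz.2]
    exact h1 z hz
  · rw [← hI w hw, ← cc1_inv hT w]
    exact h3 w hw
  · obtain ⟨h6, h7, h8⟩ := h4 ((corrW_congr h5 h2 h).2 hC) z hz
    rw [← hT z hz.2]
    refine ⟨?_, h7, fun z' hz' he => ?_⟩
    · rw [← TD.IS.elC_congr F h5 h2 h _ (h1 z hz), ← TD.IS.elN_congr F h5 h2 h z hz]
      exact h6
    · rw [← hT z' hz'] at he
      exact h8 z' hz' he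


end Pool.Agent.ABO
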