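import Pool.Agent.Lib_helper27.ABO.Fm
import Pool.Agent.Lib_helper74.IS.All

/-!
# Project ABO, block CC3: compactness
-/

set_option autoImplicit false

namespace Pool.Agent.ABO

open Pool.Agent.CK
open Pool.Agent.TD (Str su sj st Act se sm sM sn sD ZSet Z Q unitv Lam KK dd)
open Pool.Agent.TD.IS (PosI Stg uq patchI simI evM icode idec strip ISet posK zs updI PLW PTW
  invTreeW thrX invTab excI LocalWith PolyLocal Cls EL)
open Filter

theorem cc3_lim {α : Type} [Finite α] (f : ℕ → α) :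
    ∃ a, ∀ᶠ N in (hyperfilter ℕ : Filter ℕ), f N = a := by
  obtain ⟨a, ha⟩ := ((hyperfilter ℕ).map f).eq_pure_of_finite
  refine ⟨a, ?_⟩
  have h : {b | b = a} ∈ (hyperfilter ℕ).map f := by
    rw [ha]
    exact Ultrafilter.mem_pure.2 rfl
  exact h

theorem cc3_fin (n : ℕ) : Finite (X n) :=
  Finite.of_injective (fun x : X n => (⟨x.1, x.2.le⟩ : {q : Str // q.length ≤ n}))
    (fun _ _ h => Subtype.ext (congrArg (fun y : {q : Str // q.length ≤ n} => y.1) h))

/-- CC3 (ultrafilter `Filter.hyperfilter ℕ`; every coordinate has finitely many values) -/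
theorem compactness (Ss : ℕ → Sec) (Ts : ℕ → ℕ → Str → Str)
    (hb : ∀ N e z, (Ts N e z).length ≤ alen e z) :
    ∃ (S : Sec) (Tab : ℕ → Str → Str), (∀ e z, (Tab e z).length ≤ alen e z) ∧
      ∀ b, ∃ N, b ≤ N ∧ Agree b S (Ss N) Tab (Ts N) := by
  have hS : ∀ n, ∃ f : X n → X n, ∀ᶠ N in (hyperfilter ℕ : Filter ℕ), Ss N n = f := fun n => by
    haveI : Finite (X n) := cc3_fin n
    exact cc3_lim fun N => Ss N n
  choose S hS using hS
  have hT : ∀ e z, ∃ q : Str, q.length ≤ alen e z ∧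
      ∀ᶠ N in (hyperfilter ℕ : Filter ℕ), Ts N e z = q := by
    intro e z
    haveI : Finite {q : Str // q.length ≤ alen e z} :=
      (List.finite_length_le Bool (alen e z)).to_subtype
    obtain ⟨a, ha⟩ := cc3_lim fun N => (⟨Ts N e z, hb N e z⟩ : {q : Str // q.length ≤ alen e z})
    refine ⟨a.1, a.2, ?_⟩
    filter_upwards [ha] with N hN
    exact congrArg Subtype.val hN
  choose Tab hTab1 hTab2 using hT
  refine ⟨S, Tab, hTab1, fun b => ?_⟩
  have h1 : ∀ᶠ N in (hyperfilter ℕ : Filter ℕ), b ≤ N := by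
    have : (hyperfilter ℕ : Filter ℕ) ≤ atTop := by
      rw [← Nat.cofinite_eq_atTop]
      exact hyperfilter_le_cofinite
    exact this (eventually_ge_atTop b)
  have h2 : ∀ᶠ N in (hyperfilter ℕ : Filter ℕ), ∀ n ∈ Set.Iic b, S n = Ss N n := by
    rw [eventually_all_finite (Set.finite_Iic b)]
    intro n _
    filter_upwards [hS n] with N h
    exact h.symm
  have h3 : ∀ᶠ N in (hyperfilter ℕ : Filter ℕ), ∀ e ∈ Set.Iic b, ∀ z ∈ {z : Str | z.length ≤ b},
      Tab e z = Ts N e z := by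
    rw [eventually_all_finite (Set.finite_Iic b)]
    intro e _
    rw [eventually_all_finite (List.finite_length_le Bool b)]
    intro z _
    filter_upwards [hTab2 e z] with N h
    exact h.symm
  obtain ⟨N, hN1, hN2, hN3⟩ := (h1.and (h2.and h3)).exists
  exact ⟨N, hN1, fun n hn => hN2 n hn, fun e he z hz => hN3 e he z hz⟩


end Pool.Agent.ABO
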