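import Pool.Agent.Lib_helper27.ABO.Fm
import Pool.Agent.Lib_helper74.IS.All
import Pool.Agent.Lib_helper27.ABO.B.HD

/-!
# ABO, block DK1: formulas for the stage `k`, direct questions
-/

set_option autoImplicit false

namespace Pool.Agent.ABO

open Pool.Agent.CK
open Pool.Agent.TD (Str su sj st Act se sm sM sn sD ZSet Z Q unitv Lam KK dd)
open Pool.Agent.TD.IS (PosI Stg uq patchI simI evM icode idec strip ISet posK zs updI PLW PTW
  invTreeW thrX invTab excI LocalWith PolyLocal Cls EL)

theorem dk1_pj (k : ℕ) (w : Str) (z : Z k) (i : ℕ × Bool) :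
    pj k w = some (PosI.dir z i) ↔ w = true :: taddr (se k) z.1 i.1 i.2 := by
  constructor
  · intro h
    rcases w with _ | ⟨a, w⟩
    · simp [pj] at h
    · cases a with
      | false => simp [pj] at h
      | true =>
        have h' : posK k w = some (PosI.dir z i) := h
        unfold posK at h'
        rcases ht : tdec w with _ | p
        · rw [ht] at h'
          simp at h'
        · rw [ht] at h'
          simp only at h'
          split_ifs at h' with h1 h2
          · simp only [Option.some.injEq, PosI.dir.injEq] at h'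
            obtain ⟨hz, hi⟩ := h'
            have hw := tdec_eq ht
            rw [hw, h1.1, ← hz, ← hi]
          · simp at h'
  · rintro rfl
    show posK k (taddr (se k) z.1 i.1 i.2) = _
    unfold posK
    rw [tdec_taddr]
    simp only
    rw [dif_pos ⟨rfl, z.2⟩]

/-- formula for the header -/
noncomputable def dk1_hdr (e h L : ℕ) : Fml := (exists_hdr e h L).choose

/-- the lengths of the entries -/
def dk1_H (k : ℕ) : List ℕ := (List.range (sM k)).filter fun h =>
  decide (sm k ≤ h + 2 ∧ h + 2 < sM k)

/-- choice according to the length of the entry -/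
noncomputable def dk1_sel (k L : ℕ) (g : ℕ → Fml) : Fml :=
  if L < 7 then Fml.con false else
    Fml.any ((dk1_H k).map fun h => Fml.and (dk1_hdr (se k) h L) (g h))

theorem dk1_mem {k : ℕ} (z : Z k) : z.1.length ∈ dk1_H k := by
  have h1 := z.2.1
  have h2 := z.2.2
  rw [dk1_H, List.mem_filter, List.mem_range]
  exact ⟨by omega, by simpa using ⟨h1, h2⟩⟩

theorem dk1_seven {e : ℕ} {z : Str} {b : ℕ} {c : Bool} :
    7 ≤ (true :: taddr e z b c).length := by
  rw [(taddr_parts e z b c).1]
  have : 1 ≤ (z.length + 2) ^ (e ^ 2) := Nat.one_le_pow _ _ (by omega)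
  omega

theorem dk1_hdr_eval {k : ℕ} {w : Str} {z : Z k} {i : ℕ × Bool}
    (hw : w = true :: taddr (se k) z.1 i.1 i.2) (h : ℕ) :
    (dk1_hdr (se k) h w.length).eval w = true ↔ h = z.1.length := by
  refine ((exists_hdr (se k) h w.length).choose_spec.2.2 w rfl).trans ?_
  constructor
  · rintro ⟨z', b, c, hz', hw'⟩
    rw [hw] at hw'
    obtain ⟨-, h2, -⟩ := addr_taddr_inj (List.cons.inj hw').2
    rw [← hz', h2]
  · intro hh
    exact ⟨z.1, i.1, i.2, hh.symm, hw⟩

theorem dk1_sel_eval {k : ℕ} {w : Str} {z : Z k} {i : ℕ × Bool}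
    (hw : w = true :: taddr (se k) z.1 i.1 i.2) (g : ℕ → Fml) :
    (dk1_sel k w.length g).eval w = (g z.1.length).eval w := by
  have h7 : ¬ w.length < 7 := by
    have := dk1_seven (e := se k) (z := z.1) (b := i.1) (c := i.2)
    rw [← hw] at this
    omega
  rw [dk1_sel, if_neg h7, Fml.eval_any, Bool.eq_iff_iff, List.any_eq_true]
  constructor
  · rintro ⟨φ, hφ, he⟩
    obtain ⟨h, -, rfl⟩ := List.mem_map.mp hφ
    rw [Fml.eval_and, Bool.and_eq_true, dk1_hdr_eval hw] at he
    rw [← he.1]
    exact he.2
  · intro he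
    refine ⟨_, List.mem_map.mpr ⟨z.1.length, dk1_mem z, rfl⟩, ?_⟩
    rw [Fml.eval_and, Bool.and_eq_true]
    exact ⟨(dk1_hdr_eval hw _).mpr rfl, he⟩

theorem dk1_sel_size (k d L : ℕ) (hL : L ≤ d) (g : ℕ → Fml) (hg : ∀ h, (g h).size ≤ 21) :
    (dk1_sel k L g).size ≤ 256 * (d + sM k + 1) ^ 3 := by
  have hT : 1 ≤ d + sM k + 1 := by omega
  rw [dk1_sel]
  split_ifs with h7
  · have h1 := Fml.size_con false
    have h2 : 1 ≤ (d + sM k + 1) ^ 3 := Nat.one_le_pow _ _ (by omega)
    omega
  · have h1 := Fml.size_any ((dk1_H k).map fun h => Fml.and (dk1_hdr (se k) h L) (g h))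
      (6 * L + 34) (by
        intro φ hφ
        obtain ⟨h, -, rfl⟩ := List.mem_map.mp hφ
        have h2 := (exists_hdr (se k) h L).choose_spec.1
        have h3 := hg h
        rw [Fml.size_and]
        show (exists_hdr (se k) h L).choose.size + _ + 3 ≤ _
        omega)
    rw [List.length_map] at h1
    have h2 : (dk1_H k).length ≤ sM k := by
      have := List.length_filter_le (fun h => decide (sm k ≤ h + 2 ∧ h + 2 < sM k))
        (List.range (sM k))
      rw [List.length_range] at this
      exact this
    refine h1.trans ?_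
    have h3 : (dk1_H k).length * (6 * L + 34 + 5) ≤ sM k * (6 * d + 39) :=
      Nat.mul_le_mul h2 (by omega)
    refine (Nat.add_le_add_right h3 3).trans ?_
    set M := sM k
    have h4 : M * (6 * d + 39) + 3 ≤ 42 * (d + M + 1) ^ 2 := by nlinarith
    have h5 : (d + M + 1) ^ 2 ≤ (d + M + 1) ^ 3 := Nat.pow_le_pow_right hT (by omega)
    omega

theorem dk1_sel_below (k L : ℕ) (g : ℕ → Fml) (hg : ∀ h, 7 ≤ L → (g h).Below L) :
    (dk1_sel k L g).Below L := by
  rw [dk1_sel]
  split_ifs with h7
  · exact Fml.below_con _ _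
  · refine Fml.below_any ?_
    intro φ hφ
    obtain ⟨h, -, rfl⟩ := List.mem_map.mp hφ
    exact Fml.below_and (exists_hdr (se k) h L).choose_spec.2.1 (hg h (by omega))

/-- bit `i` of the code -/
def dk1_bit (L i h : ℕ) : Fml :=
  if i < h then .var (L - 1 - i) else if i = h then .tru else Fml.con false

/-- the answer -/
def dk1_rd (k L : ℕ) (q : Q k) (h : ℕ) : Fml :=
  Fml.ite (.var 2)
    (Fml.con (q.1.reverse.getD (L - (se k + (h + 2) ^ (se k ^ 2) + h + 6)) false))
    (Fml.con (decide (L - (se k + (h + 2) ^ (se k ^ 2) + h + 6) < q.1.length)))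

/-- DK1: from `exists_hdr`; a disjunction over the length `h < sM k` of the entry -/
theorem exists_dirJ (k d : ℕ) : ∃ (dirF : ℕ → Fml) (rep : ℕ → List Fml) (rdF : ℕ → Q k → Fml),
    (∀ w : Str, w.length ≤ d →
      ((dirF w.length).eval w = true ↔ ∃ z i, pj k w = some (PosI.dir z i))) ∧
    (∀ l, (rep l).length = sM k) ∧
    (∀ w : Str, w.length ≤ d → ∀ z i, pj k w = some (PosI.dir z i) →
      (rep w.length).map (fun φ => φ.eval w) = cdJ k z) ∧
    (∀ w : Str, w.length ≤ d → ∀ z i, pj k w = some (PosI.dir z i) → ∀ q,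
      (rdF w.length q).eval w = bit q.1 i) ∧
    (∀ l ≤ d, (dirF l).size ≤ 256 * (d + sM k + 1) ^ 3 ∧ (dirF l).Below l) ∧
    (∀ l ≤ d, ∀ φ ∈ rep l, φ.size ≤ 256 * (d + sM k + 1) ^ 3 ∧ φ.Below l) ∧
    (∀ l ≤ d, ∀ q, (rdF l q).size ≤ 256 * (d + sM k + 1) ^ 3 ∧ (rdF l q).Below l) := by
  refine ⟨fun L => dk1_sel k L fun _ => .tru,
    fun L => (List.range (sM k)).map fun i => dk1_sel k L (dk1_bit L i),
    fun L q => dk1_sel k L (dk1_rd k L q), ?_, ?_, ?_, ?_, ?_, ?_, ?_⟩
  · intro w _
    constructor
    · intro h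
      simp only [dk1_sel] at h
      split_ifs at h with h7
      · simp at h
      · rw [Fml.eval_any, List.any_eq_true] at h
        obtain ⟨φ, hφ, he⟩ := h
        obtain ⟨h, hh, rfl⟩ := List.mem_map.mp hφ
        rw [Fml.eval_and, Bool.and_eq_true] at he
        obtain ⟨z, b, c, hz, hw⟩ :=
          ((exists_hdr (se k) h w.length).choose_spec.2.2 w rfl).mp he.1
        rw [dk1_H, List.mem_filter] at hh
        have hh2 : sm k ≤ h + 2 ∧ h + 2 < sM k := by simpa using hh.2
        have hzm : z ∈ ZSet k := by
          show sm k ≤ z.length + 2 ∧ z.length + 2 < sM k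
          rw [hz]
          exact hh2
        exact ⟨⟨z, hzm⟩, (b, c), (dk1_pj k w ⟨z, hzm⟩ (b, c)).mpr hw⟩
    · rintro ⟨z, i, h⟩
      show (dk1_sel k w.length fun _ => .tru).eval w = true
      rw [dk1_sel_eval ((dk1_pj k w z i).mp h)]
      rfl
  · intro l
    simp
  · intro w _ z i h
    have hw := (dk1_pj k w z i).mp h
    have hz1 := z.2.1
    have hz2 := z.2.2
    have hcd : (cdJ k z).length = sM k := by
      simp only [cdJ, List.length_append, List.length_reverse, List.length_cons,
        List.length_replicate]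
      omega
    apply List.ext_getElem (by simp [hcd])
    intro j hj1 hj2
    have hj : j < sM k := by simpa using hj1
    simp only [List.getElem_map, List.getElem_range]
    rw [dk1_sel_eval hw]
    obtain ⟨p1, -, p3⟩ := taddr_parts (se k) z.1 i.1 i.2
    rw [← hw] at p1 p3
    rcases lt_trichotomy j z.1.length with hlt | heq | hgt
    · have e1 : dk1_bit w.length j z.1.length = .var (w.length - 1 - j) := by
        rw [dk1_bit, if_pos hlt]
      rw [e1]
      show w.getD (w.length - 1 - j) false = (cdJ k z)[j]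
      have e2 : w.length - 1 - j = i.1 + se k + (z.1.length + 2) ^ (se k ^ 2) + 6 +
          (z.1.length - 1 - j) := by omega
      rw [e2, p3 _ (by omega)]
      simp only [cdJ]
      rw [List.getElem_append_left (by simpa using hlt), List.getElem_reverse,
        List.getD_eq_getElem?_getD, List.getElem?_eq_getElem (by omega)]
      rfl
    · have e1 : dk1_bit w.length j z.1.length = .tru := by
        rw [dk1_bit, if_neg (by omega), if_pos heq]
      rw [e1]
      simp only [cdJ]
      rw [List.getElem_append_right (by simp [heq])]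
      simp [heq, Fml.eval]
    · have e1 : dk1_bit w.length j z.1.length = Fml.con false := by
        rw [dk1_bit, if_neg (by omega), if_neg (by omega)]
      rw [e1, Fml.eval_con]
      simp only [cdJ]
      rw [List.getElem_append_right (by simp; omega)]
      have : j - z.1.reverse.length = (j - z.1.length - 1) + 1 := by
        rw [List.length_reverse]; omega
      simp only [this, List.getElem_cons_succ, List.getElem_replicate]
  · intro w _ z i h q
    have hw := (dk1_pj k w z i).mp h
    show (dk1_sel k w.length (dk1_rd k w.length q)).eval w = _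
    rw [dk1_sel_eval hw, dk1_rd, Fml.eval_ite, Fml.eval_con, Fml.eval_con]
    obtain ⟨p1, p2, -⟩ := taddr_parts (se k) z.1 i.1 i.2
    rw [← hw] at p1 p2
    have e1 : w.length - (se k + (z.1.length + 2) ^ (se k ^ 2) + z.1.length + 6) = i.1 := by
      omega
    rw [e1]
    show (if w.getD 2 false = true then _ else _) = _
    rw [p2]
    rfl
  · intro l hl
    exact ⟨dk1_sel_size k d l hl _ fun _ => by simp [Fml.size],
      dk1_sel_below k l _ fun _ _ => trivial⟩
  · intro l hl φ hφ
    obtain ⟨i, -, rfl⟩ := List.mem_map.mp hφ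
    refine ⟨dk1_sel_size k d l hl _ fun h => ?_, dk1_sel_below k l _ fun h h7 => ?_⟩
    · rw [dk1_bit]
      split_ifs
      · simp [Fml.size]
      · simp [Fml.size]
      · have := Fml.size_con false
        omega
    · rw [dk1_bit]
      split_ifs
      · show l - 1 - i < l
        omega
      · trivial
      · exact Fml.below_con _ _
  · intro l hl q
    refine ⟨dk1_sel_size k d l hl _ fun h => ?_, dk1_sel_below k l _ fun h h7 => ?_⟩
    · rw [dk1_rd, Fml.size_ite]
      have h1 := Fml.size_con
        (q.1.reverse.getD (l - (se k + (h + 2) ^ (se k ^ 2) + h + 6)) false)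
      have h2 := Fml.size_con
        (decide (l - (se k + (h + 2) ^ (se k ^ 2) + h + 6) < q.1.length))
      simp only [Fml.size]
      omega
    · exact Fml.below_ite (show 2 < l by omega) (Fml.below_con _ _) (Fml.below_con _ _)


end Pool.Agent.ABO
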