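import Pool.Agent.Lib_helper27.ABO.Fm
import Pool.Agent.Lib_helper74.IS.All
import Pool.Agent.Lib_helper27.ABO.B.HD

/-!
# ABO, block DK2: formulas for the stage `k`, inverse questions
-/

set_option autoImplicit false

namespace Pool.Agent.ABO

open Pool.Agent.CK
open Pool.Agent.TD (Str su sj st Act se sm sM sn sD ZSet Z Q unitv Lam KK dd)
open Pool.Agent.TD.IS (PosI Stg uq patchI simI evM icode idec strip ISet posK zs updI PLW PTW
  invTreeW thrX invTab excI LocalWith PolyLocal Cls EL)

/-! ### inverse questions -/

theorem dk2_iset {k l : ℕ} {q : Q k} (h : icode l q.1 ∈ ISet k) (i : ℕ × Bool) :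
    (PosI.inv h.choose ⟨h.choose_spec.choose, h.choose_spec.choose_spec.2.2.2⟩ i :
      PosI (Z k) (Q k) (ℕ × Bool)) = PosI.inv l q i := by
  have h1 := h.choose_spec.choose_spec.1
  have h2 := Option.some.inj (h1.symm.trans (TD.IS.idec_icode l q.1))
  have h3 : h.choose = l := congrArg Prod.fst h2
  have h4 : h.choose_spec.choose = q.1 := congrArg Prod.snd h2
  rw [PosI.inv.injEq]
  exact ⟨h3, Subtype.ext h4, rfl⟩

theorem dk2_pj {k : ℕ} {w : Str} {l : ℕ} {q : Q k} {i : ℕ × Bool} :
    pj k w = some (PosI.inv l q i) ↔ w = true :: taddr (se k + 1) (icode l q.1) i.1 i.2 ∧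
      (sm k ≤ l + 2 ∧ l + 2 < sM k) ∧ sM k ≤ q.1.length := by
  constructor
  · intro h
    match w, h with
    | true :: w, h =>
      have h' : posK k w = some (PosI.inv l q i) := h
      unfold posK at h'
      rcases htd : tdec w with _ | p
      · rw [htd] at h'
        simp at h'
      · rw [htd] at h'
        simp only at h'
        split_ifs at h' with h1 h2
        · simp at h'
        · have h3 := Option.some.inj h'
          rw [PosI.inv.injEq] at h3
          obtain ⟨h4, h5, h6⟩ := h3
          have h7 := h2.2.choose_spec.choose_spec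
          have h5' : h2.2.choose_spec.choose = q.1 := congrArg Subtype.val h5
          rw [h5', h4] at h7
          have h8 := TD.IS.idec_eq h7.1
          have h9 := tdec_eq htd
          refine ⟨?_, h7.2.1, h7.2.2.1⟩
          rw [h9, h2.1, h8, ← h6]
  · rintro ⟨rfl, h1, h2⟩
    show posK k (taddr (se k + 1) (icode l q.1) i.1 i.2) = _
    have hmem : icode l q.1 ∈ ISet k := TD.IS.icode_mem h1.1 h1.2 h2 q.2
    unfold posK
    rw [tdec_taddr]
    simp only
    rw [dif_neg (fun h => by have := h.1; omega), dif_pos ⟨rfl, hmem⟩]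
    congr 1
    exact dk2_iset hmem i

/-! ### positions -/

theorem dk2_range (A z : Str) (m : ℕ) (hm : m ≤ z.length) :
    (List.range' A.length m).map (fun i => (A ++ z).getD i false) = z.take m := by
  apply List.ext_getElem
  · simp [hm]
  · intro i h1 h2
    rw [List.length_map, List.length_range'] at h1
    rw [List.getElem_map, List.getElem_range', List.getElem_take, List.getD_eq_getElem?_getD,
      List.getElem?_append_right (by omega)]
    have h3 : A.length + 1 * i - A.length = i := by omega
    rw [h3, List.getElem?_eq_getElem (by omega)]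
    rfl

theorem dk2_taddr (e : ℕ) (z : Str) (b : ℕ) (c : Bool) :
    ∃ A : Str, true :: taddr e z b c = A ++ z :=
  ⟨true :: true :: c :: (ones b ++ false :: (ones e ++ false :: (ones (alen e z) ++ [false]))),
    by simp [taddr]⟩

/-- the last bits of an address -/
theorem dk2_last {e : ℕ} {z : Str} {b : ℕ} {c : Bool} {L m : ℕ}
    (hL : (true :: taddr e z b c).length = L) (hm : m ≤ z.length) :
    (List.range' (L - z.length) m).map (fun i => (true :: taddr e z b c).getD i false) =
      z.take m := by
  obtain ⟨A, hA⟩ := dk2_taddr e z b c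
  rw [hA] at hL ⊢
  have : L - z.length = A.length := by
    rw [← hL, List.length_append]
    omega
  rw [this]
  exact dk2_range A z m hm

theorem dk2_icode (l : ℕ) (q : Str) : (icode l q).take (l + 1) = ones l ++ [false] := by
  unfold icode
  rw [List.take_append]
  simp [ones]

theorem dk2_of_take {l : ℕ} {z : Str} (h : z.take (l + 1) = ones l ++ [false]) :
    z = icode l (z.drop (l + 1)) := by
  conv_lhs => rw [← List.take_append_drop (l + 1) z, h]
  unfold icode
  simp

/-! ### the header formula -/

/-- the string of length `L` is an address of an entry of index `e` and length `h` -/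
noncomputable def dk2_hdr (e h L : ℕ) : Fml := (exists_hdr e h L).choose

theorem dk2_hdr_size (e h L : ℕ) : (dk2_hdr e h L).size ≤ 6 * L + 10 :=
  (exists_hdr e h L).choose_spec.1

theorem dk2_hdr_below (e h L : ℕ) : (dk2_hdr e h L).Below L :=
  (exists_hdr e h L).choose_spec.2.1

theorem dk2_hdr_eval {e h L : ℕ} {w : Str} (hw : w.length = L) :
    (dk2_hdr e h L).eval w = true ↔
      ∃ (z : Str) (b : ℕ) (c : Bool), z.length = h ∧ w = true :: taddr e z b c :=
  (exists_hdr e h L).choose_spec.2.2 w hw

/-- the same for an extended string, if it is an address -/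
theorem dk2_hdr_app {e h L : ℕ} {z : Str} {b : ℕ} {c : Bool} {w U : Str} (hw : w.length = L)
    (he : w = true :: taddr e z b c) :
    (dk2_hdr e h L).eval (w ++ U) = true ↔ z.length = h := by
  rw [Fml.eval_append (by rw [hw]; exact dk2_hdr_below e h L), dk2_hdr_eval hw]
  constructor
  · rintro ⟨z', b', c', h1, h2⟩
    rw [he] at h2
    have h3 := addr_taddr_inj (List.cons.inj h2).2
    rw [h3.2.1]
    exact h1
  · intro h1
    exact ⟨z, b, c, h1, he⟩

theorem dk2_any {α : Type} (l : List α) (f : α → Fml) (W : List Bool) :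
    (Fml.any (l.map f)).eval W = true ↔ ∃ a ∈ l, (f a).eval W = true := by
  rw [Fml.eval_any, List.any_map, List.any_eq_true]
  rfl

/-- the size of a disjunction -/
theorem dk2_any_size {α : Type} (l : List α) (f : α → Fml) (m N : ℕ) (hN : l.length ≤ N)
    (h : ∀ a ∈ l, (f a).size ≤ m) : (Fml.any (l.map f)).size ≤ N * (m + 5) + 3 := by
  have h1 := Fml.size_any (l.map f) m (by
    intro φ hφ
    obtain ⟨a, ha, rfl⟩ := List.mem_map.1 hφ
    exact h a ha)
  rw [List.length_map] at h1
  exact h1.trans (by
    have := Nat.mul_le_mul_right (m + 5) hN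
    omega)

theorem dk2_any_below {α : Type} (l : List α) (f : α → Fml) (t : ℕ)
    (h : ∀ a ∈ l, (f a).Below t) : (Fml.any (l.map f)).Below t := by
  apply Fml.below_any
  intro φ hφ
  obtain ⟨a, ha, rfl⟩ := List.mem_map.1 hφ
  exact h a ha

/-! ### inverse question? -/

/-- the string is an inverse question for entries of length `l`, and the length of its code is `h` -/
noncomputable def dk2_inv1 (k L h l : ℕ) : Fml :=
  if (sm k ≤ l + 2 ∧ l + 2 < sM k) ∧ l + 1 ≤ h ∧ h ≤ L ∧ sM k ≤ h - (l + 1) ∧
      h - (l + 1) ≤ TD.qb k then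
    Fml.and (dk2_hdr (se k + 1) h L)
      (Fml.eqC (List.range' (L - h) (l + 1)) (ones l ++ [false]))
  else Fml.con false

noncomputable def dk2_inv (k d L : ℕ) : Fml :=
  Fml.any ((List.range (d + 1)).map fun h => Fml.any ((List.range (sM k)).map fun l =>
    dk2_inv1 k L h l))

theorem dk2_inv_eval {k d : ℕ} {w : Str} (hw : w.length ≤ d) :
    (dk2_inv k d w.length).eval w = true ↔ ∃ l q i, pj k w = some (PosI.inv l q i) := by
  unfold dk2_inv
  rw [dk2_any]
  constructor
  · rintro ⟨h, -, h2⟩
    rw [dk2_any] at h2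
    obtain ⟨l, -, h3⟩ := h2
    unfold dk2_inv1 at h3
    split_ifs at h3 with hc
    · rw [Fml.eval_and, Bool.and_eq_true, dk2_hdr_eval rfl, Fml.eval_eqC _ _ _ (by simp [ones])]
        at h3
      obtain ⟨⟨z, b, c, hz, he⟩, h4⟩ := h3
      subst hz
      rw [he, dk2_last rfl hc.2.1] at h4
      have h5 := dk2_of_take h4
      refine ⟨l, ⟨z.drop (l + 1), by rw [List.length_drop]; exact hc.2.2.2.2⟩, (b, c), ?_⟩
      rw [dk2_pj]
      refine ⟨?_, hc.1, ?_⟩
      · show w = true :: taddr (se k + 1) (icode l (z.drop (l + 1))) b c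
        rw [← h5]
        exact he
      · show sM k ≤ (z.drop (l + 1)).length
        rw [List.length_drop]
        exact hc.2.2.2.1
    · simp at h3
  · rintro ⟨l, q, i, hp⟩
    rw [dk2_pj] at hp
    obtain ⟨he, h1, h2⟩ := hp
    have hlen : (icode l q.1).length ≤ w.length := by
      obtain ⟨A, hA⟩ := dk2_taddr (se k + 1) (icode l q.1) i.1 i.2
      rw [he, hA, List.length_append]
      omega
    have hic := TD.IS.icode_length l q.1
    refine ⟨(icode l q.1).length, List.mem_range.2 (by omega), ?_⟩
    rw [dk2_any]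
    refine ⟨l, List.mem_range.2 (by omega), ?_⟩
    unfold dk2_inv1
    rw [if_pos ⟨h1, by omega, hlen, by rw [hic]; omega, by rw [hic]; have := q.2; omega⟩,
      Fml.eval_and, Bool.and_eq_true, dk2_hdr_eval rfl, Fml.eval_eqC _ _ _ (by simp [ones])]
    refine ⟨⟨icode l q.1, i.1, i.2, rfl, he⟩, ?_⟩
    rw [he, dk2_last rfl (by rw [hic]; omega)]
    exact dk2_icode l q.1

theorem dk2_inv_size {k d L : ℕ} (hL : L ≤ d) :
    (dk2_inv k d L).size ≤ 256 * (d + sM k + 1) ^ 3 ∧ (dk2_inv k d L).Below L := by
  constructor
  · have h1 : ∀ h l : ℕ, l < sM k → (dk2_inv1 k L h l).size ≤ 6 * (d + sM k + 1) + 20 := by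
      intro h l hl
      unfold dk2_inv1
      split_ifs with hc
      · rw [Fml.size_and]
        have h2 := dk2_hdr_size (se k + 1) h L
        have h3 := Fml.size_eqC (List.range' (L - h) (l + 1)) (ones l ++ [false])
        rw [List.length_range'] at h3
        omega
      · have := Fml.size_con false
        omega
    have h2 : ∀ h : ℕ, (Fml.any ((List.range (sM k)).map fun l => dk2_inv1 k L h l)).size ≤
        sM k * (6 * (d + sM k + 1) + 20 + 5) + 3 := fun h =>
      dk2_any_size _ _ _ _ (by simp) fun l hl => h1 h l (List.mem_range.1 hl)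
    have h3 : (dk2_inv k d L).size ≤
        (d + 1) * (sM k * (6 * (d + sM k + 1) + 20 + 5) + 3 + 5) + 3 :=
      dk2_any_size _ _ _ _ (by simp) fun h _ => h2 h
    refine h3.trans ?_
    set x := d + sM k + 1 with hx
    have a1 : d + 1 ≤ x := by omega
    have a2 : sM k ≤ x := by omega
    have a3 : 1 ≤ x := by omega
    have a4 : 1 ≤ x ^ 2 := Nat.one_le_pow _ _ a3
    have a5 : 1 ≤ x ^ 3 := Nat.one_le_pow _ _ a3
    calc (d + 1) * (sM k * (6 * x + 20 + 5) + 3 + 5) + 3
        ≤ x * (x * (31 * x) + 8 * x ^ 2) + 3 * x ^ 3 := by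
          have b1 : sM k * (6 * x + 20 + 5) ≤ x * (31 * x) := Nat.mul_le_mul a2 (by omega)
          have b2 : sM k * (6 * x + 20 + 5) + 3 + 5 ≤ x * (31 * x) + 8 * x ^ 2 := by omega
          have b3 := Nat.mul_le_mul a1 b2
          omega
      _ = 42 * x ^ 3 := by ring
      _ ≤ 256 * x ^ 3 := by omega
  · apply dk2_any_below
    intro h _
    apply dk2_any_below
    intro l _
    unfold dk2_inv1
    split_ifs with hc
    · apply Fml.below_and (dk2_hdr_below _ _ _)
      apply Fml.below_eqC
      intro i hi
      rw [List.mem_range'_1] at hi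
      omega
    · exact Fml.below_con _ _

/-! ### the code of the entry -/

theorem dk2_cd_len {k : ℕ} (z : Z k) : (cdJ k z).length = sM k := by
  have h := z.2.2
  unfold cdJ
  simp
  omega

theorem dk2_cd_get {k : ℕ} (z : Z k) (j : ℕ) :
    (cdJ k z).getD j false = if j < z.1.length then z.1.reverse.getD j false
      else decide (j = z.1.length) := by
  unfold cdJ
  rw [List.getD_eq_getElem?_getD]
  by_cases h : j < z.1.length
  · rw [if_pos h, List.getElem?_append_left (by simpa using h), List.getD_eq_getElem?_getD]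
  · rw [if_neg h, List.getElem?_append_right (by simpa using h), List.length_reverse]
    by_cases h2 : j = z.1.length
    · subst h2
      simp
    · obtain ⟨m, hm⟩ : ∃ m, j - z.1.length = m + 1 := ⟨j - z.1.length - 1, by omega⟩
      rw [hm, List.getElem?_cons_succ, List.getElem?_replicate]
      split_ifs <;> simp [h2]

/-- bits of the extended string -/
theorem dk2_app_get {w U : Str} (j : ℕ) : (w ++ U).getD (w.length + j) false = U.getD j false := by
  rw [List.getD_eq_getElem?_getD, List.getElem?_append_right (by omega),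
    List.getD_eq_getElem?_getD]
  congr 2
  omega

/-! ### the match -/

noncomputable def dk2_mat1 (k L : ℕ) (q : Q k) (l : ℕ) : Fml :=
  if l + 1 + q.1.length ≤ L ∧ l + 2 < sM k then
    Fml.and (dk2_hdr (se k + 1) (l + 1 + q.1.length) L)
      (Fml.and (Fml.eqC (List.range' (L - (l + 1 + q.1.length)) (l + 1 + q.1.length))
        (icode l q.1))
        (Fml.eqC (List.range' (L + l) (sM k - l)) (true :: List.replicate (sM k - 1 - l) false)))
  else Fml.con false

noncomputable def dk2_mat (k L : ℕ) (q : Q k) : Fml :=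
  Fml.any ((List.range (sM k)).map fun l => dk2_mat1 k L q l)

/-- the last `1` of the code -/
theorem dk2_code {k : ℕ} (z : Z k) (w : Str) {l : ℕ} (hl : l + 2 < sM k) :
    (List.range' (w.length + l) (sM k - l)).map (fun i => (w ++ cdJ k z).getD i false) =
      true :: List.replicate (sM k - 1 - l) false ↔ z.1.length = l := by
  have key : ∀ j, (w ++ cdJ k z).getD (w.length + l + j) false =
      if l + j < z.1.length then z.1.reverse.getD (l + j) false
      else decide (l + j = z.1.length) := by
    intro j
    rw [show w.length + l + j = w.length + (l + j) by omega, dk2_app_get, dk2_cd_get]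
  constructor
  · intro h
    -- bit `l` is `1`, the later bits are `0`
    have h0 : (w ++ cdJ k z).getD (w.length + l + 0) false = true := by
      have := congrArg (fun L => L[0]?) h
      simp only [List.getElem?_map, List.getElem?_cons_zero] at this
      rw [List.getElem?_range' (by omega)] at this
      simpa using this
    have hj : ∀ j, 0 < j → l + j < sM k → (w ++ cdJ k z).getD (w.length + l + j) false = false := by
      intro j hj0 hj1
      have := congrArg (fun L => L[j]?) h
      simp only [List.getElem?_map] at this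
      rw [List.getElem?_range' (by omega)] at this
      obtain ⟨m, rfl⟩ : ∃ m, j = m + 1 := ⟨j - 1, by omega⟩
      rw [List.getElem?_cons_succ, List.getElem?_replicate, if_pos (by omega)] at this
      simpa using this
    rw [key] at h0
    by_contra hne
    rcases Nat.lt_or_ge l z.1.length with hlt | hge
    · have h1 := hj (z.1.length - l) (by omega) (by have := z.2.2; omega)
      rw [key, if_neg (by omega)] at h1
      simp at h1
      omega
    · rw [if_neg (by omega)] at h0
      simp at h0
      omega
  · intro h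
    apply List.ext_getElem?
    intro j
    by_cases hj : j < sM k - l
    · rw [List.getElem?_map, List.getElem?_range' hj]
      simp only [Option.map_some, one_mul]
      rw [key]
      rw [if_neg (by omega), h]
      rcases Nat.eq_zero_or_pos j with rfl | hj0
      · simp
      · obtain ⟨m, rfl⟩ : ∃ m, j = m + 1 := ⟨j - 1, by omega⟩
        rw [List.getElem?_cons_succ, List.getElem?_replicate, if_pos (by omega)]
        simp
    · rw [List.getElem?_eq_none (by simp; omega), List.getElem?_eq_none (by simp; omega)]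

theorem dk2_mat_eval {k : ℕ} {w : Str} {l : ℕ} {q : Q k} {i : ℕ × Bool}
    (hp : pj k w = some (PosI.inv l q i)) (z : Z k) (q' : Q k) :
    (dk2_mat k w.length q').eval (w ++ cdJ k z) = true ↔ z.1.length = l ∧ q' = q := by
  rw [dk2_pj] at hp
  obtain ⟨he, h1, h2⟩ := hp
  have hlen : (icode l q.1).length ≤ w.length := by
    obtain ⟨A, hA⟩ := dk2_taddr (se k + 1) (icode l q.1) i.1 i.2
    rw [he, hA, List.length_append]
    omega
  have hic := TD.IS.icode_length l q.1
  have hlast : (List.range' (w.length - (icode l q.1).length) (icode l q.1).length).map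
      (fun j => (w ++ cdJ k z).getD j false) = icode l q.1 := by
    have h3 := dk2_last (e := se k + 1) (z := icode l q.1) (b := i.1) (c := i.2)
      (m := (icode l q.1).length) (L := w.length) (by rw [← he]) le_rfl
    rw [List.take_length, ← he] at h3
    conv_rhs => rw [← h3]
    apply List.map_congr_left
    intro j hj
    rw [List.mem_range'_1] at hj
    exact Fml.getD_append_lt (by omega)
  unfold dk2_mat
  rw [dk2_any]
  constructor
  · rintro ⟨l', -, h3⟩
    unfold dk2_mat1 at h3
    split_ifs at h3 with hc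
    · rw [Fml.eval_and, Fml.eval_and, Bool.and_eq_true, Bool.and_eq_true,
        dk2_hdr_app rfl he, Fml.eval_eqC _ _ _ (by rw [TD.IS.icode_length, List.length_range']),
        Fml.eval_eqC _ _ _ (by simp; omega)] at h3
      obtain ⟨h4, h5, h6⟩ := h3
      rw [← h4, hlast] at h5
      have h7 := congrArg idec h5
      rw [TD.IS.idec_icode, TD.IS.idec_icode] at h7
      have h8 := Option.some.inj h7
      have h9 : l = l' := congrArg Prod.fst h8
      have h10 : q.1 = q'.1 := congrArg Prod.snd h8
      rw [dk2_code z w hc.2] at h6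
      exact ⟨h6.trans h9.symm, (Subtype.ext h10).symm⟩
    · simp at h3
  · rintro ⟨h3, rfl⟩
    refine ⟨l, List.mem_range.2 (by omega), ?_⟩
    unfold dk2_mat1
    rw [if_pos ⟨by omega, h1.2⟩, Fml.eval_and, Fml.eval_and, Bool.and_eq_true, Bool.and_eq_true,
        dk2_hdr_app rfl he, Fml.eval_eqC _ _ _ (by rw [TD.IS.icode_length, List.length_range']),
        Fml.eval_eqC _ _ _ (by simp; omega)]
    refine ⟨hic, ?_, (dk2_code z w h1.2).2 h3⟩
    rw [← hic]
    exact hlast

theorem dk2_mat_size {k d L : ℕ} (hL : L ≤ d) (q : Q k) :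
    (dk2_mat k L q).size ≤ 256 * (d + sM k + 1) ^ 3 ∧ (dk2_mat k L q).Below (L + sM k) := by
  constructor
  · have h1 : ∀ l : ℕ, l < sM k → (dk2_mat1 k L q l).size ≤ 12 * (d + sM k + 1) + 20 := by
      intro l hl
      unfold dk2_mat1
      split_ifs with hc
      · rw [Fml.size_and, Fml.size_and]
        have h2 := dk2_hdr_size (se k + 1) (l + 1 + q.1.length) L
        have h3 := Fml.size_eqC (List.range' (L - (l + 1 + q.1.length)) (l + 1 + q.1.length))
          (icode l q.1)
        have h4 := Fml.size_eqC (List.range' (L + l) (sM k - l))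
          (true :: List.replicate (sM k - 1 - l) false)
        rw [List.length_range'] at h3 h4
        omega
      · have := Fml.size_con false
        omega
    have h3 : (dk2_mat k L q).size ≤ sM k * (12 * (d + sM k + 1) + 20 + 5) + 3 :=
      dk2_any_size _ _ _ _ (by simp) fun l hl => h1 l (List.mem_range.1 hl)
    refine h3.trans ?_
    set x := d + sM k + 1 with hx
    have a2 : sM k ≤ x := by omega
    have a3 : 1 ≤ x := by omega
    have a4 : x ^ 2 ≤ x ^ 3 := Nat.pow_le_pow_right a3 (by norm_num)
    have a5 : 1 ≤ x ^ 3 := Nat.one_le_pow _ _ a3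
    have b1 : sM k * (12 * x + 20 + 5) ≤ x * (37 * x) := Nat.mul_le_mul a2 (by omega)
    have b2 : x * (37 * x) = 37 * x ^ 2 := by ring
    omega
  · apply dk2_any_below
    intro l _
    unfold dk2_mat1
    split_ifs with hc
    · refine Fml.below_and ((dk2_hdr_below _ _ _).mono (by omega)) (Fml.below_and ?_ ?_)
      · apply Fml.below_eqC
        intro i hi
        rw [List.mem_range'_1] at hi
        omega
      · apply Fml.below_eqC
        intro i hi
        rw [List.mem_range'_1] at hi
        omega
    · exact Fml.below_con _ _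

/-! ### the answer -/

/-- the number of the bit in an address of length `L`, for entries of length `h` -/
def dk2_b (k L h : ℕ) : ℕ := L - (se k + 1 + (h + 2) ^ ((se k + 1) ^ 2) + h + 6)

noncomputable def dk2_rz1 (k L h : ℕ) : Fml :=
  if se k + 1 + (h + 2) ^ ((se k + 1) ^ 2) + h + 6 ≤ L ∧ dk2_b k L h < sM k then
    Fml.and (dk2_hdr (se k + 1) h L)
      (Fml.and (Fml.ite (Fml.var 2) (Fml.var (L + dk2_b k L h)) Fml.tru)
        (Fml.any ((List.range' (dk2_b k L h + 1) (sM k - 1 - dk2_b k L h)).map
          fun j => Fml.var (L + j))))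
  else Fml.con false

noncomputable def dk2_rz (k d L : ℕ) : Fml :=
  Fml.any ((List.range (d + 1)).map fun h => dk2_rz1 k L h)

theorem dk2_rz_eval {k d : ℕ} {w : Str} (hw : w.length ≤ d) {l : ℕ} {q : Q k} {i : ℕ × Bool}
    (hp : pj k w = some (PosI.inv l q i)) (z : Z k) :
    (dk2_rz k d w.length).eval (w ++ cdJ k z) = bit z.1 i := by
  rw [dk2_pj] at hp
  obtain ⟨he, h1, h2⟩ := hp
  obtain ⟨hp1, hp2, -⟩ := taddr_parts (se k + 1) (icode l q.1) i.1 i.2
  rw [← he] at hp1 hp2
  set h₀ := (icode l q.1).length with hh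
  have hb : dk2_b k w.length h₀ = i.1 := by
    unfold dk2_b
    omega
  have hz2 := z.2.2
  -- the later bits
  have hlater : (∃ j ∈ List.range' (i.1 + 1) (sM k - 1 - i.1),
      (Fml.var (w.length + j)).eval (w ++ cdJ k z) = true) ↔ i.1 < z.1.length := by
    constructor
    · rintro ⟨j, hj, h3⟩
      rw [List.mem_range'_1] at hj
      have h4 : (w ++ cdJ k z).getD (w.length + j) false = true := h3
      rw [dk2_app_get, dk2_cd_get] at h4
      by_contra hcon
      rw [if_neg (by omega)] at h4
      simp at h4
      omega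
    · intro h3
      refine ⟨z.1.length, ?_, ?_⟩
      · rw [List.mem_range'_1]
        omega
      · show (w ++ cdJ k z).getD (w.length + z.1.length) false = true
        rw [dk2_app_get, dk2_cd_get, if_neg (lt_irrefl _)]
        simp
  have hbit : bit z.1 i = true ↔ i.1 < z.1.length ∧
      (i.2 = true → z.1.reverse.getD i.1 false = true) := by
    unfold bit
    rcases hi : i.2 with _ | _
    · simp
    · rw [if_pos rfl]
      constructor
      · intro h3
        refine ⟨?_, fun _ => h3⟩
        by_contra hcon
        rw [List.getD_eq_getElem?_getD, List.getElem?_eq_none (by simp; omega)] at h3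
        simp at h3
      · intro h3
        exact h3.2 rfl
  rw [Bool.eq_iff_iff, hbit]
  unfold dk2_rz
  rw [dk2_any]
  constructor
  · rintro ⟨h, -, h3⟩
    unfold dk2_rz1 at h3
    split_ifs at h3 with hc
    · rw [Fml.eval_and, Fml.eval_and, Bool.and_eq_true, Bool.and_eq_true,
        dk2_hdr_app rfl he] at h3
      obtain ⟨h4, h5, h6⟩ := h3
      rw [← h4, ← hh, hb] at h5 h6
      rw [dk2_any, hlater] at h6
      refine ⟨h6, fun hi => ?_⟩
      have h7 : (Fml.var 2).eval (w ++ cdJ k z) = true := by
        show (w ++ cdJ k z).getD 2 false = true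
        rw [Fml.getD_append_lt (by omega), hp2, hi]
      rw [Fml.eval_ite, if_pos h7] at h5
      have h8 : (w ++ cdJ k z).getD (w.length + i.1) false = true := h5
      rw [dk2_app_get, dk2_cd_get, if_pos h6] at h8
      exact h8
    · simp at h3
  · rintro ⟨h3, h4⟩
    refine ⟨h₀, List.mem_range.2 (by omega), ?_⟩
    unfold dk2_rz1
    rw [if_pos ⟨by omega, by omega⟩, Fml.eval_and, Fml.eval_and, Bool.and_eq_true,
      Bool.and_eq_true, dk2_hdr_app rfl he, hb]
    refine ⟨hh.symm, ?_, ?_⟩
    · rw [Fml.eval_ite]
      split_ifs with h5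
      · show (w ++ cdJ k z).getD (w.length + i.1) false = true
        rw [dk2_app_get, dk2_cd_get, if_pos h3]
        apply h4
        have h6 : (w ++ cdJ k z).getD 2 false = true := h5
        rwa [Fml.getD_append_lt (by omega), hp2] at h6
      · rfl
    · rw [dk2_any, hlater]
      exact h3

theorem dk2_rz_size {k d L : ℕ} (hL : L ≤ d) :
    (dk2_rz k d L).size ≤ 256 * (d + sM k + 1) ^ 3 ∧ (dk2_rz k d L).Below (L + sM k) := by
  constructor
  · have h1 : ∀ h : ℕ, (dk2_rz1 k L h).size ≤ 12 * (d + sM k + 1) + 40 := by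
      intro h
      unfold dk2_rz1
      split_ifs with hc
      · rw [Fml.size_and, Fml.size_and, Fml.size_ite]
        have h2 := dk2_hdr_size (se k + 1) h L
        have h3 := dk2_any_size (List.range' (dk2_b k L h + 1) (sM k - 1 - dk2_b k L h))
          (fun j => Fml.var (L + j)) 1 (sM k) (by rw [List.length_range']; omega)
          (fun j _ => le_refl 1)
        simp only [Fml.size] at h3 ⊢
        omega
      · have := Fml.size_con false
        omega
    have h3 : (dk2_rz k d L).size ≤ (d + 1) * (12 * (d + sM k + 1) + 40 + 5) + 3 :=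
      dk2_any_size _ _ _ _ (by simp) fun h _ => h1 h
    refine h3.trans ?_
    set x := d + sM k + 1 with hx
    have a2 : d + 1 ≤ x := by omega
    have a3 : 1 ≤ x := by omega
    have a4 : x ^ 2 ≤ x ^ 3 := Nat.pow_le_pow_right a3 (by norm_num)
    have a5 : 1 ≤ x ^ 3 := Nat.one_le_pow _ _ a3
    have b1 : (d + 1) * (12 * x + 40 + 5) ≤ x * (57 * x) := Nat.mul_le_mul a2 (by omega)
    have b2 : x * (57 * x) = 57 * x ^ 2 := by ring
    omega
  · apply dk2_any_below
    intro h _
    unfold dk2_rz1
    split_ifs with hc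
    · refine Fml.below_and ((dk2_hdr_below _ _ _).mono (by omega))
        (Fml.below_and (Fml.below_ite ?_ ?_ trivial) ?_)
      · show 2 < L + sM k
        omega
      · show L + dk2_b k L h < L + sM k
        omega
      · apply dk2_any_below
        intro j hj
        rw [List.mem_range'_1] at hj
        show L + j < L + sM k
        omega
    · exact Fml.below_con _ _

theorem exists_invJ (k d : ℕ) : ∃ (invF : ℕ → Fml) (matF : ℕ → Q k → Fml) (rzF : ℕ → Fml),
    (∀ w : Str, w.length ≤ d →
      ((invF w.length).eval w = true ↔ ∃ l q i, pj k w = some (PosI.inv l q i))) ∧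
    (∀ w : Str, w.length ≤ d → ∀ l q i, pj k w = some (PosI.inv l q i) → ∀ (z : Z k) (q' : Q k),
      ((matF w.length q').eval (w ++ cdJ k z) = true ↔ z.1.length = l ∧ q' = q)) ∧
    (∀ w : Str, w.length ≤ d → ∀ l q i, pj k w = some (PosI.inv l q i) → ∀ z : Z k,
      (rzF w.length).eval (w ++ cdJ k z) = bit z.1 i) ∧
    (∀ l ≤ d, (invF l).size ≤ 256 * (d + sM k + 1) ^ 3 ∧ (invF l).Below l) ∧
    (∀ l ≤ d, ∀ q, (matF l q).size ≤ 256 * (d + sM k + 1) ^ 3 ∧ (matF l q).Below (l + sM k)) ∧
    (∀ l ≤ d, (rzF l).size ≤ 256 * (d + sM k + 1) ^ 3 ∧ (rzF l).Below (l + sM k)) :=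
  ⟨dk2_inv k d, dk2_mat k, dk2_rz k d, fun _ hw => dk2_inv_eval hw,
    fun _ _ _ _ _ hp z q' => dk2_mat_eval hp z q', fun _ hw _ _ _ hp z => dk2_rz_eval hw hp z,
    fun _ hl => dk2_inv_size hl, fun _ hl q => dk2_mat_size hl q, fun _ hl => dk2_rz_size hl⟩


end Pool.Agent.ABO
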