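import Pool.Agent.Lib_helper27.ABO.Fm
import Pool.Agent.Lib_helper74.IS.All
import Pool.Agent.Lib_helper27.ABO.B.DK1
import Pool.Agent.Lib_helper27.ABO.B.DK2

/-! ABO, block DJ -/

set_option autoImplicit false

namespace Pool.Agent.ABO

open Pool.Agent.CK
open Pool.Agent.TD (Str su sj st Act se sm sM sn sD ZSet Z Q unitv Lam KK dd)
open Pool.Agent.TD.IS (PosI Stg uq patchI simI evM icode idec strip ISet posK zs updI PLW PTW
  invTreeW thrX invTab excI LocalWith PolyLocal Cls EL)

theorem dj_rep : ∀ (a b : ℕ) (x y : List Bool),
    List.replicate a false ++ true :: x = List.replicate b false ++ true :: y → x = y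
  | 0, 0, x, y, h => by simpa using h
  | 0, b + 1, x, y, h => by simp [List.replicate_succ] at h
  | a + 1, 0, x, y, h => by simp [List.replicate_succ] at h
  | a + 1, b + 1, x, y, h => by
    refine dj_rep a b x y ?_
    simpa [List.replicate_succ] using h

theorem dj_len (k : ℕ) (z : Z k) : (cdJ k z).length = sM k := by
  have h := z.2
  have h2 : z.1.length + 2 < sM k := h.2
  unfold cdJ
  simp only [List.length_append, List.length_reverse, List.length_cons, List.length_replicate]
  omega

theorem dj_inj (k : ℕ) (z z' : Z k) (h : cdJ k z' = cdJ k z) : z' = z := by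
  unfold cdJ at h
  have h1 := congrArg List.reverse h
  simp only [List.reverse_append, List.reverse_cons, List.reverse_reverse, List.reverse_replicate,
    List.append_assoc, List.cons_append, List.nil_append] at h1
  exact Subtype.ext (dj_rep _ _ _ _ h1)

theorem dj_bit (i : ℕ × Bool) : bit [] i = false := by
  unfold bit
  split_ifs <;> simp

theorem exists_descJ (k d : ℕ) :
    Nonempty (Desc (stgJ k) d (256 * (d + sM k + 1) ^ 3) (sM k)) := by
  obtain ⟨dirF, rep, rdF, h1, h2, h3, h4, h5, h6, h7⟩ := exists_dirJ k d
  obtain ⟨invF, matF, rzF, g1, g2, g3, g4, g5, g6⟩ := exists_invJ k d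
  refine ⟨{
    dirF := dirF
    invF := invF
    rep := rep
    rdF := rdF
    matF := matF
    rzF := rzF
    rz0F := fun _ => Fml.con false
    code := cdJ k
    inj := fun w _ z i _ z' h => dj_inj k z z' h
    code_len := dj_len k
    rep_len := h2
    dirF_eval := h1
    invF_eval := g1
    rep_eval := h3
    rdF_eval := h4
    matF_eval := g2
    rzF_eval := g3
    rz0F_eval := ?_
    dirF_size := h5
    invF_size := g4
    rep_size := h6
    rdF_size := h7
    matF_size := g5
    rzF_size := g6
    rz0F_size := ?_ }⟩
  · intro w _ l q i _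
    show (Fml.con false).eval w = bit [] i
    rw [Fml.eval_con, dj_bit]
  · intro l _
    refine ⟨(Fml.size_con false).trans ?_, Fml.below_con _ _⟩
    have : 1 ≤ (d + sM k + 1) ^ 3 := Nat.one_le_pow _ _ (by omega)
    omega

end Pool.Agent.ABO

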