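import Pool.Agent.Lib_helper27.ABO.Fm
import Pool.Agent.Lib_helper74.IS.All

/-!
# ABO, block GF1: reading tables
-/

set_option autoImplicit false

namespace Pool.Agent.ABO

open Pool.Agent.CK
open Pool.Agent.TD (Str su sj st Act se sm sM sn sD ZSet Z Q unitv Lam KK dd)
open Pool.Agent.TD.IS (PosI Stg uq patchI simI evM icode idec strip ISet posK zs updI PLW PTW
  invTreeW thrX invTab excI LocalWith PolyLocal Cls EL)

section lift

open Pool.Agent.CKP

/-- the program that asks only the second part of a joined oracle -/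
def gf1_lift : Cmd → Cmd
  | .skip => .skip
  | .push r b => .push r b
  | .pop r => .pop r
  | .seq p q => .seq (gf1_lift p) (gf1_lift q)
  | .cond r p q s => .cond r (gf1_lift p) (gf1_lift q) (gf1_lift s)
  | .loop r p => .loop r (gf1_lift p)
  | .ask r p q => .seq (.push r true) (.ask r (.seq (.pop r) (gf1_lift p))
      (.seq (.pop r) (gf1_lift q)))

theorem gf1_lift_bdd {m : ℕ} : ∀ {p : Cmd}, CKP.Bdd m p → CKP.Bdd m (gf1_lift p)
  | .skip, _ => trivial
  | .push _ _, h => h
  | .pop _, h => h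
  | .seq _ _, h => ⟨gf1_lift_bdd h.1, gf1_lift_bdd h.2⟩
  | .cond _ _ _ _, h => ⟨h.1, gf1_lift_bdd h.2.1, gf1_lift_bdd h.2.2.1, gf1_lift_bdd h.2.2.2⟩
  | .loop _ _, h => ⟨h.1, gf1_lift_bdd h.2⟩
  | .ask _ _ _, h => ⟨h.1, h.1, ⟨h.1, gf1_lift_bdd h.2.1⟩, ⟨h.1, gf1_lift_bdd h.2.2⟩⟩

theorem gf1_lift_ex {O B : Lang} {p : Cmd} {σ σ' : Store} {t : ℕ} (h : Exec B p σ σ' t) :
    Ex (join O B) (gf1_lift p) σ σ' (6 * t) := by
  induction h with
  | skip σ => exact (Ex.skip σ).mono (by omega)
  | push r b σ => exact (Ex.push r b σ).mono (by omega)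
  | pop r σ => exact (Ex.pop r σ).mono (by omega)
  | seq _ _ ih1 ih2 => exact (ih1.seq ih2).mono (by omega)
  | loop_nil hr => exact (Ex.loop_nil hr).mono (by omega)
  | loop_cons hr _ _ ih1 ih2 => exact (Ex.loop_cons hr ih1 ih2).mono (by omega)
  | case_nil hr _ ih => exact (Ex.case_nil hr ih).mono (by omega)
  | @case_false r p0 pf pt σ σ' t hr _ ih =>
    obtain ⟨l, hl⟩ : ∃ l, σ r = false :: l := by
      cases h : σ r with
      | nil => simp [h] at hr
      | cons a l => simp [h] at hr; exact ⟨l, by rw [hr]⟩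
    exact (Ex.case_false hl ih).mono (by omega)
  | @case_true r p0 pf pt σ σ' t hr _ ih =>
    obtain ⟨l, hl⟩ : ∃ l, σ r = true :: l := by
      cases h : σ r with
      | nil => simp [h] at hr
      | cons a l => simp [h] at hr; exact ⟨l, by rw [hr]⟩
    exact (Ex.case_true hl ih).mono (by omega)
  | @ask_false r pf pt σ σ' t hr _ ih =>
    have e1 := Ex.push (O := join O B) r true σ
    have e2 : Ex (join O B) (.pop r) (Function.update σ r (true :: σ r)) σ 1 := by
      refine (Ex.pop r _).cast ?_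
      simp
    refine (e1.seq (Ex.ask_false ?_ (e2.seq ih))).mono (by omega)
    simpa [join] using hr
  | @ask_true r pf pt σ σ' t hr _ ih =>
    have e1 := Ex.push (O := join O B) r true σ
    have e2 : Ex (join O B) (.pop r) (Function.update σ r (true :: σ r)) σ 1 := by
      refine (Ex.pop r _).cast ?_
      simp
    refine (e1.seq (Ex.ask_true ?_ (e2.seq ih))).mono (by omega)
    simpa [join] using hr

/-- Polynomial time with oracle `B` is polynomial time with oracle `O ⊕ B`. -/
theorem gf1_ptime {α β : Type} [ToD α] [ToD β] {O B : Lang} {f : α → β} (hf : PTime B f) :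
    PTime (join O B) f := by
  obtain ⟨F, ⟨p, m, P, hp, hm, h⟩, hF⟩ := hf
  refine ⟨F, CD.mk (gf1_lift p) m (6 * P) (gf1_lift_bdd hp) hm (fun x σ hx h0 he => ?_), hF⟩
  obtain ⟨t, ht, hex⟩ := h x σ hx h0 he
  refine (gf1_lift_ex hex).mono ?_
  simp only [Polynomial.eval_mul, Polynomial.eval_ofNat]
  omega

end lift

/-- GF1: programs with oracle `B` as programs with oracle `join O B` (as `CKP.liftP`) -/
theorem inFP_right {O B : Lang} {f : Str → Str} (hf : InFP B f) : InFP (join O B) f :=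
  CKP.inFP_of (gf1_ptime (CKP.ptime_of_inFP hf))

theorem gf1_orc (S : Sec) (Tab : ℕ → Str → Str) (e : ℕ) (he : 6 ≤ e) (z : Str) (b : ℕ)
    (c : Bool) : orc S Tab (taddr e z b c) = bit (Tab e z) (b, c) := by
  unfold orc
  rw [tdec_taddr]
  show bit (val S Tab e z) (b, c) = _
  unfold val
  rw [if_neg (by omega)]

/-- GF1: as `TD.col_read` -/
theorem read_J (R : Lang) (S : Sec) (Tab : ℕ → Str → Str)
    (hlen : ∀ e z, (Tab e z).length ≤ alen e z) (e : ℕ) (he : 6 ≤ e) :
    InFP (OJ R S Tab) (Tab e) :=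
  inFP_right (inFP_read (orc S Tab) e (Tab e) (hlen e) (fun z b c => gf1_orc S Tab e he z b c))


end Pool.Agent.ABO
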