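import Pool.Agent.Lib_helper27.ABO.Fm
import Pool.Agent.Lib_helper74.IS.All

set_option autoImplicit false

namespace Pool.Agent.ABO

open Pool.Agent.CK
open Pool.Agent.TD (Str su sj st Act se sm sM sn sD ZSet Z Q unitv Lam KK dd)
open Pool.Agent.TD.IS (PosI Stg uq patchI simI evM icode idec strip ISet posK zs updI PLW PTW
  invTreeW thrX invTab excI LocalWith PolyLocal Cls EL)

theorem gf2_len (S : Sec) (e : ℕ) (k : ℕ) (hk : sj k = e) {O : Lang} {F : ℕ → Lang → Lang} {C : Lang}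
    (hC : EL F (iC e) O = C) {i : ℕ} (hi : iM e = i)
    (h : ∀ n, ∃ w : Str, w.length ≤ (n + 2) ^ ex i ∧
      ∀ x : Str, x.length = n → PLW i w (join O C) x = VV S x) : CorrW F S k O := by
  obtain ⟨w, hw, h2⟩ := h (2 * sn k)
  refine ⟨w, hw.trans (le_trans (Nat.pow_le_pow_left (by omega) _)
    (Nat.pow_le_pow_right (n := 3 * sn k + 2) (by omega) ?_)), ?_⟩
  · have := TD.hpr_ex_le k
    rw [hk, hi] at this
    omega
  · intro x j hj
    rw [hk, hi, hC]
    apply h2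
    rw [List.length_append, x.2, TD.unitv_length]
    ring

/-- R3: what the goals say -/
theorem goals_facts {F : ℕ → Lang → Lang} (hF : ∀ i, PolyLocal (F i)) {S : Sec}
    {Tab : ℕ → Str → Str} {O : Lang} (t0 : ℕ → ℕ)
    (hgoal : ∀ k, Act t0 k → Goal F S k O Tab) {A C : Lang}
    (hC : Cls F O C) (hT : TD.IS.NonuniformTuringReducible O (VV S) C) (hA : Cls F O A) :
    ∃ e m0 : ℕ, 6 ≤ e ∧
      (∀ z z' : Str, m0 ≤ z.length → m0 ≤ z'.length → Tab e z = Tab e z' → z = z') ∧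
      (∀ z : Str, m0 ≤ z.length → z.length < (Tab e z).length) ∧
      (∀ z : Str, m0 ≤ z.length → Tab (e + 1) (icode z.length (Tab e z)) = z) ∧
      ∀ z : Str, m0 ≤ z.length → C (Tab e z) = A (strip z) := by
  obtain ⟨i, hi⟩ := TD.IS.exists_EL hF hC
  obtain ⟨l, hl⟩ := TD.IS.exists_EL_strip hF hA
  obtain ⟨j, hj⟩ := TD.IS.exists_PLW hT
  obtain ⟨e, he1, he2, he3, -, he5⟩ := exists_index i j l 0
  have h5 : 5 ≤ e := by
    have h := he5.1
    have a1 : 3 * 3 ≤ (2 * iN e + 3) * (iC e + 3) := Nat.mul_le_mul (by omega) (by omega)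
    have a2 : 3 * 3 * 3 ≤ (2 * iN e + 3) * (iC e + 3) * (iM e + 3) :=
      Nat.mul_le_mul a1 (by omega)
    omega
  have h32 : 6 ≤ 2 ^ e := by
    have : 2 ^ 5 ≤ 2 ^ e := Nat.pow_le_pow_right (by norm_num) h5
    omega
  -- the goal of the group `t`
  have hG : ∀ t, t0 e ≤ t → (∀ w ∈ ISet (TD.col_k t e), Tab (2 ^ e + 1) w = invTab Tab (TD.col_k t e) w) ∧
      (∀ z ∈ ZSet (TD.col_k t e), (Tab (2 ^ e) z).length ≤ qb (TD.col_k t e)) ∧
      ∀ z ∈ ZSet (TD.col_k t e), C (Tab (2 ^ e) z) = A (strip z) ∧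
        sM (TD.col_k t e) ≤ (Tab (2 ^ e) z).length ∧
        ∀ z' : Str, z'.length + 2 < sM (TD.col_k t e) → Tab (2 ^ e) z' = Tab (2 ^ e) z → z' = z := by
    intro t ht
    have hg := hgoal _ (TD.col_act t0 t e h5 ht)
    obtain ⟨s1, s2, s3⟩ := TD.stage_of t e
    have s2' : sj (TD.col_k t e) = e := s2
    have hse : se (TD.col_k t e) = 2 ^ e := by unfold se; rw [s2']
    have hcor : CorrW F S (TD.col_k t e) O :=
      gf2_len S e _ s2' (by rw [he1]; exact hi) he2 hj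
    obtain ⟨g1, g2, g3⟩ := hg
    have g4 := g3 hcor
    rw [s2', he1, he3, hi, hl, hse] at g4
    rw [hse] at g1 g2
    exact ⟨g2, g1, g4⟩
  -- the group of a long string
  have hgrp : ∀ z : Str, 2 ^ 2 ^ t0 e ≤ z.length → ∃ t, t0 e ≤ t ∧ z ∈ ZSet (TD.col_k t e) := by
    intro z hz
    obtain ⟨t, ht1, ht2, ht3⟩ := TD.col_group z (t0 e) hz
    have s3 : st (TD.col_k t e) = t := (TD.stage_of t e).2.2
    refine ⟨t, ht1, ?_⟩
    unfold ZSet sm sM
    rw [s3]
    exact ⟨ht2, ht3⟩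
  have hsM : ∀ t t', t ≤ t' → sM (TD.col_k t e) ≤ sM (TD.col_k t' e) := by
    intro t t' htt
    have s3 : st (TD.col_k t e) = t := (TD.stage_of t e).2.2
    have s3' : st (TD.col_k t' e) = t' := (TD.stage_of t' e).2.2
    unfold sM
    rw [s3, s3']
    exact Nat.pow_le_pow_right (by norm_num) (Nat.pow_le_pow_right (by norm_num) (by omega))
  refine ⟨2 ^ e, 2 ^ 2 ^ t0 e, h32, ?_, ?_, ?_, ?_⟩
  · intro z z' hz hz' he
    obtain ⟨t, ht, hzt⟩ := hgrp z hz
    obtain ⟨t', ht', hzt'⟩ := hgrp z' hz'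
    rcases le_total t t' with h | h
    · exact ((hG t' ht').2.2 z' hzt').2.2 z (hzt.2.trans_le (hsM t t' h)) he
    · exact (((hG t ht).2.2 z hzt).2.2 z' (hzt'.2.trans_le (hsM t' t h)) he.symm).symm
  · intro z hz
    obtain ⟨t, ht, hzt⟩ := hgrp z hz
    have h1 := ((hG t ht).2.2 z hzt).2.1
    have h2 : z.length + 2 < sM (TD.col_k t e) := hzt.2
    omega
  · intro z hz
    obtain ⟨t, ht, hzt⟩ := hgrp z hz
    obtain ⟨g1, g2, g3⟩ := hG t ht
    obtain ⟨-, g5, g6⟩ := g3 z hzt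
    have s2' : sj (TD.col_k t e) = e := (TD.stage_of t e).2.1
    have hse : se (TD.col_k t e) = 2 ^ e := by unfold se; rw [s2']
    have hmem : icode z.length (Tab (2 ^ e) z) ∈ ISet (TD.col_k t e) :=
      TD.IS.icode_mem hzt.1 hzt.2 g5 (g2 z hzt)
    rw [g1 _ hmem]
    unfold invTab
    have huq : ∃! y : Z (TD.col_k t e), ∃ l q, idec (icode z.length (Tab (2 ^ e) z)) = some (l, q) ∧
        y.1.length = l ∧ Tab (se (TD.col_k t e)) y.1 = q := by
      refine ⟨⟨z, hzt⟩, ⟨z.length, Tab (2 ^ e) z, TD.IS.idec_icode _ _, rfl, by rw [hse]⟩, ?_⟩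
      rintro y ⟨l, q, h1, h2, h3⟩
      rw [TD.IS.idec_icode] at h1
      obtain ⟨rfl, rfl⟩ := Prod.mk.inj (Option.some.inj h1)
      rw [hse] at h3
      exact Subtype.ext (g6 y.1 y.2.2 h3)
    have huq2 : uq (fun y : Z (TD.col_k t e) => ∃ l q,
        idec (icode z.length (Tab (2 ^ e) z)) = some (l, q) ∧
        y.1.length = l ∧ Tab (se (TD.col_k t e)) y.1 = q) = some ⟨z, hzt⟩ := by
      unfold uq
      rw [dif_pos huq]
      congr 1
      apply huq.unique huq.choose_spec.1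
      exact ⟨z.length, Tab (2 ^ e) z, TD.IS.idec_icode _ _, rfl, by rw [hse]⟩
    rw [huq2]
    rfl
  · intro z hz
    obtain ⟨t, ht, hzt⟩ := hgrp z hz
    exact ((hG t ht).2.2 z hzt).1


end Pool.Agent.ABO

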