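import Pool.Agent.Lib_helper27.ABO.Fm
import Pool.Agent.Lib_helper74.IS.All

/-!
# ABO, block VW: the inversion tree
-/

set_option autoImplicit false

namespace Pool.Agent.ABO

open Pool.Agent.CK
open Pool.Agent.TD (Str su sj st Act se sm sM sn sD ZSet Z Q unitv Lam KK dd)
open Pool.Agent.TD.IS (PosI Stg uq patchI simI evM icode idec strip ISet posK zs updI PLW PTW
  invTreeW thrX invTab excI LocalWith PolyLocal Cls EL)

/-- VW -/
theorem VV_unit (S : Sec) (n : ℕ) (x : X n) (i : ℕ) (hi : i < n) :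
    VV S (x.1 ++ unitv n i) = (S n x).1.getD i false := by
  obtain ⟨x, rfl⟩ := x
  have hl : (x ++ unitv x.length i).length = 2 * x.length := by
    rw [List.length_append, TD.unitv_length]
    omega
  have hh : (x ++ unitv x.length i).length / 2 = x.length := by
    rw [hl]
    omega
  show VV S (x ++ unitv x.length i) = _
  unfold VV
  rw [hh, hl, if_pos rfl, List.take_left, List.drop_left]
  exact TD.trc_any _ x.length i (S x.length ⟨x, rfl⟩).2 hi

theorem vw_eval (i : ℕ) (w x : Str) (O : Lang) : (PTW i w x).eval O = PLW i w O x := by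
  rw [PTW, DT.eval_map, mach_eval_runTree]
  rfl

theorem vw_depth (i : ℕ) (w x : Str) : (PTW i w x).depth ≤ (x.length + 2) ^ ex i := by
  rw [PTW, DT.depth_map]
  exact mach_depth_runTree _ _

theorem vw_allQ (i : ℕ) (w x : Str) (a : ℕ) (hx : x.length ≤ a) (hw : w.length ≤ a) :
    (PTW i w x).AllQ (fun u => u.length ≤ a + (x.length + 2) ^ ex i) := by
  rw [PTW]
  apply mach_allQ_map
  refine (mach_allQ_runTree _ _ a (a + (x.length + 2) ^ ex i)
    (mach_init_len x w a hx hw) le_rfl).mono ?_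
  intro u hu
  exact le_of_lt hu

/-- VW -/
theorem invW_depth (i : ℕ) (w : Str) (n : ℕ) (x : X n) :
    (invTreeW i w n x.1).depth ≤ n * (3 * n + 2) ^ ex i := by
  have h := TD.seqT_depth ((List.range n).map fun k => PTW i w (x.1 ++ unitv n k))
    ((3 * n + 2) ^ ex i) (by
      intro t ht
      obtain ⟨k, _, rfl⟩ := List.mem_map.1 ht
      have e : (x.1 ++ unitv n k).length ≤ 3 * n := by
        rw [List.length_append, TD.unitv_length, x.2]; omega
      exact (vw_depth i w (x.1 ++ unitv n k)).trans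
        (Nat.pow_le_pow_left (Nat.add_le_add_right e 2) _))
  rw [List.length_map, List.length_range] at h
  exact h

theorem vw_num (a j : ℕ) : (a + (a + 2) ^ j) + (a + 2) ^ j ≤ (a + 2) ^ (j + 1) := by
  have h1 : 1 ≤ (a + 2) ^ j := Nat.one_le_pow _ _ (by omega)
  rw [pow_succ]
  nlinarith

theorem vw_qb (k : ℕ) : qb k = (3 * sn k + 2) ^ (sj k + 1) := rfl

attribute [local irreducible] TD.sn TD.qb TD.sD TD.sj TD.su in
/-- VW -/
theorem invW_allQ (k : ℕ) (w : Str) (hw : w.length ≤ (3 * sn k + 2) ^ sj k) (x : X (sn k)) :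
    (invTreeW (iM (sj k)) w (sn k) x.1).AllQ fun u => u.length ≤ qb k := by
  refine TD.seqT_allQ _ _ ?_
  intro t ht
  obtain ⟨l, _, rfl⟩ := List.mem_map.1 ht
  have e : (x.1 ++ unitv (sn k) l).length ≤ 3 * sn k := by
    rw [List.length_append, TD.unitv_length, x.2]; omega
  have h1 := vw_allQ (iM (sj k)) w (x.1 ++ unitv (sn k) l) (3 * sn k + (3 * sn k + 2) ^ sj k)
    (e.trans (Nat.le_add_right _ _)) (hw.trans (Nat.le_add_left _ _))
  refine h1.mono ?_
  intro u hu
  have h0 : ((x.1 ++ unitv (sn k) l).length + 2) ^ ex (iM (sj k)) ≤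
      (3 * sn k + 2) ^ ex (iM (sj k)) := Nat.pow_le_pow_left (Nat.add_le_add_right e 2) _
  have h2 : (3 * sn k + 2) ^ ex (iM (sj k)) ≤ (3 * sn k + 2) ^ sj k :=
    Nat.pow_le_pow_right (by omega) (TD.hpr_ex_le k)
  have h3 := vw_num (3 * sn k) (sj k)
  rw [vw_qb]
  exact hu.trans ((Nat.add_le_add_left (h0.trans h2) _).trans h3)

/-- VW -/
theorem invW_correct (S : Sec) (i : ℕ) (w : Str) (n : ℕ) (x : X n) (O : Lang)
    (h : ∀ k < n, PLW i w O (x.1 ++ unitv n k) = VV S (x.1 ++ unitv n k)) :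
    (invTreeW i w n x.1).eval O = (S n x).1 := by
  unfold invTreeW
  rw [TD.seqT_eval]
  have hl : (S n x).1.length = n := (S n x).2
  apply List.ext_getElem
  · simp [hl]
  · intro k h1 h2
    have hk : k < n := by omega
    simp only [List.getElem_map, List.getElem_range]
    rw [vw_eval, h k hk, VV_unit S n x k hk, List.getD_eq_getElem _ _ h2]


end Pool.Agent.ABO
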