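import Pool.Agent.Lib_helper27.ABO.Fm
import Pool.Agent.Lib_helper74.IS.All
import Pool.Agent.Lib_helper27.ABO.B.VW

/-!
# Block KD1: depth of the COMP adversary
-/

set_option autoImplicit false

namespace Pool.Agent.ABO

open Pool.Agent.CK
open Pool.Agent.TD (Str su sj st Act se sm sM sn sD ZSet Z Q unitv Lam KK dd)
open Pool.Agent.TD.IS (PosI Stg uq patchI simI evM icode idec strip ISet posK zs updI PLW PTW
  invTreeW thrX invTab excI LocalWith PolyLocal Cls EL)

theorem kd1_tree_depth {P : Par} {n0 k : ℕ} {Fm : Fam P} (h16 : 16 ≤ n0)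
    (hF : Bdd P n0 (k + 1) Fm) {t : Tst k} (ht : TstOK P n0 k Fm t) (q : Q k) :
    (t.tree q).depth ≤ dd (3 * sM k) ∧ (t.tree q).AllQ fun w => w.length ≤ dd (3 * sM k) := by
  obtain ⟨i, hn0, hn, _, ⟨A, hA, x, hx⟩, _⟩ := ht
  obtain ⟨_, _, h3⟩ := hF i hn0
  obtain ⟨h4, h5⟩ := h3 A hA x
  have hm : dd (lev P i) ≤ dd (3 * sM k) := TD.cdd_dd_mono (le_trans h16 hn0) hn.le
  constructor
  · unfold Tst.tree
    rw [DT.depth_map]
    refine (TD.IS.depth_simI _ _ _ _ _).trans ?_
    rw [hx]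
    exact h4.trans hm
  · unfold Tst.tree
    apply mach_allQ_map
    apply TD.IS.allQ_simI
    rw [hx]
    exact h5.mono fun w hw => le_trans hw hm

theorem kd1_thrX_depth {m : ℕ} (l : List ({q : Str // q.length ≤ m} → DT Bool)) (θ d : ℕ)
    (E : List (Str × Bool)) (hl : ∀ t ∈ l, ∀ q, (t q).depth ≤ d) (w : Str) :
    (thrX l θ E w).depth ≤ l.length * d + 1 := by
  unfold thrX
  split
  · simp
  · split_ifs with hq
    · refine (DT.depth_thr _ _ d ?_).trans ?_
      · intro t ht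
        obtain ⟨t', ht', rfl⟩ := List.mem_map.1 ht
        exact hl t' ht' _
      · rw [List.length_map]
        omega
    · simp

theorem kd1_thrX_allQ {m : ℕ} (P : Str → Prop) (l : List ({q : Str // q.length ≤ m} → DT Bool))
    (θ : ℕ) (E : List (Str × Bool)) (hl : ∀ t ∈ l, ∀ q, (t q).AllQ P) (w : Str) :
    (thrX l θ E w).AllQ P := by
  unfold thrX
  split
  · trivial
  · split_ifs with hq
    · apply TD.allQ_thr
      intro t ht
      obtain ⟨t', ht', rfl⟩ := List.mem_map.1 ht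
      exact hl t' ht' _
    · trivial

/-- KD1 -/
theorem cmp_depth (P : Par) (n0 k : ℕ) (Fm : Fam P) (h16 : 16 ≤ n0) (hK : NumK n0 k)
    (hF : Bdd P n0 (k + 1) Fm) (n : ℕ) :
    ∀ A ∈ Cmp P n0 k Fm n, ∀ x, (A x).depth ≤ dd n ∧ (A x).AllQ fun w => w.length ≤ dd n := by
  rintro A ⟨hn, l, hl, hOK, θ, hθ, E, hE, hEl, w, hw, rfl⟩ x
  subst hn
  have hdm : dd (3 * sM k) ≤ dd (sn k) := hK.hdd
  constructor
  · have h1 : ∀ q, (thrX (l.map Tst.tree) θ E q).depth ≤ lenk k * dd (3 * sM k) + 1 := by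
      intro q
      refine (kd1_thrX_depth (l.map Tst.tree) θ (dd (3 * sM k)) E ?_ q).trans ?_
      · intro t ht q
        obtain ⟨t', ht', rfl⟩ := List.mem_map.1 ht
        exact (kd1_tree_depth h16 hF (hOK t' ht') _).1
      · rw [List.length_map]
        have := Nat.mul_le_mul_right (dd (3 * sM k)) hl
        omega
    have h2 := DT.depth_tr (thrX (l.map Tst.tree) θ E) (invTreeW (iM (sj k)) w (sn k) x.1) _
      (by omega) h1
    refine h2.trans (le_trans ?_ hK.hdepth)
    have h3 := invW_depth (iM (sj k)) w (sn k) x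
    have h4 : (3 * sn k + 2) ^ ex (iM (sj k)) ≤ (3 * sn k + 2) ^ sj k :=
      Nat.pow_le_pow_right (by omega) (TD.cdd_ex_le k)
    calc (invTreeW (iM (sj k)) w (sn k) x.1).depth * (lenk k * dd (3 * sM k) + 1)
        ≤ (sn k * (3 * sn k + 2) ^ ex (iM (sj k))) * (lenk k * dd (3 * sM k) + 1) :=
          Nat.mul_le_mul_right _ h3
      _ ≤ (sn k * (3 * sn k + 2) ^ sj k) * (lenk k * dd (3 * sM k) + 1) :=
          Nat.mul_le_mul_right _ (Nat.mul_le_mul_left _ h4)
      _ = sn k * ((3 * sn k + 2) ^ sj k * (lenk k * dd (3 * sM k) + 1)) := by ring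
  · apply TD.allQ_tr
    · refine (invW_allQ k w hw x).mono ?_
      intro w hw
      have hlen := hK.hlen
      first
        | omega
        | (intro u hu
           rw [hu, List.length_cons] at hw
           omega)
    · intro q
      apply kd1_thrX_allQ
      intro t ht q
      obtain ⟨t', ht', rfl⟩ := List.mem_map.1 ht
      exact (kd1_tree_depth h16 hF (hOK t' ht') _).2.mono fun w hw => le_trans hw hdm


end Pool.Agent.ABO
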