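import Pool.Agent.Lib_helper27.ABO.Fm
import Pool.Agent.Lib_helper74.IS.All
import Pool.Agent.Lib_helper27.ABO.B.VW

/-!
# Collapse above every oracle, block KD2: the hard pair
-/

set_option autoImplicit false

namespace Pool.Agent.ABO

open Pool.Agent.CK
open Pool.Agent.TD (Str su sj st Act se sm sM sn sD ZSet Z Q unitv Lam KK dd)
open Pool.Agent.TD.IS (PosI Stg uq patchI simI evM icode idec strip ISet posK zs updI PLW PTW
  invTreeW thrX invTab excI LocalWith PolyLocal Cls EL)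

theorem kd2_lift (P : Par) (n0 k : ℕ) (Fm : Fam P) :
    ∀ l : List (Q k → DT Bool),
      (∀ f ∈ l, f ∈ {f : Q k → DT Bool | ∃ t : Tst k, TstOK P n0 k Fm t ∧ f = t.tree}) →
      ∃ l' : List (Tst k), l'.map Tst.tree = l ∧ ∀ t ∈ l', TstOK P n0 k Fm t := by
  intro l
  induction l with
  | nil => intro _; exact ⟨[], rfl, fun t ht => by simp at ht⟩
  | cons f l ih =>
    intro h
    obtain ⟨t, ht, hf⟩ := h f (List.mem_cons_self ..)
    obtain ⟨l', h1, h2⟩ := ih fun g hg => h g (List.mem_cons_of_mem _ hg)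
    refine ⟨t :: l', by rw [List.map_cons, h1, hf], ?_⟩
    intro t' ht'
    rcases List.mem_cons.1 ht' with rfl | h'
    · exact ht
    · exact h2 t' h'

/-- KD2: as `TD.IS.hardpairI`, from `TD.IS.hardpairG` with `h = 4 * sM k + 1` -/
theorem hardpairA (F : ℕ → Lang → Lang) (P : Par) (n0 k : ℕ) (Fm : Fam P) (S : Sec) (O : Lang)
    (hcor : CorrW F S k O) (R : Finset (Q k)) (hR : R.card ≤ 2 ^ (sM k + 1))
    (hdef : ∀ A ∈ Cmp P n0 k Fm (sn k), hits (fun x => (S (sn k) x).1) A O < 2 ^ sn k) :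
    ∃ ν : Bool → Q k → ℝ, (∀ b, (∀ q, 0 ≤ ν b q) ∧ ∑ q, ν b q = 1) ∧
      (∀ b q, ν b q ≠ 0 → EL F (iC (sj k)) O q.1 = b ∧ q ∉ R) ∧
      (∀ b q, ν b q ≤ 1 / 2 ^ (4 * sM k)) ∧
      ∀ t : Tst k, TstOK P n0 k Fm t →
        ∑ q, ν true q * ind ((t.tree q).eval O) ≤
          ∑ q, ν false q * ind ((t.tree q).eval O) + 1 / (NN k : ℝ) := by
  have hN : 1 ≤ NN k := by
    unfold NN dd
    have h1 : 0 < 2 ^ Lam (3 * sM k) := by positivity
    have h2 : 0 < 2 ^ (Lam (3 * sM k) + 2 * KK (3 * sM k)) := by positivity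
    have h3 : 0 < 8 * 2 ^ Lam (3 * sM k) * 2 ^ (Lam (3 * sM k) + 2 * KK (3 * sM k)) := by
      positivity
    exact h3
  rcases TD.IS.hardpairG (EL F (iC (sj k)) O) O
    {f : Q k → DT Bool | ∃ t : Tst k, TstOK P n0 k Fm t ∧ f = t.tree}
    (NN k) (qb k + 1) (4 * sM k + 1) hN (TD.card_Q k) R with
    ⟨ν, hν, hc, hs, hD⟩ | ⟨l, θ, E, hl, hlD, hθ, hE1, hE2, hcq⟩
  · refine ⟨ν, hν, hc, fun b q => ?_, fun t ht => hD _ ⟨t, ht, rfl⟩⟩
    refine (hs b q).trans (le_of_eq ?_)
    rw [pow_succ]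
    field_simp
  · exfalso
    obtain ⟨l', h1, h2⟩ := kd2_lift P n0 k Fm l hlD
    obtain ⟨w, hw, hcor'⟩ := hcor
    have hlen : l'.length = l.length := by rw [← h1, List.length_map]
    have hE3 : E.length ≤ excI k := by
      have h3 : (4 : ℕ) ^ (4 * sM k + 1 + 1) = 2 ^ (8 * sM k + 4) := by
        rw [show (4 : ℕ) = 2 ^ 2 by norm_num, ← pow_mul]
        congr 1
        ring
      have h4 : (2 : ℕ) ^ (sM k + 1) ≤ 2 ^ (8 * sM k + 4) :=
        Nat.pow_le_pow_right (by norm_num) (by omega)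
      have h5 : excI k = 2 ^ (8 * sM k + 4) + 2 ^ (8 * sM k + 4) := by
        unfold excI
        ring
      rw [h3] at hE1
      omega
    have hmem : (fun x : X (sn k) => DT.tr (thrX (l'.map Tst.tree) θ E)
        (invTreeW (iM (sj k)) w (sn k) x.1)) ∈ Cmp P n0 k Fm (sn k) :=
      ⟨rfl, l', by rw [hlen]; exact hl, h2, θ, by rw [hlen]; exact hθ, E, hE3, hE2, w, hw, rfl⟩
    have hall : ∀ x : X (sn k), (DT.tr (thrX (l'.map Tst.tree) θ E)
        (invTreeW (iM (sj k)) w (sn k) x.1)).eval O = (S (sn k) x).1 := by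
      intro x
      rw [DT.eval_tr, ← invW_correct S (iM (sj k)) w (sn k) x
        (join O (EL F (iC (sj k)) O)) (fun i hi => hcor' x i hi)]
      apply DT.eval_join_congr _ _ (invW_allQ k w hw x)
      · intro u _
        rfl
      · intro u hu
        have hu' : u.length ≤ qb k := by
          have : (true :: u).length ≤ qb k := hu
          rw [List.length_cons] at this
          omega
        rw [h1]
        exact hcq u hu'
    have hh : hits (fun x : X (sn k) => (S (sn k) x).1) (fun x : X (sn k) =>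
        DT.tr (thrX (l'.map Tst.tree) θ E) (invTreeW (iM (sj k)) w (sn k) x.1)) O =
          2 ^ sn k := by
      unfold hits
      rw [Finset.filter_true_of_mem (fun x _ => hall x), Finset.card_univ, TD.card_X]
    have h4 := hdef _ hmem
    rw [hh] at h4
    exact lt_irrefl _ h4


end Pool.Agent.ABO
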