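import Pool.Agent.Lib_helper27.ABO.Fm
import Pool.Agent.Lib_helper74.IS.All
import Pool.Agent.Lib_helper27.ABO.B.LV1

/-!
# Block KS1: number of simulations and of tests (MP_675993_lc)
-/

set_option autoImplicit false

namespace Pool.Agent.ABO

open Pool.Agent.CK
open Pool.Agent.TD (Str su sj st Act se sm sM sn sD ZSet Z Q unitv Lam KK dd)
open Pool.Agent.TD.IS (PosI Stg uq patchI simI evM icode idec strip ISet posK zs updI PLW PTW
  invTreeW thrX invTab excI LocalWith PolyLocal Cls EL)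

theorem ks1_num (a L K s q : ℕ) (h : s + q + 3 ≤ 2 ^ L) :
    2 ^ a + ((s + (q + 1) + 1) * 2 ^ (a + 2 * L + 2 * K + 3) + (q + 1 + 1) * 2 ^ L) ≤
      2 ^ (a + 3 * L + 2 * K + 6) := by
  have h1 : (s + (q + 1) + 1) * 2 ^ (a + 2 * L + 2 * K + 3) ≤
      2 ^ L * 2 ^ (a + 2 * L + 2 * K + 3) := Nat.mul_le_mul_right _ (by omega)
  have h2 : (q + 1 + 1) * 2 ^ L ≤ 2 ^ L * 2 ^ L := Nat.mul_le_mul_right _ (by omega)
  have h3 : 2 ^ L * 2 ^ (a + 2 * L + 2 * K + 3) = 2 ^ (a + 3 * L + 2 * K + 3) := by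
    rw [← pow_add]; congr 1; ring
  have h4 : 2 ^ L * 2 ^ L ≤ 2 ^ (a + 3 * L + 2 * K + 3) := by
    rw [← pow_add]
    exact Nat.pow_le_pow_right (by norm_num) (by omega)
  have h5 : 2 ^ a ≤ 2 ^ (a + 3 * L + 2 * K + 3) :=
    Nat.pow_le_pow_right (by norm_num) (by omega)
  have h6 : 2 ^ (a + 3 * L + 2 * K + 6) = 8 * 2 ^ (a + 3 * L + 2 * K + 3) := by
    have e : a + 3 * L + 2 * K + 6 = (a + 3 * L + 2 * K + 3) + 3 := by ring
    rw [e, pow_add _ _ 3]; ring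
  omega

/-- KS1: as `TDF/CDB` -/
theorem card_sim (k n : ℕ) {m : ℕ} (Fm : Set (X m → DT Str)) (h5 : 5 ≤ sj k)
    (h2 : 2 * sj k ≤ su k) (hk : k < KK n) (hF : CardBd Fm (2 ^ aa (k + 1) n)) :
    CardBd (Sim k n Fm) (2 ^ (aa (k + 1) n + 3 * Lam n + 2 * KK n + 6)) := by
  have hfit : sM k + qb k + 3 ≤ 2 ^ Lam n := (TD.fits k h5 h2).trans ((TD.rel_iff k n).1 hk)
  have hZQ : Fintype.card (Z k × Q k) ≤ 2 ^ (sM k + (qb k + 1)) := by
    rw [Fintype.card_prod, pow_add]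
    exact Nat.mul_le_mul (TD.card_Z k) (TD.card_Q k)
  have h1 := card_image (fun p : (X m → DT Str) × (List (Z k × Q k) × List (Q k)) =>
      (fun x => simI (stgJ k) [] (p.1 x) p.2.1 p.2.2))
    (card_prod hF (card_prod (card_lists hZQ (ss k n)) (card_lists (TD.card_Q k) (dd n))))
  refine card_mono h1 ?_ (ks1_num (aa (k + 1) n) (Lam n) (KK n) (sM k) (qb k) hfit)
  rintro A' ⟨A, hA, ρ, hρ, r, hr, rfl⟩
  exact ⟨(A, (ρ, r)), ⟨hA, hρ, hr.le⟩, rfl⟩

theorem ks1_num2 (a L K s q n : ℕ) (h : s + q + 3 ≤ 2 ^ L) (ha : n / 3 + 2 ≤ a) :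
    (2 ^ a + (n + 2 ^ L)) + ((n + 1) + ((s + (q + 1) + 1) * 2 ^ (a + 2 * L + 2 * K + 3) +
      ((q + 1 + 1) * 2 ^ L + (q + 1 + 1) * 2 ^ L))) ≤ 2 ^ (a + 3 * L + 2 * K + 6) := by
  have h1 : (s + (q + 1) + 1) * 2 ^ (a + 2 * L + 2 * K + 3) ≤
      2 ^ L * 2 ^ (a + 2 * L + 2 * K + 3) := Nat.mul_le_mul_right _ (by omega)
  have h2 : (q + 1 + 1) * 2 ^ L ≤ 2 ^ L * 2 ^ L := Nat.mul_le_mul_right _ (by omega)
  have h3 : 2 ^ L * 2 ^ (a + 2 * L + 2 * K + 3) = 2 ^ (a + 3 * L + 2 * K + 3) := by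
    rw [← pow_add]; congr 1; ring
  have h4 : 2 ^ L * 2 ^ L ≤ 2 ^ (a + 3 * L + 2 * K + 3) := by
    rw [← pow_add]
    exact Nat.pow_le_pow_right (by norm_num) (by omega)
  have h5 : 2 ^ a ≤ 2 ^ (a + 3 * L + 2 * K + 3) :=
    Nat.pow_le_pow_right (by norm_num) (by omega)
  have h5' : 2 ^ L ≤ 2 ^ (a + 3 * L + 2 * K + 3) :=
    Nat.pow_le_pow_right (by norm_num) (by omega)
  have h6 : 2 ^ (a + 3 * L + 2 * K + 6) = 8 * 2 ^ (a + 3 * L + 2 * K + 3) := by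
    have e : a + 3 * L + 2 * K + 6 = (a + 3 * L + 2 * K + 3) + 3 := by ring
    rw [e, pow_add _ _ 3]; ring
  have h7 : n + n + 1 ≤ 2 ^ (a + 3 * L + 2 * K + 3) := by
    have e1 : n / 3 < 2 ^ (n / 3) := Nat.lt_two_pow_self
    have e2 : 2 ^ (n / 3 + 4) ≤ 2 ^ (a + 3 * L + 2 * K + 3) :=
      Nat.pow_le_pow_right (by norm_num) (by omega)
    have e3 : 2 ^ (n / 3 + 4) = 16 * 2 ^ (n / 3) := by rw [pow_add]; ring
    omega
  omega

theorem ks1_aa_mono {n m : ℕ} (k : ℕ) (h : 16 ≤ n) (hnm : n ≤ m) : aa k n ≤ aa 0 m := by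
  unfold aa
  have h1 : n / 3 ≤ m / 3 := Nat.div_le_div_right hnm
  have hK := TD.KK_mono h hnm
  have hL := TD.Lam_mono h hnm
  have h2 : KK n - k ≤ KK m - 0 := by omega
  have h3 : 8 * Lam n + 2 * KK n + 40 ≤ 8 * Lam m + 2 * KK m + 40 := by omega
  exact Nat.add_le_add (Nat.add_le_add_right h1 2) (Nat.mul_le_mul h2 h3)

/-- a union of few sets -/
theorem ks1_biUnion {ι α : Type} {I : Set ι} {u m : ℕ} (hI : CardBd I u) (F : ι → Set α)
    (h : ∀ i ∈ I, CardBd (F i) m) : CardBd {a | ∃ i ∈ I, a ∈ F i} (m + u) := by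
  classical
  have e : {a | ∃ i ∈ I, a ∈ F i} = ⋃ i ∈ I, F i := by
    ext a
    simp
  rw [e]
  refine ⟨hI.1.biUnion fun i hi => (h i hi).1, ?_⟩
  obtain ⟨J, rfl⟩ := hI.1.exists_finset_coe
  have key : ∀ J : Finset ι, (∀ i ∈ J, CardBd (F i) m) →
      (⋃ i ∈ (J : Set ι), F i).ncard ≤ J.card * 2 ^ m := by
    intro J
    induction J using Finset.induction_on with
    | empty => intro _; simp
    | insert a s ha ih =>
      intro hJ
      rw [Finset.card_insert_of_notMem ha, Finset.coe_insert, Set.biUnion_insert]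
      have h1 := Set.ncard_union_le (F a) (⋃ i ∈ (s : Set ι), F i)
      have h2 := ih fun i hi => hJ i (Finset.mem_insert_of_mem hi)
      have h3 := (hJ a (Finset.mem_insert_self a s)).2
      rw [add_mul, one_mul]
      omega
  have h1 := key J fun i hi => h i hi
  have h2 := hI.2
  rw [Set.ncard_coe_finset] at h2
  calc _ ≤ J.card * 2 ^ m := h1
    _ ≤ 2 ^ u * 2 ^ m := Nat.mul_le_mul_right _ h2
    _ = 2 ^ (m + u) := by rw [← pow_add, add_comm]

theorem ks1_om {P : Par} (hP : P.OK) (i : Lvl) : om P i ≤ lev P i + dd (lev P i) := by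
  cases i with
  | inl n => exact Nat.le_add_right _ _
  | inr j => exact ((hP.hs j).trans (nn_spec (P.t j)).2).trans (Nat.le_add_left _ _)

/-- KS1: as `TDF/CDC`, with `lev_card` -/
theorem card_tests (P : Par) (hP : P.OK) (n0 k : ℕ) (Fm : Fam P) (h16 : 16 ≤ n0)
    (h5 : 5 ≤ sj k) (h2 : 2 * sj k ≤ su k) (hF : Bdd P n0 (k + 1) Fm) :
    CardBd {t : Tst k | TstOK P n0 k Fm t}
      (2 ^ (3 * Lam (3 * sM k) + 2 * KK (3 * sM k) + aa 0 (3 * sM k) + 11)) := by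
  have hZQ : Fintype.card (Z k × Q k) ≤ 2 ^ (sM k + (qb k + 1)) := by
    rw [Fintype.card_prod, pow_add]
    exact Nat.mul_le_mul (TD.card_Z k) (TD.card_Q k)
  rcases Nat.lt_or_ge (3 * sM k) 16 with hlt | hge
  · have e : {t : Tst k | TstOK P n0 k Fm t} = ∅ := by
      apply Set.eq_empty_of_forall_notMem
      rintro t ⟨i, h1, h2, -⟩
      omega
    rw [e]
    exact ⟨Set.finite_empty, by simp⟩
  set M := 3 * sM k with hM
  let F : Lvl → Set (Tst k) := fun i => {t | n0 ≤ lev P i ∧ lev P i < M ∧ k < KK (lev P i) ∧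
    (∃ A ∈ Fm i, ∃ x, t.τ = A x) ∧
    t.b.length ≤ lev P i ∧ t.ρ.length ≤ ss k (lev P i) ∧ t.pre.length ≤ dd (lev P i) ∧
    t.post.length ≤ dd (lev P i)}
  have hFn : ∀ i ∈ {i | lev P i ≤ M}, CardBd (F i) (2 ^ (3 * Lam M + 2 * KK M + aa 0 M + 6)) := by
    intro i hi
    by_cases hc : n0 ≤ lev P i ∧ lev P i < M ∧ k < KK (lev P i)
    · obtain ⟨hn0, hlt, hk⟩ := hc
      have hfit : sM k + qb k + 3 ≤ 2 ^ Lam (lev P i) :=
        (TD.fits k h5 h2).trans ((TD.rel_iff k _).1 hk)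
      have hX : Fintype.card (X (om P i)) ≤ 2 ^ (lev P i + 2 ^ Lam (lev P i)) := by
        rw [TD.card_X]
        exact Nat.pow_le_pow_right (by norm_num) (ks1_om hP i)
      have h1 := card_image (fun p : (X (om P i) → DT Str) × X (om P i) => p.1 p.2)
        (card_prod (⟨(hF i hn0).1, (hF i hn0).2.1⟩ : CardBd (Fm i) (2 ^ aa (k + 1) (lev P i)))
          (card_univ hX))
      have h3 := card_image (fun p : DT Str × (Str × (List (Z k × Q k) ×
          (List (Q k) × List (Q k)))) => (⟨p.1, p.2.1, p.2.2.1, p.2.2.2.1, p.2.2.2.2⟩ : Tst k))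
        (card_prod h1 (card_prod (TD.card_str (lev P i))
          (card_prod (card_lists hZQ (ss k (lev P i)))
          (card_prod (card_lists (TD.card_Q k) (dd (lev P i)))
            (card_lists (TD.card_Q k) (dd (lev P i)))))))
      have h4 := ks1_num2 (aa (k + 1) (lev P i)) (Lam (lev P i)) (KK (lev P i)) (sM k) (qb k)
        (lev P i) hfit (by unfold aa; omega)
      refine card_mono h3 ?_ (h4.trans ?_)
      · rintro ⟨τ, b, ρ, pre, post⟩ ⟨-, -, -, ⟨A, hA, x, hx⟩, hb, hρ, hpre, hpost⟩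
        exact ⟨(τ, (b, (ρ, (pre, post)))), ⟨⟨(A, x), ⟨hA, trivial⟩, hx.symm⟩, hb, hρ, hpre,
          hpost⟩, rfl⟩
      · apply Nat.pow_le_pow_right (by norm_num)
        have e1 := TD.Lam_mono (show 16 ≤ lev P i by omega) hlt.le
        have e2 := ks1_aa_mono (k + 1) (show 16 ≤ lev P i by omega) hlt.le
        have e3 := TD.KK_mono (show 16 ≤ lev P i by omega) hlt.le
        omega
    · have e : F i = ∅ := by
        apply Set.eq_empty_of_forall_notMem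
        rintro t ⟨h1, h2, h3, -⟩
        exact hc ⟨h1, h2, h3⟩
      rw [e]
      exact ⟨Set.finite_empty, by simp⟩
  refine card_mono (ks1_biUnion (lev_card hP hge) F hFn) ?_ ?_
  · rintro t ⟨i, h1, h2, h3⟩
    exact ⟨i, h2.le, h1, h2, h3⟩
  · have e1 : sM k + 2 ≤ aa 0 M := by unfold aa; omega
    have e2 : M ≤ 2 ^ (3 * Lam M + 2 * KK M + aa 0 M + 6) := by
      have e3 : sM k < 2 ^ sM k := Nat.lt_two_pow_self
      have e4 : 2 ^ (sM k + 2) ≤ 2 ^ (3 * Lam M + 2 * KK M + aa 0 M + 6) :=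
        Nat.pow_le_pow_right (by norm_num) (by omega)
      have e5 : 2 ^ (sM k + 2) = 4 * 2 ^ sM k := by rw [pow_add]; ring
      omega
    have e7 : dd M ≤ 2 ^ (3 * Lam M + 2 * KK M + aa 0 M + 6) :=
      Nat.pow_le_pow_right (by norm_num) (by omega)
    have e8 : 1 ≤ 2 ^ (3 * Lam M + 2 * KK M + aa 0 M + 6) := Nat.one_le_two_pow
    have e6 : 2 ^ (3 * Lam M + 2 * KK M + aa 0 M + 11) =
        32 * 2 ^ (3 * Lam M + 2 * KK M + aa 0 M + 6) := by
      rw [show 3 * Lam M + 2 * KK M + aa 0 M + 11 =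
        (3 * Lam M + 2 * KK M + aa 0 M + 6) + 5 from rfl, pow_add _ _ 5]; ring
    omega

end Pool.Agent.ABO
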