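import Pool.Agent.Lib_helper27.ABO.Fm
import Pool.Agent.Lib_helper74.IS.All
import Pool.Agent.Lib_helper27.ABO.B.LV1

/-!
# ABO, block LV3
-/

set_option autoImplicit false

namespace Pool.Agent.ABO

open Pool.Agent.CK
open Pool.Agent.TD (Str su sj st Act se sm sM sn sD ZSet Z Q unitv Lam KK dd)
open Pool.Agent.TD.IS (PosI Stg uq patchI simI evM icode idec strip ISet posK zs updI PLW PTW
  invTreeW thrX invTab excI LocalWith PolyLocal Cls EL)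

theorem lv3_cube (h : ℕ) (hh : 16 ≤ h) : (2 * h + 1) ^ 3 ≤ 2 ^ (h + 1) := by
  induction h, hh using Nat.le_induction with
  | base => norm_num
  | succ h hh ih =>
    have h1 : (2 * (h + 1) + 1) ^ 3 ≤ 2 * (2 * h + 1) ^ 3 := by
      obtain ⟨s, rfl⟩ := Nat.exists_eq_add_of_le hh
      ring_nf
      nlinarith [Nat.zero_le (s ^ 3), Nat.zero_le (s ^ 2), Nat.zero_le s]
    calc (2 * (h + 1) + 1) ^ 3 ≤ 2 * (2 * h + 1) ^ 3 := h1
      _ ≤ 2 * 2 ^ (h + 1) := Nat.mul_le_mul_left _ ih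
      _ = 2 ^ (h + 1 + 1) := by ring

theorem lv3_four (h : ℕ) (hh : 16 ≤ h) : (2 * h + 1) ^ 3 ≤ h ^ 4 := by
  obtain ⟨s, rfl⟩ := Nat.exists_eq_add_of_le hh
  ring_nf
  nlinarith [Nat.zero_le (s ^ 4), Nat.zero_le (s ^ 3), Nat.zero_le (s ^ 2), Nat.zero_le s]

/-- `2 ^ (L / 2) ≤ 2 ^ (L + 1) / L ^ 3` -/
theorem lv3_half (L : ℕ) (hL : 32 ≤ L) : 2 ^ (L / 2) ≤ 2 ^ (L + 1) / L ^ 3 := by
  have hpos : 0 < L ^ 3 := by positivity
  rw [Nat.le_div_iff_mul_le hpos]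
  have h1 : L ^ 3 ≤ 2 ^ (L / 2 + 1) :=
    (Nat.pow_le_pow_left (by omega) 3).trans (lv3_cube (L / 2) (by omega))
  calc 2 ^ (L / 2) * L ^ 3 ≤ 2 ^ (L / 2) * 2 ^ (L / 2 + 1) := Nat.mul_le_mul_left _ h1
    _ = 2 ^ (L / 2 + (L / 2 + 1)) := (pow_add _ _ _).symm
    _ ≤ 2 ^ (L + 1) := Nat.pow_le_pow_right (by norm_num) (by omega)

/-- the main estimate -/
theorem lv3_main (T m : ℕ) (hm : 2 ^ 32 ≤ m) (hT : dd m < T) :
    2 ^ m ≤ T ^ (Nat.log 2 (Nat.log 2 T)) ^ 4 := by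
  obtain ⟨L, hL⟩ : ∃ L, L = Nat.log 2 m := ⟨_, rfl⟩
  have hL32 : 32 ≤ L := by
    rw [hL]
    exact Nat.le_log_of_pow_le (by norm_num) hm
  have hT0 : T ≠ 0 := by omega
  have h1 : Lam m ≤ Nat.log 2 T := Nat.le_log_of_pow_le (by norm_num) hT.le
  have h2 : Lam m = 2 ^ (L + 1) / L ^ 3 + 1 := by rw [hL]; rfl
  have h3 : m < 2 ^ (L + 1) := by
    rw [hL]
    exact Nat.lt_pow_succ_log_self (by norm_num) m
  have hpos : 0 < L ^ 3 := by positivity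
  have h4 : 2 ^ (L + 1) < Lam m * L ^ 3 := by
    rw [h2]
    exact Nat.lt_mul_of_div_lt (Nat.lt_succ_self _) hpos
  have h5 : L / 2 ≤ Nat.log 2 (Nat.log 2 T) := by
    apply Nat.le_log_of_pow_le (by norm_num)
    have := lv3_half L hL32
    omega
  have h6 : L ^ 3 ≤ (Nat.log 2 (Nat.log 2 T)) ^ 4 :=
    ((Nat.pow_le_pow_left (by omega) 3).trans (lv3_four (L / 2) (by omega))).trans
      (Nat.pow_le_pow_left h5 4)
  calc 2 ^ m ≤ 2 ^ (Nat.log 2 T * L ^ 3) := by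
        apply Nat.pow_le_pow_right (by norm_num)
        exact (h3.trans h4).le.trans (Nat.mul_le_mul_right _ h1)
    _ = (2 ^ Nat.log 2 T) ^ L ^ 3 := pow_mul _ _ _
    _ ≤ T ^ L ^ 3 := Nat.pow_le_pow_left (Nat.pow_log_le_self 2 hT0) _
    _ ≤ T ^ (Nat.log 2 (Nat.log 2 T)) ^ 4 := Nat.pow_le_pow_right (by omega) h6

theorem lv3_dd_mono {n m : ℕ} (h : 16 ≤ n) (hnm : n ≤ m) : dd n ≤ dd m :=
  Nat.pow_le_pow_right (by norm_num) (TD.Lam_mono h hnm)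

/-- LV3: `t ^ κ` is large enough -/
theorem kappa_bound : ∃ T0 : ℕ, ∀ T, T0 ≤ T →
    2 ^ (nn T - 2) ≤ T ^ (Nat.log 2 (Nat.log 2 T)) ^ 4 := by
  obtain ⟨K, hK⟩ : ∃ K : ℕ, K = 2 ^ 32 := ⟨_, rfl⟩
  refine ⟨dd K + 1, fun T hT => ?_⟩
  obtain ⟨h16, hle⟩ := nn_spec T
  have hn : K < nn T := by
    by_contra hc
    have h1 := lv3_dd_mono h16 (not_lt.1 hc)
    omega
  have hK16 : 16 ≤ K := by rw [hK]; norm_num
  have hm : dd (nn T - 1) < T := by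
    by_contra hc
    have h1 := nn_min (n := nn T - 1) (by omega) (not_lt.1 hc)
    omega
  refine le_trans (Nat.pow_le_pow_right (by norm_num) (by omega : nn T - 2 ≤ nn T - 1)) ?_
  exact lv3_main T (nn T - 1) (by omega) hm


end Pool.Agent.ABO
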