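import Pool.Agent.Lib_helper27.ABO.Fm
import Pool.Agent.Lib_helper74.IS.All

/-!
# ABO, block NA1: numbers of levels
-/

set_option autoImplicit false

namespace Pool.Agent.ABO

open Pool.Agent.CK
open Pool.Agent.TD (Str su sj st Act se sm sM sn sD ZSet Z Q unitv Lam KK dd)
open Pool.Agent.TD.IS (PosI Stg uq patchI simI evM icode idec strip ISet posK zs updI PLW PTW
  invTreeW thrX invTab excI LocalWith PolyLocal Cls EL)

theorem na1_pow (L : ℕ) (h : 200 ≤ L) : 1000000 * L ^ 4 ≤ 2 ^ L := by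
  induction L, h using Nat.le_induction with
  | base => norm_num
  | succ L hL ih =>
    have h1 : (L + 1) ^ 4 ≤ 2 * L ^ 4 := by
      have h3 : 15 * L ^ 3 ≤ L * L ^ 3 := Nat.mul_le_mul_right _ (by omega)
      have h4 : L ^ 2 ≤ L ^ 3 := Nat.pow_le_pow_right (by omega) (by norm_num)
      have h5 : L ≤ L ^ 3 := Nat.le_self_pow (by norm_num) L
      have h6 : 1 ≤ L ^ 3 := Nat.one_le_pow _ _ (by omega)
      nlinarith
    calc 1000000 * (L + 1) ^ 4 ≤ 1000000 * (2 * L ^ 4) := Nat.mul_le_mul_left _ h1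
      _ = 2 * (1000000 * L ^ 4) := by ring
      _ ≤ 2 * 2 ^ L := Nat.mul_le_mul_left _ ih
      _ = 2 ^ (L + 1) := by ring

/-- NA1: as `TDF/NU1` -/
theorem exists_n0 : ∃ n0 : ℕ, ∀ n, n0 ≤ n → NumN n := by
  refine ⟨2 ^ 200, fun n hn => ?_⟩
  obtain ⟨L, hL⟩ : ∃ L, L = Nat.log 2 n := ⟨_, rfl⟩
  have hn0 : n ≠ 0 := by
    have : 0 < 2 ^ 200 := by positivity
    omega
  have hL100 : 200 ≤ L := by
    rw [hL]
    exact Nat.le_log_of_pow_le (by norm_num) hn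
  have h1 : 2 ^ L ≤ n := by
    rw [hL]; exact Nat.pow_log_le_self 2 hn0
  have h2 : n < 2 ^ (L + 1) := by
    rw [hL]; exact Nat.lt_pow_succ_log_self (by norm_num) n
  have hp := na1_pow L hL100
  obtain ⟨q, hq⟩ : ∃ q, q = 2 ^ (L + 1) / L ^ 3 := ⟨_, rfl⟩
  have hLam : Lam n = q + 1 := by rw [Lam, ← hL, hq]
  have hL3 : 0 < L ^ 3 := by positivity
  have hq1 : q * L ^ 3 ≤ 2 ^ (L + 1) := by
    rw [hq]; exact Nat.div_mul_le_self _ _
  have h2L : 2 ^ (L + 1) = 2 * 2 ^ L := by ring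
  have hq2 : q * L ^ 3 ≤ 2 * n := by omega
  have hL2 : 40000 ≤ L ^ 2 := by nlinarith
  -- `L² q ≤ n / 100`
  have hq3 : 100 * (L ^ 2 * q) ≤ n := by
    have h3 : 200 * (L ^ 2 * q) ≤ L * (L ^ 2 * q) := Nat.mul_le_mul_right _ hL100
    have h4 : L * (L ^ 2 * q) = q * L ^ 3 := by ring
    omega
  have hL4 : 40000 * L ^ 2 ≤ L ^ 4 := by
    have h3 : 40000 * L ^ 2 ≤ L ^ 2 * L ^ 2 := Nat.mul_le_mul_right _ hL2
    have h4 : L ^ 2 * L ^ 2 = L ^ 4 := by ring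
    omega
  have hLn : 1000000 * L ^ 4 ≤ n := by omega
  have hLL : L ≤ L ^ 2 := Nat.le_self_pow (by norm_num) L
  have hqq : 40000 * q ≤ L ^ 2 * q := Nat.mul_le_mul_right _ hL2
  -- lower bound for `q`
  have hq4 : L + 5 ≤ q := by
    rw [hq, Nat.le_div_iff_mul_le hL3]
    have h3 : (L + 5) * L ^ 3 = L ^ 4 + 5 * L ^ 3 := by ring
    have h4 : 5 * L ^ 3 ≤ L * L ^ 3 := Nat.mul_le_mul_right _ (by omega)
    have h5 : L * L ^ 3 = L ^ 4 := by ring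
    omega
  -- `KK`
  have hK : KK n ≤ (L + 1) ^ 2 := by
    rw [KK]
    apply Nat.pow_le_pow_left
    have h3 : Nat.log 2 (Lam n) ≤ L := by
      rw [hLam]
      have h4 : q + 1 ≤ n := by omega
      rw [hL]
      exact Nat.log_mono_right h4
    omega
  have hK1 : (L + 1) ^ 2 ≤ 2 * L ^ 2 := by nlinarith
  have hK2 : KK n ≤ 2 * L ^ 2 := hK.trans hK1
  have hK0 : 1 ≤ KK n := by
    rw [KK]
    exact Nat.one_le_pow _ _ (by omega)
  have hKL : KK n * (8 * Lam n + 2 * KK n + 40) ≤ 16 * (L ^ 2 * q) + 8 * L ^ 4 + 96 * L ^ 2 := by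
    rw [hLam]
    calc KK n * (8 * (q + 1) + 2 * KK n + 40)
        ≤ 2 * L ^ 2 * (8 * (q + 1) + 2 * (2 * L ^ 2) + 40) :=
          Nat.mul_le_mul hK2 (by omega)
      _ = 16 * (L ^ 2 * q) + 8 * L ^ 4 + 96 * L ^ 2 := by ring
  have haa : aa 0 n = n / 3 + 2 + KK n * (8 * Lam n + 2 * KK n + 40) := by rw [aa, Nat.sub_zero]
  refine ⟨?_, ?_, hK0, ?_, ?_, ?_⟩
  · have : (16 : ℕ) ≤ 2 ^ 200 := by norm_num
    omega
  · rw [hLam]
    omega
  · rw [haa, hLam] at *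
    omega
  · rw [hLam]
    rw [Nat.le_div_iff_mul_le (by norm_num)]
    omega
  · rw [hLam]
    have h3 : 2 ^ (L + 5) ≤ 2 ^ (q + 1) := Nat.pow_le_pow_right (by norm_num) (by omega)
    have h4 : 2 ^ (L + 5) = 16 * 2 ^ (L + 1) := by ring
    omega

end Pool.Agent.ABO

section
end
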