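import Pool.Agent.Lib_helper27.ABO.Fm
import Pool.Agent.Lib_helper74.IS.All

/-!
# ABO, block NB: numbers of stages (port of block N of the project ISO)
-/

set_option autoImplicit false

namespace Pool.Agent.ABO

open Pool.Agent.CK
open Pool.Agent.TD (Str su sj st Act se sm sM sn sD ZSet Z Q unitv Lam KK dd)
open Pool.Agent.TD.IS (PosI Stg uq patchI simI evM icode idec strip ISet posK zs updI PLW PTW
  invTreeW thrX invTab excI LocalWith PolyLocal Cls EL)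

/-- NB -/
theorem NN_ge {n k : ℕ} (h : 16 ≤ n) (hn : n < 3 * sM k) :
    8 * dd n * Del (k + 1) n ≤ NN k := by
  have h1 := TD.Lam_mono h hn.le
  have h2 := TD.KK_mono h hn.le
  unfold NN Del dd
  refine Nat.mul_le_mul (Nat.mul_le_mul_left _ (Nat.pow_le_pow_right (by norm_num) h1)) ?_
  exact Nat.pow_le_pow_right (by norm_num) (by omega)

/-- polynomial inequalities -/
theorem nb_num_aux (T P : ℕ) (hT : 18 ≤ T) (h : 32 * T ^ 3 ≤ P) :
    8 * T ^ 2 + 10 * T + 15 ≤ P ∧ 5845 ≤ P := by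
  obtain ⟨s, rfl⟩ := Nat.exists_eq_add_of_le hT
  have h1 : 32 * (18 + s) ^ 3 = 32 * s ^ 3 + 1728 * s ^ 2 + 31104 * s + 186624 := by ring
  have h2 : 8 * (18 + s) ^ 2 + 10 * (18 + s) + 15 = 8 * s ^ 2 + 298 * s + 2787 := by ring
  omega

theorem nb_P_aux (P : ℕ) (h : 5845 ≤ P) : 14 * P ≤ P ^ 3 ∧ 2 ≤ P ^ 4 ∧
    (5 * P + 1 + (6 * P + 14 + P * (10 * P + 40)) + 2) * 3 ≤ P ^ 4 := by
  have h2 : 14 * P ≤ P * P := Nat.mul_le_mul (by omega) le_rfl
  have h3 : 154 * P ≤ P * P := Nat.mul_le_mul (by omega) le_rfl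
  have h4 : P * P ≤ P * P * P := Nat.le_mul_of_pos_right _ (by omega)
  have h5 : 31 * (P * P) ≤ P * P * (P * P) := Nat.mul_le_mul (by omega) le_rfl
  have e3 : P ^ 3 = P * P * P := by ring
  have e4 : P ^ 4 = P * P * (P * P) := by ring
  have e5 : (5 * P + 1 + (6 * P + 14 + P * (10 * P + 40)) + 2) * 3 =
      30 * (P * P) + 153 * P + 51 := by
    ring
  rw [e3, e4, e5]
  refine ⟨by omega, by omega, by omega⟩

theorem nb_exp_aux (T P : ℕ) (h : 8 * T ^ 2 + 10 * T + 15 ≤ P) :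
    4 * P + 4 * (T + 1) ^ 2 + 4 * T ^ 2 + 2 * T + 11 ≤ 5 * P ∧
    4 * T + (4 * T ^ 2 + 2 * T + (6 * P + 1)) ≤ 14 * P ∧ (T + 1) ^ 2 ≤ P ∧
    4 * T ^ 2 + 2 * T ≤ 14 * P ∧ 2 * P + 2 * (T + 1) ^ 2 + 3 ≤ 3 * P ∧
    4 * T ^ 2 + 2 * T + 9 ≤ P := by
  have e : (T + 1) ^ 2 = T ^ 2 + 2 * T + 1 := by ring
  rw [e]
  refine ⟨by omega, by omega, by omega, by omega, by omega, by omega⟩

/-- NB -/
theorem exists_t0 (n0 : ℕ) : ∃ t0 : ℕ → ℕ, ∀ k, Act t0 k → NumK n0 k := by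
  refine ⟨fun j => j + n0 + 20, fun k hk => ?_⟩
  obtain ⟨h5, h2, ht⟩ := hk
  obtain ⟨T, hT⟩ : ∃ T, T = 2 ^ (st k + 1) := ⟨_, rfl⟩
  have hsM : sM k = 2 ^ T := by rw [hT]; rfl
  have hsn : sn k = 2 ^ (4 * T) := by
    rw [hT]; unfold sn; congr 1; rw [pow_add, pow_add]; ring
  have hsu : su k = st k + 2 * sj k := by
    have : st k = su k - 2 * sj k := rfl
    omega
  have hk : k = su k * su k + sj k := by
    have h1 : sj k = k - su k * su k := rfl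
    have h3 : su k * su k ≤ k := Nat.sqrt_le k
    omega
  have htT : st k < 2 ^ st k := Nat.lt_two_pow_self
  have hT2 : T = 2 * 2 ^ st k := by rw [hT, pow_succ]; ring
  simp only at ht
  have hT18 : 18 ≤ T := by omega
  have hjT : sj k + 1 ≤ T := by omega
  have hL := TD.nu3_Lam_small T hT18
  have hK := TD.nu3_KK_small T hT18
  have hL' := TD.nu3_Lam_large T hT18
  have hK' := TD.nu3_KK_large T hT18
  have hsuT : su k ≤ 3 * T := by omega
  have hsjT : sj k ≤ su k := by omega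
  have hn0T : n0 ≤ 4 * T := by omega
  clear hT2 htT hT ht
  -- powers
  obtain ⟨P, hP⟩ : ∃ P, P = 2 ^ T := ⟨_, rfl⟩
  have hbig := TD.nu3_pow_big T hT18
  rw [← hP] at hbig
  obtain ⟨hTP, hP1⟩ := nb_num_aux T P hT18 hbig
  obtain ⟨hq1, hq2, hq3, hq4, hq5, hq6⟩ := nb_exp_aux T P hTP
  obtain ⟨hp1, hp2, hp3⟩ := nb_P_aux P hP1
  have hP3 : 2 ^ (3 * T) = P ^ 3 := by rw [hP, ← pow_mul]; congr 1; ring
  have hP4 : 2 ^ (4 * T) = P ^ 4 := by rw [hP, ← pow_mul]; congr 1; ring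
  clear hbig hTP
  -- qb
  have hs2 : 3 * sn k + 2 ≤ 2 ^ (4 * T + 2) := by
    rw [hsn, pow_add, hP4]
    omega
  have hqb : qb k ≤ 2 ^ ((4 * T + 2) * (sj k + 1)) := by
    unfold qb TD.qb
    rw [pow_mul]
    exact Nat.pow_le_pow_left hs2 _
  have hjj : (4 * T + 2) * (sj k + 1) ≤ 4 * T ^ 2 + 2 * T := by
    calc (4 * T + 2) * (sj k + 1) ≤ (4 * T + 2) * T := Nat.mul_le_mul le_rfl hjT
      _ = 4 * T ^ 2 + 2 * T := by ring
  have hjj0 : (4 * T + 2) * sj k ≤ 4 * T ^ 2 + 2 * T :=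
    le_trans (Nat.mul_le_mul le_rfl (Nat.le_succ _)) hjj
  have hqb2 : qb k ≤ 2 ^ (4 * T ^ 2 + 2 * T) :=
    hqb.trans (Nat.pow_le_pow_right (by norm_num) hjj)
  -- NN
  have hdd : dd (3 * sM k) ≤ 2 ^ P := by
    unfold dd; rw [hsM]; apply Nat.pow_le_pow_right (by norm_num); rw [hP]; exact hL
  have hNN : NN k ≤ 2 ^ (2 * P + 2 * (T + 1) ^ 2 + 3) := by
    unfold NN
    rw [hsM] at hdd ⊢
    calc 8 * dd (3 * 2 ^ T) * 2 ^ (Lam (3 * 2 ^ T) + 2 * KK (3 * 2 ^ T))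
        ≤ 2 ^ 3 * 2 ^ P * 2 ^ (P + 2 * (T + 1) ^ 2) := by
          apply Nat.mul_le_mul (Nat.mul_le_mul le_rfl hdd)
          apply Nat.pow_le_pow_right (by norm_num)
          rw [hP]
          omega
      _ = 2 ^ (2 * P + 2 * (T + 1) ^ 2 + 3) := by
          rw [← pow_add, ← pow_add]
          congr 1
          ring
  have hlen : lenk k ≤ 2 ^ (4 * P + 4 * (T + 1) ^ 2 + 4 * T ^ 2 + 2 * T + 11) := by
    unfold lenk
    have h1 : 2 * (qb k + 1) + 1 ≤ 2 ^ (4 * T ^ 2 + 2 * T + 3) := by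
      rw [pow_add]
      have : 1 ≤ 2 ^ (4 * T ^ 2 + 2 * T) := Nat.one_le_pow _ _ (by norm_num)
      omega
    calc 4 * NN k ^ 2 * (2 * (qb k + 1) + 1)
        ≤ 2 ^ 2 * (2 ^ (2 * P + 2 * (T + 1) ^ 2 + 3)) ^ 2 * 2 ^ (4 * T ^ 2 + 2 * T + 3) :=
          Nat.mul_le_mul (Nat.mul_le_mul le_rfl (Nat.pow_le_pow_left hNN 2)) h1
      _ = 2 ^ (4 * P + 4 * (T + 1) ^ 2 + 4 * T ^ 2 + 2 * T + 11) := by
          rw [← pow_mul, ← pow_add, ← pow_add]
          congr 1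
          ring
  have hlen2 : lenk k ≤ 2 ^ (5 * P) := hlen.trans (Nat.pow_le_pow_right (by norm_num) hq1)
  have hddn : 2 ^ (P ^ 3) ≤ dd (sn k) := by
    unfold dd; rw [hsn]; apply Nat.pow_le_pow_right (by norm_num); rw [← hP3]; exact hL'
  constructor
  · -- n0 ≤ sn k
    rw [hsn]
    exact hn0T.trans (Nat.lt_two_pow_self).le
  · -- k < KK
    rw [hsn]
    refine lt_of_lt_of_le ?_ hK'
    have h3 : su k * su k ≤ 3 * T * (3 * T) := Nat.mul_le_mul hsuT hsuT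
    have e : (3 * T + 1) ^ 2 = 3 * T * (3 * T) + 6 * T + 1 := by ring
    rw [e]
    omega
  · -- depth
    refine le_trans ?_ hddn
    have h1 : (3 * sn k + 2) ^ sj k ≤ 2 ^ (4 * T ^ 2 + 2 * T) := by
      calc (3 * sn k + 2) ^ sj k ≤ (2 ^ (4 * T + 2)) ^ sj k := Nat.pow_le_pow_left hs2 _
        _ = 2 ^ ((4 * T + 2) * sj k) := by rw [pow_mul]
        _ ≤ 2 ^ (4 * T ^ 2 + 2 * T) := Nat.pow_le_pow_right (by norm_num) hjj0
    have h3 : lenk k * dd (3 * sM k) + 1 ≤ 2 ^ (6 * P + 1) := by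
      have h4 : lenk k * dd (3 * sM k) ≤ 2 ^ (5 * P) * 2 ^ P := Nat.mul_le_mul hlen2 hdd
      rw [← pow_add, show 5 * P + P = 6 * P by ring] at h4
      have h5' : 1 ≤ 2 ^ (6 * P) := Nat.one_le_pow _ _ (by norm_num)
      rw [pow_succ]
      omega
    calc sn k * ((3 * sn k + 2) ^ sj k * (lenk k * dd (3 * sM k) + 1))
        ≤ 2 ^ (4 * T) * (2 ^ (4 * T ^ 2 + 2 * T) * 2 ^ (6 * P + 1)) :=
          Nat.mul_le_mul hsn.le (Nat.mul_le_mul h1 h3)
      _ = 2 ^ (4 * T + (4 * T ^ 2 + 2 * T + (6 * P + 1))) := by rw [← pow_add, ← pow_add]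
      _ ≤ 2 ^ (P ^ 3) := Nat.pow_le_pow_right (by norm_num) (hq2.trans hp1)
  · -- qb
    refine le_trans ?_ hddn
    refine le_trans (Nat.succ_le_of_lt (lt_of_le_of_lt hqb2
      (Nat.pow_lt_pow_right (by norm_num) (Nat.lt_succ_self _)))) ?_
    exact Nat.pow_le_pow_right (by norm_num) (by omega)
  · refine le_trans (hdd.trans (Nat.pow_le_pow_right (by norm_num) ?_)) hddn
    omega
  · -- card
    have haa : aa 0 (3 * sM k) ≤ P + 2 + (T + 1) ^ 2 * (8 * P + 2 * (T + 1) ^ 2 + 40) := by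
      unfold aa
      rw [hsM]
      have h1 : 3 * 2 ^ T / 3 = P := by rw [hP]; omega
      rw [h1, Nat.sub_zero]
      apply Nat.add_le_add_left
      apply Nat.mul_le_mul hK
      rw [hP]; omega
    have haa2 : aa 0 (3 * sM k) ≤ P + 2 + P * (10 * P + 40) :=
      haa.trans (Nat.add_le_add_left (Nat.mul_le_mul hq3 (by omega)) _)
    have hLP : Lam (3 * sM k) ≤ P := by rw [hsM, hP]; exact hL
    have hKP : KK (3 * sM k) ≤ P := by rw [hsM]; exact hK.trans hq3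
    have h6 : 3 * Lam (3 * sM k) + 2 * KK (3 * sM k) + aa 0 (3 * sM k) + 12 ≤
        6 * P + 14 + P * (10 * P + 40) := by omega
    have h7 : lenk k + 2 ≤ 2 ^ (5 * P + 1) := by
      rw [pow_succ]
      have : 2 ^ 1 ≤ 2 ^ (5 * P) := Nat.pow_le_pow_right (by norm_num) (by omega)
      omega
    have h8 : (lenk k + 2) * 2 ^ (3 * Lam (3 * sM k) + 2 * KK (3 * sM k) +
        aa 0 (3 * sM k) + 12) ≤ 2 ^ (5 * P + 1 + (6 * P + 14 + P * (10 * P + 40))) := by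
      rw [pow_add 2 (5 * P + 1)]
      exact Nat.mul_le_mul h7 (Nat.pow_le_pow_right (by norm_num) h6)
    have h9 : lenk k + 2 ≤ 2 ^ (5 * P + 1 + (6 * P + 14 + P * (10 * P + 40))) :=
      h7.trans (Nat.pow_le_pow_right (by norm_num) (by omega))
    have h10 : excI k + 1 ≤ 2 ^ (8 * P + 6) := by
      unfold excI
      rw [hsM, ← hP, show 8 * P + 6 = 8 * P + 5 + 1 by ring, pow_succ 2 (8 * P + 5)]
      have : 1 ≤ 2 ^ (8 * P + 5) := Nat.one_le_pow _ _ (by norm_num)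
      omega
    have h11 : qb k + 4 ≤ 2 ^ (4 * T ^ 2 + 2 * T + 3) := by
      rw [pow_add]
      have : 1 ≤ 2 ^ (4 * T ^ 2 + 2 * T) := Nat.one_le_pow _ _ (by norm_num)
      omega
    have h12 : (excI k + 1) * (qb k + 4) ≤
        2 ^ (5 * P + 1 + (6 * P + 14 + P * (10 * P + 40))) := by
      refine (Nat.mul_le_mul h10 h11).trans ?_
      rw [← pow_add]
      refine Nat.pow_le_pow_right (by norm_num) ?_
      have : 4 * T ^ 2 + 2 * T + 9 ≤ P := hq6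
      have h13 : P ≤ P * (10 * P + 40) := Nat.le_mul_of_pos_right _ (by omega)
      omega
    calc (lenk k + 2) * 2 ^ (3 * Lam (3 * sM k) + 2 * KK (3 * sM k) + aa 0 (3 * sM k) + 12) +
          lenk k + 2 + (excI k + 1) * (qb k + 4)
        ≤ 2 ^ (5 * P + 1 + (6 * P + 14 + P * (10 * P + 40)) + 2) := by
          rw [pow_add 2 (5 * P + 1 + _) 2]
          omega
      _ ≤ 2 ^ (sn k / 3) := by
          apply Nat.pow_le_pow_right (by norm_num)
          rw [Nat.le_div_iff_mul_le (by norm_num), hsn, hP4]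
          exact hp3
  · -- eps
    refine hNN.trans (Nat.pow_le_pow_right (by norm_num) ?_)
    rw [hsM, ← hP]
    exact hq5


end Pool.Agent.ABO
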