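import Pool.Agent.Lib_helper27.ABO.Fm
import Pool.Agent.Lib_helper74.IS.All

/-!
# Project ABO, block PJ1: positions of a stage
-/

set_option autoImplicit false

namespace Pool.Agent.ABO

open Pool.Agent.CK
open Pool.Agent.TD (Str su sj st Act se sm sM sn sD ZSet Z Q unitv Lam KK dd)
open Pool.Agent.TD.IS (PosI Stg uq patchI simI evM icode idec strip ISet posK zs updI PLW PTW
  invTreeW thrX invTab excI LocalWith PolyLocal Cls EL)

theorem pj1_cases {k : ℕ} {w : Str} {p : PosI (Z k) (Q k) (ℕ × Bool)} (h : pj k w = some p) :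
    ∃ w' : Str, w = true :: w' ∧ posK k w' = some p := by
  rcases w with _ | ⟨b, w⟩
  · exact absurd h (by simp [pj])
  · rcases b with _ | _
    · exact absurd h (by simp [pj])
    · exact ⟨w, rfl, h⟩

/-- PJ1 -/
theorem pj_len {k : ℕ} {w : Str} {p : PosI (Z k) (Q k) (ℕ × Bool)} (h2 : 2 * sj k ≤ su k)
    (h : pj k w = some p) : sD k < w.length := by
  obtain ⟨w', rfl, h'⟩ := pj1_cases h
  have h3 := TD.IS.posK_len h2 h'
  rw [List.length_cons]
  omega


/-- PJ1 -/
theorem pj_inv {k : ℕ} {w : Str} {l : ℕ} {q : Q k} {i : ℕ × Bool}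
    (h : pj k w = some (PosI.inv l q i)) : sM k ≤ q.1.length := by
  obtain ⟨w', rfl, h'⟩ := pj1_cases h
  exact TD.IS.posK_inv h'


theorem pj1_orc (S : Sec) (Tab : ℕ → Str → Str) (k : ℕ) (T : Z k → Q k) (h5 : 5 ≤ sj k)
    (w : Str) : orc S (updI Tab k T) w =
      match posK k w with
      | none => orc S Tab w
      | some (PosI.dir z i) => bit (T z).1 i
      | some (PosI.inv l q i) => bit (zs (uq fun z : Z k => z.1.length = l ∧ T z = q)) i := by
  have he : 32 ≤ se k := by
    unfold se
    exact (by norm_num : 32 = 2 ^ 5).le.trans (Nat.pow_le_pow_right (by norm_num) h5)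
  unfold orc posK
  rcases hw : tdec w with _ | p
  · rfl
  · simp only
    by_cases hp : p.1.1 = se k ∧ p.1.2 ∈ ZSet k
    · rw [dif_pos hp]
      simp only
      unfold val updI
      rw [if_neg (by omega), dif_pos hp]
    · rw [dif_neg hp]
      by_cases hq : p.1.1 = se k + 1 ∧ p.1.2 ∈ ISet k
      · rw [dif_pos hq]
        simp only
        unfold val updI
        rw [if_neg (by omega), dif_neg hp, if_pos hq]
        congr 3
        funext y
        have h1 := hq.2.choose_spec.choose_spec.1
        apply propext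
        constructor
        · rintro ⟨l, q, h2, h3, h4⟩
          rw [h1, Option.some.injEq, Prod.mk.injEq] at h2
          refine ⟨h3.trans h2.1.symm, Subtype.ext ?_⟩
          rw [h4]
          exact h2.2.symm
        · rintro ⟨h3, h4⟩
          exact ⟨_, _, h1, h3, congrArg Subtype.val h4⟩
      · rw [dif_neg hq]
        simp only
        unfold val updI
        rw [dif_neg hp, if_neg hq]

/-- PJ1 -/
theorem OJ_updI (R : Lang) (S : Sec) (Tab : ℕ → Str → Str) (k : ℕ) (T : Z k → Q k)
    (h5 : 5 ≤ sj k) : OJ R S (updI Tab k T) = patchI (stgJ k) (OJ R S Tab) T := by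
  funext w
  rcases w with _ | ⟨b, w⟩
  · rfl
  · rcases b with _ | _
    · rfl
    · show orc S (updI Tab k T) w = _
      rw [pj1_orc S Tab k T h5 w]
      unfold patchI
      have hps : (stgJ k).ps (true :: w) = posK k w := rfl
      rw [hps]
      rcases posK k w with _ | (⟨z, i⟩ | ⟨l, q, i⟩)
      · rfl
      · rfl
      · rfl


/-- PJ1 -/
theorem OJ_low (R : Lang) (S : Sec) (Tab : ℕ → Str → Str) (k : ℕ) (T : Z k → Q k)
    (h5 : 5 ≤ sj k) (h2 : 2 * sj k ≤ su k) (w : Str) (hw : w.length < sD k) :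
    OJ R S (updI Tab k T) w = OJ R S Tab w := by
  rw [OJ_updI R S Tab k T h5]
  unfold patchI
  rcases hp : (stgJ k).ps w with _ | p
  · rfl
  · have hp' : pj k w = some p := hp
    exact absurd (pj_len h2 hp') (by omega)


end Pool.Agent.ABO
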