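import Pool.Agent.Lib_helper27.ABO.Fm
import Pool.Agent.Lib_helper74.IS.All
import Pool.Agent.Lib_helper74.NE.Bridge

/-!
# ABO, block UV1: UP by means of `PTime`
-/

set_option autoImplicit false
set_option linter.unusedSectionVars false

namespace Pool.Agent.CKP

open Pool.Agent.CK

variable {O : Lang}

/-- the run in the proof of `inNP_of` -/
theorem uv1_run {V : List Bool × List Bool → Bool} (hV : PTime O V) {B : ℕ → ℕ}
    (hB : UPoly O B) : ∃ (c : Cmd) (k : ℕ), (∀ x : List Bool, B x.length ≤ (x.length + 2) ^ k) ∧
      ∀ x y : List Bool, Halts O c x y ((x.length + 2) ^ k) ∧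
        (Accepts O c x y ((x.length + 2) ^ k) ↔ V (x, y.take (B x.length)) = true) := by
  have hV' : PTime O (fun q : List Bool × List Bool => V (q.2, q.1)) :=
    hV.comp (PTime.id.snd.pair PTime.id.fst)
  have hU : PTime O (fun x : List Bool => (List.replicate (B x.length) (), x)) :=
    (hB.comp (PTime.id (α := List Bool))).pair PTime.id
  obtain ⟨QB, hQB⟩ := hB.bound
  obtain ⟨FV, ⟨pV, mV, PV, _, _, hV1⟩, hFV⟩ := hV'
  obtain ⟨FU, ⟨pU, mU, PU, _, _, hU1⟩, hFU⟩ := hU
  obtain ⟨k, hk⟩ := exists_pow (16 * Polynomial.X + 40 + 23 * QB +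
    PU.comp (4 * Polynomial.X + 1) + PV.comp (4 * QB + 4 * Polynomial.X + 3))
  refine ⟨npP pU pV, k, ?_⟩
  -- the run
  have hrun : ∀ x y : List Bool, ∃ t ≤ (x.length + 2) ^ k, ∃ σ' : Store, Exec O
      (npP pU pV) (init x y) σ' t ∧
      σ' 0 = (toD (V (x, y.take (B x.length)))).enc := by
    intro x y
    have hi : init x y = S4 (fun _ => []) x y [] [] := by
      funext r
      match r with
      | 0 => rfl
      | 1 => rfl
      | 2 => rfl
      | 3 => rfl
      | n + 4 => rfl
    have hS : ∀ a b r, 2 ≤ r → S4 (fun _ => []) a b [] [] r = [] := by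
      intro a b r hr
      match r, hr with
      | 2, _ => rfl
      | 3, _ => rfl
      | n + 4, _ => rfl
    set N := B x.length with hN
    have e1 : Ex O (mv 0 2) (init x y) (S4 (fun _ => []) [] y x.reverse []) (5 * x.length + 1) := by
      have := mv_ex (O := O) (r := 0) (s := 2) (by decide) x (init x y) rfl
      rw [hi, S4_u2, S4_u0] at this
      rw [hi]
      simpa [S4] using this
    have e2 : Ex O (.push 0 false) (S4 (fun _ => []) [] y x.reverse [])
        (S4 (fun _ => []) [false] y x.reverse []) 1 := by
      have := Ex.push (O := O) 0 false (S4 (fun _ => []) [] y x.reverse [])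
      rw [S4_u0] at this
      exact this
    have e3 : Ex O (conv 2) (S4 (fun _ => []) [false] y x.reverse [])
        (S4 (fun _ => []) (toD x).enc y [] []) (11 * x.length + 1) := by
      have := conv_ex (O := O) (r := 2) (by decide) x.reverse [] []
        (S4 (fun _ => []) [false] y x.reverse []) rfl rfl
      rw [S4_u2, S4_u0] at this
      simpa using this
    have e4 : Ex O (ren ren1 pU) (S4 (fun _ => []) (toD x).enc y [] [])
        (S4 (fun _ => []) (true :: ((toD (List.replicate N ())).enc ++ (toD x).enc)) y [] [])
        (PU.eval (toD x).size) := by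
      have := ren_run hU1 (toD x) ⟨x, rfl⟩ (S4 (fun _ => []) (toD x).enc y [] []) rfl
        (hS _ _)
      rw [S4_u0, hFU] at this
      exact this
    have e5 : Ex O (.pop 0)
        (S4 (fun _ => []) (true :: ((toD (List.replicate N ())).enc ++ (toD x).enc)) y [] [])
        (S4 (fun _ => []) ((toD (List.replicate N ())).enc ++ (toD x).enc) y [] []) 1 := by
      have := Ex.pop (O := O) 0 (S4 (fun _ => [])
        (true :: ((toD (List.replicate N ())).enc ++ (toD x).enc)) y [] [])
      rw [S4_u0] at this
      exact this
    have e6 : Ex O (.push 3 true)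
        (S4 (fun _ => []) ((toD (List.replicate N ())).enc ++ (toD x).enc) y [] [])
        (S4 (fun _ => []) ((toD (List.replicate N ())).enc ++ (toD x).enc) y [] [true]) 1 := by
      have := Ex.push (O := O) 3 true (S4 (fun _ => [])
        ((toD (List.replicate N ())).enc ++ (toD x).enc) y [] [])
      rw [S4_u3] at this
      exact this
    have e7 := takeB_ex (O := O) (fun _ => []) N (toD x).enc y []
    rw [List.append_nil] at e7
    have e8 : Ex O (.push 0 false)
        (S4 (fun _ => []) (toD x).enc (y.drop N) (y.take N).reverse [])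
        (S4 (fun _ => []) (false :: (toD x).enc) (y.drop N) (y.take N).reverse []) 1 := by
      have := Ex.push (O := O) 0 false (S4 (fun _ => [])
        (toD x).enc (y.drop N) (y.take N).reverse [])
      rw [S4_u0] at this
      exact this
    have e9 : Ex O (conv 2)
        (S4 (fun _ => []) (false :: (toD x).enc) (y.drop N) (y.take N).reverse [])
        (S4 (fun _ => []) ((toD (y.take N)).enc ++ (toD x).enc) (y.drop N) [] [])
        (11 * N + 1) := by
      have := conv_ex (O := O) (r := 2) (by decide) (y.take N).reverse [] (toD x).enc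
        (S4 (fun _ => []) (false :: (toD x).enc) (y.drop N) (y.take N).reverse []) rfl rfl
      rw [S4_u2, S4_u0, List.reverse_reverse, List.append_nil] at this
      refine this.mono ?_
      rw [List.length_reverse, List.length_take]
      omega
    have e10 : Ex O (.push 0 true)
        (S4 (fun _ => []) ((toD (y.take N)).enc ++ (toD x).enc) (y.drop N) [] [])
        (S4 (fun _ => []) (toD (y.take N, x)).enc (y.drop N) [] []) 1 := by
      have := Ex.push (O := O) 0 true (S4 (fun _ => [])
        ((toD (y.take N)).enc ++ (toD x).enc) (y.drop N) [] [])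
      rw [S4_u0] at this
      exact this
    have e11 : Ex O (ren ren1 pV) (S4 (fun _ => []) (toD (y.take N, x)).enc (y.drop N) [] [])
        (S4 (fun _ => []) (toD (V (x, y.take N))).enc (y.drop N) [] [])
        (PV.eval (toD (y.take N, x)).size) := by
      have := ren_run hV1 (toD (y.take N, x)) ⟨_, rfl⟩
        (S4 (fun _ => []) (toD (y.take N, x)).enc (y.drop N) [] []) rfl (hS _ _)
      rw [S4_u0, hFV] at this
      exact this
    obtain ⟨t, ht, he⟩ := e1.seq (e2.seq (e3.seq (e4.seq (e5.seq (e6.seq (e7.seq (e8.seq
      (e9.seq (e10.seq e11)))))))))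
    refine ⟨t, ht.trans (le_trans ?_ (hk x.length)), _, he, rfl⟩
    have g1 := poly_mono PU (size_bits x)
    have g2 : (toD (y.take N, x)).size ≤ 4 * QB.eval x.length + 4 * x.length + 3 := by
      have g3 : (toD (y.take N, x)).size = (toD (y.take N)).size + (toD x).size + 1 := rfl
      have g4 := size_bits x
      have g5 := size_bits (y.take N)
      have g6 : (y.take N).length ≤ N := by rw [List.length_take]; omega
      have g7 := hQB x.length
      omega
    have g3 := poly_mono PV g2
    have g4 := hQB x.length
    simp only [Polynomial.eval_comp, Polynomial.eval_add, Polynomial.eval_mul,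
      Polynomial.eval_ofNat, Polynomial.eval_X, Polynomial.eval_one]
    omega
  have hacc : ∀ x y : List Bool, Halts O (npP pU pV) x y ((x.length + 2) ^ k) ∧
      (Accepts O (npP pU pV) x y ((x.length + 2) ^ k) ↔
        V (x, y.take (B x.length)) = true) := by
    intro x y
    obtain ⟨t, ht, σ', he, h0⟩ := hrun x y
    have := he.run ht
    unfold Halts Accepts
    rw [this]
    refine ⟨rfl, ?_⟩
    simp only [true_and]
    rw [h0]
    cases V (x, y.take (B x.length)) <;> simp [ToD.toD, D.enc]
  have hBk : ∀ x : List Bool, B x.length ≤ (x.length + 2) ^ k := by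
    intro x
    refine le_trans ?_ (hk x.length)
    have g4 := hQB x.length
    simp only [Polynomial.eval_comp, Polynomial.eval_add, Polynomial.eval_mul,
      Polynomial.eval_ofNat, Polynomial.eval_X, Polynomial.eval_one]
    omega
  exact ⟨hBk, hacc⟩

end Pool.Agent.CKP

namespace Pool.Agent.ABO

open Pool.Agent.CK
open Pool.Agent.TD (Str su sj st Act se sm sM sn sD ZSet Z Q unitv Lam KK dd)
open Pool.Agent.TD.IS (PosI Stg uq patchI simI evM icode idec strip ISet posK zs updI PLW PTW
  invTreeW thrX invTab excI LocalWith PolyLocal Cls EL)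

/-- UV1: as `NE/Bridge`, `inNP_of`: the program takes the first `|x| + 1` bits of the witness -/
theorem inUP_of {O A : Lang} {V : List Bool × List Bool → Bool} (hV : CKP.PTime O V)
    (hA : ∀ x, A x = true ↔ ∃ y : Str, V (x, y) = true)
    (hl : ∀ x y : Str, V (x, y) = true → y.length ≤ x.length)
    (hu : ∀ x y y' : Str, V (x, y) = true → V (x, y') = true → y = y') : InUP O A := by
  obtain ⟨c, k, hB, h⟩ := CKP.uv1_run hV (B := fun n => n + 1)
    (CKP.UPoly.id.add (CKP.UPoly.const 1))
  have htake : ∀ x y : Str, V (x, y.take (x.length + 1)) = true → y.take (x.length + 1) = y := by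
    intro x y hy
    have h1 := hl x _ hy
    rw [List.length_take] at h1
    exact List.take_of_length_le (by omega)
  refine ⟨c, k, fun x y _ => (h x y).1, fun x => ?_, fun x y y' _ _ hy hy' => ?_⟩
  · rw [hA]
    constructor
    · rintro ⟨y, hy⟩
      have h1 := hl x y hy
      have h2 := hB x
      refine ⟨y, by omega, (h x y).2.2 ?_⟩
      rw [List.take_of_length_le (by omega)]
      exact hy
    · rintro ⟨y, -, hy⟩
      exact ⟨_, (h x y).2.1 hy⟩
  · have h1 := (h x y).2.1 hy
    have h2 := (h x y').2.1 hy'
    have h3 := hu x _ _ h1 h2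
    rwa [htake x y h1, htake x y' h2] at h3

end Pool.Agent.ABO

section
end
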