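import Pool.Agent.Lib_helper27.ABO.Fm
import Pool.Agent.Lib_helper74.IS.All
import Pool.Agent.Lib_helper27.ABO.B.PJ2
import Pool.Agent.Lib_helper27.ABO.B.UV1

/-!
# Project ABO, block UV2: the secret language is in UP and in coUP (helper36)
-/

set_option autoImplicit false

namespace Pool.Agent.ABO

open Pool.Agent.CK
open Pool.Agent.TD (Str su sj st Act se sm sM sn sD ZSet Z Q unitv Lam KK dd)
open Pool.Agent.TD.IS (PosI Stg uq patchI simI evM icode idec strip ISet posK zs updI PLW PTW
  invTreeW thrX invTab excI LocalWith PolyLocal Cls EL)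

/-! ### the question about the secret -/

/-- the address of the entry `(1, z)` -/
def uv2_adr (z : Str) : Str :=
  true :: true :: true :: false :: true :: false ::
    ((z.map fun _ => true) ++ (true :: true :: false :: z))

theorem uv2_adr_eq (z : Str) : uv2_adr z = true :: taddr 1 z 0 true := by
  have h : ∀ n : ℕ, ∀ l : Str, List.replicate (n + 2) true ++ l =
      List.replicate n true ++ (true :: true :: l) := by
    intro n l
    induction n with
    | zero => rfl
    | succ n ih =>
      rw [show n + 1 + 2 = (n + 2) + 1 from rfl, List.replicate_succ, List.cons_append, ih,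
        List.replicate_succ, List.cons_append]
  unfold uv2_adr taddr
  simp only [ones, alen, one_pow, pow_one, List.replicate_zero, List.nil_append,
    List.replicate_one, List.cons_append, h, List.map_const']

theorem uv2_adr_pt {O : Lang} {α : Type} [CKP.ToD α] {f : α → Str} (hf : CKP.PTime O f) :
    CKP.PTime O (fun a => uv2_adr (f a)) := by
  have hm : CKP.PTime O (fun a => (f a).map fun _ => true) :=
    CKP.PTime.map (f := fun _ _ => true) hf (CKP.PTime.const true)
  exact (CKP.PTime.const true).cons ((CKP.PTime.const true).cons ((CKP.PTime.const true).cons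
    ((CKP.PTime.const false).cons ((CKP.PTime.const true).cons ((CKP.PTime.const false).cons
    (hm.append ((CKP.PTime.const true).cons ((CKP.PTime.const true).cons
      ((CKP.PTime.const false).cons hf)))))))))

/-- the first part of `w`, if `|w| = 2 |y|` -/
def uv2_x (p : Str × Str) : Str := (p.1.reverse.drop p.2.length).reverse

theorem uv2_x_eq (w y : Str) : uv2_x (w, y) = w.take (w.length - y.length) := by
  unfold uv2_x
  simp only
  rw [List.drop_reverse, List.reverse_reverse]

theorem uv2_x_pt {O : Lang} : CKP.PTime O uv2_x := by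
  have h : CKP.PTime O (fun p : Str × Str => CKP.udrop p.2 p.1.reverse) :=
    CKP.PTime.udrop CKP.PTime.id.snd CKP.PTime.id.fst.reverse
  refine h.reverse.of_eq fun p => ?_
  rw [CKP.udrop_eq]
  rfl

/-- the second part -/
theorem uv2_u_pt {O : Lang} : CKP.PTime O (fun p : Str × Str => p.1.drop p.2.length) := by
  have h : CKP.PTime O (fun p : Str × Str => CKP.udrop p.2 p.1) :=
    CKP.PTime.udrop CKP.PTime.id.snd CKP.PTime.id.fst
  exact h.of_eq fun p => CKP.udrop_eq _ _

/-! ### a common `1` -/

/-- state: rest of `u`, found -/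
def uv2_s (s : Str × Bool) (a : Bool) : Str × Bool := (s.1.tail, s.2 || (a && s.1.headD false))

theorem uv2_fold (y : Str) : ∀ (u : Str) (b : Bool), (y.foldl uv2_s (u, b)).2 =
    (b || (List.zipWith (fun a b => a && b) y u).any id) := by
  induction y with
  | nil => intro u b; simp
  | cons a t ih =>
    intro u b
    rw [List.foldl_cons]
    cases u with
    | nil =>
      have h := ih [] b
      simp only [uv2_s, List.tail_nil, List.headD_nil, Bool.and_false, Bool.or_false,
        List.zipWith_nil_right, List.any_nil] at h ⊢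
      exact h
    | cons c u =>
      show (t.foldl uv2_s (u, b || (a && c))).2 = _
      rw [ih, List.zipWith_cons_cons, List.any_cons, Bool.or_assoc]
      rfl

/-- `y` and the second part of `w` have a common `1` -/
def uv2_c (p : Str × Str) : Bool := (p.2.foldl uv2_s (p.1.drop p.2.length, false)).2

theorem uv2_c_eq (w y : Str) : uv2_c (w, y) =
    (List.zipWith (fun a b => a && b) y (w.drop y.length)).any id := by
  unfold uv2_c
  rw [uv2_fold, Bool.false_or]

theorem uv2_c_pt {O : Lang} : CKP.PTime O uv2_c := by
  have hs : CKP.PTime O (fun p : (Str × Str) × ((Str × Bool) × Bool) => uv2_s p.2.1 p.2.2) := by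
    have h1 : CKP.PTime O (fun p : (Str × Str) × ((Str × Bool) × Bool) => p.2.1.1) :=
      CKP.PTime.id.snd.fst.fst
    have h2 : CKP.PTime O (fun p : (Str × Str) × ((Str × Bool) × Bool) => p.2.1.2) :=
      CKP.PTime.id.snd.fst.snd
    have h3 : CKP.PTime O (fun p : (Str × Str) × ((Str × Bool) × Bool) => p.2.2) :=
      CKP.PTime.id.snd.snd
    exact h1.tail.pair (h2.or (h3.and (h1.headD (CKP.PTime.const false))))
  have h := CKP.PTime.foldl_add (O := O) (l := fun p : Str × Str => p.2)
    (i := fun p : Str × Str => (p.1.drop p.2.length, false)) (s := fun _ s a => uv2_s s a)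
    CKP.PTime.id.snd (uv2_u_pt.pair (CKP.PTime.const false)) hs (Polynomial.C 3) (by
      intro x b a _
      have h1 := CKP.sz_tail_le b.1
      have h2 : CKP.sz (b.2 || (a && b.1.headD false)) ≤ 3 := by
        cases (b.2 || (a && b.1.headD false)) <;> simp
      show CKP.sz (b.1.tail, b.2 || (a && b.1.headD false)) ≤ CKP.sz (b.1, b.2) + _
      rw [CKP.sz_pair, CKP.sz_pair, Polynomial.eval_C]
      have h3 := CKP.sz_pos b.2
      omega)
  exact h.snd

/-! ### the verifiers -/

section ver

variable (R : Lang) (S : Sec) (Tab : ℕ → Str → Str)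

/-- `y` is the secret of the first half of `w` -/
noncomputable def uv2_V (p : Str × Str) : Bool :=
  decide (p.1.length = p.2.length + p.2.length) && OJ R S Tab (uv2_adr (uv2_x p ++ p.2))

theorem uv2_V_pt : CKP.PTime (OJ R S Tab) (uv2_V R S Tab) := by
  have h1 : CKP.PTime (OJ R S Tab)
      (fun p : Str × Str => decide (p.1.length = p.2.length + p.2.length)) :=
    CKP.PTime.nat_eq CKP.PTime.id.fst.length
      (CKP.PTime.nat_add CKP.PTime.id.snd.length CKP.PTime.id.snd.length)
  exact h1.and (CKP.PTime.ask (uv2_adr_pt (uv2_x_pt.append CKP.PTime.id.snd)))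

theorem uv2_sv_len (x : Str) : (sv S x).length = x.length := (S x.length ⟨x, rfl⟩).2

theorem uv2_ask (x y : Str) (h : y.length = x.length) :
    OJ R S Tab (uv2_adr (x ++ y)) = decide (sv S x = y) := by
  rw [uv2_adr_eq]
  exact OJ_secret R S Tab x.length ⟨x, rfl⟩ y h

theorem uv2_V_iff (w y : Str) : uv2_V R S Tab (w, y) = true ↔
    w.length = 2 * (w.length / 2) ∧ sv S (w.take (w.length / 2)) = y := by
  unfold uv2_V
  simp only [Bool.and_eq_true, decide_eq_true_eq]
  by_cases h : w.length = y.length + y.length
  · have h2 : w.length / 2 = y.length := by omega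
    have h3 : w.length - y.length = y.length := by omega
    rw [uv2_x_eq, h3, uv2_ask R S Tab _ _ (by rw [List.length_take]; omega), decide_eq_true_eq, h2]
    constructor
    · rintro ⟨_, h4⟩
      exact ⟨by omega, h4⟩
    · rintro ⟨_, h4⟩
      exact ⟨h, h4⟩
  · constructor
    · rintro ⟨h1, _⟩
      exact absurd h1 h
    · rintro ⟨h1, h2⟩
      have h3 := congrArg List.length h2
      rw [uv2_sv_len, List.length_take] at h3
      omega

theorem uv2_drop {w y : Str} (h : uv2_V R S Tab (w, y) = true) :
    uv2_c (w, y) = (List.zipWith (fun a b => a && b) (sv S (w.take (w.length / 2)))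
      (w.drop (w.length / 2))).any id := by
  obtain ⟨h1, h2⟩ := (uv2_V_iff R S Tab w y).1 h
  have h3 := congrArg List.length h2
  rw [uv2_sv_len, List.length_take] at h3
  have h4 : y.length = w.length / 2 := by omega
  rw [uv2_c_eq, h2, h4]

theorem inUP_VV : InUP (OJ R S Tab) (VV S) := by
  refine inUP_of (V := fun p => uv2_V R S Tab p && uv2_c p)
    ((uv2_V_pt R S Tab).and uv2_c_pt) (fun w => ?_) (fun w y h => ?_) (fun w y y' h h' => ?_)
  · simp only [Bool.and_eq_true]
    unfold VV
    constructor
    · intro h
      by_cases hw : w.length = 2 * (w.length / 2)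
      · rw [if_pos hw] at h
        have h1 : uv2_V R S Tab (w, sv S (w.take (w.length / 2))) = true :=
          (uv2_V_iff R S Tab w _).2 ⟨hw, rfl⟩
        exact ⟨_, h1, by rw [uv2_drop R S Tab h1]; exact h⟩
      · rw [if_neg hw] at h
        exact absurd h (by simp)
    · rintro ⟨y, h1, h2⟩
      rw [if_pos ((uv2_V_iff R S Tab w y).1 h1).1]
      rw [uv2_drop R S Tab h1] at h2
      exact h2
  · simp only [Bool.and_eq_true] at h
    have h1 := congrArg List.length ((uv2_V_iff R S Tab w y).1 h.1).2
    rw [uv2_sv_len, List.length_take] at h1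
    omega
  · simp only [Bool.and_eq_true] at h h'
    rw [← ((uv2_V_iff R S Tab w y).1 h.1).2, ← ((uv2_V_iff R S Tab w y').1 h'.1).2]

theorem inUP_compl_VV : InUP (OJ R S Tab) (fun x => !VV S x) := by
  have hpt : CKP.PTime (OJ R S Tab) (fun p : Str × Str =>
      (uv2_V R S Tab p && !uv2_c p) || (p.1.length.bodd && p.2.isEmpty)) :=
    ((uv2_V_pt R S Tab).and uv2_c_pt.not).or
      (CKP.PTime.id.fst.length.bodd.and CKP.PTime.id.snd.isNil)
  have hodd : ∀ w : Str, w.length.bodd = true ↔ ¬ w.length = 2 * (w.length / 2) := by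
    intro w
    have h := Nat.bodd_add_div2 w.length
    rw [Nat.div2_val] at h
    cases hb : w.length.bodd
    · rw [hb] at h
      simp only [Bool.toNat_false] at h
      simp only [Bool.false_eq_true, false_iff, not_not]
      omega
    · rw [hb] at h
      simp only [Bool.toNat_true] at h
      simp only [true_iff]
      omega
  refine inUP_of hpt (fun w => ?_) (fun w y h => ?_) (fun w y y' h h' => ?_)
  · simp only [Bool.or_eq_true, Bool.and_eq_true, hodd, Bool.not_eq_true', List.isEmpty_iff]
    unfold VV
    by_cases hw : w.length = 2 * (w.length / 2)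
    · rw [if_pos hw]
      constructor
      · intro h
        have h1 : uv2_V R S Tab (w, sv S (w.take (w.length / 2))) = true :=
          (uv2_V_iff R S Tab w _).2 ⟨hw, rfl⟩
        exact ⟨_, Or.inl ⟨h1, by rw [uv2_drop R S Tab h1]; exact h⟩⟩
      · rintro ⟨y, h | h⟩
        · rw [← uv2_drop R S Tab h.1]
          exact h.2
        · exact absurd hw h.1
    · rw [if_neg hw]
      exact ⟨fun _ => ⟨[], Or.inr ⟨hw, rfl⟩⟩, fun _ => rfl⟩
  · simp only [Bool.or_eq_true, Bool.and_eq_true, List.isEmpty_iff] at h
    rcases h with h | h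
    · have h1 := congrArg List.length ((uv2_V_iff R S Tab w y).1 h.1).2
      rw [uv2_sv_len, List.length_take] at h1
      omega
    · rw [h.2]
      exact Nat.zero_le _
  · simp only [Bool.or_eq_true, Bool.and_eq_true, hodd, List.isEmpty_iff] at h h'
    rcases h with h | h <;> rcases h' with h' | h'
    · rw [← ((uv2_V_iff R S Tab w y).1 h.1).2, ← ((uv2_V_iff R S Tab w y').1 h'.1).2]
    · exact absurd ((uv2_V_iff R S Tab w y).1 h.1).1 h'.1
    · exact absurd ((uv2_V_iff R S Tab w y').1 h'.1).1 h.1
    · rw [h.2, h'.2]

end ver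


end Pool.Agent.ABO
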