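import Pool.Agent.Lib_helper27.ABO.Fm
import Pool.Agent.Lib_helper74.IS.All

/-!
# ABO block UW1: union bound and table stage with weights
-/

set_option autoImplicit false

namespace Pool.Agent.ABO

open Pool.Agent.CK
open Pool.Agent.TD (Str su sj st Act se sm sM sn sD ZSet Z Q unitv Lam KK dd)
open Pool.Agent.TD.IS (PosI Stg uq patchI simI evM icode idec strip ISet posK zs updI PLW PTW
  invTreeW thrX invTab excI LocalWith PolyLocal Cls EL)

theorem uw1_ind_nonneg (b : Bool) : 0 ≤ ind b := by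
  cases b <;> simp [ind]

section prob

variable {Zt Qt ι : Type} [Fintype Zt] [DecidableEq Zt] [Fintype Qt] [DecidableEq Qt]

theorem union_boundW {μ : Zt → Qt → ℝ} (hμ : IsPD μ) {Λ : Type} (I : Finset Λ) {α : Λ → Type}
    (Fm : ∀ n, Set (α n)) (bad : ∀ n, α n → (Zt → Qt) → Bool) (a b : Λ → ℕ)
    (hcard : ∀ n ∈ I, CardBd (Fm n) (a n))
    (hbad : ∀ n ∈ I, ∀ A ∈ Fm n, Pr μ [] (fun T => ind (bad n A T)) ≤ (1 / 2 : ℝ) ^ (a n + b n))
    (hb : ∑ n ∈ I, (1 / 2 : ℝ) ^ b n < 1 / 2)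
    (F : (Zt → Qt) → Bool) (hF : Pr μ [] (fun T => ind (F T)) ≤ 1 / 2) :
    ∃ T, (∀ z, μ z (T z) ≠ 0) ∧ F T = false ∧ ∀ n ∈ I, ∀ A ∈ Fm n, bad n A T = false := by
  classical
  -- finite sets
  let s : ∀ n, Finset (α n) := fun n => if h : (Fm n).Finite then h.toFinset else ∅
  have hs : ∀ n ∈ I, ∀ A, A ∈ s n ↔ A ∈ Fm n := by
    intro n hn A
    have hf := (hcard n hn).1
    simp only [s, dif_pos hf, Set.Finite.mem_toFinset]
  have hsc : ∀ n ∈ I, (s n).card ≤ 2 ^ a n := by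
    intro n hn
    have hf := (hcard n hn).1
    have h := (hcard n hn).2
    rw [Set.ncard_eq_toFinset_card (Fm n) hf] at h
    simpa only [s, dif_pos hf] using h
  -- expectation
  have h1 : ∀ n ∈ I, ∑ A ∈ s n, Pr μ [] (fun T => ind (bad n A T)) ≤ (1 / 2 : ℝ) ^ b n := by
    intro n hn
    calc ∑ A ∈ s n, Pr μ [] (fun T => ind (bad n A T))
        ≤ ∑ A ∈ s n, (1 / 2 : ℝ) ^ (a n + b n) :=
          Finset.sum_le_sum fun A hA => hbad n hn A ((hs n hn A).1 hA)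
      _ = (s n).card * (1 / 2 : ℝ) ^ (a n + b n) := by
          rw [Finset.sum_const, nsmul_eq_mul]
      _ ≤ (2 : ℝ) ^ a n * (1 / 2 : ℝ) ^ (a n + b n) := by
          apply mul_le_mul_of_nonneg_right _ (by positivity)
          exact_mod_cast hsc n hn
      _ = (1 / 2 : ℝ) ^ b n := by
          rw [pow_add, ← mul_assoc, ← mul_pow]
          norm_num
  have h2 : ∑ n ∈ I, ∑ A ∈ s n, Pr μ [] (fun T => ind (bad n A T)) < 1 / 2 :=
    lt_of_le_of_lt (Finset.sum_le_sum fun n hn => h1 n hn) hb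
  have h3 : 0 < Pr μ [] (fun T => 1 + (-1) * (ind (F T) +
      ∑ n ∈ I, ∑ A ∈ s n, ind (bad n A T))) := by
    have e1 : Pr μ [] (fun T => ∑ n ∈ I, ∑ A ∈ s n, ind (bad n A T)) =
        ∑ n ∈ I, ∑ A ∈ s n, Pr μ [] (fun T => ind (bad n A T)) := by
      rw [pm_sum]
      exact Finset.sum_congr rfl fun n _ => pm_sum _ _ _ _
    rw [Pr_add, Pr_mul, Pr_one hμ, Pr_add, e1]
    linarith
  obtain ⟨T, hT1, hT2⟩ := Pr_pos hμ [] _ h3
  have hnn : ∀ m, (0 : ℝ) ≤ ∑ A ∈ s m, ind (bad m A T) :=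
    fun m => Finset.sum_nonneg fun A _ => uw1_ind_nonneg _
  have hsum0 : (0 : ℝ) ≤ ∑ n ∈ I, ∑ A ∈ s n, ind (bad n A T) :=
    Finset.sum_nonneg fun n _ => hnn n
  refine ⟨T, fun z => hT1 z rfl, ?_, ?_⟩
  · cases hFT : F T
    · rfl
    · exfalso
      have h6 : ind (F T) = 1 := by
        rw [hFT]
        simp [ind]
      linarith
  intro n hn A hA
  by_contra hbadT
  have hbt : bad n A T = true := by
    cases h : bad n A T
    · exact absurd h hbadT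
    · rfl
  have h4 : ind (bad n A T) ≤ ∑ A ∈ s n, ind (bad n A T) :=
    Finset.single_le_sum (f := fun A => ind (bad n A T)) (fun A _ => uw1_ind_nonneg _)
      ((hs n hn A).2 hA)
  have h5 : ∑ A ∈ s n, ind (bad n A T) ≤
      ∑ n ∈ I, ∑ A ∈ s n, ind (bad n A T) :=
    Finset.single_le_sum (f := fun n => ∑ A ∈ s n, ind (bad n A T))
      (fun n _ => hnn n) hn
  have h6 : ind (bad n A T) = 1 := by
    rw [hbt]
    simp [ind]
  have h7 := uw1_ind_nonneg (F T)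
  linarith

theorem table_stageW (G : Stg Zt Qt ι) (O : Lang) (ν : Bool → Qt → ℝ)
    (hν : ∀ b, (∀ q, 0 ≤ ν b q) ∧ ∑ q, ν b q = 1) (κ : Zt → Bool)
    (ε δ η : ℝ) (hε0 : 0 ≤ ε) (hδ : 0 ≤ δ) (hη0 : 0 ≤ η)
    (hε : ∀ l q, ∑ z with G.ln z = l, ν (κ z) q ≤ ε)
    (hη : ∀ z z', z ≠ z' → ∑ q, ν (κ z) q * ν (κ z') q ≤ η)
    (hη2 : (Fintype.card Zt : ℝ) ^ 2 * η ≤ 1 / 2)
    {Λ : Type} (I : Finset Λ) {Xf α : Λ → Type} [∀ n, Fintype (Xf n)] (Fm : ∀ n, Set (α n))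
    (B : ∀ n, α n → Xf n → DT Bool) (a b d R : Λ → ℕ) (W θ : Λ → ℝ)
    (hb : ∑ n ∈ I, (1 / 2 : ℝ) ^ b n < 1 / 2)
    (hcard : ∀ n ∈ I, CardBd (Fm n) (a n))
    (hdep : ∀ n ∈ I, ∀ A ∈ Fm n, ∀ x, (B n A x).depth ≤ d n)
    (hθ : ∀ n ∈ I, 0 < θ n) (hR : ∀ n ∈ I, (2 : ℝ) ^ (a n + b n) < (1 + θ n) ^ (R n))
    (hD : ∀ n ∈ I, ∀ A ∈ Fm n, ∀ x, ∀ (ρ : List (Zt × Qt)) (pre post : List Qt),
      ρ.length ≤ R n * d n → pre.length ≤ d n → post.length ≤ d n →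
      ∑ q, ν true q * ind ((simI G false (B n A x) ρ (pre ++ q :: post)).eval O) ≤
        ∑ q, ν false q * ind ((simI G false (B n A x) ρ (pre ++ q :: post)).eval O) + δ)
    (hsim : ∀ n ∈ I, ∀ A ∈ Fm n, ∀ (ρ : List (Zt × Qt)) (r : List Qt), ρ.length ≤ R n * d n →
      r.length = d n → ∑ x, ind ((simI G false (B n A x) ρ r).eval O) <
        W n / (1 + θ n) - Fintype.card (Xf n) * (d n * (ε + δ))) :
    ∃ T : Zt → Qt, (∀ z, ν (κ z) (T z) ≠ 0) ∧ Function.Injective T ∧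
      ∀ n ∈ I, ∀ A ∈ Fm n, ∑ x, ind ((B n A x).eval (patchI G O T)) < W n := by
  classical
  have hμ : IsPD (fun z => ν (κ z)) := fun z => hν (κ z)
  obtain ⟨T, h1, h2, h3⟩ := union_boundW hμ I Fm
    (fun n A T => decide (W n ≤ ∑ x, ind ((B n A x).eval (patchI G O T)))) a b hcard
    (fun n hn A hA => by
      have hR' := hR n hn
      have hp2 : (0 : ℝ) < 2 ^ (a n + b n) := by positivity
      refine TD.IS.failprobG ν hν κ G O (B n A) (d n) (hdep n hn A hA) ε δ hε0 hδ hε (W n) (θ n)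
        (hθ n hn) (R n) ((1 / 2 : ℝ) ^ (a n + b n)) (by positivity) ?_
        (hD n hn A hA) (hsim n hn A hA)
      rw [one_div, inv_pow, ← div_eq_mul_inv, lt_div_iff₀ hp2, one_mul]
      exact hR')
    hb
    (fun T => decide (¬ Function.Injective T))
    ((TD.IS.inj_prob hμ η hη0 hη).trans hη2)
  refine ⟨T, h1, ?_, fun n hn A hA => ?_⟩
  · simpa using h2
  · have := h3 n hn A hA
    simpa using this


end prob

end Pool.Agent.ABO
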