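import Pool.Agent.Lib_helper27.ABO.Fm
import Pool.Agent.Lib_helper74.IS.All
import Pool.Agent.Lib_helper27.ABO.B.CA1
import Pool.Agent.Lib_helper27.ABO.B.CC1

/-!
# Block CC2: agreement
-/

set_option autoImplicit false

namespace Pool.Agent.ABO

open Pool.Agent.CK
open Pool.Agent.TD (Str su sj st Act se sm sM sn sD ZSet Z Q unitv Lam KK dd)
open Pool.Agent.TD.IS (PosI Stg uq patchI simI evM icode idec strip ISet posK zs updI PLW PTW
  invTreeW thrX invTab excI LocalWith PolyLocal Cls EL)

theorem cc2_len {w : Str} {p : (ℕ × Str) × (ℕ × Bool)} (h : tdec w = some p) :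
    p.1.1 ≤ w.length ∧ p.1.2.length ≤ w.length := by
  have e := tdec_eq h
  have e2 := congrArg List.length e
  simp only [taddr, ones, List.length_cons, List.length_append, List.length_replicate] at e2
  omega

theorem cc2_sv {S S' : Sec} (x : Str) (h : S x.length = S' x.length) : sv S x = sv S' x := by
  unfold sv
  rw [h]

theorem cc2_val {b : ℕ} {S S' : Sec} {Tab Tab' : ℕ → Str → Str} (h : Agree b S S' Tab Tab')
    (e : ℕ) (he : e ≤ b) (z : Str) (hz : z.length ≤ b) : val S Tab e z = val S' Tab' e z := by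
  unfold val
  have h1 : sv S (z.take (z.length / 2)) = sv S' (z.take (z.length / 2)) := by
    apply cc2_sv
    apply h.1
    rw [List.length_take]
    omega
  rw [h1, h.2 e he z hz]

theorem cc2_orc {b : ℕ} {S S' : Sec} {Tab Tab' : ℕ → Str → Str} (h : Agree b S S' Tab Tab')
    (w : Str) (hw : w.length ≤ b) : orc S Tab w = orc S' Tab' w := by
  unfold orc
  cases hp : tdec w with
  | none => rfl
  | some p =>
    obtain ⟨h1, h2⟩ := cc2_len hp
    show bit (val S Tab p.1.1 p.1.2) p.2 = bit (val S' Tab' p.1.1 p.1.2) p.2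
    rw [cc2_val h _ (h1.trans hw) _ (h2.trans hw)]

theorem cc2_OJ {b : ℕ} {S S' : Sec} {Tab Tab' : ℕ → Str → Str} (R : Lang)
    (h : Agree b S S' Tab Tab') (w : Str) (hw : w.length ≤ b) : OJ R S Tab w = OJ R S' Tab' w := by
  match w, hw with
  | [], _ => rfl
  | false :: w, _ => rfl
  | true :: w, hw =>
    show orc S Tab w = orc S' Tab' w
    apply cc2_orc h
    simp only [List.length_cons] at hw
    omega

theorem cc2_VV {S S' : Sec} (w : Str) (h : S (w.length / 2) = S' (w.length / 2)) :
    VV S w = VV S' w := by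
  unfold VV
  have h1 : sv S (w.take (w.length / 2)) = sv S' (w.take (w.length / 2)) := by
    apply cc2_sv
    rw [List.length_take, min_eq_left (by omega)]
    exact h
  rw [h1]

theorem cc2_unitv_length (n i : ℕ) : (unitv n i).length = n := by
  simp [unitv]

theorem cc2_corr {F : ℕ → Lang → Lang} {S S' : Sec} {k : ℕ} {O : Lang}
    (h : S (sn k) = S' (sn k)) (hc : CorrW F S k O) : CorrW F S' k O := by
  obtain ⟨w, hw, hc⟩ := hc
  refine ⟨w, hw, fun x i hi => ?_⟩
  rw [hc x i hi]
  apply cc2_VV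
  have e : (x.1 ++ unitv (sn k) i).length / 2 = sn k := by
    rw [List.length_append, cc2_unitv_length, x.2]
    omega
  rw [e, h]

/-- CC2 -/
theorem goal_agree (F : ℕ → Lang → Lang) (R : Lang) (k : ℕ) (h5 : 5 ≤ sj k)
    (h2 : 2 * sj k ≤ su k) :
    ∃ b, ∀ S S' Tab Tab', Agree b S S' Tab Tab' → Goal F S' k (OJ R S' Tab') Tab' →
      Goal F S k (OJ R S Tab) Tab := by
  refine ⟨sD k + sn k + (se k + 1) + sM k + (sM k + TD.qb k), fun S S' Tab Tab' hA hG => ?_⟩
  have hO : ∀ w : Str, w.length < sD k → OJ R S' Tab' w = OJ R S Tab w := by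
    intro w hw
    exact (cc2_OJ R hA w (by omega)).symm
  have hT : ∀ z : Str, z.length + 2 < sM k → Tab' (se k) z = Tab (se k) z := by
    intro z hz
    exact (hA.2 (se k) (by omega) z (by omega)).symm
  have hI : ∀ w ∈ ISet k, Tab' (se k + 1) w = Tab (se k + 1) w := by
    intro w hw
    have h1 := (TD.IS.iset_length hw).2
    exact (hA.2 (se k + 1) (by omega) w (by omega)).symm
  have hG' : Goal F S' k (OJ R S Tab) Tab := goal_congr h5 h2 hO hT hI hG
  exact ⟨hG'.1, hG'.2.1, fun hc => hG'.2.2 (cc2_corr (hA.1 (sn k) (by omega)) hc)⟩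

theorem cc2_gate_size {g : Gate} {gs : List Gate} (h : g ∈ gs) :
    g.size ≤ (gs.map Gate.size).sum :=
  List.le_sum_of_mem (List.mem_map.2 ⟨g, h, rfl⟩)

theorem cc2_lens (C : Circuit) : Lens C.size C.gates := by
  intro l hl
  have h1 := cc2_gate_size hl
  unfold Circuit.size
  have h2 : (Gate.ask l).size = l.length + 1 := rfl
  omega

theorem cc2_play {O O' : Lang} (C : Circuit) (ch : List (List Bool) → List Bool → Bool)
    (h : ∀ w : Str, w.length ≤ C.size → O w = O' w) : C.play O ch = C.play O' ch := by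
  have e : C.gates.foldl (gstep O ch) ([], []) = C.gates.foldl (gstep O' ch) ([], []) := by
    rw [← gTree_eval, ← gTree_eval]
    exact DT.eval_congr _ _ (gTree_allQ ch C.size C.gates (cc2_lens C) _) h
  unfold Circuit.play
  rw [e]

/-- CC2 -/
theorem sec_agree (P : Par) (j : ℕ) :
    ∃ b, ∀ S S' Tab Tab', Agree b S S' Tab Tab' → SecAt P S' Tab' j → SecAt P S Tab j := by
  refine ⟨P.t j + 1, fun S S' Tab Tab' hA hS C hC => ?_⟩
  have e : (P.G j).count (OJ P.R S Tab) C = (P.G j).count (OJ P.R S' Tab') C := by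
    unfold Game.count Game.wins
    have h1 : ∀ ω : List Bool, C.play (OJ P.R S Tab) ((P.G j).ch ω) =
        C.play (OJ P.R S' Tab') ((P.G j).ch ω) := fun ω =>
      cc2_play C _ fun w hw => cc2_OJ P.R hA w (by omega)
    simp only [h1]
  rw [e]
  exact hS C hC


end Pool.Agent.ABO
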