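import Pool.Agent.Lib_helper27.ABO.Fm
import Pool.Agent.Lib_helper74.IS.All
import Pool.Agent.Lib_helper27.ABO.B.KS1

/-!
# Block KS2 (MP_675993_lc, ABO): number of COMP adversaries
-/

set_option autoImplicit false

namespace Pool.Agent.ABO

open Pool.Agent.CK
open Pool.Agent.TD (Str su sj st Act se sm sM sn sD ZSet Z Q unitv Lam KK dd)
open Pool.Agent.TD.IS (PosI Stg uq patchI simI evM icode idec strip ISet posK zs updI PLW PTW
  invTreeW thrX invTab excI LocalWith PolyLocal Cls EL)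

/-- KS2 -/
theorem card_cmp (P : Par) (hP : P.OK) (n0 k : ℕ) (Fm : Fam P) (h16 : 16 ≤ n0)
    (h5 : 5 ≤ sj k) (h2 : 2 * sj k ≤ su k) (hK : NumK n0 k) (hF : Bdd P n0 (k + 1) Fm) (n : ℕ) :
    CardBd (Cmp P n0 k Fm n) (2 ^ (n / 3)) := by
  by_cases hn : n = sn k
  · have hB : CardBd (Set.univ : Set Bool) 1 := card_univ (by simp)
    have hE : CardBd ({s : Str | s.length ≤ qb k} ×ˢ (Set.univ : Set Bool)) (qb k + 1 + 1) :=
      card_prod (TD.card_str (qb k)) hB
    have h1 := card_image (fun p : List (Tst k) × (ℕ × (List (Str × Bool) × Str)) =>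
        (fun x : X n => DT.tr (thrX (p.1.map Tst.tree) p.2.1 p.2.2.1)
          (invTreeW (iM (sj k)) p.2.2.2 n x.1)))
      (card_prod (card_list (card_tests P hP n0 k Fm h16 h5 h2 hF) (lenk k))
        (card_prod (card_nat (lenk k + 1)) (card_prod (card_list hE (excI k))
          (TD.card_str ((3 * sn k + 2) ^ sj k)))))
    refine card_mono h1 ?_ ?_
    · rintro A' ⟨-, l, hl, hl', θ, hθ, E, hE1, hE2, w, hw, rfl⟩
      refine ⟨(l, (θ, (E, w))), ⟨⟨hl, hl'⟩, hθ.trans (by simpa using hl), ⟨hE1, ?_⟩, hw⟩, rfl⟩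
      intro a ha
      exact ⟨hE2 a ha, trivial⟩
    · rw [hn]
      refine le_trans ?_ hK.hcard
      set M := 3 * Lam (3 * sM k) + 2 * KK (3 * sM k) + aa 0 (3 * sM k) with hM
      have e1 : 2 ^ (M + 11) + 1 ≤ 2 ^ (M + 12) := by
        rw [pow_succ 2 (M + 11)]
        have := Nat.one_le_two_pow (n := M + 11)
        omega
      have e2 := Nat.mul_le_mul_right (lenk k) e1
      have e3 : (lenk k + 2) * 2 ^ (M + 12) = 2 ^ (M + 12) * lenk k + 2 * 2 ^ (M + 12) := by ring
      have e4 : (3 * sn k + 2) ^ sj k ≤ qb k := by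
        show (3 * sn k + 2) ^ sj k ≤ TD.qb k
        unfold TD.qb
        exact Nat.pow_le_pow_right (by omega) (by omega)
      have e5 : (excI k + 1) * (qb k + 4) = (qb k + 1 + 1 + 1) * excI k + excI k + (qb k + 4) := by
        ring
      rw [e3, e5]
      omega
  · have e : Cmp P n0 k Fm n = ∅ := by
      apply Set.eq_empty_of_forall_notMem
      rintro A ⟨h, -⟩
      exact hn h
    rw [e]
    exact ⟨Set.finite_empty, by simp⟩


end Pool.Agent.ABO
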